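import Pool.Agent.Lib.MP_7bc51d_an_erg.Defs

set_option autoImplicit false

/-!
Row BADVOL: volume of the bad set.
-/

namespace Pool.Agent.Lib.BilE.BadVol16

open Complex MeasureTheory Set Filter Topology
open scoped ComplexConjugate
open Pool.Agent.Lib.Bil Pool.Agent.Lib.BilD Pool.Agent.Lib.BilE

variable {n : ℕ} {v : Fin n → ℂ}

theorem eM_append (h : ℝ) (u u' : List (Option (Fin n × Fin n))) :
    ∀ p : ℂ × ℂ, eM v h (u ++ u') p = eM v h u' (eM v h u p) := by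
  induction u with
  | nil => intro p; rfl
  | cons c u ih => intro p; exact ih _

theorem OO_append (h : ℝ) (u u' : List (Option (Fin n × Fin n))) :
    ∀ p : ℂ × ℂ, p ∈ Bil.OO v h (u ++ u') → p ∈ Bil.OO v h u ∧ eM v h u p ∈ Bil.OO v h u' := by
  induction u with
  | nil =>
    intro p hp
    refine ⟨?_, hp⟩
    cases u' with
    | nil => exact hp
    | cons c u' => exact fst_mem_of_mem_stepSet hp.1
  | cons c u ih =>
    intro p hp
    obtain ⟨h1, h2⟩ := ih _ hp.2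
    exact ⟨⟨hp.1, h1⟩, h2⟩

theorem measurable_abs_cr (z : ℂ) : Measurable (fun w : ℂ => |cr w z|) := by
  apply Continuous.measurable
  unfold cr
  fun_prop

theorem measurableSet_strip (z : ℂ) (δ : ℝ) : MeasurableSet {w : ℂ | |cr w z| ≤ δ} :=
  measurableSet_le (measurable_abs_cr z) measurable_const

theorem vol_strip {z : ℂ} (hz : z ≠ 0) {δ : ℝ} (_hδ : 0 ≤ δ) :
    volume ({w : ℂ | |cr w z| ≤ δ} ∩ Metric.ball (0 : ℂ) 1) ≤ ENNReal.ofReal (4 * δ * ‖z‖⁻¹) := by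
  have hz0 : 0 < ‖z‖ := norm_pos_iff.2 hz
  have hz0' : ((‖z‖ : ℝ) : ℂ) ≠ 0 := by exact_mod_cast hz0.ne'
  set c : ℂ := z / (‖z‖ : ℂ) with hc
  have hc1 : ‖c‖ = 1 := by
    rw [hc, norm_div, norm_real, norm_norm, div_self hz0.ne']
  have hcz : conj c * z = ‖z‖ := by
    have h1 : conj z * z = (‖z‖ : ℂ) ^ 2 := by
      rw [← Complex.normSq_eq_conj_mul_self, Complex.normSq_eq_norm_sq]; push_cast; rfl
    rw [hc, map_div₀, conj_ofReal, div_mul_eq_mul_div, h1]
    field_simp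
  have hS : MeasurableSet ({w : ℂ | |cr w z| ≤ δ} ∩ Metric.ball (0 : ℂ) 1) :=
    (measurableSet_strip z δ).inter measurableSet_ball
  rw [← (mp_mul hc1).measure_preimage hS.nullMeasurableSet]
  have hsub : (fun w : ℂ => c * w) ⁻¹' ({w : ℂ | |cr w z| ≤ δ} ∩ Metric.ball (0 : ℂ) 1) ⊆
      Complex.measurableEquivRealProd ⁻¹' (Icc (-1) 1 ×ˢ Icc (-(δ * ‖z‖⁻¹)) (δ * ‖z‖⁻¹)) := by
    rintro w ⟨h1, h2⟩
    rw [mem_ball_zero_iff, norm_mul, hc1, one_mul] at h2
    have h3 : cr (c * w) z = - (‖z‖ * w.im) := by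
      have e : conj c * conj w * z = conj w * (conj c * z) := by ring
      rw [cr_eq_im, map_mul, e, hcz]
      simp only [mul_im, conj_re, conj_im, ofReal_re, ofReal_im]
      ring
    have h4 : |cr (c * w) z| ≤ δ := h1
    rw [h3, abs_neg, abs_mul, abs_of_pos hz0] at h4
    have h5 : |w.im| ≤ δ * ‖z‖⁻¹ := by
      rw [← div_eq_mul_inv, le_div_iff₀ hz0]; linarith
    have h6 := abs_re_le_norm w
    refine ⟨?_, abs_le.1 h5⟩
    exact abs_le.1 (h6.trans h2.le)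
  refine (measure_mono hsub).trans ?_
  rw [Complex.volume_preserving_equiv_real_prod.measure_preimage_equiv, Measure.volume_eq_prod,
    Measure.prod_prod, Real.volume_Icc, Real.volume_Icc, ← ENNReal.ofReal_mul (by norm_num)]
  apply ENNReal.ofReal_le_ofReal
  linarith

theorem vol_T {E : Set ℂ} (hE : MeasurableSet E) (c0 : ℂ) (a ρ : ℝ) (hρ : 0 ≤ ρ) :
    MeasurableSet {p : ℂ × ℂ | p ∈ DD v ∧ p.2 ∈ E ∧ ‖p.1 - (c0 + (a : ℂ) * p.2)‖ ≤ ρ} ∧
    volume {p : ℂ × ℂ | p ∈ DD v ∧ p.2 ∈ E ∧ ‖p.1 - (c0 + (a : ℂ) * p.2)‖ ≤ ρ} ≤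
      ENNReal.ofReal (4 * ρ ^ 2) * volume (E ∩ Metric.ball (0 : ℂ) 1) := by
  have hm : MeasurableSet {p : ℂ × ℂ | p ∈ DD v ∧ p.2 ∈ E ∧
      ‖p.1 - (c0 + (a : ℂ) * p.2)‖ ≤ ρ} := by
    have h3 : MeasurableSet {p : ℂ × ℂ | ‖p.1 - (c0 + (a : ℂ) * p.2)‖ ≤ ρ} :=
      measurableSet_le (Continuous.measurable (by fun_prop)) measurable_const
    exact measurableSet_DD.inter ((hE.preimage measurable_snd).inter h3)
  refine ⟨hm, ?_⟩
  rw [Measure.volume_eq_prod, Measure.prod_apply_symm hm]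
  have h1 : ∀ y : ℂ, volume ((fun x : ℂ => (x, y)) ⁻¹'
      {p : ℂ × ℂ | p ∈ DD v ∧ p.2 ∈ E ∧ ‖p.1 - (c0 + (a : ℂ) * p.2)‖ ≤ ρ}) ≤
      (E ∩ Metric.ball (0 : ℂ) 1).indicator (fun _ => ENNReal.ofReal (4 * ρ ^ 2)) y := by
    intro y
    by_cases hy : y ∈ E ∩ Metric.ball (0 : ℂ) 1
    · rw [indicator_of_mem hy]
      have hsub : (fun x : ℂ => (x, y)) ⁻¹'
          {p : ℂ × ℂ | p ∈ DD v ∧ p.2 ∈ E ∧ ‖p.1 - (c0 + (a : ℂ) * p.2)‖ ≤ ρ} ⊆
          Metric.closedBall (c0 + (a : ℂ) * y) ρ := by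
        rintro x ⟨-, -, hx⟩
        rw [Metric.mem_closedBall, dist_eq_norm]
        exact hx
      refine (measure_mono hsub).trans ?_
      rw [Complex.volume_closedBall, ← ENNReal.ofReal_pow hρ]
      have h2 : ((NNReal.pi : NNReal) : ENNReal) = ENNReal.ofReal Real.pi := by
        rw [← NNReal.coe_real_pi, ENNReal.ofReal_coe_nnreal]
      rw [h2, ← ENNReal.ofReal_mul (by positivity)]
      apply ENNReal.ofReal_le_ofReal
      have := Real.pi_le_four
      nlinarith [sq_nonneg ρ]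
    · rw [indicator_of_notMem hy]
      apply le_of_eq
      rw [show (fun x : ℂ => (x, y)) ⁻¹'
          {p : ℂ × ℂ | p ∈ DD v ∧ p.2 ∈ E ∧ ‖p.1 - (c0 + (a : ℂ) * p.2)‖ ≤ ρ} = ∅ from ?_]
      · exact measure_empty
      · ext x
        rw [mem_empty_iff_false, iff_false]
        rintro ⟨h3, h4, -⟩
        exact hy ⟨h4, h3.2⟩
  refine (lintegral_mono h1).trans ?_
  rw [lintegral_indicator (hE.inter measurableSet_ball), setLIntegral_const]

theorem finite_Hd (hn : 3 ≤ n) (hv : ConvexIndependent ℝ v) (k : Fin n) {R S : ℝ} (hR : 0 < R)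
    (h : ∀ T : Finset ℂ, (∀ z ∈ T, z ∈ Hd v k ∧ ‖z‖ ≤ R) → ∑ z ∈ T, ‖z‖⁻¹ ≤ S) :
    {z : ℂ | z ∈ Hd v k ∧ ‖z‖ ≤ R}.Finite ∧ ∀ z ∈ Hd v k, z ≠ 0 := by
  have hne : ∀ z ∈ Hd v k, z ≠ 0 := by
    rintro z ⟨⟨ε, hε, hz⟩, -⟩ rfl
    have h1 := hz ε hε le_rfl
    rw [mul_zero, add_zero] at h1
    have h4 := (nxt_side hn hv k).cr_pos hv h1
    rw [sub_self, cr_zero_right] at h4
    exact lt_irrefl _ h4
  refine ⟨?_, hne⟩
  by_contra hcon
  obtain ⟨N, hN⟩ := exists_nat_gt (S * R)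
  obtain ⟨t, ht, htN⟩ := Set.Infinite.exists_subset_card_eq hcon N
  have h1 := h t (fun z hz => ht hz)
  have h2 : (N : ℝ) * R⁻¹ ≤ ∑ z ∈ t, ‖z‖⁻¹ := by
    rw [← htN, ← nsmul_eq_mul]
    apply Finset.card_nsmul_le_sum
    intro z hz
    have h3 := ht hz
    have h4 : 0 < ‖z‖ := norm_pos_iff.2 (hne z h3.1)
    exact inv_anti₀ h4 h3.2
  have h3 : (N : ℝ) * R⁻¹ ≤ S := h2.trans h1
  rw [← div_eq_mul_inv, div_le_iff₀ hR] at h3
  linarith

theorem row (hRec : StRec) (hHit : StHit) : StBadVol := by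
  intro n v C e0 hn hv hG
  obtain ⟨d2, e1r, hd2, he1r, he1r0, hR⟩ := hRec n v C e0 hn hv hG
  obtain ⟨e1h, D, M, he1h, hD, hM, hH⟩ := hHit n v C e0 hn hv hG (d2 / 8) (by positivity)
  have hC : 1 ≤ C := hG.C1
  have hC0 : 0 < C := by linarith
  set Sd : ℝ := ∑ s ∈ SD v, ‖ed v s‖⁻¹ with hSd
  have hSd0 : 0 ≤ Sd := Finset.sum_nonneg (fun s _ => inv_nonneg.2 (norm_nonneg _))
  obtain ⟨K, hK⟩ : ∃ K : ℕ, 16 * C < K := exists_nat_gt _
  have hK1 : 1 ≤ K := by
    by_contra hcon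
    have : K = 0 := by omega
    rw [this] at hK
    push_cast at hK
    linarith
  refine ⟨256 * C ^ 2 * M * (Sd + 1), min (min e1r e1h) d2, D, K, by positivity, by positivity,
    hD, hK1, ?_⟩
  intro ε hε hε1 m k S hS hT
  have hεr : ε < e1r := hε1.trans_le ((min_le_left _ _).trans (min_le_left _ _))
  have hεh : ε < e1h := hε1.trans_le ((min_le_left _ _).trans (min_le_right _ _))
  have hεd : ε < d2 := hε1.trans_le (min_le_right _ _)
  have hR0 : 0 < (m : ℝ) * (ε / 4) + D := by positivity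
  obtain ⟨hfin, hne⟩ := finite_Hd hn hv k hR0 hT
  set Z := hfin.toFinset with hZ
  have hZm : ∀ z, z ∈ Z ↔ z ∈ Hd v k ∧ ‖z‖ ≤ (m : ℝ) * (ε / 4) + D := by
    intro z
    rw [hZ, Set.Finite.mem_toFinset]
    rfl
  have hZs : ∑ z ∈ Z, ‖z‖⁻¹ ≤ S := hT Z (fun z hz => (hZm z).1 hz)
  set h : ℝ := ε / 4 with hh
  have hh0 : 0 < h := by rw [hh]; positivity
  set E : Set ℂ := (⋃ s ∈ SD v, {w : ℂ | |cr w (ed v s)| ≤ M * ε}) ∪
    ⋃ z ∈ Z, {w : ℂ | |cr w z| ≤ M * ε} with hE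
  have hEm : MeasurableSet E :=
    (Finset.measurableSet_biUnion _ (fun s _ => measurableSet_strip _ _)).union
      (Finset.measurableSet_biUnion _ (fun s _ => measurableSet_strip _ _))
  have hMε : 0 ≤ M * ε := by positivity
  have hEv : volume (E ∩ Metric.ball (0 : ℂ) 1) ≤ ENNReal.ofReal (4 * (M * ε) * (Sd + S)) := by
    have h1 : E ∩ Metric.ball (0 : ℂ) 1 ⊆
        (⋃ s ∈ SD v, ({w : ℂ | |cr w (ed v s)| ≤ M * ε} ∩ Metric.ball (0 : ℂ) 1)) ∪
        ⋃ z ∈ Z, ({w : ℂ | |cr w z| ≤ M * ε} ∩ Metric.ball (0 : ℂ) 1) := by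
      rintro w ⟨hw | hw, hb⟩
      · left
        simp only [mem_iUnion] at hw ⊢
        obtain ⟨s, hs, hw⟩ := hw
        exact ⟨s, hs, hw, hb⟩
      · right
        simp only [mem_iUnion] at hw ⊢
        obtain ⟨s, hs, hw⟩ := hw
        exact ⟨s, hs, hw, hb⟩
    refine (measure_mono h1).trans ((measure_union_le _ _).trans ?_)
    have h2 : volume (⋃ s ∈ SD v, ({w : ℂ | |cr w (ed v s)| ≤ M * ε} ∩
        Metric.ball (0 : ℂ) 1)) ≤ ENNReal.ofReal (4 * (M * ε) * Sd) := by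
      refine (measure_biUnion_finset_le _ _).trans ?_
      rw [hSd, Finset.mul_sum, ENNReal.ofReal_sum_of_nonneg (fun s _ => by positivity)]
      exact Finset.sum_le_sum (fun s hs => vol_strip (hG.edn s hs) hMε)
    have h3 : volume (⋃ z ∈ Z, ({w : ℂ | |cr w z| ≤ M * ε} ∩
        Metric.ball (0 : ℂ) 1)) ≤ ENNReal.ofReal (4 * (M * ε) * S) := by
      refine (measure_biUnion_finset_le _ _).trans ?_
      refine le_trans ?_ (ENNReal.ofReal_le_ofReal
        (mul_le_mul_of_nonneg_left hZs (by positivity : (0 : ℝ) ≤ 4 * (M * ε))))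
      rw [Finset.mul_sum, ENNReal.ofReal_sum_of_nonneg (fun s _ => by positivity)]
      exact Finset.sum_le_sum (fun z hz => vol_strip (hne z ((hZm z).1 hz).1) hMε)
    refine (add_le_add h2 h3).trans ?_
    rw [← ENNReal.ofReal_add (by positivity) (by positivity)]
    apply ENNReal.ofReal_le_ofReal
    linarith
  -- number of steps up to length `d2`
  set i1 : ℕ := ⌊d2 / h⌋₊ with hi1
  have hi1a : (i1 : ℝ) * h ≤ d2 := by
    have := Nat.floor_le (div_nonneg hd2.le hh0.le)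
    rw [← hi1] at this
    rwa [le_div_iff₀ hh0] at this
  have hi1b : 3 / 4 * d2 ≤ (i1 : ℝ) * h := by
    have := Nat.lt_floor_add_one (d2 / h)
    rw [← hi1, div_lt_iff₀ hh0] at this
    have e : h = ε / 4 := hh
    nlinarith
  obtain ⟨hTm, hTv⟩ := vol_T (v := v) hEm (v k) ((i1 : ℝ) * h) (4 * C * ε) (by positivity)
  set T : Set (ℂ × ℂ) := {p : ℂ × ℂ | p ∈ DD v ∧ p.2 ∈ E ∧
    ‖p.1 - (v k + (((i1 : ℝ) * h : ℝ) : ℂ) * p.2)‖ ≤ 4 * C * ε} with hTdef
  set G : ℂ × ℂ → ENNReal := T.indicator 1 with hGdef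
  have hGm : Measurable G := measurable_one.indicator hTm
  have key : ∀ p ∈ Bad v C ε K m k, p ∈ DD v ∧ 1 ≤ EE v h G i1 p := by
    rintro p ⟨hZ1, hZ2, hw1, hw2, hdt, u, hum, hu, hbad⟩
    have hpD : p ∈ DD v := mem_DD.2 ⟨hZ1.1, hw2⟩
    refine ⟨hpD, ?_⟩
    have hw0 : 0 < ‖p.2‖ := by linarith
    have hdt2 : dt p.2 (p.1 - v k) ≤ ‖p.2‖ * (2 * C * ε) := by
      have h1 := abs_dt_le p.2 (p.1 - v k)
      have h2 : ‖p.2‖ * ‖p.1 - v k‖ ≤ ‖p.2‖ * (2 * C * ε) :=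
        mul_le_mul_of_nonneg_left hZ2 hw0.le
      exact (le_abs_self _).trans (h1.trans h2)
    have hlong : d2 < (u.length : ℝ) * h := by
      by_contra hcon
      push Not at hcon
      obtain ⟨r1, r2, r3, r4, r5⟩ := hR ε hε hεr k p hZ1 hZ2 hw2 hdt u hcon hu
      have hCε : 0 < C * ε := by positivity
      rcases hbad with ⟨l, hl⟩ | ⟨hKu, l, hl⟩
      · by_cases hlk : l = k
        · rw [hlk] at hl; linarith
        · have := r5 l hlk
          nlinarith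
      · by_cases hlk : l = k
        · rw [hlk] at hl
          have h1 := abs_dt_le (eM v h u p).2 ((eM v h u p).1 - v k)
          rw [(eM_spec hv h u p hu).2] at h1
          have h2 : ‖p.2‖ * ‖(eM v h u p).1 - v k‖ ≤ ‖p.2‖ * (2 * C * ε) :=
            mul_le_mul_of_nonneg_left hl hw0.le
          have h3 := (le_abs_self _).trans (h1.trans h2)
          rw [r1] at h3
          have h4 : (K : ℝ) ≤ u.length := by exact_mod_cast hKu
          have h5 : (K : ℝ) * h * ‖p.2‖ ^ 2 ≤ (u.length : ℝ) * h * ‖p.2‖ ^ 2 := by gcongr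
          have h6 : (K : ℝ) * h * ‖p.2‖ ^ 2 < ‖p.2‖ * (2 * C * ε) := by
            have e : (u.length : ℝ) * (ε / 4) * ‖p.2‖ ^ 2 = (u.length : ℝ) * h * ‖p.2‖ ^ 2 := rfl
            linarith
          have h7 : (K : ℝ) * h * ‖p.2‖ < 2 * C * ε := by
            have : ‖p.2‖ * ((K : ℝ) * h * ‖p.2‖) < ‖p.2‖ * (2 * C * ε) := by
              calc ‖p.2‖ * ((K : ℝ) * h * ‖p.2‖) = (K : ℝ) * h * ‖p.2‖ ^ 2 := by ring
                _ < _ := h6
            exact lt_of_mul_lt_mul_left this hw0.le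
          have h8 : (K : ℝ) * h * (1 / 2) ≤ (K : ℝ) * h * ‖p.2‖ := by
            apply mul_le_mul_of_nonneg_left hw1.le (by positivity)
          have h9 : (K : ℝ) * ε < 16 * C * ε := by
            have e : h = ε / 4 := hh
            rw [e] at h7 h8
            nlinarith
          have h10 := lt_of_mul_lt_mul_right h9 hε.le
          linarith
        · have := r5 l hlk
          nlinarith
    have hi1u : i1 ≤ u.length := by
      have h1 : (i1 : ℝ) * h < (u.length : ℝ) * h := lt_of_le_of_lt hi1a hlong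
      have h2 := lt_of_mul_lt_mul_right h1 hh0.le
      exact_mod_cast h2.le
    have hlen : (u.take i1).length = i1 := by
      rw [List.length_take]; exact min_eq_left hi1u
    have hspl := List.take_append_drop i1 u
    have hu' := hu
    rw [← hspl] at hu'
    obtain ⟨hu1, hu2⟩ := OO_append h _ _ p hu'
    obtain ⟨r1, r2, r3, r4, r5⟩ := hR ε hε hεr k p hZ1 hZ2 hw2 hdt (u.take i1)
      (by rw [hlen]; exact hi1a) hu1
    have heM : eM v h u p = eM v h (u.drop i1) (eM v h (u.take i1) p) := by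
      rw [← eM_append, hspl]
    obtain ⟨s1, s2⟩ := eM_spec hv h (u.take i1) p hu1
    rw [hlen] at r1
    change dt (eM v h (u.take i1) p).2 ((eM v h (u.take i1) p).1 - v k) =
      dt p.2 (p.1 - v k) + (i1 : ℝ) * h * ‖p.2‖ ^ 2 at r1
    change |cr (eM v h (u.take i1) p).2 ((eM v h (u.take i1) p).1 - v k)| =
      |cr p.2 (p.1 - v k)| at r2
    set q := eM v h (u.take i1) p with hq
    have hcr : |cr q.2 (q.1 - v k)| ≤ 2 * C * ε * ‖q.2‖ := by
      rw [r2, s2]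
      have h1 : |cr p.2 (p.1 - v k)| ≤ ‖p.2‖ * ‖p.1 - v k‖ := by
        rw [cr_eq_im]
        refine (abs_im_le_norm _).trans ?_
        rw [norm_mul, norm_conj]
      have h2 : ‖p.2‖ * ‖p.1 - v k‖ ≤ ‖p.2‖ * (2 * C * ε) :=
        mul_le_mul_of_nonneg_left hZ2 hw0.le
      linarith
    have hdtq : d2 / 8 ≤ dt q.2 (q.1 - v k) := by
      rw [r1]
      have h1 : (1 / 4 : ℝ) ≤ ‖p.2‖ ^ 2 := by nlinarith
      have h2 : 3 / 4 * d2 * (1 / 4) ≤ (i1 : ℝ) * h * ‖p.2‖ ^ 2 := by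
        apply mul_le_mul hi1b h1 (by norm_num) (by positivity)
      linarith
    have hend : ∃ l, ‖(eM v h (u.drop i1) q).1 - v l‖ ≤ 2 * C * ε := by
      rw [← heM]
      rcases hbad with ⟨l, hl⟩ | ⟨-, l, hl⟩
      · refine ⟨l, hl.le.trans ?_⟩
        have : 0 < C * ε := by positivity
        linarith
      · exact ⟨l, hl⟩
    have hhit := hH ε hε hεh k q s1 (by rw [s2]; exact hw1) (by rw [s2]; exact hw2) hcr hdtq
      (u.drop i1) hu2 hend
    have hqE : q.2 ∈ E := by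
      rcases hhit with ⟨s, hs, -, hs2⟩ | ⟨z, hz, hz1, hz2⟩
      · left
        simp only [mem_iUnion]
        exact ⟨s, hs, hs2⟩
      · right
        simp only [mem_iUnion]
        refine ⟨z, (hZm z).2 ⟨hz, hz1.trans ?_⟩, hz2⟩
        have h1 : (((u.drop i1).length : ℕ) : ℝ) ≤ m := by
          rw [List.length_drop]
          have : u.length - i1 ≤ m := by omega
          exact_mod_cast this
        have h2 : (((u.drop i1).length : ℕ) : ℝ) * (ε / 4) ≤ m * (ε / 4) := by gcongr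
        change _ ≤ (m : ℝ) * (ε / 4) + D
        linarith
    have hqT : q ∈ T := by
      refine ⟨mem_DD.2 ⟨s1, by rw [s2]; exact hw2⟩, hqE, ?_⟩
      have hqw : 0 < ‖q.2‖ := by rw [s2]; exact hw0
      have e1 : conj q.2 * (q.1 - (v k + (((i1 : ℝ) * h : ℝ) : ℂ) * q.2)) =
          ((dt q.2 (q.1 - v k) - (i1 : ℝ) * h * ‖q.2‖ ^ 2 : ℝ) : ℂ) +
            ((cr q.2 (q.1 - v k) : ℝ) : ℂ) * I := by
        have e2 : conj q.2 * (q.1 - v k) =
            ((dt q.2 (q.1 - v k) : ℝ) : ℂ) + ((cr q.2 (q.1 - v k) : ℝ) : ℂ) * I := by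
          apply Complex.ext
          · simp [dt, cr]
          · simp [dt, cr]; ring
        have e3 : conj q.2 * q.2 = ((‖q.2‖ ^ 2 : ℝ) : ℂ) := by
          rw [← Complex.normSq_eq_conj_mul_self, Complex.normSq_eq_norm_sq]
        have e4 : conj q.2 * (q.1 - (v k + (((i1 : ℝ) * h : ℝ) : ℂ) * q.2)) =
            conj q.2 * (q.1 - v k) - (((i1 : ℝ) * h : ℝ) : ℂ) * (conj q.2 * q.2) := by ring
        rw [e4, e2, e3]
        push_cast
        ring
      have e5 : ‖q.2‖ * ‖q.1 - (v k + (((i1 : ℝ) * h : ℝ) : ℂ) * q.2)‖ ≤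
          ‖q.2‖ * (4 * C * ε) := by
        have e6 := congrArg norm e1
        rw [norm_mul, norm_conj] at e6
        rw [e6]
        refine (norm_add_le _ _).trans ?_
        rw [norm_mul, norm_I, mul_one, norm_real, norm_real, Real.norm_eq_abs, Real.norm_eq_abs]
        have e7 : dt q.2 (q.1 - v k) - (i1 : ℝ) * h * ‖q.2‖ ^ 2 = dt p.2 (p.1 - v k) := by
          rw [r1, s2]; ring
        rw [e7, abs_of_pos hdt]
        rw [s2] at hcr ⊢
        linarith
      exact le_of_mul_le_mul_left e5 hqw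
    have h5 := le_EE (v := v) h G (u.take i1) p hu1
    rw [hlen] at h5
    refine le_trans ?_ h5
    rw [hGdef]
    change 1 ≤ T.indicator 1 q
    rw [indicator_of_mem hqT]
    simp
  have hfinal : volume (Bad v C ε K m k) ≤
      ENNReal.ofReal (256 * C ^ 2 * M * (Sd + 1) * ε ^ 3 * (1 + S)) := by
    calc volume (Bad v C ε K m k)
        = (volume.restrict (DD v)) (Bad v C ε K m k) :=
          (Measure.restrict_eq_self _ (fun p hp => (key p hp).1)).symm
      _ ≤ (volume.restrict (DD v)) {p | 1 ≤ EE v h G i1 p} :=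
          measure_mono (fun p hp => (key p hp).2)
      _ = 1 * (volume.restrict (DD v)) {p | 1 ≤ EE v h G i1 p} := (one_mul _).symm
      _ ≤ ∫⁻ p in DD v, EE v h G i1 p := mul_meas_ge_le_lintegral (measurable_EE h hGm i1) 1
      _ ≤ ∫⁻ p in DD v, G p := EE_contraction hv h hGm i1
      _ ≤ ∫⁻ p, G p := setLIntegral_le_lintegral _ _
      _ = volume T := by rw [hGdef, lintegral_indicator_one hTm]
      _ ≤ ENNReal.ofReal (4 * (4 * C * ε) ^ 2) * volume (E ∩ Metric.ball (0 : ℂ) 1) := hTv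
      _ ≤ ENNReal.ofReal (4 * (4 * C * ε) ^ 2) * ENNReal.ofReal (4 * (M * ε) * (Sd + S)) := by
          gcongr
      _ = ENNReal.ofReal (4 * (4 * C * ε) ^ 2 * (4 * (M * ε) * (Sd + S))) := by
          rw [← ENNReal.ofReal_mul (by positivity)]
      _ ≤ _ := by
          apply ENNReal.ofReal_le_ofReal
          have h1 : Sd + S ≤ (Sd + 1) * (1 + S) := by nlinarith [mul_nonneg hSd0 hS]
          have h2 : 4 * (4 * C * ε) ^ 2 * (4 * (M * ε) * (Sd + S)) =
              256 * C ^ 2 * M * ε ^ 3 * (Sd + S) := by ring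
          have h3 : 256 * C ^ 2 * M * (Sd + 1) * ε ^ 3 * (1 + S) =
              256 * C ^ 2 * M * ε ^ 3 * ((Sd + 1) * (1 + S)) := by ring
          rw [h2, h3]
          exact mul_le_mul_of_nonneg_left h1 (by positivity)
  exact ENNReal.toReal_le_of_le_ofReal (by positivity) hfinal

end Pool.Agent.Lib.BilE.BadVol16
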