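import Pool.Agent.Lib.MP_7bc51d_an_erg.Defs

/-!
# Row CONST: the two lowest modes are constant
-/

set_option autoImplicit false

namespace Pool.Agent.Lib.BilE.Const1

open Complex MeasureTheory Set Filter Topology
open scoped ComplexConjugate
open Pool.Agent.Lib.Bil Pool.Agent.Lib.BilD

variable {n : ℕ} {v : Fin n → ℂ} {C e0 : ℝ} {F : ℂ → ℝ → ℝ}

theorem ds_Rs (hG : Geo v C e0) {s : Fin n × Fin n} (hs : s ∈ SD v) (x : ℂ) :
    ds v s (Rs v s x) = - ds v s x := by
  have he : ed v s ≠ 0 := hG.edn s hs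
  have h1 : Rs v s x - v s.1 = rl (ed v s) (x - v s.1) := by
    have : Rs v s x = v s.1 + rl (v s.2 - v s.1) (x - v s.1) := rfl
    rw [this]
    change v s.1 + rl (ed v s) (x - v s.1) - v s.1 = _
    ring
  have h2 := cr_rl he (ed v s) (x - v s.1)
  rw [rl_self he] at h2
  unfold ds
  rw [h1, h2, neg_div]

theorem gx_PP (hG : Geo v C e0) {x : ℂ} (hx : x ∈ PP v) (w : ℂ) :
    gx v F x w = F w (cr w x) := by
  unfold gx
  rw [indicator_of_mem hx, Finset.sum_eq_zero, add_zero]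
  intro s hs
  apply indicator_of_notMem
  intro h
  have h1 := (hG.pp x).1 hx s hs
  have h2 := (hG.pp (Rs v s x)).1 h s hs
  rw [ds_Rs hG hs] at h2
  linarith

theorem am_PP (hG : Geo v C e0) (p : ℕ) {x : ℂ} (hx : x ∈ PP v) :
    am v F p x = ∫ w in BV, (F w (cr w x) : ℂ) * em p w := by
  unfold am
  exact integral_congr_ae (Eventually.of_forall (fun w => by
    change (gx v F x w : ℂ) * em p w = (F w (cr w x) : ℂ) * em p w
    rw [gx_PP hG hx]))

/-- Row CONST. -/
theorem row (hGeo : StGeo) (hTel : StTel3) (hLim : StLim3) (hSmall : StSmall) : StConst := by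
  intro n v hn hv hQ F hF hH p hp
  obtain ⟨C, e0, hG⟩ := hGeo n hn v hv
  obtain ⟨C5, hC5, hT⟩ := hTel n v C e0 hn hv hG
  obtain ⟨c, hc⟩ := hLim n v C e0 hn hv hG F hF p (by
    intro η hη r0 hr0
    obtain ⟨ε, hε, hε2, hGE⟩ := hSmall n v C e0 hn hv hG hQ F hF hH ((η / C5) ^ 2)
      (by positivity) (min r0 e0) (lt_min hr0 hG.e0p)
    refine ⟨ε, hε, hε2.trans_le (min_le_left _ _), ?_⟩
    refine (hT F hF ε hε (hε2.trans_le (min_le_right _ _)) p hp).trans ?_
    have h1 : √(GE v F C ε) ≤ η / C5 := by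
      rw [Real.sqrt_le_left (by positivity)]
      exact hGE
    calc C5 * √(GE v F C ε) ≤ C5 * (η / C5) := by gcongr
      _ = η := by field_simp)
  refine ⟨c, ?_⟩
  filter_upwards [hc] with x hx hxP
  rw [← am_PP hG p hxP]
  exact hx hxP

end Pool.Agent.Lib.BilE.Const1
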