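import Pool.Agent.Lib.MP_7bc51d_an_erg.Defs
import Pool.Agent.Lib.MP_7bc51d_an_dense.Erg45
import Pool.Agent.Lib.MP_7bc51d_an.Global

/-!
# Measurability, bounds and symmetries of the position gradient of the mollified function
-/

set_option autoImplicit false

namespace Pool.Agent.Lib.BilE.HB85

open Complex MeasureTheory Set Filter Topology
open scoped ComplexConjugate
open Pool.Agent.Lib.Bil Pool.Agent.Lib.BilD

variable {n : ℕ} {v : Fin n → ℂ} {F : ℂ → ℝ → ℝ} {C e0 ε : ℝ}

theorem gd_eq (x w h : ℂ) : gd v F ε x w h = Erg45.dg v F ε x w h := rfl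

theorem hh_eq (p : ℂ × ℂ) : hh v F ε p = Erg45.hq v F ε p.1 p.2 := rfl

theorem ZZ_eq : ZZ v C ε = Erg45.Zc v C ε := rfl

theorem GE_eq : GE v F C ε = Erg45.GE v F C ε := rfl

theorem ds_scaled (r : ℝ) (w y : ℂ) : cr ((r : ℂ) * w) y = r * cr w y := cr_smul_left w y r

theorem gx_hg (hF : Hg F) {r : ℝ} (hr : 0 < r) (y w : ℂ) :
    gx v F y ((r : ℂ) * w) = gx v F y w := by
  unfold gx
  congr 1
  · by_cases hy : y ∈ PP v
    · simp only [indicator_of_mem hy]
      rw [cr_smul_left, hF r hr]
    · simp only [indicator_of_notMem hy]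
  · refine Finset.sum_congr rfl (fun s _ => ?_)
    by_cases hy : y ∈ BilD.OO v s
    · simp only [indicator_of_mem hy]
      rw [rl_smul, cr_smul_left, hF r hr]
    · simp only [indicator_of_notMem hy]

theorem gx_rv (y w : ℂ) : gx v (rv F) y w = gx v F y (-w) := by
  unfold gx rv
  congr 1
  · by_cases hy : y ∈ PP v
    · simp only [indicator_of_mem hy, cr_neg_left]
    · simp only [indicator_of_notMem hy]
  · refine Finset.sum_congr rfl (fun s _ => ?_)
    by_cases hy : y ∈ BilD.OO v s
    · simp only [indicator_of_mem hy, rl_neg, cr_neg_left]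
    · simp only [indicator_of_notMem hy]

theorem gd_hg (hF : Hg F) {r : ℝ} (hr : 0 < r) (x w h : ℂ) :
    gd v F ε x ((r : ℂ) * w) h = gd v F ε x w h := by
  unfold gd
  simp only [gx_hg hF hr]

theorem gd_rv (x w h : ℂ) : gd v (rv F) ε x w h = gd v F ε x (-w) h := by
  unfold gd
  simp only [gx_rv]

/-- (HB) -/
theorem row : StHB := by
  intro n v C e0 _
  obtain ⟨B, hB, hb⟩ := Erg45.hq_bound (v := v)
  refine ⟨B, hB, fun F hF ε hε => ⟨Erg45.hq_meas2 hF, fun p => ⟨?_, ?_⟩, fun x w => ?_,
    fun hg x w r hr => ?_⟩⟩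
  · exact Erg45.hq_nonneg p.1 p.2
  · exact hb F hF ε hε p.1 p.2
  · simp only [hh, gd_rv]
  · simp only [hh, gd_hg hg hr]

/-! ### time reversal of line functions -/

theorem rv_lf (hF : LF F) : LF (rv F) :=
  ⟨hF.meas.comp (measurable_fst.neg.prodMk measurable_snd.neg), fun w Q => hF.bd (-w) (-Q)⟩

theorem rv_hg (hF : Hg F) : Hg (rv F) := by
  intro r hr w Q
  have h := hF r hr (-w) (-Q)
  unfold rv
  rw [← h]
  congr 1 <;> ring

theorem rv_lfs (hF : LFS v F) : LFS v (rv F) := by
  refine ⟨rv_lf hF.lf, fun w Q => hF.nn (-w) (-Q), fun s hs => ?_⟩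
  have h := ae_neg (hF.sym s hs)
  filter_upwards [h] with w hw
  filter_upwards [hw] with τ hτ h1
  have h2 := hτ h1
  rw [rl_neg, cr_neg_left, cr_neg_left] at h2
  exact h2

theorem neg_emb : MeasurableEmbedding (fun p : ℂ × ℂ => (p.1, -p.2)) := by
  have : (fun p : ℂ × ℂ => (p.1, -p.2)) = Prod.map id (fun w : ℂ => -w) := rfl
  rw [this]
  exact MeasurableEmbedding.id.prodMap (MeasurableEquiv.neg ℂ).measurableEmbedding

theorem neg_snd_preimage_DD : (fun p : ℂ × ℂ => (p.1, -p.2)) ⁻¹' (DD v) = DD v := by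
  ext p
  simp only [mem_preimage, mem_DD, norm_neg]

/-- The total gradient energy is invariant under time reversal. -/
theorem Me_rv : Me v (rv F) ε = Me v F ε := by
  have h := mp_neg_snd.setIntegral_preimage_emb neg_emb (fun p => hh v F ε p) (DD v)
  rw [neg_snd_preimage_DD] at h
  unfold Me
  rw [← h]
  refine integral_congr_ae (Eventually.of_forall (fun p => ?_))
  simp only [hh, gd_rv]

theorem neg_mp : MeasurePreserving (fun w : ℂ => -w) volume volume := by
  have := mp_mul (c := -1) (by simp)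
  simpa using this

theorem neg_preimage_BV : (fun w : ℂ => -w) ⁻¹' BV = BV := by
  ext w
  simp only [mem_preimage, Metric.mem_ball, dist_zero_right, norm_neg]

/-- The gradient energy in the annuli is invariant under time reversal. -/
theorem GE_rv : GE v (rv F) C ε = GE v F C ε := by
  unfold GE
  refine integral_congr_ae (Eventually.of_forall (fun x => ?_))
  have h := neg_mp.setIntegral_preimage_emb (MeasurableEquiv.neg ℂ).measurableEmbedding
    (fun w => hh v F ε (x, w)) BV
  rw [neg_preimage_BV] at h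
  simp only
  rw [← h]
  refine integral_congr_ae (Eventually.of_forall (fun w => ?_))
  simp only [hh, gd_rv]

end Pool.Agent.Lib.BilE.HB85
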