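import Pool.Agent.Lib.MP_7bc51d_an_erg.Defs
import Pool.Agent.Lib.MP_7bc51d_an_dense.TI33
import Pool.Agent.Lib.MP_7bc51d_an_dense.Refl5
import Pool.Agent.Lib.MP_7bc51d_an_dense.Basic

/-!
Row HINV: the squared gradient of the mollified function is invariant under one step of the flow
away from the vertices.
-/

set_option autoImplicit false

namespace Pool.Agent.Lib.BilE.Hinv33

open Complex MeasureTheory Set Filter Topology
open scoped ComplexConjugate
open Pool.Agent.Lib.Bil Pool.Agent.Lib.BilD Pool.Agent.Lib.BilD.TI33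

variable {n : ℕ} {v : Fin n → ℂ}

/-- Symmetry of `F` at the side `s` for the direction `w`. -/
def Sw (v : Fin n → ℂ) (F : ℂ → ℝ → ℝ) (s : Fin n × Fin n) (w : ℂ) : Prop :=
  cr (ed v s) w ≠ 0 ∧ ∀ᵐ τ : ℝ, τ ∈ Ioo (0 : ℝ) 1 →
      F (rl (ed v s) w) (cr (rl (ed v s) w) (v s.1 + (τ : ℂ) * ed v s)) =
        F w (cr w (v s.1 + (τ : ℂ) * ed v s))

/-- Interior case. -/
theorem val_int {C e0 : ℝ} (hg : Geo v C e0) (F : ℂ → ℝ → ℝ) {ε : ℝ} (hε : 0 < ε) {x : ℂ}
    (hx : x ∈ Int1 v ε) {w : ℂ} (hw : w ≠ 0) :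
    ∀ᵐ Q : ℝ, ∃ c : ℝ, ∀ᵐ r : ℝ, ‖x - chi w (Q, r)‖ ≤ 5 / 4 * ε → gx v F (chi w (Q, r)) w = c := by
  refine Eventually.of_forall (fun Q => ⟨F w Q, Eventually.of_forall (fun r hr => ?_)⟩)
  have h1 : ∀ t ∈ SD v, 0 < ds v t (chi w (Q, r)) := by
    intro t ht
    have := norm_lt_of33 hg hr ht
    have h2 := hx t ht
    linarith
  rw [gx_pos33 hg F h1, cr_chi hw]

/-- Near a side. -/
theorem val_side {C e0 : ℝ} (hg : Geo v C e0) {F : ℂ → ℝ → ℝ} {ε : ℝ} (hε : 0 < ε)
    {x : ℂ} {s : Fin n × Fin n} (hs : s ∈ SD v) (hx : x ∈ Nr v ε s) {w : ℂ} (hw : w ≠ 0)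
    (hS : Sw v F s w) :
    ∀ᵐ Q : ℝ, ∃ c : ℝ, ∀ᵐ r : ℝ, ‖x - chi w (Q, r)‖ ≤ 5 / 4 * ε → gx v F (chi w (Q, r)) w = c := by
  obtain ⟨hc, hsym⟩ := hS
  have he := hg.edn s hs
  have hc' : cr w (ed v s) ≠ 0 := by rw [cr_swap]; exact neg_ne_zero.2 hc
  have hq : Measure.QuasiMeasurePreserving (fun q : ℝ => (q - cr w (v s.1)) / cr w (ed v s))
      volume volume := by
    have g1 : Measure.QuasiMeasurePreserving (fun q : ℝ => q - cr w (v s.1)) volume volume :=
      (measurePreserving_sub_right volume (cr w (v s.1))).quasiMeasurePreserving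
    have g2 : Measure.QuasiMeasurePreserving (fun q : ℝ => (cr w (ed v s))⁻¹ * q)
        volume volume := by
      refine ⟨by fun_prop, ?_⟩
      rw [Real.map_volume_mul_left (inv_ne_zero hc')]
      exact Measure.smul_absolutelyContinuous
    have g3 := g2.comp g1
    have g4 : (fun q : ℝ => (q - cr w (v s.1)) / cr w (ed v s)) =
        (fun q : ℝ => (cr w (ed v s))⁻¹ * q) ∘ (fun q : ℝ => q - cr w (v s.1)) := by
      funext q
      simp only [Function.comp]
      rw [div_eq_inv_mul]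
    rw [g4]
    exact g3
  filter_upwards [hq.ae hsym] with Q hQ
  -- other sides are far away
  have hoth : ∀ y : ℂ, ‖x - y‖ ≤ 5 / 4 * ε → ∀ t ∈ SD v, t ≠ s → 31 / 4 * ε < ds v t y := by
    intro y hy t ht hts
    have h1 := norm_lt_of33 hg hy ht
    have h2 := hx.2 t ht hts
    linarith
  have hsmall : ∀ y : ℂ, ‖x - y‖ ≤ 5 / 4 * ε → |ds v s y| < 13 / 4 * ε := by
    intro y hy
    have h1 := abs_le.1 (ds_lip33 he x y)
    have h2 := abs_lt.1 hx.1
    rw [abs_lt]
    constructor <;> linarith [h1.1, h1.2, h2.1, h2.2]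
  have hpos : ∀ y : ℂ, ‖x - y‖ ≤ 5 / 4 * ε → 0 < ds v s y → gx v F y w = F w (cr w y) := by
    intro y hy h0
    apply gx_pos33 hg
    intro t ht
    by_cases hts : t = s
    · rw [hts]; exact h0
    · have := hoth y hy t ht hts
      linarith
  have hneg : ∀ y : ℂ, ‖x - y‖ ≤ 5 / 4 * ε → ds v s y < 0 →
      gx v F y w = F (rl (ed v s) w) (rfh v s w (cr w y)) := by
    intro y hy h0
    apply gx_neg33 hg F hs h0
    · intro t ht hts
      have := hoth y hy t ht hts
      linarith
    · rw [hg.pp]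
      intro t ht
      by_cases hts : t = s
      · rw [hts, ds_Rs33 he]; linarith
      · have h1 := abs_le.1 (ds_lip33 (hg.edn t ht) (Rs v s y) y)
        rw [norm_Rs_sub33 he] at h1
        have h2 := hsmall y hy
        have h3 := hoth y hy t ht hts
        linarith [h1.1]
  classical
  by_cases hex : ∃ r : ℝ, ‖x - chi w (Q, r)‖ ≤ 5 / 4 * ε ∧ 0 < ds v s (chi w (Q, r))
  · obtain ⟨r2, hr2, hd2⟩ := hex
    refine ⟨F w Q, ?_⟩
    filter_upwards [ae_ds_ne33 hg hs hc Q] with r hr hr1
    rcases lt_or_gt_of_ne hr with h0 | h0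
    · rw [hneg _ hr1 h0, cr_chi hw]
      -- the crossing point
      set y1 := chi w (Q, r) with hy1
      set y2 := chi w (Q, r2) with hy2
      set d1 := ds v s y1 with hd1'
      set d2 := ds v s y2 with hd2'
      have hd : 0 < d2 - d1 := by linarith
      set a : ℝ := d2 / (d2 - d1) with ha
      set b : ℝ := -d1 / (d2 - d1) with hb
      have hab : a + b = 1 := by
        rw [ha, hb]; field_simp; ring
      have ha0 : 0 ≤ a := by rw [ha]; exact div_nonneg hd2.le hd.le
      have hb0 : 0 ≤ b := by rw [hb]; exact div_nonneg (by linarith) hd.le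
      set z : ℂ := (a : ℂ) * y1 + (b : ℂ) * y2 with hz
      have hz0 : ds v s z = 0 := by
        rw [hz, ds_comb33 s hab, ← hd1', ← hd2', ha, hb]
        field_simp
        ring
      have hzx : ‖x - z‖ ≤ 5 / 4 * ε := by
        have h1 : x - z = (a : ℂ) * (x - y1) + (b : ℂ) * (x - y2) := by
          have : (a : ℂ) + (b : ℂ) = 1 := by exact_mod_cast hab
          rw [hz]
          linear_combination (-x) * this
        rw [h1]
        refine (norm_add_le _ _).trans ?_
        rw [norm_mul, norm_mul, norm_real, norm_real, Real.norm_of_nonneg ha0,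
          Real.norm_of_nonneg hb0]
        have h2 := mul_le_mul_of_nonneg_left hr1 ha0
        have h3 := mul_le_mul_of_nonneg_left hr2 hb0
        calc a * ‖x - y1‖ + b * ‖x - y2‖ ≤ a * (5 / 4 * ε) + b * (5 / 4 * ε) := add_le_add h2 h3
          _ = 5 / 4 * ε := by rw [← add_mul, hab, one_mul]
      have hzQ : cr w z = Q := by
        rw [hz, cr_add_right, cr_smul_right, cr_smul_right, hy1, hy2, cr_chi hw, cr_chi hw]
        simp only
        rw [← add_mul, hab, one_mul]
      obtain ⟨τ, hτ, hτz⟩ := hg.onside s hs z hz0 (fun t ht hts => by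
        have := hoth z hzx t ht hts
        linarith)
      have hτQ : (Q - cr w (v s.1)) / cr w (ed v s) = τ := by
        rw [← hzQ, hτz, cr_add_right, cr_smul_right, add_sub_cancel_left]
        field_simp
      rw [hτQ] at hQ
      have h5 := hQ hτ
      rw [← hτz, hzQ] at h5
      rw [← h5]
      congr 1
      have h6 := rfh_eq (v := v) s he w z
      rw [hzQ] at h6
      rw [← h6]
      have h7 : RR v s.1 s.2 z = z := by
        rw [hτz]
        exact RR_line he τ
      rw [h7]
      rfl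
    · rw [hpos _ hr1 h0, cr_chi hw]
  · push Not at hex
    refine ⟨F (rl (ed v s) w) (rfh v s w Q), ?_⟩
    filter_upwards [ae_ds_ne33 hg hs hc Q] with r hr hr1
    have h0 : ds v s (chi w (Q, r)) < 0 := lt_of_le_of_ne (hex r hr1) hr
    rw [hneg _ hr1 h0, cr_chi hw]

/-- Continuity and support of the kernel. -/
theorem ker_int {ε : ℝ} (hε : 0 < ε) (x h : ℂ) {f : ℂ → ℝ} (hf : Measurable f) {B : ℝ}
    (hb : ∀ y, |f y| ≤ B) : Integrable (fun y => f y * fderiv ℝ (et ε) (x - y) h) := by
  have hK : Continuous (fun y => fderiv ℝ (et ε) (x - y) h) :=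
    (continuous_fderiv_et33 ε h).comp (continuous_const.sub continuous_id)
  have hS : HasCompactSupport (fun y => fderiv ℝ (et ε) (x - y) h) := by
    refine HasCompactSupport.intro (K := Metric.closedBall x ε) (isCompact_closedBall _ _) ?_
    intro y hy
    rw [Metric.mem_closedBall, dist_eq_norm, not_le] at hy
    rw [fderiv_et_zero33 hε (by rw [norm_sub_rev]; exact hy)]
    rfl
  have hI : Integrable (fun y => fderiv ℝ (et ε) (x - y) h) := hK.integrable_of_hasCompactSupport hS
  exact hI.bdd_mul hf.aestronglyMeasurable (Eventually.of_forall (fun y => by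
    rw [Real.norm_eq_abs]; exact hb y))

theorem chi_add (w : ℂ) (Q r t : ℝ) : chi w (Q, r) + (t : ℂ) * w = chi w (Q, r + t) := by
  change bs w Q + (r : ℂ) * w + (t : ℂ) * w = bs w Q + ((r + t : ℝ) : ℂ) * w
  push_cast
  ring

/-- Shift along the direction. -/
theorem shift {ε : ℝ} (hε : 0 < ε) {x w : ℂ} (hw : w ≠ 0) {f : ℂ → ℝ} (hf : Measurable f) {B : ℝ}
    (hb : ∀ y, |f y| ≤ B)
    (hv : ∀ᵐ Q : ℝ, ∃ c : ℝ, ∀ᵐ r : ℝ, ‖x - chi w (Q, r)‖ ≤ 5 / 4 * ε → f (chi w (Q, r)) = c)
    {t : ℝ} (ht : |t| * ‖w‖ ≤ ε / 4) (h : ℂ) :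
    ∫ y, f y * fderiv ℝ (et ε) (x + (t : ℂ) * w - y) h =
      ∫ y, f y * fderiv ℝ (et ε) (x - y) h := by
  have e1 : ∫ y, f y * fderiv ℝ (et ε) (x + (t : ℂ) * w - y) h =
      ∫ y, f (y + (t : ℂ) * w) * fderiv ℝ (et ε) (x - y) h := by
    rw [← integral_add_right_eq_self (fun y => f y * fderiv ℝ (et ε) (x + (t : ℂ) * w - y) h)
      ((t : ℂ) * w)]
    refine integral_congr_ae (Eventually.of_forall (fun y => ?_))
    simp only
    rw [add_sub_add_right_eq_sub]
  have i1 := ker_int hε x h hf hb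
  have i2 := ker_int hε x h (f := fun y => f (y + (t : ℂ) * w))
    (hf.comp (measurable_id.add_const _)) (fun y => hb _)
  rw [e1, ← sub_eq_zero, ← integral_sub i2 i1]
  apply int_lines33 hw
  filter_upwards [hv] with Q hQ
  obtain ⟨c, hc⟩ := hQ
  have hc2 : ∀ᵐ r : ℝ, ‖x - chi w (Q, r + t)‖ ≤ 5 / 4 * ε → f (chi w (Q, r + t)) = c :=
    (measurePreserving_add_right volume t).quasiMeasurePreserving.ae hc
  apply integral_eq_zero_of_ae
  filter_upwards [hc, hc2] with r h1 h2
  change f (chi w (Q, r) + (t : ℂ) * w) * fderiv ℝ (et ε) (x - chi w (Q, r)) h -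
    f (chi w (Q, r)) * fderiv ℝ (et ε) (x - chi w (Q, r)) h = 0
  rw [chi_add]
  rcases le_or_gt ‖x - chi w (Q, r)‖ ε with h3 | h3
  · rw [h1 (by linarith), h2 ?_, sub_self]
    rw [← chi_add, ← sub_sub]
    refine (norm_sub_le _ _).trans ?_
    rw [norm_mul, norm_real, Real.norm_eq_abs]
    linarith
  · rw [fderiv_et_zero33 hε h3]
    simp

/-- The kernel is radial. -/
theorem fderiv_et_rl {e : ℂ} (he : e ≠ 0) (ε : ℝ) (u h : ℂ) :
    fderiv ℝ (et ε) (rl e u) (rl e h) = fderiv ℝ (et ε) u h := by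
  have h1 : (fun u => et ε (rl e u)) = et ε := by
    funext u
    unfold et
    rw [norm_rl he]
  have hd : HasFDerivAt (et ε) (fderiv ℝ (et ε) (rl e u)) (rl e u) :=
    ((contDiff_et33 ε).differentiable (by norm_num) _).hasFDerivAt
  have hl : HasFDerivAt (rl e) ((rlEquiv e he).toContinuousLinearEquiv : ℂ →L[ℝ] ℂ) u :=
    ((rlEquiv e he).toContinuousLinearEquiv : ℂ →L[ℝ] ℂ).hasFDerivAt
  have h2 := hd.comp u hl
  have h3 : HasFDerivAt (et ε) ((fderiv ℝ (et ε) (rl e u)).comp
      ((rlEquiv e he).toContinuousLinearEquiv : ℂ →L[ℝ] ℂ)) u := by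
    have : (et ε ∘ rl e) = et ε := h1
    rwa [this] at h2
  rw [h3.fderiv]
  rfl

theorem Rs_emb {s : Fin n × Fin n} (he : ed v s ≠ 0) : MeasurableEmbedding (Rs v s) := by
  have hc : Continuous (Rs v s) := by
    have : Rs v s = fun x => v s.1 + rl (ed v s) (x - v s.1) := rfl
    rw [this]
    exact continuous_const.add ((continuous_rl _).comp (continuous_id.sub continuous_const))
  let E : ℂ ≃ₜ ℂ :=
    { toFun := Rs v s, invFun := Rs v s, left_inv := Refl5.Rs_Rs he, right_inv := Refl5.Rs_Rs he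
      continuous_toFun := hc, continuous_invFun := hc }
  exact E.measurableEmbedding

/-- Reflection of the gradient. -/
theorem gd_refl {C e0 : ℝ} (hg : Geo v C e0) (F : ℂ → ℝ → ℝ) {ε : ℝ} (hε : 0 < ε)
    {x : ℂ} {s : Fin n × Fin n} (hs : s ∈ SD v) (hx : x ∈ Nr v ε s) {x' : ℂ}
    (hx' : ‖x - x'‖ ≤ ε / 4) (w h : ℂ) :
    gd v F ε (Rs v s x') (rl (ed v s) w) (rl (ed v s) h) = gd v F ε x' w h := by
  have he := hg.edn s hs
  unfold gd
  rw [← (Refl5.mp_Rs he).integral_comp (Rs_emb he)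
    (fun y => gx v F y (rl (ed v s) w) * fderiv ℝ (et ε) (Rs v s x' - y) (rl (ed v s) h))]
  refine integral_congr_ae (Eventually.of_forall (fun y => ?_))
  simp only
  have e1 : Rs v s x' - Rs v s y = rl (ed v s) (x' - y) := by
    rw [Refl5.Rs_def, Refl5.Rs_def, add_sub_add_left_eq_sub, ← rl_sub]
    congr 1
    ring
  rw [e1, fderiv_et_rl he]
  rcases le_or_gt ‖x' - y‖ ε with h3 | h3
  · have hxy : ‖x - y‖ ≤ 5 / 4 * ε := by
      have : x - y = (x - x') + (x' - y) := by ring
      rw [this]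
      refine (norm_add_le _ _).trans ?_
      linarith
    have hoth : ∀ t ∈ SD v, t ≠ s → 31 / 4 * ε < ds v t y := by
      intro t ht hts
      have h1 := norm_lt_of33 hg hxy ht
      have h2 := hx.2 t ht hts
      linarith
    have hsmall : |ds v s y| < 13 / 4 * ε := by
      have h1 := abs_le.1 (ds_lip33 he x y)
      have h2 := abs_lt.1 hx.1
      rw [abs_lt]
      constructor <;> linarith [h1.1, h1.2, h2.1, h2.2]
    rw [Refl5.gx_refl hg hs (fun t ht hts => by have := hoth t ht hts; linarith) (fun t ht hts => by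
      have h1 := abs_le.1 (ds_lip33 (hg.edn t ht) (Rs v s y) y)
      rw [norm_Rs_sub33 he] at h1
      have h3 := hoth t ht hts
      linarith [h1.1])]
  · rw [fderiv_et_zero33 hε h3]
    simp

theorem gd_lin {F : ℂ → ℝ → ℝ} (hF : LFS v F) {ε : ℝ} (hε : 0 < ε) (x w : ℂ) (a b : ℝ) :
    gd v F ε x w ((a : ℂ) + (b : ℂ) * I) = a * gd v F ε x w 1 + b * gd v F ε x w I := by
  have hf : Measurable (fun y => gx v F y w) := gx_meas_x hF.lf w
  have hb : ∀ y, |gx v F y w| ≤ (n : ℝ) ^ 2 + 1 := fun y => by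
    rw [abs_of_nonneg (gx_nonneg hF y w)]; exact gx_le hF y w
  have i1 := ker_int hε x 1 hf hb
  have i2 := ker_int hε x I hf hb
  unfold gd
  rw [← integral_const_mul, ← integral_const_mul, ← integral_add (i1.const_mul a) (i2.const_mul b)]
  refine integral_congr_ae (Eventually.of_forall (fun y => ?_))
  simp only
  have e1 : (a : ℂ) + (b : ℂ) * I = a • (1 : ℂ) + b • I := by
    rw [real_smul, real_smul, mul_one]
  rw [e1, map_add, map_smul, map_smul, smul_eq_mul, smul_eq_mul]
  ring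

/-- Reflection of the squared gradient. -/
theorem hh_refl {C e0 : ℝ} (hg : Geo v C e0) {F : ℂ → ℝ → ℝ} (hF : LFS v F) {ε : ℝ} (hε : 0 < ε)
    {x : ℂ} {s : Fin n × Fin n} (hs : s ∈ SD v) (hx : x ∈ Nr v ε s) {x' : ℂ}
    (hx' : ‖x - x'‖ ≤ ε / 4) (w : ℂ) :
    hh v F ε (Rs v s x', rl (ed v s) w) = hh v F ε (x', w) := by
  have he := hg.edn s hs
  set e := ed v s with he'
  have hL : ∀ h, gd v F ε (Rs v s x') (rl e w) h = gd v F ε x' w (rl e h) := by
    intro h
    have := gd_refl hg F hε hs hx hx' w (rl e h)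
    rwa [rl_rl he] at this
  unfold hh
  simp only
  rw [hL, hL]
  set u : ℂ := rl e 1 with hu
  have hI : rl e I = ((u.im : ℝ) : ℂ) + ((-u.re : ℝ) : ℂ) * I := by
    have h1 : rl e I = -I * u := by
      have := rl_mul e I 1
      rw [mul_one] at this
      rw [this, conj_I]
    rw [h1]
    apply Complex.ext <;> simp
  have h1 : gd v F ε x' w u = u.re * gd v F ε x' w 1 + u.im * gd v F ε x' w I := by
    have h5 := gd_lin (v := v) hF hε x' w u.re u.im
    rwa [re_add_im u] at h5
  have hn : u.re ^ 2 + u.im ^ 2 = 1 := by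
    have h2 : ‖u‖ = 1 := by rw [hu, norm_rl he, norm_one]
    have h3 := normsq_eq u
    rw [h2] at h3
    linarith
  rw [hI, h1, gd_lin hF hε]
  linear_combination (gd v F ε x' w 1 ^ 2 + gd v F ε x' w I ^ 2) * hn

theorem ae_ds (s : Fin n × Fin n) (he : ed v s ≠ 0) : ∀ᵐ y : ℂ, ds v s y ≠ 0 := by
  have h1 := (measurePreserving_sub_right volume (v s.1)).quasiMeasurePreserving.ae
    (ae_not_mem_line (ed v s))
  filter_upwards [h1] with y hy h0
  apply hy
  unfold ds at h0
  rw [div_eq_zero_iff] at h0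
  obtain ⟨t, ht⟩ := (cr_eq_zero_iff he).1 (h0.resolve_right (norm_ne_zero_iff.2 he))
  rw [Submodule.mem_span_singleton]
  exact ⟨t, by rw [real_smul]; exact ht.symm⟩

theorem row : StHinv := by
  intro n v C e0 hn hv hg F hF ε hε hε0
  have hw1 : ∀ᵐ w : ℂ, w ≠ 0 ∧ ∀ s ∈ SD v, Sw v F s w := by
    have hw0 : ∀ᵐ w : ℂ, w ≠ 0 := by simp [ae_iff, measure_singleton]
    have h2 : ∀ᵐ w : ℂ, ∀ s ∈ SD v, Sw v F s w := by
      rw [Filter.eventually_all_finset]
      intro s hs
      have he := hg.edn s hs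
      have hsym := hF.sym s hs
      unfold SymAt at hsym
      filter_upwards [hsym, ae_not_mem_line (ed v s)] with w h1 h2
      refine ⟨?_, h1⟩
      intro h3
      apply h2
      obtain ⟨t, ht⟩ := (cr_eq_zero_iff he).1 h3
      rw [Submodule.mem_span_singleton]
      exact ⟨t, by rw [real_smul]; exact ht.symm⟩
    filter_upwards [hw0, h2] with w h3 h4
    exact ⟨h3, h4⟩
  have hp1 : ∀ᵐ p : ℂ × ℂ, p.2 ≠ 0 ∧ ∀ s ∈ SD v, Sw v F s p.2 :=
    Measure.quasiMeasurePreserving_snd.ae hw1
  have hp2 : ∀ᵐ p : ℂ × ℂ, ∀ s ∈ SD v, ds v s (p.1 + ((ε / 4 : ℝ) : ℂ) * p.2) ≠ 0 := by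
    rw [Filter.eventually_all_finset]
    intro s hs
    have h1 : ∀ᵐ p : ℂ × ℂ, ds v s p.1 ≠ 0 :=
      Measure.quasiMeasurePreserving_fst.ae (ae_ds s (hg.edn s hs))
    exact (mp_shear ((ε / 4 : ℝ) : ℂ)).quasiMeasurePreserving.ae h1
  filter_upwards [hp1, hp2] with p h1 h2 hD hk
  obtain ⟨x, w⟩ := p
  simp only at h1 h2 hk
  obtain ⟨hw, hS⟩ := h1
  obtain ⟨hxP, hwn⟩ := mem_DD.1 hD
  simp only at hxP hwn
  have hds := (hg.pp x).1 hxP
  have hGd : x ∈ Gd v C ε := ⟨fun s hs => (hds s hs).le, hk⟩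
  set t : ℝ := ε / 4 with ht
  have htw : |t| * ‖w‖ ≤ ε / 4 := by
    rw [abs_of_pos (by positivity)]
    nlinarith [norm_nonneg w]
  set x' : ℂ := x + (t : ℂ) * w with hx'
  have hxx : ‖x - x'‖ ≤ ε / 4 := by
    have : x - x' = -((t : ℂ) * w) := by rw [hx']; ring
    rw [this, norm_neg, norm_mul, norm_real, Real.norm_eq_abs]
    exact htw
  have hf : Measurable (fun y => gx v F y w) := gx_meas_x hF.lf w
  have hb : ∀ y, |gx v F y w| ≤ (n : ℝ) ^ 2 + 1 := fun y => by
    rw [abs_of_nonneg (gx_nonneg hF y w)]; exact gx_le hF y w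
  have hsh : (∀ᵐ Q : ℝ, ∃ c : ℝ, ∀ᵐ r : ℝ, ‖x - chi w (Q, r)‖ ≤ 5 / 4 * ε →
      gx v F (chi w (Q, r)) w = c) → hh v F ε (x', w) = hh v F ε (x, w) := by
    intro hv'
    unfold hh gd
    simp only
    rw [hx', shift hε hw hf hb hv' htw 1, shift hε hw hf hb hv' htw I]
  rcases hg.dic ε hε hε0 x hGd with h | ⟨s, hs, h⟩
  · refine ⟨none, ⟨hxP, ?_⟩, ?_⟩
    · rw [hg.pp]
      intro s hs
      have h3 := norm_lt_of33 hg hxx hs
      have h4 := h s hs
      change 0 < ds v s x'
      linarith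
    · exact hsh (val_int hg F hε h hw)
  · have hv' := val_side hg hε hs h hw (hS s hs)
    have he := hg.edn s hs
    have hoth : ∀ r ∈ SD v, r ≠ s → 35 / 4 * ε ≤ ds v r x' := by
      intro r hr hrs
      have h3 := norm_lt_of33 hg hxx hr
      have h4 := h.2 r hr hrs
      linarith
    rcases lt_or_gt_of_ne (h2 s hs) with h3 | h3
    · -- crossing
      obtain ⟨i, j⟩ := s
      have hside : IsSide v i j := mem_SD.1 hs
      have hx0 := hds (i, j) hs
      set d0 := ds v (i, j) x with hd0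
      set d1 := ds v (i, j) x' with hd1
      have hd : 0 < d0 - d1 := by linarith
      set a : ℝ := -d1 / (d0 - d1) with ha
      set b : ℝ := d0 / (d0 - d1) with hb'
      have hab : a + b = 1 := by rw [ha, hb']; field_simp; ring
      have ha0 : 0 ≤ a := by rw [ha]; exact div_nonneg (by linarith) hd.le
      have hb0 : 0 ≤ b := by rw [hb']; exact div_nonneg hx0.le hd.le
      set z : ℂ := (a : ℂ) * x + (b : ℂ) * x' with hz
      have hz0 : ds v (i, j) z = 0 := by
        rw [hz, ds_comb33 (i, j) hab, ← hd0, ← hd1, ha, hb']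
        field_simp
        ring
      have hzx : ‖x - z‖ ≤ ε / 4 := by
        have h5 : x - z = (b : ℂ) * (x - x') := by
          have : (a : ℂ) + (b : ℂ) = 1 := by exact_mod_cast hab
          rw [hz]
          linear_combination (-x) * this
        rw [h5, norm_mul, norm_real, Real.norm_of_nonneg hb0]
        have hb1 : b ≤ 1 := by linarith
        calc b * ‖x - x'‖ ≤ 1 * (ε / 4) := mul_le_mul hb1 hxx (norm_nonneg _) (by norm_num)
          _ = ε / 4 := one_mul _
      obtain ⟨σ, hσ, hσz⟩ := hg.onside (i, j) hs z hz0 (fun r hr hrs => by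
        have h6 := norm_lt_of33 hg hzx hr
        have h7 := h.2 r hr hrs
        linarith)
      have hcz : cr w z = cr w x := by
        have : z = x + ((b * t : ℝ) : ℂ) * w := by
          have h8 : (a : ℂ) + (b : ℂ) = 1 := by exact_mod_cast hab
          rw [hz, hx']
          push_cast
          linear_combination x * h8
        rw [this, cr_add_right, cr_smul_right, cr_self, mul_zero, add_zero]
      have hce : 0 < cr w (ed v (i, j)) := by
        have h9 : d1 - d0 = t * cr (ed v (i, j)) w / ‖ed v (i, j)‖ := by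
          rw [hd1, hd0]
          unfold ds
          rw [← sub_div, ← cr_sub_right, hx']
          congr 1
          have : x + (t : ℂ) * w - v (i, j).1 - (x - v (i, j).1) = (t : ℂ) * w := by ring
          rw [this, cr_smul_right]
        have hne : 0 < ‖ed v (i, j)‖ := norm_pos_iff.2 he
        have h10 : t * cr (ed v (i, j)) w / ‖ed v (i, j)‖ < 0 := by rw [← h9]; linarith
        have h11 : t * cr (ed v (i, j)) w < 0 := by
          by_contra hcon
          push Not at hcon
          have := div_nonneg hcon hne.le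
          linarith
        have ht0 : 0 < t := by positivity
        have h12 : cr (ed v (i, j)) w < 0 := by
          by_contra hcon
          push Not at hcon
          have := mul_nonneg ht0.le hcon
          linarith
        rw [cr_swap]
        linarith
      have hz1 : cr w z = cr w (v i) + σ * cr w (ed v (i, j)) := by
        rw [hσz, cr_add_right, cr_smul_right]
      have hvj : cr w (v j) = cr w (v i) + cr w (ed v (i, j)) := by
        change cr w (v j) = cr w (v i) + cr w (v j - v i)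
        rw [cr_sub_right]; ring
      refine ⟨some (i, j), ?_, ?_⟩
      · rw [mem_stepSet_some]
        refine ⟨hside, hxP, ?_, ?_, ?_⟩
        · change cr w (v i - x) < 0
          rw [cr_sub_right, ← hcz, hz1]
          nlinarith [hσ.1]
        · change 0 < cr w (v j - x)
          rw [cr_sub_right, ← hcz, hz1, hvj]
          nlinarith [hσ.2]
        · change Rs v (i, j) x' ∈ PP v
          rw [hg.pp]
          intro r hr
          by_cases hrs : r = (i, j)
          · rw [hrs, ds_Rs33 he]; linarith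
          · have h5 := abs_le.1 (ds_lip33 (hg.edn r hr) (Rs v (i, j) x') x')
            rw [norm_Rs_sub33 he] at h5
            have h6 := hoth r hr hrs
            have h7 : |ds v (i, j) x'| ≤ 9 / 4 * ε := by
              have h8 := abs_le.1 (ds_lip33 he x x')
              have h9 := abs_lt.1 h.1
              rw [abs_le]
              constructor <;> linarith [h8.1, h8.2, h9.1, h9.2]
            linarith [h5.1]
      · change hh v F ε (Rs v (i, j) x', rl (ed v (i, j)) w) = _
        rw [hh_refl hg hF hε hs h hxx w]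
        exact hsh hv'
    · refine ⟨none, ⟨hxP, ?_⟩, hsh hv'⟩
      rw [hg.pp]
      intro r hr
      change 0 < ds v r x'
      by_cases hrs : r = s
      · rw [hrs]; exact h3
      · have := hoth r hr hrs
        linarith

end Pool.Agent.Lib.BilE.Hinv33
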