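import Pool.Agent.Lib.MP_7bc51d_an_erg.Defs
import Pool.Agent.Lib.MP_7bc51d_an.Next
import Pool.Agent.Lib.MP_7bc51d_an.Strip2
import Pool.Agent.Lib.MP_7bc51d_an.Label

/-!
# Orbits from a vertex which come close to a vertex: generalized diagonals (row HIT)
-/

set_option autoImplicit false

namespace Pool.Agent.Lib.BilE.Hit17

open Complex MeasureTheory Set Filter Topology
open scoped ComplexConjugate
open Pool.Agent.Lib.Bil Pool.Agent.Lib.BilD Pool.Agent.Lib.BilE

variable {n : ℕ} {v : Fin n → ℂ}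

abbrev Sd (n : ℕ) := Fin n × Fin n

/-! ### words -/

/-- Crossed sides along a word of steps. -/
def cw : List (Option (Sd n)) → List (Sd n)
  | [] => []
  | none :: u => cw u
  | some s :: u => cw u ++ [s]

theorem Fo_append (g : List (Sd n)) (s : Sd n) (x : ℂ) :
    Fo v (g ++ [s]) x = Fo v g (RR v s.1 s.2 x) := by
  induction g with
  | nil => rfl
  | cons t g ih =>
    change RR v t.1 t.2 (Fo v (g ++ [s]) x) = RR v t.1 t.2 (Fo v g (RR v s.1 s.2 x))
    rw [ih]

theorem Lo_append (g : List (Sd n)) (s : Sd n) (x : ℂ) :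
    Lo v (g ++ [s]) x = Lo v g (rl (v s.2 - v s.1) x) := by
  induction g with
  | nil => rfl
  | cons t g ih =>
    change rl (v t.2 - v t.1) (Lo v (g ++ [s]) x) = rl (v t.2 - v t.1) (Lo v g _)
    rw [ih]

theorem Rz_append (g : List (Sd n)) (s : Sd n) (x w : ℂ) :
    Rz v (g ++ [s]) x w ↔ (IsSide v s.1 s.2 ∧ cr w (v s.1) < cr w x ∧ cr w x < cr w (v s.2)) ∧
      Rz v g (RR v s.1 s.2 x) (rl (v s.2 - v s.1) w) := by
  induction g with
  | nil =>
    change (Rz v [] x w ∧ IsSide v s.1 s.2 ∧ cr w (v s.1) < cr w x ∧ cr w x < cr w (v s.2)) ↔ _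
    simp [Rz]
  | cons t g ih =>
    change (Rz v (g ++ [s]) x w ∧ IsSide v t.1 t.2 ∧
      cr (Lo v (g ++ [s]) w) (v t.1) < cr (Lo v (g ++ [s]) w) (Fo v (g ++ [s]) x) ∧
      cr (Lo v (g ++ [s]) w) (Fo v (g ++ [s]) x) < cr (Lo v (g ++ [s]) w) (v t.2)) ↔ _
    rw [ih, Fo_append, Lo_append]
    change _ ↔ _ ∧ (Rz v g (RR v s.1 s.2 x) (rl (v s.2 - v s.1) w) ∧ IsSide v t.1 t.2 ∧ _ ∧ _)
    tauto

theorem cr_Lo_line (g : List (Sd n)) (x w : ℂ) (t : ℝ) :
    cr (Lo v g w) (Fo v g (x + (t : ℂ) * w)) = cr (Lo v g w) (Fo v g x) := by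
  have h := Fo_line (v := v) g x w 0 t
  rw [ofReal_zero, zero_mul, add_zero, zero_add] at h
  rw [← h, cr_add_right, cr_smul_right, cr_self, mul_zero, add_zero]

theorem Rz_line (g : List (Sd n)) (x w : ℂ) (t : ℝ) :
    Rz v g (x + (t : ℂ) * w) w ↔ Rz v g x w := by
  induction g with
  | nil => exact Iff.rfl
  | cons s g ih =>
    change (Rz v g (x + (t : ℂ) * w) w ∧ _ ∧ _ ∧ _) ↔ (Rz v g x w ∧ _ ∧ _ ∧ _)
    rw [ih, cr_Lo_line]

theorem eM_cw (h : ℝ) (u : List (Option (Sd n))) : ∀ p : ℂ × ℂ, p ∈ Bil.OO v h u →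
    eM v h u p = (Fo v (cw u) (p.1 + (((u.length : ℝ) * h : ℝ) : ℂ) * p.2), Lo v (cw u) p.2) ∧
      Rz v (cw u) p.1 p.2 := by
  induction u with
  | nil =>
    intro p _
    simp [eM, cw, Fo, Lo, Rz]
  | cons c u ih =>
    intro p hp
    obtain ⟨h1, h2⟩ := hp
    have h3 := ih _ h2
    match c with
    | none =>
      change eM v h u (p.1 + (h : ℂ) * p.2, p.2) = (Fo v (cw u) _, Lo v (cw u) p.2) ∧
        Rz v (cw u) p.1 p.2
      change eM v h u (p.1 + (h : ℂ) * p.2, p.2) =
        (Fo v (cw u) (p.1 + (h : ℂ) * p.2 + (((u.length : ℝ) * h : ℝ) : ℂ) * p.2),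
          Lo v (cw u) p.2) ∧ Rz v (cw u) (p.1 + (h : ℂ) * p.2) p.2 at h3
      refine ⟨?_, (Rz_line _ _ _ _).1 h3.2⟩
      rw [h3.1]
      congr 2
      rw [List.length_cons]
      push_cast
      ring
    | some (i, j) =>
      change eM v h u (RR v i j (p.1 + (h : ℂ) * p.2), rl (v j - v i) p.2) =
        (Fo v (cw u ++ [(i, j)]) _, Lo v (cw u ++ [(i, j)]) p.2) ∧
        Rz v (cw u ++ [(i, j)]) p.1 p.2
      change eM v h u (RR v i j (p.1 + (h : ℂ) * p.2), rl (v j - v i) p.2) =
        (Fo v (cw u) (RR v i j (p.1 + (h : ℂ) * p.2) +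
          (((u.length : ℝ) * h : ℝ) : ℂ) * rl (v j - v i) p.2),
          Lo v (cw u) (rl (v j - v i) p.2)) ∧
        Rz v (cw u) (RR v i j (p.1 + (h : ℂ) * p.2)) (rl (v j - v i) p.2) at h3
      rw [Fo_append, Lo_append, Rz_append]
      refine ⟨?_, ⟨h1.1, ?_, ?_⟩, ?_⟩
      · rw [h3.1, ← rl_smul, ← RR_add]
        congr 3
        rw [List.length_cons]
        push_cast
        ring
      · have := h1.2.2.1
        rw [cr_sub_right] at this
        change cr p.2 (v i) < cr p.2 p.1
        linarith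
      · have := h1.2.2.2.1
        rw [cr_sub_right] at this
        change cr p.2 p.1 < cr p.2 (v j)
        linarith
      · rw [RR_add, rl_smul] at h3
        exact (Rz_line _ _ _ _).1 h3.2

theorem mem_PP_of_OO {h : ℝ} {u : List (Option (Sd n))} {p : ℂ × ℂ} (hp : p ∈ Bil.OO v h u) :
    p.1 ∈ PP v := by
  cases u with
  | nil => exact hp
  | cons c u => exact fst_mem_of_mem_stepSet hp.1

/-- Every initial frame is visited. -/
theorem visit {h : ℝ} (hh : 0 ≤ h) (u : List (Option (Sd n))) : ∀ p : ℂ × ℂ, p ∈ Bil.OO v h u →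
    ∀ g2 g1 : List (Sd n), cw u = g2 ++ g1 →
      ∃ t : ℝ, 0 ≤ t ∧ t ≤ u.length * h ∧ Fo v g1 (p.1 + (t : ℂ) * p.2) ∈ PP v := by
  induction u with
  | nil =>
    intro p hp g2 g1 hg
    have h1 : g1 = [] := by
      have : g2 ++ g1 = [] := hg.symm
      exact (List.append_eq_nil_iff.1 this).2
    refine ⟨0, le_rfl, by simp, ?_⟩
    rw [h1]
    have hp' : p.1 ∈ PP v := hp
    simpa [Fo] using hp'
  | cons c u ih =>
    intro p hp g2 g1 hg
    have hp0 := mem_PP_of_OO hp
    obtain ⟨h1, h2⟩ := hp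
    match c with
    | none =>
      obtain ⟨t, t0, t1, t2⟩ := ih _ h2 g2 g1 hg
      refine ⟨t + h, by positivity, ?_, ?_⟩
      · rw [List.length_cons]; push_cast; linarith
      · change Fo v g1 (p.1 + (h : ℂ) * p.2 + (t : ℂ) * p.2) ∈ PP v at t2
        convert t2 using 2
        push_cast; ring
    | some (i, j) =>
      rcases List.eq_nil_or_concat g1 with h3 | ⟨g1', s, h3⟩
      · refine ⟨0, le_rfl, by positivity, ?_⟩
        rw [h3]
        simpa [Fo] using hp0
      · rw [List.concat_eq_append] at h3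
        rw [h3] at hg
        change cw u ++ [(i, j)] = g2 ++ (g1' ++ [s]) at hg
        rw [← List.append_assoc] at hg
        obtain ⟨h4, h5⟩ := List.append_inj' hg rfl
        have h6 : s = (i, j) := by simpa using h5.symm
        obtain ⟨t, t0, t1, t2⟩ := ih _ h2 g2 g1' h4
        refine ⟨t + h, by positivity, ?_, ?_⟩
        · rw [List.length_cons]; push_cast; linarith
        · change Fo v g1' (RR v i j (p.1 + (h : ℂ) * p.2) + (t : ℂ) * rl (v j - v i) p.2) ∈ PP v
            at t2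
          rw [h3, h6, Fo_append]
          rw [← rl_smul, ← RR_add] at t2
          convert t2 using 3
          push_cast; ring

/-! ### the beam -/

/-- The beam of half width `δ` around the line of direction `w` through `v k` crosses `g`. -/
def Bw (v : Fin n → ℂ) (k : Fin n) (w : ℂ) (δ : ℝ) : List (Sd n) → Prop
  | [] => True
  | s :: g => Bw v k w δ g ∧ IsSide v s.1 s.2 ∧
      cr (Lo v g w) (v s.1 - Fo v g (v k)) ≤ -δ ∧ δ ≤ cr (Lo v g w) (v s.2 - Fo v g (v k))

theorem Bw.val {k : Fin n} {w : ℂ} {δ : ℝ} {g : List (Sd n)} (h : Bw v k w δ g) : Val v g := by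
  induction g with
  | nil => intro s hs; simp at hs
  | cons s g ih => exact (ih h.1).cons h.2.1

/-- a crossing: the exit through `s` in the frame, seen from a point `Y` ahead. -/
theorem cross_pt {s : Sd n} {u Y P : ℂ} {δ : ℝ} (hδ : 0 < δ)
    (h1 : cr u (v s.1 - P) ≤ -δ) (h2 : δ ≤ cr u (v s.2 - P)) (hY : |cr u (Y - P)| < δ) :
    ∃ σ : ℝ, 0 < σ ∧ σ < 1 ∧ ∃ t : ℝ, Y = v s.1 + (σ : ℂ) * (v s.2 - v s.1) + (t : ℂ) * u := by
  have hY' := abs_lt.1 hY
  set a := cr u (v s.1 - P) with ha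
  set b := cr u (v s.2 - P) with hb
  set η := cr u (Y - P) with hη
  have hab : 0 < b - a := by linarith
  have hu : u ≠ 0 := by
    rintro rfl
    rw [cr_zero_left] at hb
    linarith
  have he : cr u (v s.2 - v s.1) = b - a := by
    rw [hb, ha, ← cr_sub_right]; congr 1; ring
  refine ⟨(η - a) / (b - a), div_pos (by linarith) hab, by rw [div_lt_one hab]; linarith, ?_⟩
  have h3 : cr u (Y - (v s.1 + (((η - a) / (b - a) : ℝ) : ℂ) * (v s.2 - v s.1))) = 0 := by
    have e1 : Y - (v s.1 + (((η - a) / (b - a) : ℝ) : ℂ) * (v s.2 - v s.1)) =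
        (Y - P) - (v s.1 - P) - (((η - a) / (b - a) : ℝ) : ℂ) * (v s.2 - v s.1) := by ring
    rw [e1, cr_sub_right, cr_sub_right, cr_smul_right, he, ← hη, ← ha]
    field_simp
    ring
  obtain ⟨t, ht⟩ := (cr_eq_zero_iff hu).1 h3
  exact ⟨t, by rw [← ht]; ring⟩

/-- after reflection -/
theorem cr_after {s : Sd n} (hne : v s.2 - v s.1 ≠ 0) (u P : ℂ) (j : Fin n)
    (hj : RR v s.1 s.2 (v j) = v j) :
    cr (rl (v s.2 - v s.1) u) (v j - RR v s.1 s.2 P) = - cr u (v j - P) := by
  have h1 : v j - RR v s.1 s.2 P = rl (v s.2 - v s.1) (v j - P) := by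
    conv_lhs => rw [← hj]
    rw [RR_sub_RR]
  rw [h1, cr_rl hne]

theorem ds_after {s : Sd n} (hne : v s.2 - v s.1 ≠ 0) (P : ℂ) :
    cr (v s.2 - v s.1) (RR v s.1 s.2 P - v s.1) = - cr (v s.2 - v s.1) (P - v s.1) := by
  have h1 : RR v s.1 s.2 P - v s.1 = rl (v s.2 - v s.1) (P - v s.1) := by
    unfold RR; rw [add_sub_cancel_left]
  have := cr_rl hne (v s.2 - v s.1) (P - v s.1)
  rw [rl_self hne] at this
  rw [h1, this]

/-- The vertex is in front of every side crossed by the beam. -/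
theorem front (hv : ConvexIndependent ℝ v) {k : Fin n} {w : ℂ} {δ : ℝ} (hδ : 0 < δ)
    (g : List (Sd n)) : Bw v k w δ g → ∀ s : Sd n, IsSide v s.1 s.2 →
      cr (Lo v g w) (v s.1 - Fo v g (v k)) ≤ -δ → δ ≤ cr (Lo v g w) (v s.2 - Fo v g (v k)) →
      0 < cr (v s.2 - v s.1) (Fo v g (v k) - v s.1) := by
  induction g with
  | nil =>
    intro _ s hs h1 h2
    change cr w (v s.1 - v k) ≤ -δ at h1
    change δ ≤ cr w (v s.2 - v k) at h2
    change 0 < cr (v s.2 - v s.1) (v k - v s.1)
    apply hs.2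
    · intro h
      rw [h, sub_self, cr_zero_right] at h1
      linarith
    · intro h
      rw [h, sub_self, cr_zero_right] at h2
      linarith
  | cons t g ih =>
    rintro ⟨b1, b2, b3, b4⟩ s hs h1 h2
    have hne := v_sub_ne hv b2.1
    have f1 := ih b1 t b2 b3 b4
    set u' := Lo v g w with hu'
    set P' := Fo v g (v k) with hP'
    change cr (rl (v t.2 - v t.1) u') (v s.1 - RR v t.1 t.2 P') ≤ -δ at h1
    change δ ≤ cr (rl (v t.2 - v t.1) u') (v s.2 - RR v t.1 t.2 P') at h2
    change 0 < cr (v s.2 - v s.1) (RR v t.1 t.2 P' - v s.1)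
    set u := rl (v t.2 - v t.1) u' with hu
    set P := RR v t.1 t.2 P' with hP
    have c1 : cr u (v t.1 - P) = - cr u' (v t.1 - P') := cr_after hne _ _ _ (RR_left v t.1 t.2)
    have c2 : cr u (v t.2 - P) = - cr u' (v t.2 - P') := cr_after hne _ _ _ (RR_right v hne)
    have c3 : cr (v t.2 - v t.1) (P - v t.1) < 0 := by
      rw [hP, ds_after hne]; linarith
    -- entrance point
    obtain ⟨σ, σ0, σ1, r, hr⟩ := cross_pt (v := v) (s := (t.2, t.1)) (u := u) (Y := P) (P := P) hδ
      (by change cr u (v t.2 - P) ≤ -δ; rw [c2]; linarith)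
      (by change δ ≤ cr u (v t.1 - P); rw [c1]; linarith)
      (by rw [sub_self, cr_zero_right, abs_zero]; exact hδ)
    set E := v t.2 + (σ : ℂ) * (v t.1 - v t.2) with hE
    change P = E + (r : ℂ) * u at hr
    have hEK : E ∈ KK v := side_point_mem_KK σ0.le σ1.le
    have hcu : 0 < cr (v t.2 - v t.1) u := by
      have e1 : cr u (v t.2 - v t.1) = cr u (v t.2 - P) - cr u (v t.1 - P) := by
        rw [← cr_sub_right]; congr 1; ring
      rw [cr_swap, e1, c1, c2]
      linarith
    have hr0 : r < 0 := by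
      have e1 : cr (v t.2 - v t.1) (P - v t.1) = r * cr (v t.2 - v t.1) u := by
        have e2 : P - v t.1 = ((1 - σ : ℝ) : ℂ) * (v t.2 - v t.1) + (r : ℂ) * u := by
          rw [hr, hE]; push_cast; ring
        rw [e2, cr_add_right, cr_smul_right, cr_smul_right, cr_self, mul_zero, zero_add]
      rw [e1] at c3
      by_contra hcon
      push Not at hcon
      have := mul_nonneg hcon hcu.le
      linarith
    have k1 := hs.cr_nonneg hEK
    have k2 : cr (v s.2 - v s.1) u < 0 := by
      have e1 : cr u (v s.2 - v s.1) = cr u (v s.2 - P) - cr u (v s.1 - P) := by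
        rw [← cr_sub_right]; congr 1; ring
      rw [cr_swap, e1]
      linarith
    have e3 : P - v s.1 = (E - v s.1) + (r : ℂ) * u := by rw [hr]; ring
    rw [e3, cr_add_right, cr_smul_right]
    have := mul_pos_of_neg_of_neg hr0 k2
    linarith

/-- two dimensional crossing lemma -/
theorem cross2 {u ζ a b : ℂ} {δ : ℝ} (hδ : 0 < δ) (ha : cr u a ≤ -δ) (hb : δ ≤ cr u b)
    (hζ : |cr u ζ| < δ) (h1 : 0 < cr a b) (h2 : cr (b - a) (ζ - a) < 0) :
    cr ζ a < 0 ∧ 0 < cr ζ b := by
  have hζ' := abs_lt.1 hζ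
  have e1 : cr (b - a) (ζ - a) = cr ζ a - cr ζ b + cr a b := by
    simp only [cr, sub_re, sub_im]; ring
  rw [e1] at h2
  have e2 : cr u ζ * cr a b = cr ζ b * cr u a - cr ζ a * cr u b := by
    simp only [cr]; ring
  set A := cr u a with hA
  set B := cr u b with hB
  set x := cr ζ b with hx
  set y := cr ζ a with hy
  set D := cr a b with hD
  constructor
  · by_contra hcon
    push Not at hcon
    -- y ≥ 0, x > D + y
    have h3 : D < x := by linarith
    have h4 : cr u ζ * D ≤ - δ * D := by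
      rw [e2]
      have h5 : x * A ≤ D * (-δ) := by nlinarith
      have h6 : 0 ≤ y * B := mul_nonneg hcon (by linarith)
      nlinarith
    have h5 : -δ * D < cr u ζ * D := by nlinarith
    linarith
  · by_contra hcon
    push Not at hcon
    -- x ≤ 0, -y > D
    have h3 : D < -y := by linarith
    have h4 : δ * D ≤ cr u ζ * D := by
      rw [e2]
      have h5 : D * δ ≤ -y * B := by nlinarith
      have h6 : 0 ≤ x * A := by nlinarith
      nlinarith
    have h5 : cr u ζ * D < δ * D := by nlinarith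
    linarith

/-- The segment from the vertex to a point ahead of the beam crosses the same sides. -/
theorem seg_cross (hv : ConvexIndependent ℝ v) {k : Fin n} {w y : ℂ} {δ : ℝ} (hδ : 0 < δ)
    (hy : |cr w (y - v k)| < δ) (g : List (Sd n)) : Bw v k w δ g →
    (∀ s : Sd n, ∀ g' : List (Sd n), g = s :: g' →
      0 < cr (v s.2 - v s.1) (Fo v g y - v s.1)) →
    Rz v g (v k) (y - v k) ∧ (∀ s : Sd n, g.getLast? = some s →
      IsSide v s.1 s.2 ∧ 0 < cr (v s.1 - v k) (v s.2 - v k) ∧
      cr (y - v k) (v s.1 - v k) < 0 ∧ 0 < cr (y - v k) (v s.2 - v k)) := by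
  induction g with
  | nil => intro _ _; exact ⟨trivial, by simp⟩
  | cons s g ih =>
    rintro ⟨b1, b2, b3, b4⟩ hah
    have hne := v_sub_ne hv b2.1
    have hahead := hah s g rfl
    have f1 := front hv hδ g b1 s b2 b3 b4
    set u' := Lo v g w with hu'
    set P' := Fo v g (v k) with hP'
    set Y' := Fo v g y with hY'
    change 0 < cr (v s.2 - v s.1) (RR v s.1 s.2 Y' - v s.1) at hahead
    rw [ds_after hne] at hahead
    have hYP : |cr u' (Y' - P')| < δ := by
      rw [hY', hP', Fo_sub, hu', abs_cr_Lo hv b1.val]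
      exact hy
    have hζ : Y' - P' = Lo v g (y - v k) := by rw [hY', hP', Fo_sub]
    have hx := cross2 (u := u') (ζ := Y' - P') (a := v s.1 - P') (b := v s.2 - P') hδ b3 b4 hYP
      (by
        have e1 : cr (v s.2 - v s.1) (P' - v s.1) = cr (v s.1 - P') (v s.2 - P') := by
          simp only [cr, sub_re, sub_im]; ring
        rw [← e1]; exact f1)
      (by
        have e1 : cr (v s.2 - P' - (v s.1 - P')) (Y' - P' - (v s.1 - P')) =
            cr (v s.2 - v s.1) (Y' - v s.1) := by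
          congr 1 <;> ring
        rw [e1]; linarith)
    have hIH := ih b1 (by
      intro t g' hg
      subst hg
      -- in the frame `t :: g'` the point is behind the exit side `s`, hence ahead of `t`
      obtain ⟨c1, c2, c3, c4⟩ := b1
      have hnet := v_sub_ne hv c2.1
      obtain ⟨σ, σ0, σ1, r, hr⟩ := cross_pt (v := v) (s := s) (u := u') (Y := Y') (P := P') hδ
        b3 b4 hYP
      set E := v s.1 + (σ : ℂ) * (v s.2 - v s.1) with hE
      have hEK : E ∈ KK v := side_point_mem_KK σ0.le σ1.le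
      have k2 : cr (v s.2 - v s.1) u' < 0 := by
        have e1 : cr u' (v s.2 - v s.1) = cr u' (v s.2 - P') - cr u' (v s.1 - P') := by
          rw [← cr_sub_right]; congr 1; ring
        rw [cr_swap, e1]
        linarith
      have hr0 : 0 < r := by
        have e1 : cr (v s.2 - v s.1) (Y' - v s.1) = r * cr (v s.2 - v s.1) u' := by
          have e2 : Y' - v s.1 = (σ : ℂ) * (v s.2 - v s.1) + (r : ℂ) * u' := by
            rw [hr, hE]; ring
          rw [e2, cr_add_right, cr_smul_right, cr_smul_right, cr_self, mul_zero, zero_add]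
        rw [e1] at hahead
        by_contra hcon
        push Not at hcon
        have := mul_nonneg_of_nonpos_of_nonpos hcon k2.le
        linarith
      have k1 := c2.cr_nonneg hEK
      have k3 : 0 < cr (v t.2 - v t.1) u' := by
        have d1 : u' = rl (v t.2 - v t.1) (Lo v g' w) := rfl
        have d2 : cr (Lo v g' w) (v t.2 - v t.1) =
            cr (Lo v g' w) (v t.2 - Fo v g' (v k)) - cr (Lo v g' w) (v t.1 - Fo v g' (v k)) := by
          rw [← cr_sub_right]; congr 1; ring
        rw [cr_swap, d1, cr_rl_left hnet, neg_neg, d2]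
        linarith
      have e3 : Y' - v t.1 = (E - v t.1) + (r : ℂ) * u' := by rw [hr]; ring
      rw [e3, cr_add_right, cr_smul_right]
      have := mul_pos hr0 k3
      linarith)
    refine ⟨⟨hIH.1, b2, ?_, ?_⟩, ?_⟩
    · have := hx.1
      rw [hζ, cr_sub_right] at this
      change cr (Lo v g (y - v k)) (v s.1) < cr (Lo v g (y - v k)) P'
      linarith
    · have := hx.2
      rw [hζ, cr_sub_right] at this
      change cr (Lo v g (y - v k)) P' < cr (Lo v g (y - v k)) (v s.2)
      linarith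
    · intro t ht
      cases g with
      | nil =>
        have hts : s = t := by simpa using ht
        subst hts
        refine ⟨b2, ?_, hx.1, hx.2⟩
        have e1 : cr (v s.2 - v s.1) (P' - v s.1) = cr (v s.1 - P') (v s.2 - P') := by
          simp only [cr, sub_re, sub_im]; ring
        rw [e1] at f1
        exact f1
      | cons t' g' =>
        rw [List.getLast?_cons_cons] at ht
        exact hIH.2 t ht

/-! ### outgoing directions -/

theorem exists_prev (hn : 3 ≤ n) (hv : ConvexIndependent ℝ v) (k : Fin n) :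
    ∃ p, IsSide v p k := by
  obtain ⟨p, hp⟩ := (nxt_bijective hn hv).2 k
  exact ⟨p, by rw [← hp]; exact nxt_side hn hv p⟩

/-- combinations of two vertices seen from `v k` -/
theorem out_comb (hn : 3 ≤ n) (hv : ConvexIndependent ℝ v) {k i j : Fin n} (hi : i ≠ k)
    (hj : j ≠ k) (hij : i ≠ j) {z : ℂ} (h0 : 0 < cr (v i - v k) (v j - v k))
    (h1 : cr z (v i - v k) < 0) (h2 : 0 < cr z (v j - v k)) : Out v k z := by
  obtain ⟨p, hp⟩ := exists_prev hn hv k
  have hq := nxt_side hn hv k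
  set q := nxt hn hv k with hqdef
  -- z = α (v i - v k) + β (v j - v k)
  have key : ∀ c : ℂ, cr (v i - v k) (v j - v k) * cr c z =
      cr z (v j - v k) * cr c (v i - v k) - cr z (v i - v k) * cr c (v j - v k) := by
    intro c; simp only [cr]; ring
  refine out_of_cone hn hq hp ?_ ?_
  · have k1 : 0 ≤ cr (v q - v k) (v i - v k) := hq.cr_nonneg_vert i
    have k2 : 0 ≤ cr (v q - v k) (v j - v k) := hq.cr_nonneg_vert j
    have k3 : 0 < cr (v q - v k) (v i - v k) ∨ 0 < cr (v q - v k) (v j - v k) := by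
      by_cases h : i = q
      · exact Or.inr (hq.2 j hj (by rw [← h]; exact hij.symm))
      · exact Or.inl (hq.2 i hi h)
    have k4 := key (v q - v k)
    have k5 : 0 < cr (v i - v k) (v j - v k) * cr (v q - v k) z := by
      rw [k4]
      rcases k3 with k3 | k3
      · have a1 := mul_pos h2 k3
        have a2 := mul_nonneg (neg_nonneg.2 h1.le) k2
        linarith
      · have a1 := mul_nonneg h2.le k1
        have a2 := mul_pos (neg_pos.2 h1) k3
        linarith
    have k6 : 0 < cr (v q - v k) z := (mul_pos_iff_of_pos_left h0).1 k5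
    rw [cr_swap]; linarith
  · have e0 : ∀ l, cr (v k - v p) (v l - v p) = cr (v l - v k) (v p - v k) := by
      intro l; simp only [cr, sub_re, sub_im]; ring
    have k1 : 0 ≤ cr (v i - v k) (v p - v k) := by rw [← e0]; exact hp.cr_nonneg_vert i
    have k2 : 0 ≤ cr (v j - v k) (v p - v k) := by rw [← e0]; exact hp.cr_nonneg_vert j
    have k3 : 0 < cr (v i - v k) (v p - v k) ∨ 0 < cr (v j - v k) (v p - v k) := by
      by_cases h : i = p
      · right; rw [← e0]; exact hp.2 j (by rw [← h]; exact hij.symm) hj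
      · left; rw [← e0]; exact hp.2 i h hi
    have k4 := key (v p - v k)
    have k5 : 0 < cr (v i - v k) (v j - v k) * cr z (v p - v k) := by
      rw [cr_swap z, mul_neg, k4]
      have s1 : cr (v p - v k) (v i - v k) = - cr (v i - v k) (v p - v k) := cr_swap _ _
      have s2 : cr (v p - v k) (v j - v k) = - cr (v j - v k) (v p - v k) := cr_swap _ _
      rw [s1, s2]
      rcases k3 with k3 | k3
      · have a1 := mul_pos h2 k3
        have a2 := mul_nonneg (neg_nonneg.2 h1.le) k2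
        linarith
      · have a1 := mul_nonneg h2.le k1
        have a2 := mul_pos (neg_pos.2 h1) k3
        linarith
    exact (mul_pos_iff_of_pos_left h0).1 k5

/-- A vertex in the beam ahead gives a generalized diagonal. -/
theorem gen_diag (hn : 3 ≤ n) (hv : ConvexIndependent ℝ v) {k l : Fin n} {w y : ℂ} {δ : ℝ}
    (hδ : 0 < δ) (hy : |cr w (y - v k)| < δ) {g : List (Sd n)} (hg0 : g ≠ [])
    (hB : Bw v k w δ g) (hyl : Fo v g y = v l) : y - v k ∈ Hd v k := by
  have hS := seg_cross hv hδ hy g hB (by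
    intro s g' hg
    subst hg
    obtain ⟨b1, b2, b3, b4⟩ := hB
    have hne := v_sub_ne hv b2.1
    rw [hyl]
    have hP : |cr (rl (v s.2 - v s.1) (Lo v g' w)) (v l - RR v s.1 s.2 (Fo v g' (v k)))| < δ := by
      have e1 : v l = Fo v (s :: g') y := hyl.symm
      have e2 : RR v s.1 s.2 (Fo v g' (v k)) = Fo v (s :: g') (v k) := rfl
      have e3 : rl (v s.2 - v s.1) (Lo v g' w) = Lo v (s :: g') w := rfl
      rw [e1, e2, e3, Fo_sub, abs_cr_Lo hv (b1.val.cons b2)]
      exact hy
    apply b2.2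
    · intro h
      have := cr_after hne (Lo v g' w) (Fo v g' (v k)) s.1 (RR_left v s.1 s.2)
      rw [h, this, abs_neg, abs_lt] at hP
      linarith
    · intro h
      have := cr_after hne (Lo v g' w) (Fo v g' (v k)) s.2 (RR_right v hne)
      rw [h, this, abs_neg, abs_lt] at hP
      linarith)
  refine ⟨?_, g, l, hS.1, ?_⟩
  · obtain ⟨s, hs⟩ : ∃ s, g.getLast? = some s := by
      cases h : g.getLast? with
      | none => exact absurd (List.getLast?_eq_none_iff.1 h) hg0
      | some s => exact ⟨s, rfl⟩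
    obtain ⟨a1, a2, a3, a4⟩ := hS.2 s hs
    refine out_comb hn hv ?_ ?_ a1.1 a2 a3 a4
    · intro h
      rw [h, sub_self, cr_zero_right] at a3
      exact lt_irrefl _ a3
    · intro h
      rw [h, sub_self, cr_zero_right] at a4
      exact lt_irrefl _ a4
  · rw [add_sub_cancel]; exact hyl

/-- The direct diagonals. -/
theorem gen_diag0 (hn : 3 ≤ n) (hv : ConvexIndependent ℝ v) {k l : Fin n} (hkl : l ≠ k)
    (h1 : ¬ IsSide v k l) (h2 : ¬ IsSide v l k) : v l - v k ∈ Hd v k := by
  obtain ⟨p, hp⟩ := exists_prev hn hv k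
  have hq := nxt_side hn hv k
  set q := nxt hn hv k with hqdef
  refine ⟨?_, [], l, trivial, by change v k + (v l - v k) = v l; ring⟩
  refine out_of_cone hn hq hp ?_ ?_
  · rw [cr_swap]
    have := hq.2 l hkl (fun h => h1 (by rw [h]; exact hq))
    linarith
  · have e0 : cr (v k - v p) (v l - v p) = cr (v l - v k) (v p - v k) := by
      simp only [cr, sub_re, sub_im]; ring
    rw [← e0]
    exact hp.2 l (fun h => h2 (by rw [h]; exact hp)) hkl

/-! ### first vertex in the beam -/

/-- some vertex of the frame lies in the open beam -/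
def Un1 (v : Fin n → ℂ) (k : Fin n) (w : ℂ) (δ : ℝ) (g : List (Sd n)) : Prop :=
  ∃ l, (g = [] → l ≠ k) ∧ |cr (Lo v g w) (v l - Fo v g (v k))| < δ

theorem dichotomy (hv : ConvexIndependent ℝ v) {k : Fin n} {x w : ℂ} {δ : ℝ}
    (hx : |cr w (x - v k)| < δ) (g : List (Sd n)) : Rz v g x w →
    (∃ g2 g1, g = g2 ++ g1 ∧ Un1 v k w δ g1 ∧ Bw v k w δ g1) ∨
    (Bw v k w δ g ∧ ¬ Un1 v k w δ g) ∨
    (∃ s : Sd n, IsSide v s.1 s.2 ∧ (k = s.1 ∨ k = s.2) ∧ cr w (v s.1) < cr w x ∧
      cr w x < cr w (v s.2)) := by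
  induction g with
  | nil =>
    intro _
    by_cases h : Un1 v k w δ []
    · exact Or.inl ⟨[], [], rfl, h, trivial⟩
    · exact Or.inr (Or.inl ⟨trivial, h⟩)
  | cons s g ih =>
    rintro ⟨h1, h2, h3, h4⟩
    rcases ih h1 with ⟨g2, g1, e1, e2, e3⟩ | ⟨e1, e2⟩ | e1
    · exact Or.inl ⟨s :: g2, g1, by rw [e1]; rfl, e2, e3⟩
    · by_cases hk : g = [] ∧ (k = s.1 ∨ k = s.2)
      · obtain ⟨hk1, hk2⟩ := hk
        subst hk1
        exact Or.inr (Or.inr ⟨s, h2, hk2, h3, h4⟩)
      · have hcl : ∀ j, (j = s.1 ∨ j = s.2) →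
            δ ≤ |cr (Lo v g w) (v j - Fo v g (v k))| := by
          intro j hj
          by_contra hcon
          push Not at hcon
          apply e2
          refine ⟨j, fun hg hjk => hk ⟨hg, ?_⟩, hcon⟩
          rw [← hjk]; exact hj
        have hξ : |cr (Lo v g w) (Fo v g x - Fo v g (v k))| < δ := by
          rw [Fo_sub, abs_cr_Lo hv h1.val]; exact hx
        have ha := hcl s.1 (Or.inl rfl)
        have hb := hcl s.2 (Or.inr rfl)
        rw [cr_sub_right] at ha hb hξ
        rw [abs_lt] at hξ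
        have ha' : cr (Lo v g w) (v s.1 - Fo v g (v k)) ≤ -δ := by
          rw [cr_sub_right]
          rcases le_abs.1 ha with h | h
          · linarith
          · linarith
        have hb' : δ ≤ cr (Lo v g w) (v s.2 - Fo v g (v k)) := by
          rw [cr_sub_right]
          rcases le_abs.1 hb with h | h
          · linarith
          · linarith
        have hB : Bw v k w δ (s :: g) := ⟨e1, h2, ha', hb'⟩
        by_cases hu : Un1 v k w δ (s :: g)
        · exact Or.inl ⟨[], s :: g, rfl, hu, hB⟩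
        · exact Or.inr (Or.inl ⟨hB, hu⟩)
    · exact Or.inr (Or.inr e1)

/-- almost parallel to a side at `k` -/
theorem par_side (hv : ConvexIndependent ℝ v) {k : Fin n} {x w : ℂ} {d1 c : ℝ} (hd : 0 < d1)
    (hx : x ∈ PP v) (hw1 : ‖w‖ < 1) (hw0 : 0 < ‖w‖) (hc : 0 ≤ c)
    (hcr : |cr w (x - v k)| ≤ c * ‖w‖) (hdt : d1 ≤ dt w (x - v k))
    {s : Sd n} (hs : IsSide v s.1 s.2) (hk : k = s.1 ∨ k = s.2)
    (h1 : cr w (v s.1) < cr w x) (h2 : cr w x < cr w (v s.2)) :
    |cr w (v s.2 - v s.1)| ≤ ‖v s.2 - v s.1‖ * c / d1 := by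
  set e := v s.2 - v s.1 with he
  have hce : 0 < cr w e := by rw [he, cr_sub_right]; linarith
  have h3 : 0 < cr e (x - v k) := by
    have h4 : 0 < cr e (x - v s.1) := hs.cr_pos hv hx
    rcases hk with rfl | rfl
    · exact h4
    · have : x - v s.2 = (x - v s.1) - e := by rw [he]; ring
      rw [this, cr_sub_right, cr_self, sub_zero]; exact h4
  have h5 := cr_dt w e (x - v k)
  have h6 : 0 < dt w e * cr w (x - v k) - cr w e * dt w (x - v k) := by
    rw [← h5]
    have : 0 < w.re ^ 2 + w.im ^ 2 := by rw [normsq_eq]; positivity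
    positivity
  have h7 : dt w e * cr w (x - v k) ≤ (‖w‖ * ‖e‖) * (c * ‖w‖) := by
    calc dt w e * cr w (x - v k) ≤ |dt w e * cr w (x - v k)| := le_abs_self _
      _ = |dt w e| * |cr w (x - v k)| := abs_mul _ _
      _ ≤ (‖w‖ * ‖e‖) * (c * ‖w‖) :=
        mul_le_mul (abs_dt_le w e) hcr (abs_nonneg _) (by positivity)
  have h8 : (‖w‖ * ‖e‖) * (c * ‖w‖) ≤ ‖e‖ * c := by
    have : ‖w‖ * ‖w‖ ≤ 1 := by nlinarith
    calc (‖w‖ * ‖e‖) * (c * ‖w‖) = (‖w‖ * ‖w‖) * (‖e‖ * c) := by ring
      _ ≤ 1 * (‖e‖ * c) := mul_le_mul_of_nonneg_right this (by positivity)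
      _ = _ := one_mul _
  rw [abs_of_pos hce, le_div_iff₀ hd]
  have h9 : cr w e * d1 ≤ cr w e * dt w (x - v k) := mul_le_mul_of_nonneg_left hdt hce.le
  linarith

theorem row : StHit := by
  intro n v C e0 hn hv G d1 hd1
  obtain ⟨D0, hD0, hD⟩ := exists_D (v := v)
  have hC := G.C1
  set Me := ∑ s ∈ SD v, ‖ed v s‖ with hMe
  have hMe0 : 0 ≤ Me := Finset.sum_nonneg (fun _ _ => norm_nonneg _)
  refine ⟨d1 / (4 * C), 2 * D0, 5 * C + Me * (2 * C) / d1, by positivity, by positivity,
    by positivity, ?_⟩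
  intro ε hε hε1 k p hpP hw0 hw1 hcr hdt u hu ⟨l, hl⟩
  have hεd : 4 * C * ε < d1 := by
    rw [lt_div_iff₀ (by positivity)] at hε1
    linarith
  have hwpos : 0 < ‖p.2‖ := by linarith
  obtain ⟨h1, h2⟩ := eM_cw (ε / 4) u p hu
  set T : ℝ := (u.length : ℝ) * (ε / 4) with hT
  rw [h1] at hl
  simp only at hl
  set g := cw u with hg
  set δ : ℝ := 5 * C * ε * ‖p.2‖ with hδ
  have hδ0 : 0 < δ := by positivity
  have hδ1 : δ ≤ 5 * C * ε := by
    rw [hδ]
    calc 5 * C * ε * ‖p.2‖ ≤ 5 * C * ε * 1 := by gcongr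
      _ = _ := mul_one _
  have hxb : |cr p.2 (p.1 - v k)| < δ := by
    refine hcr.trans_lt ?_
    rw [hδ]
    have : 0 < C * ε * ‖p.2‖ := by positivity
    nlinarith
  -- the frame of `g` contains a vertex in the beam
  have hun : Un1 v k p.2 δ g := by
    refine ⟨l, ?_, ?_⟩
    · intro hg0 hlk
      rw [hg0, hlk] at hl
      change ‖p.1 + (T : ℂ) * p.2 - v k‖ ≤ 2 * C * ε at hl
      have e1 : dt p.2 (p.1 + (T : ℂ) * p.2 - v k) = dt p.2 (p.1 - v k) + T * ‖p.2‖ ^ 2 := by
        have : p.1 + (T : ℂ) * p.2 - v k = (p.1 - v k) + (T : ℂ) * p.2 := by ring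
        rw [this, ← normsq_eq]
        simp only [dt, add_re, add_im, mul_re, mul_im, ofReal_re, ofReal_im]
        ring
      have e2 := abs_dt_le p.2 (p.1 + (T : ℂ) * p.2 - v k)
      have e3 : d1 ≤ |dt p.2 (p.1 + (T : ℂ) * p.2 - v k)| := by
        rw [e1]
        refine le_trans ?_ (le_abs_self _)
        have : 0 ≤ T * ‖p.2‖ ^ 2 := by positivity
        linarith
      have e4 : ‖p.2‖ * ‖p.1 + (T : ℂ) * p.2 - v k‖ ≤ 1 * (2 * C * ε) := by gcongr
      have : 0 < C * ε := by positivity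
      nlinarith
    · have e1 : v l - Fo v g (v k) = (v l - Fo v g (p.1 + (T : ℂ) * p.2)) +
          (Fo v g (p.1 + (T : ℂ) * p.2) - Fo v g (v k)) := by ring
      rw [e1, cr_add_right]
      have e2 : |cr (Lo v g p.2) (v l - Fo v g (p.1 + (T : ℂ) * p.2))| ≤ ‖p.2‖ * (2 * C * ε) := by
        refine (abs_cr_le _ _).trans ?_
        rw [norm_Lo hv h2.val, norm_sub_rev]
        gcongr
      have e3 : |cr (Lo v g p.2) (Fo v g (p.1 + (T : ℂ) * p.2) - Fo v g (v k))| ≤
          2 * C * ε * ‖p.2‖ := by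
        rw [Fo_sub, abs_cr_Lo hv h2.val]
        have : p.1 + (T : ℂ) * p.2 - v k = (p.1 - v k) + (T : ℂ) * p.2 := by ring
        rw [this, cr_add_right, cr_smul_right, cr_self, mul_zero, add_zero]
        exact hcr
      refine (abs_add_le _ _).trans_lt ?_
      rw [hδ]
      have : 0 < C * ε * ‖p.2‖ := by positivity
      nlinarith
  have hM1 : 5 * C * ε ≤ (5 * C + Me * (2 * C) / d1) * ε := by
    have : 0 ≤ Me * (2 * C) / d1 := by positivity
    nlinarith
  rcases dichotomy hv hxb g h2 with ⟨g2, g1, e1, ⟨l1, e2, e3⟩, e4⟩ | ⟨e1, e2⟩ | ⟨s, s1, s2, s3, s4⟩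
  · by_cases hg1 : g1 = []
    · -- frame zero
      subst hg1
      have hlk := e2 rfl
      change |cr p.2 (v l1 - v k)| < δ at e3
      by_cases t1 : IsSide v k l1
      · left
        refine ⟨(k, l1), mem_SD.2 t1, Or.inl rfl, ?_⟩
        change |cr p.2 (v l1 - v k)| ≤ _
        linarith
      · by_cases t2 : IsSide v l1 k
        · left
          refine ⟨(l1, k), mem_SD.2 t2, Or.inr rfl, ?_⟩
          change |cr p.2 (v k - v l1)| ≤ _
          have : v k - v l1 = -(v l1 - v k) := by ring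
          rw [this, cr_neg_right, abs_neg]
          linarith
        · right
          refine ⟨v l1 - v k, gen_diag0 hn hv hlk t1 t2, ?_, ?_⟩
          · have := hD (v k) (vert_mem_KK k) l1
            have : 0 ≤ T := by positivity
            linarith
          · linarith
    · right
      have hval : Val v g1 := e4.val
      set y := Un v g1 (v l1) with hy
      have hFy : Fo v g1 y = v l1 := Fo_Un hv hval _
      have hyb : |cr p.2 (y - v k)| < δ := by
        rw [← abs_cr_Lo hv hval, ← Fo_sub, hFy]; exact e3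
      refine ⟨y - v k, gen_diag hn hv hδ0 hyb hg1 e4 hFy, ?_, by linarith⟩
      obtain ⟨t, t0, t1, t2⟩ := visit (by positivity : (0 : ℝ) ≤ ε / 4) u p hu g2 g1 e1
      have b1 := hD _ (PP_sub_KK t2) l1
      have b2 : ‖y - (p.1 + (t : ℂ) * p.2)‖ ≤ D0 := by
        have := dist_Fo hv hval y (p.1 + (t : ℂ) * p.2)
        rw [dist_eq_norm, dist_eq_norm, hFy] at this
        rw [← this]; exact b1
      have b3 := hD p.1 (PP_sub_KK hpP) k
      have b4 : y - v k = (y - (p.1 + (t : ℂ) * p.2)) + ((t : ℂ) * p.2 + (p.1 - v k)) := by ring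
      rw [b4]
      have b5 : ‖(t : ℂ) * p.2‖ ≤ T := by
        rw [norm_mul, norm_real, Real.norm_eq_abs, abs_of_nonneg t0]
        calc t * ‖p.2‖ ≤ T * 1 := mul_le_mul t1 hw1.le (norm_nonneg _) (by positivity)
          _ = T := mul_one _
      have b6 : ‖p.1 - v k‖ ≤ D0 := by rw [norm_sub_rev]; exact b3
      calc _ ≤ ‖y - (p.1 + (t : ℂ) * p.2)‖ + ‖(t : ℂ) * p.2 + (p.1 - v k)‖ := norm_add_le _ _
        _ ≤ ‖y - (p.1 + (t : ℂ) * p.2)‖ + (‖(t : ℂ) * p.2‖ + ‖p.1 - v k‖) := by
          gcongr; exact norm_add_le _ _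
        _ ≤ T + 2 * D0 := by linarith
  · exact absurd hun e2
  · left
    refine ⟨s, mem_SD.2 s1, s2, ?_⟩
    have h5 := par_side hv hd1 hpP hw1 hwpos (by positivity : (0 : ℝ) ≤ 2 * C * ε) hcr hdt s1 s2 s3 s4
    change |cr p.2 (v s.2 - v s.1)| ≤ _
    refine h5.trans ?_
    have h6 : ‖v s.2 - v s.1‖ ≤ Me :=
      Finset.single_le_sum (f := fun s => ‖ed v s‖) (fun _ _ => norm_nonneg _) (mem_SD.2 s1)
    calc ‖v s.2 - v s.1‖ * (2 * C * ε) / d1 ≤ Me * (2 * C * ε) / d1 := by gcongr
      _ = (Me * (2 * C) / d1) * ε := by ring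
      _ ≤ _ := by
        have : 0 ≤ 5 * C * ε := by positivity
        nlinarith

end Pool.Agent.Lib.BilE.Hit17
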