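import Pool.Agent.Lib.MP_7bc51d_an_erg.Defs
import Pool.Agent.Lib.MP_7bc51d_an_dense.Lim89

/-!
# Small energy along a sequence of scales makes an angular mode constant
-/

set_option autoImplicit false

namespace Pool.Agent.Lib.BilE.Lim89

open Complex MeasureTheory Set Filter Topology
open scoped ComplexConjugate
open Pool.Agent.Lib.Bil Pool.Agent.Lib.BilD Pool.Agent.Lib.BilD.Lim89

variable {n : ℕ} {v : Fin n → ℂ} {F : ℂ → ℝ → ℝ} {C e0 ε : ℝ} {p : ℕ} {L : ℂ →L[ℝ] ℝ}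

/-- a real part of a mode -/
noncomputable def aL (L : ℂ →L[ℝ] ℝ) (v : Fin n → ℂ) (F : ℂ → ℝ → ℝ) (p : ℕ) (x : ℂ) : ℝ :=
  L (am v F p x)

/-- a real part of the mollified mode -/
noncomputable def uL (L : ℂ →L[ℝ] ℝ) (v : Fin n → ℂ) (F : ℂ → ℝ → ℝ) (p : ℕ) (ε : ℝ) (x : ℂ) : ℝ :=
  ∫ z, et ε (x - z) * aL L v F p z

/-- energy density -/
noncomputable def en (v : Fin n → ℂ) (F : ℂ → ℝ → ℝ) (p : ℕ) (ε : ℝ) (x : ℂ) : ℝ :=
  ‖dz (um v F p ε) x‖ ^ 2 + ‖dzb (um v F p ε) x‖ ^ 2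

theorem am_int (hG : Geo v C e0) (hF : LFS v F) (p : ℕ) : Integrable (am v F p) := by
  obtain ⟨M, hM0, hM⟩ := exists_bound hG.edn
  have h1 : IntegrableOn (am v F p) (Metric.closedBall 0 M) := by
    refine Measure.integrableOn_of_bounded (M := ((n : ℝ) ^ 2 + 1) * (volume BV).toReal)
      (isCompact_closedBall (0 : ℂ) M).measure_lt_top.ne (am_meas hF.lf p).aestronglyMeasurable
      (Eventually.of_forall (fun x => am_bound hF p x))
  have h2 : Function.support (am v F p) ⊆ Metric.closedBall 0 M := by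
    intro x hx
    by_contra hcon
    rw [mem_closedBall_zero_iff, not_le] at hcon
    exact hx (am_supp (F := F) hM p hcon)
  rwa [integrableOn_iff_integrable_of_support_subset h2] at h1

theorem aL_int (hG : Geo v C e0) (hF : LFS v F) : Integrable (aL L v F p) :=
  L.integrable_comp (am_int hG hF p)

theorem um_int (hG : Geo v C e0) (hF : LFS v F) {q : ℂ → ℝ} (hq : Continuous q)
    (hqb : ∃ B, ∀ y, ‖q y‖ ≤ B) : Integrable (fun y => (q y : ℂ) * am v F p y) := by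
  obtain ⟨B, hB⟩ := hqb
  refine (am_int hG hF p).bdd_mul (c := B) ?_ (Eventually.of_forall (fun y => ?_))
  · exact (continuous_ofReal.comp hq).aestronglyMeasurable
  · rw [norm_real]; exact hB y

theorem L_mul (r : ℝ) (z : ℂ) : L ((r : ℂ) * z) = r * L z := by
  rw [← real_smul, map_smul, smul_eq_mul]

theorem uL_eq (hG : Geo v C e0) (hF : LFS v F) (_ : 0 < ε) (x : ℂ) :
    uL L v F p ε x = L (um v F p ε x) := by
  unfold uL um
  rw [← ContinuousLinearMap.integral_comp_comm L]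
  · refine integral_congr_ae (Eventually.of_forall (fun z => ?_))
    simp only [L_mul]
    rfl
  · refine um_int hG hF (q := fun y => et ε (x - y))
      ((et_cont ε).comp (continuous_const.sub continuous_id)) ⟨(ε ^ 2)⁻¹, fun y => ?_⟩
    rw [Real.norm_eq_abs, abs_of_nonneg (et_nonneg ε _)]
    exact et_le ε _

theorem uL_fun (hG : Geo v C e0) (hF : LFS v F) (hε : 0 < ε) :
    uL L v F p ε = fun x => L (um v F p ε x) := funext (uL_eq hG hF hε)

theorem uL_contDiff (hSmo : StSmo) (hG : Geo v C e0) (hF : LFS v F) (hε : 0 < ε) :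
    ContDiff ℝ 1 (uL L v F p ε) := by
  rw [uL_fun hG hF hε]
  exact (L.contDiff.comp ((hSmo n v C e0 hG F hF ε hε p).1)).of_le (by norm_num)

theorem fderiv_uL (hSmo : StSmo) (hG : Geo v C e0) (hF : LFS v F) (hε : 0 < ε) (x h : ℂ) :
    fderiv ℝ (uL L v F p ε) x h = L (fderiv ℝ (um v F p ε) x h) := by
  have h0 := (hSmo n v C e0 hG F hF ε hε p).1
  have h1 : HasFDerivAt (um v F p ε) (fderiv ℝ (um v F p ε) x) x :=
    (h0.differentiable (by norm_num) x).hasFDerivAt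
  have h2 := (L.hasFDerivAt (x := um v F p ε x)).comp x h1
  have h3 : fderiv ℝ (uL L v F p ε) x = L.comp (fderiv ℝ (um v F p ε) x) := by
    rw [uL_fun hG hF hε]
    exact h2.fderiv
  rw [h3]
  rfl

theorem fderiv_uL2 (hSmo : StSmo) (hG : Geo v C e0) (hF : LFS v F) (hε : 0 < ε) (x h : ℂ) :
    fderiv ℝ (uL L v F p ε) x h = ∫ y, fderiv ℝ (et ε) (x - y) h * aL L v F p y := by
  rw [fderiv_uL hSmo hG hF hε, (hSmo n v C e0 hG F hF ε hε p).2 x h,
    ← ContinuousLinearMap.integral_comp_comm L]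
  · refine integral_congr_ae (Eventually.of_forall (fun z => ?_))
    simp only [L_mul]
    rfl
  · have hc : Continuous (fun y => fderiv ℝ (et ε) (x - y) h) :=
      ((((et_contDiff ε).continuous_fderiv (by simp)).comp
        (continuous_const.sub continuous_id))).clm_apply continuous_const
    obtain ⟨B, hB, hB2⟩ := exists_fderiv_et_bound
    refine um_int hG hF hc ⟨B / ε ^ 3 * ‖h‖, fun y => ?_⟩
    exact hB2 ε hε (x - y) h

theorem uL_le (hSmo : StSmo) (hG : Geo v C e0) (hF : LFS v F) (hε : 0 < ε)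
    (hL : ∀ z, |L z| ≤ ‖z‖) (x : ℂ) {h : ℂ}
    (hh : h = 1 ∨ h = I) : |fderiv ℝ (uL L v F p ε) x h| ≤ 2 * √(en v F p ε x) := by
  rw [fderiv_uL hSmo hG hF hε]
  refine (hL _).trans ?_
  have e1 : fderiv ℝ (um v F p ε) x 1 = dz (um v F p ε) x + dzb (um v F p ε) x := by
    unfold dz dzb; ring
  have e2 : fderiv ℝ (um v F p ε) x I = I * (dz (um v F p ε) x - dzb (um v F p ε) x) := by
    unfold dz dzb
    have hI : I * I = -1 := I_mul_I
    linear_combination (fderiv ℝ (um v F p ε) x I) * hI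
  have h1 : ‖fderiv ℝ (um v F p ε) x h‖ ≤ ‖dz (um v F p ε) x‖ + ‖dzb (um v F p ε) x‖ := by
    rcases hh with rfl | rfl
    · rw [e1]; exact norm_add_le _ _
    · rw [e2, norm_mul, norm_I, one_mul]; exact norm_sub_le _ _
  refine h1.trans ?_
  have h2 : ‖dz (um v F p ε) x‖ ≤ √(en v F p ε x) := by
    apply Real.le_sqrt_of_sq_le
    unfold en
    nlinarith [sq_nonneg ‖dzb (um v F p ε) x‖]
  have h3 : ‖dzb (um v F p ε) x‖ ≤ √(en v F p ε x) := by
    apply Real.le_sqrt_of_sq_le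
    unfold en
    nlinarith [sq_nonneg ‖dz (um v F p ε) x‖]
  linarith

theorem en_nonneg (x : ℂ) : 0 ≤ en v F p ε x := by
  unfold en; positivity

theorem en_cont (hSmo : StSmo) (hG : Geo v C e0) (hF : LFS v F) (hε : 0 < ε) :
    Continuous (en v F p ε) := by
  have h1 := (hSmo n v C e0 hG F hF ε hε p).1
  have h2 : Continuous (fderiv ℝ (um v F p ε)) := h1.continuous_fderiv (by norm_num)
  have h3 : Continuous (dz (um v F p ε)) := by
    unfold dz
    exact ((h2.clm_apply continuous_const).sub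
      (continuous_const.mul (h2.clm_apply continuous_const))).div_const 2
  have h4 : Continuous (dzb (um v F p ε)) := by
    unfold dzb
    exact ((h2.clm_apply continuous_const).add
      (continuous_const.mul (h2.clm_apply continuous_const))).div_const 2
  unfold en
  exact (h3.norm.pow 2).add (h4.norm.pow 2)

theorem K3a (hSmo : StSmo) (hWP : StWP) (hG : Geo v C e0) (hF : LFS v F)
    (hL : ∀ z, |L z| ≤ ‖z‖) {x0 : ℂ} {d ρ t : ℝ}
    (hd : 0 < d) (hsub : Metric.closedBall x0 d ⊆ PP v)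
    (hρ1 : ∀ y ∈ Metric.closedBall x0 d, ∀ k, ρ ≤ ‖y - v k‖) {h : ℂ} (hh : h = 1 ∨ h = I)
    (hε : 0 < ε) (hε1 : 2 * C * ε ≤ ρ) (ht : 0 < t) (y : ℂ) :
    ‖fderiv ℝ (uL L v F p ε) y h * ph d x0 y‖ ≤ (PP v).indicator
      (fun y => t * ph d x0 y ^ 2 + (1 / t) * (WW v C ε y * en v F p ε y)) y := by
  obtain ⟨w1, w2, w3, w4⟩ := (hWP n v C e0 hG).1 ε hε
  by_cases hy : y ∈ Metric.closedBall x0 d
  · rw [indicator_of_mem (hsub hy), Real.norm_eq_abs, abs_mul, abs_of_nonneg (ph_nonneg d x0 y),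
      w4 y (fun k => hε1.trans (hρ1 y hy k)), one_mul]
    have h1 := amgm (uL_le (p := p) hSmo hG hF hε hL y hh) (ph_nonneg d x0 y) ht
    rwa [Real.sq_sqrt (en_nonneg y)] at h1
  · rw [ph_zero hd hy, mul_zero, norm_zero]
    refine indicator_nonneg (fun z _ => ?_) y
    have h1 := (w2 z).1
    exact add_nonneg (mul_nonneg ht.le (sq_nonneg _))
      (mul_nonneg (by positivity) (mul_nonneg h1 (en_nonneg _)))

theorem K3b (hSmo : StSmo) (hWP : StWP) (hG : Geo v C e0) (hF : LFS v F)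
    (hL : ∀ z, |L z| ≤ ‖z‖) {x0 : ℂ} {d ρ t : ℝ}
    (hd : 0 < d) (hsub : Metric.closedBall x0 d ⊆ PP v)
    (hρ1 : ∀ y ∈ Metric.closedBall x0 d, ∀ k, ρ ≤ ‖y - v k‖) {h : ℂ} (hh : h = 1 ∨ h = I)
    (hε : 0 < ε) (hε1 : 2 * C * ε ≤ ρ) (ht : 0 < t) :
    |∫ y, fderiv ℝ (uL L v F p ε) y h * ph d x0 y| ≤ t * (∫ y in PP v, ph d x0 y ^ 2) +
      (1 / t) * ∫ y in PP v, WW v C ε y * en v F p ε y := by
  obtain ⟨w1, w2, w3, w4⟩ := (hWP n v C e0 hG).1 ε hε
  have hint : ∀ q : ℂ → ℝ, Continuous q → IntegrableOn q (PP v) := fun q hq =>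
    (hq.continuousOn.integrableOn_compact isCompact_KK).mono_set PP_sub_KK
  have hi1 : IntegrableOn (fun y => t * ph d x0 y ^ 2) (PP v) :=
    hint _ (continuous_const.mul (((ph_contDiff d x0).continuous).pow 2))
  have hi2 : IntegrableOn (fun y => (1 / t) * (WW v C ε y * en v F p ε y)) (PP v) :=
    hint _ (continuous_const.mul (w1.continuous.mul (en_cont hSmo hG hF hε)))
  have h1 : |∫ y, fderiv ℝ (uL L v F p ε) y h * ph d x0 y| ≤
      ∫ y, (PP v).indicator (fun y => t * ph d x0 y ^ 2 +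
        (1 / t) * (WW v C ε y * en v F p ε y)) y := by
    rw [← Real.norm_eq_abs]
    exact norm_integral_le_of_norm_le ((hi1.add hi2).integrable_indicator meas_PP)
      (Eventually.of_forall (K3a hSmo hWP hG hF hL hd hsub hρ1 hh hε hε1 ht))
  rw [integral_indicator meas_PP, integral_add hi1 hi2, integral_const_mul,
    integral_const_mul] at h1
  exact h1

/-- small energy along a sequence of scales -/
def SE (v : Fin n → ℂ) (F : ℂ → ℝ → ℝ) (C : ℝ) (p : ℕ) : Prop :=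
  ∀ η > 0, ∀ r0 > 0, ∃ ε, 0 < ε ∧ ε < r0 ∧ ∫ x in PP v, WW v C ε x * en v F p ε x ≤ η

theorem K3 (hSmo : StSmo) (hWP : StWP) (hn : 3 ≤ n) (hv : ConvexIndependent ℝ v)
    (hG : Geo v C e0) (hF : LFS v F) (hL : ∀ z, |L z| ≤ ‖z‖) (hE : SE v F C p) {x0 : ℂ} {d : ℝ}
    (hd : 0 < d) (hsub : Metric.closedBall x0 d ⊆ PP v) {h : ℂ} (hh : h = 1 ∨ h = I) {δ r0 : ℝ}
    (hδ : 0 < δ) (hr0 : 0 < r0) :
    ∃ ε, 0 < ε ∧ ε < r0 ∧ |∫ y, fderiv ℝ (uL L v F p ε) y h * ph d x0 y| ≤ δ := by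
  have hC : 0 < C := lt_of_lt_of_le one_pos hG.C1
  obtain ⟨ρ, hρ, hρ1⟩ := vertex_dist hn hv hG hsub
  obtain ⟨S, hS⟩ : ∃ S : ℝ, S = ∫ y in PP v, ph d x0 y ^ 2 := ⟨_, rfl⟩
  have hS0 : 0 ≤ S := by
    rw [hS]; exact integral_nonneg (fun y => sq_nonneg _)
  obtain ⟨t, ht⟩ : ∃ t : ℝ, t = δ / (2 * (S + 1)) := ⟨_, rfl⟩
  have ht0 : 0 < t := by rw [ht]; positivity
  obtain ⟨ε, hε, hε1, hε2⟩ := hE (t * δ / 2) (by positivity)
    (min r0 (ρ / (2 * C))) (lt_min hr0 (by positivity))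
  refine ⟨ε, hε, hε1.trans_le (min_le_left _ _), ?_⟩
  have h2 : ε < ρ / (2 * C) := hε1.trans_le (min_le_right _ _)
  rw [lt_div_iff₀ (by positivity)] at h2
  have h1 := K3b hSmo hWP hG hF hL hd hsub hρ1 hh hε (by linarith) ht0 (p := p)
  rw [← hS] at h1
  have h3 : t * S ≤ δ / 2 := by
    rw [ht, div_mul_eq_mul_div, div_le_div_iff₀ (by positivity) (by positivity)]
    nlinarith
  have h4 : 1 / t * ∫ y in PP v, WW v C ε y * en v F p ε y ≤ δ / 2 := by
    calc 1 / t * ∫ y in PP v, WW v C ε y * en v F p ε y ≤ 1 / t * (t * δ / 2) :=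
          mul_le_mul_of_nonneg_left hε2 (by positivity)
      _ = δ / 2 := by field_simp
  linarith

/-- the derivative of the mollification vanishes -/
theorem D0 (hSmo : StSmo) (hWP : StWP) (hn : 3 ≤ n) (hv : ConvexIndependent ℝ v)
    (hG : Geo v C e0) (hF : LFS v F) (hL : ∀ z, |L z| ≤ ‖z‖) (hE : SE v F C p) {x0 : ℂ} {d : ℝ}
    (hd : 0 < d) (hsub : Metric.closedBall x0 d ⊆ PP v) {h : ℂ} (hh : h = 1 ∨ h = I) :
    fderiv ℝ (uL L v F p d) x0 h = 0 := by
  have hcd : Continuous (fderiv ℝ (ph d x0)) := (ph_contDiff d x0).continuous_fderiv (by norm_num)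
  set ψ : ℂ → ℝ := fun y => fderiv ℝ (ph d x0) y h with hψ
  have hψc : Continuous ψ := hcd.clm_apply continuous_const
  have hψs : HasCompactSupport ψ := (ph_compact hd x0).fderiv_apply ℝ h
  have hgi : Integrable (aL L v F p) := aL_int hG hF
  have hval : fderiv ℝ (uL L v F p d) x0 h = - ∫ y, ψ y * aL L v F p y := by
    rw [fderiv_uL2 hSmo hG hF hd, ← integral_neg]
    refine integral_congr_ae (Eventually.of_forall (fun y => ?_))
    simp only [hψ, fderiv_ph]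
    ring
  have hkey : Z0 * ∫ y, ψ y * aL L v F p y = 0 := by
    by_contra hne
    have hpos : 0 < |Z0 * ∫ y, ψ y * aL L v F p y| := abs_pos.2 hne
    set A : ℝ := ∫ z, |aL L v F p z| with hA
    have hA0 : 0 ≤ A := integral_nonneg (fun z => abs_nonneg _)
    set P : ℝ := |Z0 * ∫ y, ψ y * aL L v F p y| with hP
    have hZ := Z0_pos
    have huc : UniformContinuous ψ := hψs.uniformContinuous_of_continuous hψc
    obtain ⟨r0, hr0, hr1⟩ := Metric.uniformContinuous_iff.1 huc (P / (4 * Z0 * (A + 1)))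
      (by positivity)
    obtain ⟨ε, hε, hε1, hε2⟩ := K3 hSmo hWP hn hv hG hF hL hE hd hsub hh (δ := P / 4) (r0 := r0)
      (by positivity) hr0
    have hω : ∀ y z, ‖y - z‖ ≤ ε → |ψ y - ψ z| ≤ P / (4 * Z0 * (A + 1)) := by
      intro y z hyz
      have := hr1 (a := y) (b := z) (by rw [dist_eq_norm]; linarith)
      rw [Real.dist_eq] at this
      exact this.le
    have h1 := K1 hgi hψc hψs hε hω
    have h2 : (∫ y, ψ y * ∫ z, et ε (y - z) * aL L v F p z) =
        - ∫ y, fderiv ℝ (uL L v F p ε) y h * ph d x0 y :=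
      K2 ((ph_contDiff d x0).of_le (by norm_num)) (ph_compact hd x0) (uL_contDiff hSmo hG hF hε) h
    rw [h2] at h1
    have h3 : Z0 * (P / (4 * Z0 * (A + 1))) * A ≤ P / 4 := by
      have e : Z0 * (P / (4 * Z0 * (A + 1))) * A = P / 4 * (A / (A + 1)) := by
        field_simp
      rw [e]
      have h4 : A / (A + 1) ≤ 1 := by
        rw [div_le_one (by positivity)]; linarith
      calc P / 4 * (A / (A + 1)) ≤ P / 4 * 1 := mul_le_mul_of_nonneg_left h4 (by positivity)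
        _ = P / 4 := mul_one _
    have h5 : P ≤ |(-∫ y, fderiv ℝ (uL L v F p ε) y h * ph d x0 y) -
        Z0 * ∫ y, ψ y * aL L v F p y| + |∫ y, fderiv ℝ (uL L v F p ε) y h * ph d x0 y| := by
      rw [hP]
      set a := ∫ y, fderiv ℝ (uL L v F p ε) y h * ph d x0 y
      set b := Z0 * ∫ y, ψ y * aL L v F p y
      have : b = -((-a) - b) - a := by ring
      calc |b| = |-((-a) - b) - a| := by rw [← this]
        _ ≤ |-((-a) - b)| + |a| := abs_sub _ _
        _ = _ := by rw [abs_neg]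
    linarith
  rw [hval]
  rcases mul_eq_zero.1 hkey with h0 | h0
  · exact absurd h0 Z0_pos.ne'
  · rw [h0, neg_zero]

theorem fderiv_zero (hSmo : StSmo) (hWP : StWP) (hn : 3 ≤ n) (hv : ConvexIndependent ℝ v)
    (hG : Geo v C e0) (hF : LFS v F) (hL : ∀ z, |L z| ≤ ‖z‖) (hE : SE v F C p) {x0 : ℂ} {d : ℝ}
    (hd : 0 < d) (hsub : Metric.closedBall x0 d ⊆ PP v) : fderiv ℝ (uL L v F p d) x0 = 0 := by
  have h1 := D0 hSmo hWP hn hv hG hF hL hE hd hsub (h := 1) (Or.inl rfl)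
  have h2 := D0 hSmo hWP hn hv hG hF hL hE hd hsub (h := I) (Or.inr rfl)
  ext w
  have hw : w = w.re • (1 : ℂ) + w.im • I := by
    rw [real_smul, real_smul, mul_one]
    exact (re_add_im w).symm
  rw [hw, map_add, map_smul, map_smul, h1, h2]
  simp

theorem uL_const (hSmo : StSmo) (hWP : StWP) (hn : 3 ≤ n) (hv : ConvexIndependent ℝ v)
    (hG : Geo v C e0) (hF : LFS v F) (hL : ∀ z, |L z| ≤ ‖z‖) (hE : SE v F C p) {x y : ℂ} {d : ℝ}
    (hd : 0 < d) (hx : Metric.closedBall x d ⊆ PP v) (hy : Metric.closedBall y d ⊆ PP v) :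
    uL L v F p d x = uL L v F p d y := by
  have h1 := (convex_PPd (v := v) d).norm_image_sub_le_of_norm_fderiv_le (f := uL L v F p d)
    (C := 0)
    (fun z _ => (uL_contDiff hSmo hG hF hd).differentiable one_ne_zero z)
    (fun z hz => by rw [fderiv_zero hSmo hWP hn hv hG hF hL hE hd hz, norm_zero]) hy hx
  rw [zero_mul] at h1
  exact sub_eq_zero.1 (norm_le_zero_iff.1 h1)

theorem aL_const (hSmo : StSmo) (hWP : StWP) (hn : 3 ≤ n) (hv : ConvexIndependent ℝ v)
    (hG : Geo v C e0) (hF : LFS v F) (hL : ∀ z, |L z| ≤ ‖z‖) (hE : SE v F C p) :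
    ∃ c : ℝ, ∀ᵐ x, x ∈ PP v → aL L v F p x = c := by
  have hgi : Integrable (aL L v F p) := aL_int hG hF
  have hleb : ∀ᵐ x : ℂ, Tendsto (fun d => uL L v F p d x) (𝓝[>] 0) (𝓝 (Z0 * aL L v F p x)) := by
    filter_upwards [IsUnifLocDoublingMeasure.ae_tendsto_average_norm_sub
      (μ := (volume : Measure ℂ)) hgi.locallyIntegrable 1] with x hx
    have h1 := hx (fun _ : ℝ => x) (fun d : ℝ => d) (l := 𝓝[>] 0) tendsto_id (by
      filter_upwards [self_mem_nhdsWithin] with d hd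
      rw [one_mul]
      exact Metric.mem_closedBall_self (le_of_lt hd))
    have h2 := h1.const_mul Real.pi
    rw [mul_zero] at h2
    rw [tendsto_iff_norm_sub_tendsto_zero]
    refine squeeze_zero' (Eventually.of_forall (fun d => norm_nonneg _)) ?_ h2
    filter_upwards [self_mem_nhdsWithin] with d hd
    rw [Real.norm_eq_abs]
    exact leb_est hgi x hd
  have hne : (volume (PP v)) ≠ 0 :=
    (isOpen_PP.measure_pos volume (PP_nonempty hn hv)).ne'
  obtain ⟨x1, hx1, hx1P⟩ : ∃ x1,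
      Tendsto (fun d => uL L v F p d x1) (𝓝[>] 0) (𝓝 (Z0 * aL L v F p x1)) ∧ x1 ∈ PP v := by
    by_contra hcon
    push Not at hcon
    apply hne
    have h3 : volume {x | ¬ Tendsto (fun d => uL L v F p d x) (𝓝[>] 0)
        (𝓝 (Z0 * aL L v F p x))} = 0 := hleb
    exact measure_mono_null (fun x hx h => hcon x h hx) h3
  refine ⟨aL L v F p x1, ?_⟩
  filter_upwards [hleb] with x hx hxP
  obtain ⟨d1, hd1, hd1s⟩ := Metric.nhds_basis_closedBall.mem_iff.1 (isOpen_PP.mem_nhds hxP)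
  obtain ⟨d2, hd2, hd2s⟩ := Metric.nhds_basis_closedBall.mem_iff.1 (isOpen_PP.mem_nhds hx1P)
  have h4 : ∀ᶠ d in 𝓝[>] (0 : ℝ), uL L v F p d x = uL L v F p d x1 := by
    have h5 : Ioo (0 : ℝ) (min d1 d2) ∈ 𝓝[>] (0 : ℝ) := Ioo_mem_nhdsGT (lt_min hd1 hd2)
    filter_upwards [h5] with d hd
    have a1 : d ≤ d1 := (hd.2.trans_le (min_le_left _ _)).le
    have a2 : d ≤ d2 := (hd.2.trans_le (min_le_right _ _)).le
    exact uL_const hSmo hWP hn hv hG hF hL hE hd.1
      ((Metric.closedBall_subset_closedBall a1).trans hd1s)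
      ((Metric.closedBall_subset_closedBall a2).trans hd2s)
  have h6 : Z0 * aL L v F p x = Z0 * aL L v F p x1 :=
    tendsto_nhds_unique (hx.congr' h4) hx1
  exact mul_left_cancel₀ Z0_pos.ne' h6

/-- (LIM3) -/
theorem row (hWP : StWP) (hSmo : StSmo) : StLim3 := by
  intro n v C e0 hn hv hG F hF p hE
  obtain ⟨c1, h1⟩ := aL_const (L := reCLM) hSmo hWP hn hv hG hF (p := p)
    (fun z => abs_re_le_norm z) hE
  obtain ⟨c2, h2⟩ := aL_const (L := imCLM) hSmo hWP hn hv hG hF (p := p)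
    (fun z => abs_im_le_norm z) hE
  refine ⟨(c1 : ℂ) + (c2 : ℂ) * I, ?_⟩
  filter_upwards [h1, h2] with x hx1 hx2 hxP
  have e1 : (am v F p x).re = c1 := hx1 hxP
  have e2 : (am v F p x).im = c2 := hx2 hxP
  rw [← e1, ← e2]
  exact (re_add_im _).symm

end Pool.Agent.Lib.BilE.Lim89
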