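import Pool.Agent.Lib.MP_7bc51d_an_erg.BadVol16

set_option autoImplicit false

/-!
Row MAIN: gradient energy near the vertices.
-/

namespace Pool.Agent.Lib.BilE.Main16

open Complex MeasureTheory Set Filter Topology
open scoped ComplexConjugate
open Pool.Agent.Lib.Bil Pool.Agent.Lib.BilD Pool.Agent.Lib.BilE
open Pool.Agent.Lib.BilE.BadVol16

variable {n : ℕ} {v : Fin n → ℂ}

theorem OO_append' (h : ℝ) (u u' : List (Option (Fin n × Fin n))) :
    ∀ p : ℂ × ℂ, p ∈ Bil.OO v h u → eM v h u p ∈ Bil.OO v h u' → p ∈ Bil.OO v h (u ++ u') := by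
  induction u with
  | nil => intro p _ hp; exact hp
  | cons c u ih => intro p hp hp'; exact ⟨hp.1, ih _ hp.2 hp'⟩

theorem mem_iter {h : ℝ} {B : Set (ℂ × ℂ)} (hB : ∀ q ∈ B, q.1 ∈ PP v) :
    ∀ (j : ℕ) (p : ℂ × ℂ), p ∈ (Nx v h)^[j] B → ∃ u : List (Option (Fin n × Fin n)),
      u.length = j ∧ ∃ q ∈ B, q ∈ Bil.OO v h u ∧ eM v h u q = p := by
  intro j
  induction j with
  | zero => intro p hp; exact ⟨[], rfl, p, hp, hB p hp, rfl⟩
  | succ j ih =>
    intro p hp
    rw [Function.iterate_succ_apply'] at hp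
    obtain ⟨c, hc⟩ := mem_iUnion.1 hp
    obtain ⟨p', ⟨hp1, hp2⟩, rfl⟩ := hc
    obtain ⟨u, hu, q, hq, hq1, hq2⟩ := ih p' hp2
    refine ⟨u ++ [c], by rw [List.length_append, hu]; rfl, q, hq, ?_, ?_⟩
    · refine OO_append' h u [c] q hq1 ?_
      rw [hq2]
      exact ⟨hp1, fst_stepMap_mem hp1⟩
    · rw [eM_append, hq2]
      rfl

theorem continuous_eM (h : ℝ) (u : List (Option (Fin n × Fin n))) : Continuous (eM v h u) := by
  induction u with
  | nil => exact continuous_id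
  | cons c u ih => exact ih.comp (continuous_stepMap h c)

/-- Receding phase points. -/
def Rc (v : Fin n → ℂ) (C ε : ℝ) (k : Fin n) : Set (ℂ × ℂ) :=
  {p | p.1 ∈ ZZ v C ε ∧ ‖p.1 - v k‖ ≤ 2 * C * ε ∧ 1 / 2 < ‖p.2‖ ∧ ‖p.2‖ < 1 ∧
    0 < dt p.2 (p.1 - v k)}

/-- Approaching phase points. -/
def Ra (v : Fin n → ℂ) (C ε : ℝ) (k : Fin n) : Set (ℂ × ℂ) :=
  {p | p.1 ∈ ZZ v C ε ∧ ‖p.1 - v k‖ ≤ 2 * C * ε ∧ 1 / 2 < ‖p.2‖ ∧ ‖p.2‖ < 1 ∧
    dt p.2 (p.1 - v k) < 0}

theorem meas_ZZ (C ε : ℝ) : MeasurableSet (ZZ v C ε) := by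
  have h1 : ∀ k, MeasurableSet {x : ℂ | ‖x - v k‖ ≤ 2 * C * ε} := fun k =>
    measurableSet_le (Continuous.measurable (by fun_prop)) measurable_const
  have h2 : ∀ k, MeasurableSet {x : ℂ | C * ε ≤ ‖x - v k‖} := fun k =>
    measurableSet_le measurable_const (Continuous.measurable (by fun_prop))
  have : ZZ v C ε = PP v ∩ ((⋃ k, {x : ℂ | ‖x - v k‖ ≤ 2 * C * ε}) ∩
      ⋂ k, {x : ℂ | C * ε ≤ ‖x - v k‖}) := by
    ext x
    simp only [ZZ, mem_inter_iff, mem_iUnion, mem_iInter, Set.mem_ofPred_eq]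
  rw [this]
  exact isOpen_PP.measurableSet.inter ((MeasurableSet.iUnion h1).inter (MeasurableSet.iInter h2))

theorem cont_dt (k : Fin n) : Continuous (fun p : ℂ × ℂ => dt p.2 (p.1 - v k)) := by
  unfold dt
  fun_prop

theorem meas_base (C ε : ℝ) (k : Fin n) : MeasurableSet {p : ℂ × ℂ | p.1 ∈ ZZ v C ε ∧
    ‖p.1 - v k‖ ≤ 2 * C * ε ∧ 1 / 2 < ‖p.2‖ ∧ ‖p.2‖ < 1} := by
  refine (measurable_fst (meas_ZZ C ε)).inter (MeasurableSet.inter ?_ (MeasurableSet.inter ?_ ?_))
  · exact measurableSet_le ((continuous_fst.sub continuous_const).norm).measurable measurable_const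
  · exact measurableSet_lt measurable_const continuous_snd.norm.measurable
  · exact measurableSet_lt continuous_snd.norm.measurable measurable_const

theorem meas_Rc (C ε : ℝ) (k : Fin n) : MeasurableSet (Rc v C ε k) := by
  have : Rc v C ε k = {p : ℂ × ℂ | p.1 ∈ ZZ v C ε ∧
      ‖p.1 - v k‖ ≤ 2 * C * ε ∧ 1 / 2 < ‖p.2‖ ∧ ‖p.2‖ < 1} ∩
      {p | 0 < dt p.2 (p.1 - v k)} := by
    ext p
    simp only [Rc, mem_inter_iff, Set.mem_ofPred_eq]
    tauto
  rw [this]
  exact (meas_base C ε k).inter (measurableSet_lt measurable_const (cont_dt k).measurable)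

theorem meas_Ra (C ε : ℝ) (k : Fin n) : MeasurableSet (Ra v C ε k) := by
  have : Ra v C ε k = {p : ℂ × ℂ | p.1 ∈ ZZ v C ε ∧
      ‖p.1 - v k‖ ≤ 2 * C * ε ∧ 1 / 2 < ‖p.2‖ ∧ ‖p.2‖ < 1} ∩
      {p | dt p.2 (p.1 - v k) < 0} := by
    ext p
    simp only [Ra, mem_inter_iff, Set.mem_ofPred_eq]
    tauto
  rw [this]
  exact (meas_base C ε k).inter (measurableSet_lt (cont_dt k).measurable measurable_const)

theorem meas_Bad (C ε : ℝ) (K m : ℕ) (k : Fin n) : MeasurableSet (Bad v C ε K m k) := by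
  have : Bad v C ε K m k = Rc v C ε k ∩
      ⋃ u : List (Option (Fin n × Fin n)), ({p : ℂ × ℂ | u.length ≤ m} ∩ (Bil.OO v (ε / 4) u ∩
        ((⋃ l, {p : ℂ × ℂ | ‖(eM v (ε / 4) u p).1 - v l‖ < C * ε}) ∪
        ({p : ℂ × ℂ | K ≤ u.length} ∩
          ⋃ l, {p : ℂ × ℂ | ‖(eM v (ε / 4) u p).1 - v l‖ ≤ 2 * C * ε})))) := by
    ext p
    simp only [Bad, Rc, mem_inter_iff, Set.mem_ofPred_eq, mem_iUnion, mem_union]
    constructor
    · rintro ⟨h1, h2, h3, h4, h5, h6⟩
      exact ⟨⟨h1, h2, h3, h4, h5⟩, h6⟩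
    · rintro ⟨⟨h1, h2, h3, h4, h5⟩, h6⟩
      exact ⟨h1, h2, h3, h4, h5, h6⟩
  rw [this]
  refine (meas_Rc C ε k).inter (MeasurableSet.iUnion (fun u => ?_))
  have hc : ∀ l, Measurable (fun p : ℂ × ℂ => ‖(eM v (ε / 4) u p).1 - v l‖) := fun l =>
    (((continuous_fst.comp (continuous_eM (ε / 4) u)).sub continuous_const).norm).measurable
  refine (MeasurableSet.const _).inter ((isOpen_OO (ε / 4) u).measurableSet.inter
    (MeasurableSet.union ?_ ((MeasurableSet.const _).inter ?_)))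
  · exact MeasurableSet.iUnion (fun l => measurableSet_lt (hc l) measurable_const)
  · exact MeasurableSet.iUnion (fun l => measurableSet_le (hc l) measurable_const)

/-- The annulus of velocities. -/
def An : Set ℂ := {w | 1 / 2 < ‖w‖ ∧ ‖w‖ < 1}

theorem meas_An : MeasurableSet An := by
  have h1 : MeasurableSet {w : ℂ | 1 / 2 < ‖w‖} :=
    measurableSet_lt measurable_const continuous_norm.measurable
  have h2 : MeasurableSet {w : ℂ | ‖w‖ < 1} :=
    measurableSet_lt continuous_norm.measurable measurable_const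
  exact h1.inter h2

theorem ball_An {g : ℂ → ℝ} (hg : Measurable g) {M : ℝ} (hM : ∀ w, |g w| ≤ M)
    (hh : ∀ (w : ℂ) (r : ℝ), 0 < r → g ((r : ℂ) * w) = g w) :
    ∫ w in BV, g w = 4 / 3 * ∫ w in An, g w := by
  have hi : IntegrableOn g BV volume :=
    Measure.integrableOn_of_bounded measure_ball_lt_top.ne hg.aestronglyMeasurable
      (Filter.Eventually.of_forall (fun w => by rw [Real.norm_eq_abs]; exact hM w))
  have h1 : ∫ w in Metric.ball (0 : ℂ) (1 / 2), g w = 1 / 4 * ∫ w in BV, g w := by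
    rw [← integral_indicator measurableSet_ball, ← integral_indicator measurableSet_ball]
    have h2 := Measure.integral_comp_smul (volume : Measure ℂ) (BV.indicator g) 2
    rw [Complex.finrank_real_complex] at h2
    have h3 : |((2 : ℝ) ^ 2)⁻¹| = 1 / 4 := by norm_num
    rw [h3, smul_eq_mul] at h2
    rw [← h2]
    congr 1
    funext w
    have h4 : (2 : ℝ) • w = ((2 : ℝ) : ℂ) * w := real_smul
    by_cases hw : w ∈ Metric.ball (0 : ℂ) (1 / 2)
    · have hw2 : (2 : ℝ) • w ∈ BV := by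
        rw [mem_ball_zero_iff] at hw ⊢
        rw [norm_smul, Real.norm_of_nonneg (by norm_num)]
        linarith
      rw [indicator_of_mem hw, indicator_of_mem hw2, h4, hh w 2 (by norm_num)]
    · have hw2 : (2 : ℝ) • w ∉ BV := by
        rw [mem_ball_zero_iff] at hw ⊢
        rw [norm_smul, Real.norm_of_nonneg (by norm_num)]
        intro h5
        apply hw
        linarith
      rw [indicator_of_notMem hw, indicator_of_notMem hw2]
  have h2 := integral_inter_add_sdiff (μ := (volume : Measure ℂ)) (f := g) (s := BV)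
    (t := Metric.ball (0 : ℂ) (1 / 2)) measurableSet_ball hi
  have h3 : BV ∩ Metric.ball (0 : ℂ) (1 / 2) = Metric.ball (0 : ℂ) (1 / 2) :=
    inter_eq_right.2 (Metric.ball_subset_ball (by norm_num))
  have h4 : ∫ w in BV \ Metric.ball (0 : ℂ) (1 / 2), g w = ∫ w in An, g w := by
    apply setIntegral_congr_set
    have h5 : volume (Metric.sphere (0 : ℂ) (1 / 2)) = 0 := Measure.addHaar_sphere _ _ _
    have h6 : ∀ᵐ w : ℂ, w ∉ Metric.sphere (0 : ℂ) (1 / 2) := by
      rw [ae_iff]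
      have h7 : {a : ℂ | ¬ a ∉ Metric.sphere (0 : ℂ) (1 / 2)} = Metric.sphere (0 : ℂ) (1 / 2) := by
        ext a
        exact not_not
      rw [h7]
      exact h5
    filter_upwards [h6] with w hw
    rw [mem_sphere_zero_iff_norm] at hw
    apply propext
    change (w ∈ BV \ Metric.ball (0 : ℂ) (1 / 2)) ↔ w ∈ An
    constructor
    · rintro ⟨h7, h8⟩
      rw [mem_ball_zero_iff] at h7 h8
      push Not at h8
      exact ⟨lt_of_le_of_ne h8 (Ne.symm hw), h7⟩
    · rintro ⟨h7, h8⟩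
      refine ⟨mem_ball_zero_iff.2 h8, ?_⟩
      rw [mem_ball_zero_iff]
      exact not_lt.2 h7.le
  rw [h3, h1, h4] at h2
  linarith

theorem null_dt (k : Fin n) : volume {p : ℂ × ℂ | ‖p.2‖ < 1 ∧ p.1 ≠ v k ∧
    dt p.2 (p.1 - v k) = 0} = 0 := by
  have hm : MeasurableSet {p : ℂ × ℂ | ‖p.2‖ < 1 ∧ p.1 ≠ v k ∧ dt p.2 (p.1 - v k) = 0} := by
    have h1 : MeasurableSet {p : ℂ × ℂ | ‖p.2‖ < 1} :=
      measurableSet_lt (Continuous.measurable (by fun_prop)) measurable_const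
    have h2 : MeasurableSet {p : ℂ × ℂ | p.1 ≠ v k} :=
      (measurableSet_eq_fun measurable_fst measurable_const).compl
    have h3 : MeasurableSet {p : ℂ × ℂ | dt p.2 (p.1 - v k) = 0} :=
      measurableSet_eq_fun (cont_dt k).measurable measurable_const
    exact h1.inter (h2.inter h3)
  rw [Measure.volume_eq_prod, Measure.measure_prod_null hm]
  refine Filter.Eventually.of_forall (fun x => ?_)
  change volume (Prod.mk x ⁻¹' {p : ℂ × ℂ | ‖p.2‖ < 1 ∧ p.1 ≠ v k ∧
    dt p.2 (p.1 - v k) = 0}) = 0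
  by_cases hx : x = v k
  · have : Prod.mk x ⁻¹' {p : ℂ × ℂ | ‖p.2‖ < 1 ∧ p.1 ≠ v k ∧ dt p.2 (p.1 - v k) = 0} = ∅ := by
      ext w
      rw [mem_empty_iff_false, iff_false]
      rintro ⟨-, h, -⟩
      exact h hx
    rw [this, measure_empty]
  · have hz : I * (x - v k) ≠ 0 := mul_ne_zero I_ne_zero (sub_ne_zero.2 hx)
    have h1 := vol_strip hz (le_refl (0 : ℝ))
    rw [mul_zero, zero_mul, ENNReal.ofReal_zero, nonpos_iff_eq_zero] at h1
    refine measure_mono_null ?_ h1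
    rintro w ⟨h2, -, h3⟩
    refine ⟨?_, mem_ball_zero_iff.2 h2⟩
    change |cr w (I * (x - v k))| ≤ 0
    have h4 : cr w (I * (x - v k)) = dt w (x - v k) := by
      unfold cr dt
      simp
      ring
    rw [h4]
    have h5 : dt w (x - v k) = 0 := h3
    rw [h5, abs_zero]

theorem LFS_rv {F : ℂ → ℝ → ℝ} (hF : LFS v F) : LFS v (rv F) := by
  refine ⟨⟨?_, fun w Q => hF.lf.bd _ _⟩, fun w Q => hF.nn _ _, ?_⟩
  · exact hF.lf.meas.comp ((measurable_fst.neg).prodMk (measurable_snd.neg))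
  · intro s hs
    have h1 := hF.sym s hs
    unfold SymAt at h1 ⊢
    have h2 := (Measure.measurePreserving_neg (volume : Measure ℂ)).quasiMeasurePreserving.ae h1
    filter_upwards [h2] with w hw
    filter_upwards [hw] with τ hτ h3
    have h4 := hτ h3
    unfold rv
    rw [rl_neg, cr_neg_left, cr_neg_left] at h4
    exact h4

theorem Hg_rv {F : ℂ → ℝ → ℝ} (hF : Hg F) : Hg (rv F) := by
  intro r hr w Q
  unfold rv
  have e1 : -((r : ℂ) * w) = (r : ℂ) * (-w) := by ring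
  have e2 : -(r * Q) = r * (-Q) := by ring
  rw [e1, e2]
  exact hF r hr _ _

theorem row (hHB : StHB) (hHinv : StHinv) (hTube : StTube) : StMain := by
  intro n v C e0 hn hv hG
  obtain ⟨B, hB, hb⟩ := hHB n v C e0 hG
  have hC : 1 ≤ C := hG.C1
  refine ⟨8 / 3 * (B + 2 * n), e0, by positivity, hG.e0p, le_rfl, ?_⟩
  intro F hF hFh ε hε hε1 K m hK hKm
  have hm0 : 0 < (m : ℝ) := by
    have : 1 ≤ m := hK.trans hKm
    exact_mod_cast this
  have hK0 : 0 < (K : ℝ) := by exact_mod_cast hK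
  have hDDfin : volume (DD v) ≠ ⊤ := volume_DD_lt_top.ne
  have hi : ∀ F', LFS v F' → ∀ s : Set (ℂ × ℂ), volume s ≠ ⊤ → IntegrableOn (hh v F' ε) s volume :=
    fun F' hF' s hs => Measure.integrableOn_of_bounded hs
      (hb F' hF' ε hε).1.aestronglyMeasurable
      (M := B / ε ^ 2) (Filter.Eventually.of_forall (fun p => by
        rw [Real.norm_of_nonneg ((hb F' hF' ε hε).2.1 p).1]
        exact ((hb F' hF' ε hε).2.1 p).2))
  have hMe : ∀ F', LFS v F' → ∫⁻ p in DD v, ENNReal.ofReal (hh v F' ε p) =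
      ENNReal.ofReal (Me v F' ε) := fun F' hF' =>
    (ofReal_integral_eq_lintegral_ofReal (hi F' hF' _ hDDfin)
      (Filter.Eventually.of_forall (fun p => ((hb F' hF' ε hε).2.1 p).1))).symm
  have hBadfin : ∀ k, volume (Bad v C ε K m k) ≠ ⊤ := fun k =>
    ((measure_mono (fun p hp => mem_DD.2 ⟨hp.1.1, hp.2.2.2.1⟩)).trans_lt volume_DD_lt_top).ne
  -- the main estimate
  have key : ∀ F', LFS v F' → ∀ k, ∫⁻ p in Rc v C ε k, ENNReal.ofReal (hh v F' ε p) ≤
      ENNReal.ofReal (B / ε ^ 2 * (volume (Bad v C ε K m k)).toReal +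
        2 * K / m * Me v F' ε) := by
    intro F' hF' k
    obtain ⟨hb1, hb2, -, -⟩ := hb F' hF' ε hε
    have hMe0 : 0 ≤ Me v F' ε := integral_nonneg (fun p => (hb2 p).1)
    have hφ : Measurable (fun p => ENNReal.ofReal (hh v F' ε p)) := hb1.ennreal_ofReal
    have h1 := lintegral_inter_add_sdiff (μ := (volume : Measure (ℂ × ℂ)))
      (fun p => ENNReal.ofReal (hh v F' ε p)) (Rc v C ε k) (meas_Bad (v := v) C ε K m k)
    rw [← h1, ENNReal.ofReal_add (by positivity) (by positivity)]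
    refine add_le_add ?_ ?_
    · refine (lintegral_mono_set inter_subset_right).trans ?_
      refine (setLIntegral_mono measurable_const
        (fun p _ => ENNReal.ofReal_le_ofReal (hb2 p).2)).trans ?_
      rw [setLIntegral_const, ENNReal.ofReal_mul (by positivity),
        ENNReal.ofReal_toReal (hBadfin k)]
    · set A : Set (ℂ × ℂ) := Rc v C ε k \ Bad v C ε K m k with hA
      have hAD : A ⊆ DD v := fun p hp => mem_DD.2 ⟨hp.1.1.1, hp.1.2.2.2.1⟩
      have hnb : ∀ q ∈ A, ∀ u : List (Option (Fin n × Fin n)), u.length ≤ m →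
          q ∈ Bil.OO v (ε / 4) u → (∀ l, C * ε ≤ ‖(eM v (ε / 4) u q).1 - v l‖) ∧
            (K ≤ u.length → ∀ l, 2 * C * ε < ‖(eM v (ε / 4) u q).1 - v l‖) := by
        intro q hq u hum hu
        obtain ⟨r1, r2, r3, r4, r5⟩ := hq.1
        constructor
        · intro l
          by_contra hcon
          push Not at hcon
          exact hq.2 ⟨r1, r2, r3, r4, r5, u, hum, hu, Or.inl ⟨l, hcon⟩⟩
        · intro hKu l
          by_contra hcon
          push Not at hcon
          exact hq.2 ⟨r1, r2, r3, r4, r5, u, hum, hu, Or.inr ⟨hKu, l, hcon⟩⟩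
      have hAP : ∀ q ∈ A, q.1 ∈ PP v := fun q hq => (mem_DD.1 (hAD hq)).1
      have h2 := hTube n v hv (ε / 4) (by positivity) _ hφ A
        ((meas_Rc C ε k).diff (meas_Bad C ε K m k)) hAD K m hK
        (fun j hj => by
          filter_upwards [hHinv n v C e0 hn hv hG F' hF' ε hε hε1] with p hp hpj
          obtain ⟨u, hu, q, hq, hq1, rfl⟩ := mem_iter hAP j p hpj
          obtain ⟨s1, s2⟩ := eM_spec hv (ε / 4) u q hq1
          obtain ⟨c, hc1, hc2⟩ := hp (mem_DD.2 ⟨s1, by rw [s2]; exact (mem_DD.1 (hAD hq)).2⟩)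
            ((hnb q hq u (by omega) hq1).1)
          exact ⟨c, hc1, by simp only [hc2]⟩)
        (fun j hj1 hj2 => by
          rw [Set.disjoint_left]
          intro p hp hpj
          obtain ⟨u, hu, q, hq, hq1, rfl⟩ := mem_iter hAP j p hpj
          have h3 := (hnb q hq u (by omega) hq1).2 (by omega) k
          have h4 := hp.1.2.1
          linarith)
      rw [hMe F' hF'] at h2
      have hN : 1 ≤ m / K := (Nat.one_le_div_iff hK).2 hKm
      have hN0 : (0 : ℝ) < (m / K : ℕ) := by exact_mod_cast hN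
      have h3 : ∫⁻ p in A, ENNReal.ofReal (hh v F' ε p) ≤
          ENNReal.ofReal (Me v F' ε / (m / K : ℕ)) := by
        rw [ENNReal.ofReal_div_of_pos hN0, ENNReal.ofReal_natCast,
          ENNReal.le_div_iff_mul_le (Or.inl (by
            rw [Ne, Nat.cast_eq_zero]; omega)) (Or.inl (ENNReal.natCast_ne_top _)), mul_comm]
        exact h2
      refine h3.trans (ENNReal.ofReal_le_ofReal ?_)
      rw [div_le_iff₀ hN0]
      have h4 : (m : ℝ) ≤ 2 * K * (m / K : ℕ) := by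
        have h5 : m < K * (m / K + 1) := Nat.lt_mul_div_succ m hK
        have h6 : K * (m / K + 1) ≤ 2 * K * (m / K) := by nlinarith
        exact_mod_cast (h5.trans_le h6).le
      have h5 : (1 : ℝ) ≤ 2 * K / m * (m / K : ℕ) := by
        rw [div_mul_eq_mul_div, le_div_iff₀ hm0, one_mul]
        exact h4
      calc Me v F' ε = 1 * Me v F' ε := (one_mul _).symm
        _ ≤ (2 * K / m * (m / K : ℕ)) * Me v F' ε := mul_le_mul_of_nonneg_right h5 hMe0
        _ = _ := by ring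
  -- time reversal
  have hrev : MeasurePreserving (fun p : ℂ × ℂ => (p.1, -p.2)) volume volume := mp_neg_snd
  have hFr := LFS_rv hF
  have hφF : Measurable (fun p => ENNReal.ofReal (hh v F ε p)) := (hb F hF ε hε).1.ennreal_ofReal
  have hMr : Me v (rv F) ε = Me v F ε := by
    have h1 := hrev.setLIntegral_comp_preimage (measurableSet_DD (v := v)) hφF
    have h2 : (fun p : ℂ × ℂ => (p.1, -p.2)) ⁻¹' DD v = DD v := by
      ext p
      rw [mem_preimage, mem_DD, mem_DD, norm_neg]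
    rw [h2, hMe F hF] at h1
    have h3 := hMe (rv F) hFr
    have h4 : ∫⁻ p in DD v, ENNReal.ofReal (hh v (rv F) ε p) =
        ∫⁻ p in DD v, ENNReal.ofReal (hh v F ε (p.1, -p.2)) := by
      congr 1
      funext p
      rw [← (hb F hF ε hε).2.2.1 p.1 p.2]
    rw [h4, h1] at h3
    have h5 : 0 ≤ Me v F ε := integral_nonneg (fun p => ((hb F hF ε hε).2.1 p).1)
    have h6 : 0 ≤ Me v (rv F) ε := integral_nonneg (fun p => ((hb _ hFr ε hε).2.1 p).1)
    exact ((ENNReal.ofReal_eq_ofReal_iff h5 h6).1 h3).symm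
  have hRa : ∀ k, ∫⁻ p in Ra v C ε k, ENNReal.ofReal (hh v F ε p) =
      ∫⁻ p in Rc v C ε k, ENNReal.ofReal (hh v (rv F) ε p) := by
    intro k
    rw [← hrev.setLIntegral_comp_preimage (meas_Ra (v := v) C ε k) hφF]
    have h2 : (fun p : ℂ × ℂ => (p.1, -p.2)) ⁻¹' Ra v C ε k = Rc v C ε k := by
      ext p
      have e : dt (-p.2) (p.1 - v k) = - dt p.2 (p.1 - v k) := by
        unfold dt; simp; ring
      simp only [mem_preimage, Ra, Rc, Set.mem_ofPred_eq, norm_neg, e, neg_lt_zero]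
    rw [h2]
    congr 1
    funext p
    rw [← (hb F hF ε hε).2.2.1 p.1 p.2]
  -- covering
  set N : Set (ℂ × ℂ) := ⋃ k, {p : ℂ × ℂ | ‖p.2‖ < 1 ∧ p.1 ≠ v k ∧ dt p.2 (p.1 - v k) = 0}
    with hN
  have hN0 : volume N = 0 := measure_iUnion_null (fun k => null_dt k)
  have hcov : ZZ v C ε ×ˢ An ⊆ (⋃ k, (Rc v C ε k ∪ Ra v C ε k)) ∪ N := by
    rintro ⟨x, w⟩ ⟨hx, hw1, hw2⟩
    obtain ⟨k, hk⟩ := hx.2.1
    rcases lt_trichotomy (dt w (x - v k)) 0 with h | h | h
    · left
      exact mem_iUnion.2 ⟨k, Or.inr ⟨hx, hk, hw1, hw2, h⟩⟩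
    · right
      refine mem_iUnion.2 ⟨k, hw2, ?_, h⟩
      intro hxk
      have h1 := hx.2.2 k
      have h2 : x = v k := hxk
      rw [h2, sub_self, norm_zero] at h1
      have : 0 < C * ε := by positivity
      linarith
    · left
      exact mem_iUnion.2 ⟨k, Or.inl ⟨hx, hk, hw1, hw2, h⟩⟩
  set b : ℝ := ∑ k, (volume (Bad v C ε K m k)).toReal with hbdef
  have hMe0 : 0 ≤ Me v F ε := integral_nonneg (fun p => ((hb F hF ε hε).2.1 p).1)
  have hsum : ∫⁻ p in ZZ v C ε ×ˢ An, ENNReal.ofReal (hh v F ε p) ≤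
      ENNReal.ofReal (∑ k : Fin n, 2 * (B / ε ^ 2 * (volume (Bad v C ε K m k)).toReal +
        2 * K / m * Me v F ε)) := by
    refine (lintegral_mono_set hcov).trans ((lintegral_union_le _ _ _).trans ?_)
    rw [setLIntegral_measure_zero _ _ hN0, add_zero]
    refine (lintegral_iUnion_le _ _).trans ?_
    rw [tsum_fintype, ENNReal.ofReal_sum_of_nonneg (fun k _ => by positivity)]
    refine Finset.sum_le_sum (fun k _ => ?_)
    refine (lintegral_union_le _ _ _).trans ?_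
    rw [hRa k]
    have h1 := key F hF k
    have h2 := key (rv F) hFr k
    rw [hMr] at h2
    refine (add_le_add h1 h2).trans ?_
    rw [← ENNReal.ofReal_add (by positivity) (by positivity)]
    apply ENNReal.ofReal_le_ofReal
    linarith
  -- homogeneity
  have hZfin : volume (ZZ v C ε) ≠ ⊤ :=
    ((measure_mono (fun x hx => hx.1)).trans_lt isBounded_PP.measure_lt_top).ne
  have hAfin : volume An ≠ ⊤ :=
    ((measure_mono (fun w hw => mem_ball_zero_iff.2 hw.2 : An ⊆ BV)).trans_lt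
      measure_ball_lt_top).ne
  have hZA : volume (ZZ v C ε ×ˢ An) ≠ ⊤ := by
    rw [Measure.volume_eq_prod, Measure.prod_prod]
    exact ENNReal.mul_ne_top hZfin hAfin
  have hGE : GE v F C ε = 4 / 3 * ∫ p in ZZ v C ε ×ˢ An, hh v F ε p := by
    unfold GE
    have h1 : ∀ x, ∫ w in BV, hh v F ε (x, w) = 4 / 3 * ∫ w in An, hh v F ε (x, w) := fun x =>
      ball_An ((hb F hF ε hε).1.comp measurable_prodMk_left) (M := B / ε ^ 2)
        (fun w => by
          rw [abs_of_nonneg ((hb F hF ε hε).2.1 _).1]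
          exact ((hb F hF ε hε).2.1 _).2)
        (fun w r hr => (hb F hF ε hε).2.2.2 hFh x w r hr)
    simp only [h1]
    rw [integral_const_mul]
    congr 1
    have h2 := hi F hF _ hZA
    rw [Measure.volume_eq_prod] at h2 ⊢
    exact (setIntegral_prod _ h2).symm
  have hint : ∫ p in ZZ v C ε ×ˢ An, hh v F ε p ≤
      ∑ k : Fin n, 2 * (B / ε ^ 2 * (volume (Bad v C ε K m k)).toReal +
        2 * K / m * Me v F ε) := by
    rw [integral_eq_lintegral_of_nonneg_ae
      (Filter.Eventually.of_forall (fun p => ((hb F hF ε hε).2.1 p).1))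
      (hb F hF ε hε).1.aestronglyMeasurable]
    exact ENNReal.toReal_le_of_le_ofReal
      (Finset.sum_nonneg (fun k _ => by positivity)) hsum
  have hsum2 : ∑ k : Fin n, 2 * (B / ε ^ 2 * (volume (Bad v C ε K m k)).toReal +
        2 * K / m * Me v F ε) = 2 * (B / ε ^ 2) * b + 2 * (n * (2 * K / m * Me v F ε)) := by
    rw [← Finset.mul_sum, Finset.sum_add_distrib, ← Finset.mul_sum, Finset.sum_const,
      Finset.card_univ, Fintype.card_fin, nsmul_eq_mul, hbdef]
    ring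
  have hb0 : 0 ≤ b := Finset.sum_nonneg (fun k _ => ENNReal.toReal_nonneg)
  rw [hGE]
  have h9 : 4 / 3 * ∫ p in ZZ v C ε ×ˢ An, hh v F ε p ≤
      4 / 3 * (2 * (B / ε ^ 2) * b + 2 * (n * (2 * K / m * Me v F ε))) := by
    rw [← hsum2]
    exact mul_le_mul_of_nonneg_left hint (by norm_num)
  refine h9.trans ?_
  have e1 : 4 / 3 * (2 * (B / ε ^ 2) * b + 2 * (n * (2 * K / m * Me v F ε))) =
      8 / 3 * (B * ((ε ^ 2)⁻¹ * b) + 2 * n * ((K : ℝ) / m * Me v F ε)) := by
    rw [div_eq_mul_inv B]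
    ring
  rw [e1]
  have p1 : 0 ≤ (ε ^ 2)⁻¹ * b := by positivity
  have p2 : 0 ≤ (K : ℝ) / m * Me v F ε := by positivity
  have e2 : 8 / 3 * (B + 2 * n) * ((K : ℝ) / m * Me v F ε + (ε ^ 2)⁻¹ * b) =
      8 / 3 * (B * ((ε ^ 2)⁻¹ * b) + 2 * n * ((K : ℝ) / m * Me v F ε)) +
        8 / 3 * (B * ((K : ℝ) / m * Me v F ε) + 2 * n * ((ε ^ 2)⁻¹ * b)) := by ring
  rw [e2]
  have : 0 ≤ 8 / 3 * (B * ((K : ℝ) / m * Me v F ε) + 2 * n * ((ε ^ 2)⁻¹ * b)) := by positivity
  linarith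

end Pool.Agent.Lib.BilE.Main16
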