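import Pool.Agent.Lib.MP_7bc51d_an_erg.Defs
import Pool.Agent.Lib.MP_7bc51d_an_dense.Basic
import Mathlib.MeasureTheory.Function.LpSpace.ContinuousCompMeasurePreserving

/-!
# Row MASS: the gradient energy at scale `ε` is `o(ε⁻²)`
-/

set_option autoImplicit false

namespace Pool.Agent.Lib.BilE.Mass12

open Complex MeasureTheory Set Filter Topology
open scoped ComplexConjugate ENNReal
open Pool.Agent.Lib.Bil Pool.Agent.Lib.BilD Pool.Agent.Lib.BilE

variable {n : ℕ} {v : Fin n → ℂ} {F : ℂ → ℝ → ℝ}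

/-- Translation of the position. -/
def tz (z : ℂ) : C(ℂ × ℂ, ℂ × ℂ) := ⟨fun p => (p.1 - z, p.2), by fun_prop⟩

theorem tz_apply (z : ℂ) (p : ℂ × ℂ) : tz z p = (p.1 - z, p.2) := rfl

theorem tz_mp (z : ℂ) : MeasurePreserving (tz z) (volume : Measure (ℂ × ℂ)) volume :=
  (measurePreserving_sub_right volume z).prod (MeasurePreserving.id volume)

theorem tz_cont : Continuous tz := by
  apply ContinuousMap.continuous_of_continuous_uncurry
  have : (Function.uncurry fun (x : ℂ) (y : ℂ × ℂ) => (tz x) y) =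
      fun q : ℂ × (ℂ × ℂ) => (q.2.1 - q.1, q.2.2) := rfl
  rw [this]
  fun_prop

theorem tr_cont {f : ℂ × ℂ → ℝ} (hf : MemLp f 2 (volume : Measure (ℂ × ℂ))) :
    Tendsto (fun z : ℂ => eLpNorm (fun p : ℂ × ℂ => f (p.1 - z, p.2) - f p) 2 volume)
      (𝓝 0) (𝓝 0) := by
  have h1 : Continuous (fun z : ℂ => Lp.compMeasurePreserving (tz z) (tz_mp z) (hf.toLp f)) :=
    continuous_const.compMeasurePreservingLp tz_cont tz_mp (by norm_num)
  have h2 := (h1.tendsto 0)
  rw [tendsto_iff_edist_tendsto_0] at h2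
  refine h2.congr (fun z => ?_)
  rw [Lp.toLp_compMeasurePreserving, Lp.toLp_compMeasurePreserving, Lp.edist_toLp_toLp]
  congr 1
  funext p
  simp [tz_apply]

theorem cs_ball {f : ℂ → ℝ} {x : ℂ} {ε : ℝ} (hε : 0 < ε) (hf : IntegrableOn f (Metric.ball x ε))
    (hf2 : IntegrableOn (fun y => f y ^ 2) (Metric.ball x ε)) :
    (∫ y in Metric.ball x ε, f y) ^ 2 ≤ Real.pi * ε ^ 2 * ∫ y in Metric.ball x ε, f y ^ 2 := by
  set V : ℝ := Real.pi * ε ^ 2 with hV
  have hV0 : 0 < V := by positivity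
  have hvol : (volume : Measure ℂ).real (Metric.ball x ε) = V := by
    rw [Measure.real, Complex.volume_ball, ENNReal.toReal_mul, ENNReal.toReal_pow,
      ENNReal.toReal_ofReal hε.le, hV, mul_comm]
    rfl
  set J : ℝ := ∫ y in Metric.ball x ε, f y with hJ
  have h1 : 0 ≤ ∫ y in Metric.ball x ε, (V * f y - J) ^ 2 :=
    integral_nonneg (fun y => by positivity)
  have e : ∀ y, (V * f y - J) ^ 2 = V ^ 2 * f y ^ 2 - 2 * V * J * f y + J ^ 2 := by
    intro y; ring
  simp_rw [e] at h1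
  have b1 : IntegrableOn (fun _ : ℂ => J ^ 2) (Metric.ball x ε) :=
    integrableOn_const measure_ball_lt_top.ne
  have c1 := integral_add ((hf2.const_mul (V ^ 2)).sub (hf.const_mul (2 * V * J))) b1
  have c2 := integral_sub (hf2.const_mul (V ^ 2)) (hf.const_mul (2 * V * J))
  simp only [Pi.sub_apply] at c1
  rw [c1, c2, integral_const_mul, integral_const_mul, setIntegral_const, hvol, smul_eq_mul,
    ← hJ] at h1
  have h2 : 0 ≤ V * (V * (∫ y in Metric.ball x ε, f y ^ 2) - J ^ 2) := by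
    have : V ^ 2 * (∫ y in Metric.ball x ε, f y ^ 2) - 2 * V * J * J + V * J ^ 2 =
        V * (V * (∫ y in Metric.ball x ε, f y ^ 2) - J ^ 2) := by ring
    linarith
  have h3 := nonneg_of_mul_nonneg_right h2 hV0
  linarith

theorem fderiv_et_zero' {ε : ℝ} (hε : 0 < ε) {h : ℂ} (hh : ε ≤ ‖h‖) : fderiv ℝ (et ε) h = 0 := by
  apply IsLocalMin.fderiv_eq_zero
  exact Eventually.of_forall (fun z => by rw [BilD.et_zero hε hh]; exact et_nonneg ε z)

theorem fderiv_et_odd (ε : ℝ) (z h : ℂ) : fderiv ℝ (et ε) (-z) h = -fderiv ℝ (et ε) z h := by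
  have hd : DifferentiableAt ℝ (et ε) (-z) :=
    ((et_contDiff ε).differentiable (by simp)).differentiableAt
  have h1 : HasFDerivAt (fun y : ℂ => et ε (-y))
      ((fderiv ℝ (et ε) (-z)).comp (-ContinuousLinearMap.id ℝ ℂ)) z := by
    have h0 : HasFDerivAt (fun y : ℂ => -y) (-ContinuousLinearMap.id ℝ ℂ) z :=
      (hasFDerivAt_id z).neg
    exact HasFDerivAt.comp z hd.hasFDerivAt h0
  have h2 : (fun y : ℂ => et ε (-y)) = et ε := funext (fun y => et_neg ε y)
  rw [h2] at h1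
  rw [h1.fderiv]
  simp

theorem fderiv_et_cont (ε : ℝ) (h : ℂ) : Continuous (fun z => fderiv ℝ (et ε) z h) :=
  ((et_contDiff ε).continuous_fderiv (by simp)).clm_apply continuous_const

theorem fderiv_et_cs {ε : ℝ} (hε : 0 < ε) (h : ℂ) :
    HasCompactSupport (fun z => fderiv ℝ (et ε) z h) := by
  apply HasCompactSupport.of_support_subset_isCompact (isCompact_closedBall (0 : ℂ) ε)
  intro z hz
  rw [mem_closedBall_zero_iff]
  by_contra hc
  apply hz
  change fderiv ℝ (et ε) z h = 0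
  rw [fderiv_et_zero' hε (not_le.mp hc).le]
  rfl

theorem int_fderiv_et (ε : ℝ) (h : ℂ) : ∫ z, fderiv ℝ (et ε) z h = 0 := by
  have h1 := integral_neg_eq_self (fun z => fderiv ℝ (et ε) z h) (volume : Measure ℂ)
  simp_rw [fderiv_et_odd] at h1
  rw [integral_neg] at h1
  linarith

theorem gd_eq (hF : LFS v F) {ε : ℝ} (hε : 0 < ε) (x w h : ℂ) :
    gd v F ε x w h = ∫ z in Metric.ball (0 : ℂ) ε,
      (gx v F (x - z) w - gx v F x w) * fderiv ℝ (et ε) z h := by
  have hi : Integrable (fun z => fderiv ℝ (et ε) z h) :=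
    (fderiv_et_cont ε h).integrable_of_hasCompactSupport (fderiv_et_cs hε h)
  have h1 : gd v F ε x w h = ∫ z, gx v F (x - z) w * fderiv ℝ (et ε) z h := by
    unfold gd
    rw [← integral_sub_left_eq_self (fun z => gx v F (x - z) w * fderiv ℝ (et ε) z h) volume x]
    congr 1
    funext y
    rw [sub_sub_cancel]
  have hi2 : Integrable (fun z => gx v F (x - z) w * fderiv ℝ (et ε) z h) := by
    apply hi.bdd_mul (c := (n : ℝ) ^ 2 + 1)
    · exact ((gx_meas_x hF.lf w).comp (measurable_const.sub measurable_id)).aestronglyMeasurable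
    · exact Eventually.of_forall (fun z => by
        rw [Real.norm_eq_abs, abs_of_nonneg (gx_nonneg hF _ _)]; exact gx_le hF _ _)
  have h2 : ∫ z, (gx v F (x - z) w - gx v F x w) * fderiv ℝ (et ε) z h =
      ∫ z, gx v F (x - z) w * fderiv ℝ (et ε) z h := by
    simp_rw [sub_mul]
    rw [integral_sub hi2 (hi.const_mul _), integral_const_mul, int_fderiv_et, mul_zero, sub_zero]
  rw [h1, ← h2]
  symm
  apply setIntegral_eq_integral_of_forall_compl_eq_zero
  intro z hz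
  rw [Metric.mem_ball, dist_zero_right, not_lt] at hz
  rw [fderiv_et_zero' hε hz]
  simp

theorem intOn_bdd {g : ℂ → ℝ} (hg : Measurable g) {c : ℝ} (hc : ∀ z, |g z| ≤ c) (x : ℂ) (ε : ℝ) :
    IntegrableOn g (Metric.ball x ε) := by
  have : IntegrableOn (fun _ : ℂ => c) (Metric.ball x ε) :=
    integrableOn_const measure_ball_lt_top.ne
  exact this.mono' hg.aestronglyMeasurable (Eventually.of_forall (fun z => by
    rw [Real.norm_eq_abs]; exact hc z))

theorem dl_meas (hF : LF F) : Measurable (fun q : (ℂ × ℂ) × ℂ =>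
    gx v F (q.1.1 - q.2) q.1.2 - gx v F q.1.1 q.1.2) := by
  have h1 : Measurable (fun q : (ℂ × ℂ) × ℂ => (q.1.1 - q.2, q.1.2)) := by fun_prop
  have h2 : Measurable (fun q : (ℂ × ℂ) × ℂ => (q.1.1, q.1.2)) := by fun_prop
  exact ((gx_meas hF).comp h1).sub ((gx_meas hF).comp h2)

theorem dl_le (hF : LFS v F) (x y w : ℂ) : |gx v F y w - gx v F x w| ≤ (n : ℝ) ^ 2 + 1 := by
  have h1 := gx_nonneg hF x w
  have h2 := gx_nonneg hF y w
  have h3 := gx_le hF x w
  have h4 := gx_le hF y w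
  rw [abs_le]
  constructor <;> linarith

theorem gd_sq {B : ℝ} (hB : ∀ ε, 0 < ε → ∀ h k : ℂ, |fderiv ℝ (et ε) h k| ≤ B / ε ^ 3 * ‖k‖)
    (hF : LFS v F) {ε : ℝ} (hε : 0 < ε) (x w h : ℂ) (hh : ‖h‖ = 1) :
    gd v F ε x w h ^ 2 ≤ Real.pi * ε ^ 2 * (B / ε ^ 3) ^ 2 *
      ∫ z in Metric.ball (0 : ℂ) ε, (gx v F (x - z) w - gx v F x w) ^ 2 := by
  have hm : Measurable (fun z : ℂ => gx v F (x - z) w - gx v F x w) :=
    ((gx_meas_x hF.lf w).comp (measurable_const.sub measurable_id)).sub measurable_const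
  have hD : Measurable (fun z => fderiv ℝ (et ε) z h) := (fderiv_et_cont ε h).measurable
  have hb : ∀ z, |fderiv ℝ (et ε) z h| ≤ B / ε ^ 3 := fun z => by
    have := hB ε hε z h
    rwa [hh, mul_one] at this
  have hB0 : 0 ≤ B / ε ^ 3 := (abs_nonneg _).trans (hb 0)
  set N : ℝ := (n : ℝ) ^ 2 + 1 with hN
  have hN0 : 0 ≤ N := by positivity
  have hprod : ∀ z, |(gx v F (x - z) w - gx v F x w) * fderiv ℝ (et ε) z h| ≤ N * (B / ε ^ 3) := by
    intro z
    rw [abs_mul]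
    exact mul_le_mul (dl_le hF _ _ _) (hb z) (abs_nonneg _) hN0
  rw [gd_eq hF hε]
  have hsq : ∀ z, |((gx v F (x - z) w - gx v F x w) * fderiv ℝ (et ε) z h) ^ 2| ≤
      (N * (B / ε ^ 3)) ^ 2 := by
    intro z
    rw [abs_pow]
    exact pow_le_pow_left₀ (abs_nonneg _) (hprod z) 2
  have hsq2 : ∀ z, |(gx v F (x - z) w - gx v F x w) ^ 2| ≤ N ^ 2 := by
    intro z
    rw [abs_pow]
    exact pow_le_pow_left₀ (abs_nonneg _) (dl_le hF _ _ _) 2
  refine (cs_ball hε (intOn_bdd (hm.mul hD) hprod 0 ε)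
    (intOn_bdd ((hm.mul hD).pow_const 2) hsq 0 ε)).trans ?_
  rw [mul_assoc (Real.pi * ε ^ 2)]
  apply mul_le_mul_of_nonneg_left _ (by positivity)
  rw [← integral_const_mul]
  refine integral_mono (intOn_bdd ((hm.mul hD).pow_const 2) hsq 0 ε)
    ((intOn_bdd (hm.pow_const 2) hsq2 0 ε).const_mul _) (fun z => ?_)
  have h1 : fderiv ℝ (et ε) z h ^ 2 ≤ (B / ε ^ 3) ^ 2 := by
    rw [← sq_abs]
    exact pow_le_pow_left₀ (abs_nonneg _) (hb z) 2
  have h2 : 0 ≤ (gx v F (x - z) w - gx v F x w) ^ 2 := sq_nonneg _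
  calc ((gx v F (x - z) w - gx v F x w) * fderiv ℝ (et ε) z h) ^ 2 =
      fderiv ℝ (et ε) z h ^ 2 * (gx v F (x - z) w - gx v F x w) ^ 2 := by ring
    _ ≤ (B / ε ^ 3) ^ 2 * (gx v F (x - z) w - gx v F x w) ^ 2 :=
        mul_le_mul_of_nonneg_right h1 h2

/-- The extended function, cut off at `‖w‖ < 1`. -/
noncomputable def fc (v : Fin n → ℂ) (F : ℂ → ℝ → ℝ) (M : ℝ) (p : ℂ × ℂ) : ℝ :=
  (Metric.closedBall (0 : ℂ) M ×ˢ BV).indicator (fun p : ℂ × ℂ => gx v F p.1 p.2) p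

theorem fc_eq {M : ℝ} (hM : ∀ F : ℂ → ℝ → ℝ, ∀ x w : ℂ, gx v F x w ≠ 0 → ‖x‖ ≤ M)
    {x w : ℂ} (hw : w ∈ BV) : fc v F M (x, w) = gx v F x w := by
  unfold fc
  by_cases hx : x ∈ Metric.closedBall (0 : ℂ) M
  · rw [indicator_of_mem (mk_mem_prod hx hw)]
  · rw [indicator_of_notMem (fun h => hx h.1)]
    by_contra h
    apply hx
    rw [mem_closedBall_zero_iff]
    exact hM F x w (fun h0 => h h0.symm)

theorem fc_memLp (hF : LFS v F) (M : ℝ) : MemLp (fc v F M) 2 (volume : Measure (ℂ × ℂ)) := by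
  have hS : MeasurableSet (Metric.closedBall (0 : ℂ) M ×ˢ BV) :=
    Metric.isClosed_closedBall.measurableSet.prod Metric.isOpen_ball.measurableSet
  have hfin : (volume : Measure (ℂ × ℂ)) (Metric.closedBall (0 : ℂ) M ×ˢ BV) < ⊤ := by
    rw [Measure.volume_eq_prod, Measure.prod_prod]
    exact ENNReal.mul_lt_top measure_closedBall_lt_top measure_ball_lt_top
  unfold fc
  rw [memLp_indicator_iff_restrict hS]
  have : IsFiniteMeasure ((volume : Measure (ℂ × ℂ)).restrict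
      (Metric.closedBall (0 : ℂ) M ×ˢ BV)) := ⟨by rwa [Measure.restrict_apply_univ]⟩
  refine MemLp.of_bound (gx_meas hF.lf).aestronglyMeasurable ((n : ℝ) ^ 2 + 1)
    (Eventually.of_forall (fun p => ?_))
  rw [Real.norm_eq_abs, abs_of_nonneg (gx_nonneg hF _ _)]
  exact gx_le hF _ _

/-- (MASS) -/
theorem row : StMass := by
  intro n v C e0 hG F hF η hη
  obtain ⟨M, -, hM⟩ := exists_bound (v := v) hG.edn
  obtain ⟨B, hB0, hB⟩ := exists_fderiv_et_bound
  set K : ℝ := 2 * (Real.pi * B ^ 2) with hK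
  have hK0 : 0 < K := by positivity
  set η' : ℝ := η / (K * Real.pi) with hη'
  have hη'0 : 0 < η' := by positivity
  have ht := tr_cont (fc_memLp hF M)
  have ht2 : ∀ᶠ z in 𝓝 (0 : ℂ), eLpNorm (fun p : ℂ × ℂ => fc v F M (p.1 - z, p.2) - fc v F M p) 2
      volume < ENNReal.ofReal (√η') := by
    apply ht.eventually_lt_const
    rw [ENNReal.ofReal_pos]
    exact Real.sqrt_pos.mpr hη'0
  obtain ⟨r0, hr0, hr⟩ := Metric.eventually_nhds_iff.1 ht2
  refine ⟨r0, hr0, fun ε hε hεr => ?_⟩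
  -- the inner integrals
  have hin : ∀ z ∈ Metric.ball (0 : ℂ) ε,
      ∫⁻ p in DD v, ENNReal.ofReal ((gx v F (p.1 - z) p.2 - gx v F p.1 p.2) ^ 2) ≤
        ENNReal.ofReal η' := by
    intro z hz
    have h1 := hr (lt_trans (Metric.mem_ball.1 hz) hεr)
    have h2 : ∫⁻ p in DD v, ENNReal.ofReal ((gx v F (p.1 - z) p.2 - gx v F p.1 p.2) ^ 2) ≤
        ∫⁻ p : ℂ × ℂ, ‖fc v F M (p.1 - z, p.2) - fc v F M p‖ₑ ^ 2 := by
      refine le_trans (le_of_eq ?_) (setLIntegral_le_lintegral (DD v) _)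
      refine setLIntegral_congr_fun measurableSet_DD (fun p hp => ?_)
      have hw : p.2 ∈ BV := by
        have := (mem_DD.1 hp).2
        rw [BV, mem_ball_zero_iff]
        exact this
      have e1 : fc v F M p = gx v F p.1 p.2 := fc_eq hM hw
      have e2 : fc v F M (p.1 - z, p.2) = gx v F (p.1 - z) p.2 := fc_eq hM hw
      rw [e1, e2, ← ofReal_norm, ← ENNReal.ofReal_pow (norm_nonneg _), Real.norm_eq_abs,
        sq_abs]
    refine h2.trans ?_
    have h3 : eLpNorm (fun p : ℂ × ℂ => fc v F M (p.1 - z, p.2) - fc v F M p) 2 volume ^ 2 =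
        ∫⁻ p : ℂ × ℂ, ‖fc v F M (p.1 - z, p.2) - fc v F M p‖ₑ ^ 2 := by
      rw [eLpNorm_eq_lintegral_rpow_enorm_toReal (by norm_num) (by norm_num)]
      rw [← ENNReal.rpow_natCast, ← ENNReal.rpow_mul]
      norm_num
    rw [← h3]
    calc _ ≤ ENNReal.ofReal (√η') ^ 2 := by gcongr
      _ = ENNReal.ofReal η' := by
        rw [← ENNReal.ofReal_pow (Real.sqrt_nonneg _), Real.sq_sqrt hη'0.le]
  -- the pointwise bound
  have hpt : ∀ p : ℂ × ℂ, ENNReal.ofReal (hh v F ε p) ≤ ENNReal.ofReal (K / ε ^ 4) *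
      ∫⁻ z in Metric.ball (0 : ℂ) ε,
        ENNReal.ofReal ((gx v F (p.1 - z) p.2 - gx v F p.1 p.2) ^ 2) := by
    intro p
    have h1 := gd_sq hB hF hε p.1 p.2 1 norm_one
    have h2 := gd_sq hB hF hε p.1 p.2 I Complex.norm_I
    have hm : Measurable (fun z : ℂ => gx v F (p.1 - z) p.2 - gx v F p.1 p.2) :=
      ((gx_meas_x hF.lf p.2).comp (measurable_const.sub measurable_id)).sub measurable_const
    have hsq2 : ∀ z, |(gx v F (p.1 - z) p.2 - gx v F p.1 p.2) ^ 2| ≤ ((n : ℝ) ^ 2 + 1) ^ 2 := by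
      intro z
      rw [abs_pow]
      exact pow_le_pow_left₀ (abs_nonneg _) (dl_le hF _ _ _) 2
    rw [← ofReal_integral_eq_lintegral_ofReal (intOn_bdd (hm.pow_const 2) hsq2 0 ε)
      (Eventually.of_forall (fun z => sq_nonneg _)), ← ENNReal.ofReal_mul (by positivity)]
    apply ENNReal.ofReal_le_ofReal
    have e : Real.pi * ε ^ 2 * (B / ε ^ 3) ^ 2 = Real.pi * B ^ 2 / ε ^ 4 := by
      field_simp
    rw [e] at h1 h2
    unfold hh
    have e2 : K / ε ^ 4 = Real.pi * B ^ 2 / ε ^ 4 + Real.pi * B ^ 2 / ε ^ 4 := by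
      rw [hK]; ring
    rw [e2, add_mul]
    exact add_le_add h1 h2
  -- integration
  have hint : ∫⁻ p in DD v, ENNReal.ofReal (hh v F ε p) ≤
      ENNReal.ofReal (K / ε ^ 4) * (ENNReal.ofReal η' * ENNReal.ofReal (Real.pi * ε ^ 2)) := by
    calc ∫⁻ p in DD v, ENNReal.ofReal (hh v F ε p) ≤ ∫⁻ p in DD v, ENNReal.ofReal (K / ε ^ 4) *
          ∫⁻ z in Metric.ball (0 : ℂ) ε,
            ENNReal.ofReal ((gx v F (p.1 - z) p.2 - gx v F p.1 p.2) ^ 2) :=
          lintegral_mono hpt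
      _ = ENNReal.ofReal (K / ε ^ 4) * ∫⁻ p in DD v, ∫⁻ z in Metric.ball (0 : ℂ) ε,
            ENNReal.ofReal ((gx v F (p.1 - z) p.2 - gx v F p.1 p.2) ^ 2) := by
          rw [lintegral_const_mul' _ _ ENNReal.ofReal_ne_top]
      _ = ENNReal.ofReal (K / ε ^ 4) * ∫⁻ z in Metric.ball (0 : ℂ) ε, ∫⁻ p in DD v,
            ENNReal.ofReal ((gx v F (p.1 - z) p.2 - gx v F p.1 p.2) ^ 2) := by
          congr 1
          rw [lintegral_lintegral_swap]
          exact (((dl_meas hF.lf).pow_const 2).ennreal_ofReal).aemeasurable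
      _ ≤ ENNReal.ofReal (K / ε ^ 4) * ∫⁻ z in Metric.ball (0 : ℂ) ε, ENNReal.ofReal η' := by
          exact mul_le_mul_right (setLIntegral_mono measurable_const hin) _
      _ = _ := by
          rw [setLIntegral_const, Complex.volume_ball]
          congr 2
          rw [mul_comm Real.pi, ENNReal.ofReal_mul (by positivity), ENNReal.ofReal_pow hε.le]
          congr 1
          rw [← NNReal.coe_real_pi, ENNReal.ofReal_coe_nnreal]
  have hhn : ∀ p, 0 ≤ hh v F ε p := fun p => by unfold hh; positivity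
  have hMe : Me v F ε ≤ K / ε ^ 4 * (η' * (Real.pi * ε ^ 2)) := by
    unfold Me
    have h1 := norm_integral_le_lintegral_norm (μ := volume.restrict (DD v)) (fun p => hh v F ε p)
    refine (le_abs_self _).trans ?_
    rw [← Real.norm_eq_abs]
    refine h1.trans ?_
    apply ENNReal.toReal_le_of_le_ofReal (by positivity)
    rw [ENNReal.ofReal_mul (by positivity), ENNReal.ofReal_mul hη'0.le]
    refine le_trans (le_of_eq ?_) hint
    congr 1
    funext p
    rw [Real.norm_eq_abs, abs_of_nonneg (hhn p)]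
  calc ε ^ 2 * Me v F ε ≤ ε ^ 2 * (K / ε ^ 4 * (η' * (Real.pi * ε ^ 2))) :=
        mul_le_mul_of_nonneg_left hMe (by positivity)
    _ = K * Real.pi * η' := by field_simp
    _ = η := by rw [hη']; field_simp
    _ ≤ η := le_rfl

end Pool.Agent.Lib.BilE.Mass12
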