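import Pool.Agent.Lib.MP_7bc51d_an_erg.Defs
import Pool.Agent.Lib.MP_7bc51d_an_dense.Refl5
import Pool.Agent.Lib.MP_7bc51d_an.Next

/-!
Row REC: receding orbits near a vertex.
-/

set_option autoImplicit false

namespace Pool.Agent.Lib.BilE.Rec33

open Complex MeasureTheory Set Filter Topology
open scoped ComplexConjugate
open Pool.Agent.Lib.Bil Pool.Agent.Lib.BilD

variable {n : ℕ} {v : Fin n → ℂ}

theorem norm_add_dt (a b : ℂ) : ‖a + b‖ ^ 2 = ‖a‖ ^ 2 + 2 * dt a b + ‖b‖ ^ 2 := by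
  rw [← normsq_eq, ← normsq_eq, ← normsq_eq, add_re, add_im]
  unfold dt
  ring

theorem dt_rl2 {e : ℂ} (he : e ≠ 0) (a b : ℂ) : dt (rl e a) (rl e b) = dt a b := by
  have h1 := norm_add_dt a b
  have h2 := norm_add_dt (rl e a) (rl e b)
  rw [← rl_add, norm_rl he, norm_rl he, norm_rl he] at h2
  linarith

theorem dt_add_smul (a b : ℂ) (t : ℝ) : dt a (b + (t : ℂ) * a) = dt a b + t * ‖a‖ ^ 2 := by
  rw [← normsq_eq]
  unfold dt
  simp only [add_re, add_im, re_ofReal_mul, im_ofReal_mul]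
  ring

theorem cr_add_smul (a b : ℂ) (t : ℝ) : cr a (b + (t : ℂ) * a) = cr a b := by
  rw [cr_add_right, cr_smul_right, cr_self, mul_zero, add_zero]

theorem sq_dt_cr (a b : ℂ) : (‖a‖ * ‖b‖) ^ 2 = dt a b ^ 2 + cr a b ^ 2 := by
  rw [mul_pow, ← normsq_eq, ← normsq_eq]
  unfold dt cr
  ring

theorem step1 {C e0 : ℝ} (hg : Geo v C e0) {h : ℝ} (hh : 0 < h)
    (hhe : h < e0) {k : Fin n} {p : ℂ × ℂ} {c : Option (Fin n × Fin n)} (hp : p ∈ stepSet v h c)
    (hw : ‖p.2‖ < 1) (hk : ‖p.1 - v k‖ < e0) :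
    dt (stepMap v h c p).2 ((stepMap v h c p).1 - v k) = dt p.2 (p.1 - v k) + h * ‖p.2‖ ^ 2 ∧
      |cr (stepMap v h c p).2 ((stepMap v h c p).1 - v k)| = |cr p.2 (p.1 - v k)| ∧
      ‖(stepMap v h c p).1 - v k‖ ≤ ‖p.1 - v k‖ + h ∧ ‖(stepMap v h c p).2‖ = ‖p.2‖ := by
  obtain ⟨x, w⟩ := p
  simp only at hw hk ⊢
  set y : ℂ := x + (h : ℂ) * w with hy
  have e1 : y - v k = (x - v k) + (h : ℂ) * w := by rw [hy]; ring
  have b1 : dt w (y - v k) = dt w (x - v k) + h * ‖w‖ ^ 2 := by rw [e1, dt_add_smul]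
  have b2 : cr w (y - v k) = cr w (x - v k) := by rw [e1, cr_add_smul]
  have hhw : ‖(h : ℂ) * w‖ ≤ h := by
    rw [norm_mul, norm_real, Real.norm_of_nonneg hh.le]
    nlinarith [norm_nonneg w]
  have b3 : ‖y - v k‖ ≤ ‖x - v k‖ + h := by
    rw [e1]
    exact (norm_add_le _ _).trans (by linarith)
  match c with
  | none => exact ⟨b1, by change |cr w (y - v k)| = _; rw [b2], b3, rfl⟩
  | some (i, j) =>
    rw [mem_stepSet_some] at hp
    obtain ⟨hij, hx, -, -, hR⟩ := hp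
    simp only at hx hR
    have hs : (i, j) ∈ SD v := mem_SD.2 hij
    have he := hg.edn (i, j) hs
    have hkij : k = i ∨ k = j := by
      by_contra hcon
      push Not at hcon
      have h1 : 0 < ds v (i, j) (Rs v (i, j) y) := (hg.pp _).1 hR (i, j) hs
      rw [Refl5.ds_Rs he] at h1
      have h2 := (abs_le.1 (Refl5.ds_sub_le (v := v) (s := (i, j)) x y)).2
      have h3 : ‖x - y‖ ≤ h := by
        have : x - y = -((h : ℂ) * w) := by rw [hy]; ring
        rw [this, norm_neg]; exact hhw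
      have h4 := hg.far (e0 / 2) (by linarith [hg.e0p]) (by linarith [hg.e0p]) (i, j) hs k
        hcon.1 hcon.2 x (by linarith)
      have h5 := mul_le_mul_of_nonneg_right hg.C1 hg.e0p.le
      linarith [hg.e0p]
    have hfix : RR v i j (v k) = v k := by
      rcases hkij with rfl | rfl
      · exact RR_left v k j
      · exact RR_right v he
    have e2 : RR v i j y - v k = rl (v j - v i) (y - v k) := by
      have := RR_sub_RR (v := v) i j y (v k)
      rwa [hfix] at this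
    have he' : v j - v i ≠ 0 := he
    change dt (rl (v j - v i) w) (RR v i j y - v k) = _ ∧
      |cr (rl (v j - v i) w) (RR v i j y - v k)| = _ ∧ ‖RR v i j y - v k‖ ≤ _ ∧
      ‖rl (v j - v i) w‖ = _
    rw [e2]
    refine ⟨?_, ?_, ?_, norm_rl he' w⟩
    · rw [dt_rl2 he', b1]
    · rw [cr_rl he', abs_neg, b2]
    · rw [norm_rl he']; exact b3

theorem steps {C e0 : ℝ} (hg : Geo v C e0) {h : ℝ} (hh : 0 < h)
    (hhe : h < e0) {k : Fin n} (u : List (Option (Fin n × Fin n))) :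
    ∀ p : ℂ × ℂ, ‖p.2‖ < 1 → ‖p.1 - v k‖ + u.length * h < e0 → p ∈ Bil.OO v h u →
    dt (eM v h u p).2 ((eM v h u p).1 - v k) = dt p.2 (p.1 - v k) + u.length * h * ‖p.2‖ ^ 2 ∧
      |cr (eM v h u p).2 ((eM v h u p).1 - v k)| = |cr p.2 (p.1 - v k)| ∧
      ‖(eM v h u p).1 - v k‖ ≤ ‖p.1 - v k‖ + u.length * h ∧ ‖(eM v h u p).2‖ = ‖p.2‖ := by
  induction u with
  | nil =>
    intro p _ _ _
    simp only [eM, List.length_nil, Nat.cast_zero, zero_mul, add_zero]
    exact ⟨trivial, trivial, le_refl _, trivial⟩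
  | cons c u ih =>
    intro p hw hk hp
    rw [List.length_cons] at hk ⊢
    push_cast at hk ⊢
    have hl : (0 : ℝ) ≤ u.length * h := by positivity
    obtain ⟨a1, a2, a3, a4⟩ := step1 hg hh hhe (k := k) hp.1 hw (by linarith)
    obtain ⟨b1, b2, b3, b4⟩ := ih (stepMap v h c p) (by rw [a4]; exact hw) (by linarith) hp.2
    change dt (eM v h u (stepMap v h c p)).2 ((eM v h u (stepMap v h c p)).1 - v k) = _ ∧
      |cr (eM v h u (stepMap v h c p)).2 ((eM v h u (stepMap v h c p)).1 - v k)| = _ ∧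
      ‖(eM v h u (stepMap v h c p)).1 - v k‖ ≤ _ ∧ ‖(eM v h u (stepMap v h c p)).2‖ = _
    refine ⟨?_, ?_, ?_, ?_⟩
    · rw [b1, a1, a4]; ring
    · rw [b2, a2]
    · linarith
    · rw [b4, a4]

theorem exists_side_avoid (hn : 3 ≤ n) (hv : ConvexIndependent ℝ v) {k l : Fin n} (hl : l ≠ k) :
    ∃ s ∈ SD v, (k = s.1 ∨ k = s.2) ∧ l ≠ s.1 ∧ l ≠ s.2 := by
  obtain ⟨p, hp⟩ := (nxt_bijective hn hv).2 k
  have h1 := nxt_side hn hv k
  have h2 := nxt_side hn hv p
  rw [hp] at h2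
  by_cases hlq : l = nxt hn hv k
  · refine ⟨(p, k), mem_SD.2 h2, Or.inr rfl, ?_, hl⟩
    intro h3
    -- `l` would be both neighbours
    have h3' : l = p := h3
    rw [← hlq] at h1
    rw [← h3'] at h2
    -- IsSide k l and IsSide l k
    obtain ⟨m, hm1, hm2⟩ : ∃ m : Fin n, m ≠ k ∧ m ≠ l := by
      by_contra hcon
      push Not at hcon
      have hsub : (Finset.univ : Finset (Fin n)) ⊆ {k, l} := by
        intro m _
        rw [Finset.mem_insert, Finset.mem_singleton]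
        by_cases hm : m = k
        · exact Or.inl hm
        · exact Or.inr (hcon m hm)
      have hc := Finset.card_le_card hsub
      rw [Finset.card_univ, Fintype.card_fin] at hc
      have : ({k, l} : Finset (Fin n)).card ≤ 2 := Finset.card_le_two
      omega
    have q1 := h1.2 m hm1 hm2
    have q2 := h2.2 m hm2 hm1
    have e1 : v m - v l = (v m - v k) - (v l - v k) := by ring
    have e2 : v k - v l = -(v l - v k) := by ring
    rw [e1, e2, cr_neg_left, cr_sub_right, cr_self] at q2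
    linarith
  · exact ⟨(k, nxt hn hv k), mem_SD.2 h1, Or.inl rfl, hl, hlq⟩

theorem ds_vert {s : Fin n × Fin n} {k : Fin n} (hk : k = s.1 ∨ k = s.2) : ds v s (v k) = 0 := by
  unfold ds
  rcases hk with h | h
  · rw [h, sub_self, cr_zero_right, zero_div]
  · rw [h]
    change cr (v s.2 - v s.1) (v s.2 - v s.1) / _ = 0
    rw [cr_self, zero_div]

theorem row : StRec := by
  intro n v C e0 hn hv hg
  have he0 := hg.e0p
  have hC := hg.C1
  have hC0 : 0 < C := by linarith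
  refine ⟨e0 / 2, e0 / (8 * C), by positivity, by positivity, ?_, ?_⟩
  · rw [div_le_iff₀ (by positivity)]
    nlinarith
  intro ε hε hε1 k p hZ hk hw hdt u hu hp
  have hCε : C * ε < e0 / 8 := by
    rw [lt_div_iff₀ (by positivity)] at hε1
    linarith
  have hε2 : ε < e0 := by nlinarith
  have hlen : (0 : ℝ) ≤ u.length * (ε / 4) := by positivity
  obtain ⟨b1, b2, b3, b4⟩ := steps hg (h := ε / 4) (by positivity) (by linarith) (k := k) u p hw
    (by linarith) hp
  set q := eM v (ε / 4) u p with hq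
  refine ⟨b1, b2, ?_, by linarith, ?_⟩
  · -- the distance does not decrease
    have hw0 : 0 < ‖p.2‖ := by
      rcases (norm_nonneg p.2).lt_or_eq with h1 | h1
      · exact h1
      · exfalso
        have h2 := sq_dt_cr p.2 (p.1 - v k)
        rw [← h1, zero_mul] at h2
        nlinarith [sq_nonneg (cr p.2 (p.1 - v k))]
    have h1 := sq_dt_cr p.2 (p.1 - v k)
    have h2 := sq_dt_cr q.2 (q.1 - v k)
    rw [b4] at h2
    have h3 : cr q.2 (q.1 - v k) ^ 2 = cr p.2 (p.1 - v k) ^ 2 := by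
      rw [← sq_abs, b2, sq_abs]
    have h4 : dt p.2 (p.1 - v k) ^ 2 ≤ dt q.2 (q.1 - v k) ^ 2 := by
      apply pow_le_pow_left₀ hdt.le
      rw [b1]
      have : 0 ≤ u.length * (ε / 4) * ‖p.2‖ ^ 2 := by positivity
      linarith
    have h5 : (‖p.2‖ * ‖p.1 - v k‖) ^ 2 ≤ (‖p.2‖ * ‖q.1 - v k‖) ^ 2 := by
      rw [h1, h2, h3]; linarith
    have h6 : ‖p.2‖ * ‖p.1 - v k‖ ≤ ‖p.2‖ * ‖q.1 - v k‖ :=
      (sq_le_sq₀ (by positivity) (by positivity)).1 h5
    have h7 := le_of_mul_le_mul_left h6 hw0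
    exact (hZ.2.2 k).trans h7
  · intro l hl
    obtain ⟨s, hs, hks, hl1, hl2⟩ := exists_side_avoid hn hv hl
    have h1 := (abs_le.1 (Refl5.ds_sub_le (v := v) (s := s) q.1 (v k))).2
    rw [ds_vert hks] at h1
    have h2 := hg.far (e0 / 2) (by positivity) (by linarith) s hs l hl1 hl2 q.1 (by linarith)
    nlinarith

end Pool.Agent.Lib.BilE.Rec33
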