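import Pool.Agent.Lib.MP_7bc51d_an_erg.Defs
import Pool.Agent.Lib.MP_7bc51d_an_dense.V
import Pool.Agent.Lib.MP_7bc51d_an_dense.Erg45
import Pool.Agent.Lib.MP_7bc51d_an_dense.Inv45

/-!
# Rows BES3, TEL3, HINV
-/

set_option autoImplicit false

namespace Pool.Agent.Lib.BilE.Row45

open Complex MeasureTheory Set Filter Topology
open scoped ComplexConjugate
open Pool.Agent.Lib.Bil Pool.Agent.Lib.BilD

variable {n : ℕ} {v : Fin n → ℂ} {F : ℂ → ℝ → ℝ} {C e0 ε : ℝ}

theorem gd_eq (x w h : ℂ) : gd v F ε x w h = Erg45.dg v F ε x w h := rfl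

theorem hh_eq (p : ℂ × ℂ) : hh v F ε p = Erg45.hq v F ε p.1 p.2 := rfl

theorem ZZ_eq : ZZ v C ε = Erg45.Zc v C ε := rfl

theorem GE_eq : BilE.GE v F C ε = Erg45.GE v F C ε := rfl

/-- (BES3) -/
theorem bes3 : StBes3 := by
  intro n v C e0 hG
  have hpi := Real.pi_pos
  refine ⟨2 * Real.pi, by positivity, ?_⟩
  intro F hF ε hε x p N
  have h := (Erg45.bes3 Smo74.row hG hF hε x ((Finset.range N).image (fun j => p + 2 * j))).2
  rw [Finset.sum_image (fun a _ b _ hab => by
    have : p + 2 * a = p + 2 * b := hab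
    omega)] at h
  exact h

theorem am_real (F : ℂ → ℝ → ℝ) (x : ℂ) : conj (am v F 0 x) = am v F 0 x := by
  unfold am
  rw [← integral_conj]
  refine integral_congr_ae (Eventually.of_forall (fun w => ?_))
  simp [BilD.em]

theorem dzb_zero (hG : Geo v C e0) (hF : LFS v F) (hε : 0 < ε) (x : ℂ) :
    ‖dzb (um v F 0 ε) x‖ = ‖dz (um v F 0 ε) x‖ := by
  have h0 : ∀ h : ℂ, conj (fderiv ℝ (um v F 0 ε) x h) = fderiv ℝ (um v F 0 ε) x h := by
    intro h
    rw [(Smo74.row n v C e0 hG F hF ε hε 0).2 x h, ← integral_conj]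
    refine integral_congr_ae (Eventually.of_forall (fun y => ?_))
    simp only [map_mul, conj_ofReal, am_real]
  have e : dzb (um v F 0 ε) x = conj (dz (um v F 0 ε) x) := by
    unfold dzb dz
    rw [map_div₀, map_sub, map_mul, h0, h0, conj_I]
    have : (conj (2 : ℂ)) = 2 := by
      have := conj_ofReal (2 : ℝ)
      simpa using this
    rw [this]
    ring
  rw [e, Complex.norm_conj]

/-- (TEL3) -/
theorem tel3 : StTel3 := by
  intro n v C e0 hn hv hG
  obtain ⟨C6, hC6, h6⟩ := Erg45.tel3 Smo74.row rMode ei17 rSide WP12.row hn hv hG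
  refine ⟨4 * C6, by positivity, ?_⟩
  intro F hF ε hε hε0 p hp
  have hW := ((WP12.row n v C e0 hG).1 ε hε)
  have hnn : 0 ≤ BilE.GE v F C ε := by
    rw [GE_eq]
    unfold Erg45.GE
    exact integral_nonneg (fun x => Erg45.ihq_nonneg x)
  have hopt : ∀ E : ℝ, (∀ τ, 0 < τ → E ≤ C6 * (τ + BilE.GE v F C ε / τ)) →
      E ≤ 2 * C6 * √(BilE.GE v F C ε) := by
    intro E hE
    rcases hnn.eq_or_lt with h0 | h0
    · rw [← h0, Real.sqrt_zero, mul_zero]
      refine le_of_forall_pos_le_add (fun δ hδ => ?_)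
      have h := hE (δ / C6) (by positivity)
      rw [← h0, zero_div, add_zero, mul_div_cancel₀ _ hC6.ne'] at h
      linarith
    · have hs : 0 < √(BilE.GE v F C ε) := Real.sqrt_pos.2 h0
      have h := hE _ hs
      have e : BilE.GE v F C ε / √(BilE.GE v F C ε) = √(BilE.GE v F C ε) := by
        rw [Real.div_sqrt]
      rw [e] at h
      linarith
  have hd : ∫ x in PP v, WW v C ε x * ‖dz (um v F p ε) x‖ ^ 2 ≤
      2 * C6 * √(BilE.GE v F C ε) :=
    hopt _ (fun τ hτ => (h6 F hF ε hε hε0 τ hτ).1 p)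
  have hb : ∫ x in PP v, WW v C ε x * ‖dzb (um v F p ε) x‖ ^ 2 ≤
      2 * C6 * √(BilE.GE v F C ε) := by
    rcases Nat.eq_zero_or_pos p with h0 | h0
    · subst h0
      refine le_trans (le_of_eq ?_) hd
      refine integral_congr_ae (Eventually.of_forall (fun x => ?_))
      simp only [dzb_zero hG hF hε x]
    · exact hopt _ (fun τ hτ => (h6 F hF ε hε hε0 τ hτ).2 p h0)
  have hsm := (Smo74.row n v C e0 hG F hF ε hε p).1
  have hfd : Continuous (fun x => fderiv ℝ (um v F p ε) x) := hsm.continuous_fderiv (by norm_num)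
  have hcz : Continuous (fun x => dz (um v F p ε) x) := by
    unfold dz
    exact (((hfd.clm_apply continuous_const)).sub
      (continuous_const.mul (hfd.clm_apply continuous_const))).div_const _
  have hczb : Continuous (fun x => dzb (um v F p ε) x) := by
    unfold dzb
    exact (((hfd.clm_apply continuous_const)).add
      (continuous_const.mul (hfd.clm_apply continuous_const))).div_const _
  have hcW : Continuous (WW v C ε) := hW.1.continuous
  have hK : IsCompact (KK v) := isCompact_KK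
  have hsub : PP v ⊆ KK v := interior_subset
  have i1 : IntegrableOn (fun x => WW v C ε x * ‖dz (um v F p ε) x‖ ^ 2) (PP v) :=
    ((hcW.mul (hcz.norm.pow 2)).continuousOn.integrableOn_compact hK).mono_set hsub
  have i2 : IntegrableOn (fun x => WW v C ε x * ‖dzb (um v F p ε) x‖ ^ 2) (PP v) :=
    ((hcW.mul (hczb.norm.pow 2)).continuousOn.integrableOn_compact hK).mono_set hsub
  have e : ∫ x in PP v, WW v C ε x * (‖dz (um v F p ε) x‖ ^ 2 + ‖dzb (um v F p ε) x‖ ^ 2) =
      (∫ x in PP v, WW v C ε x * ‖dz (um v F p ε) x‖ ^ 2) +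
        ∫ x in PP v, WW v C ε x * ‖dzb (um v F p ε) x‖ ^ 2 := by
    rw [← integral_add i1 i2]
    refine integral_congr_ae (Eventually.of_forall (fun x => ?_))
    simp only
    ring
  rw [e]
  linarith

/-- (HINV) -/
theorem hinv : StHinv := by
  intro n v C e0 hn hv hG F hF ε hε hε0
  filter_upwards [Inv45.inv_ae hG hF hε hε0 1 (Or.inl rfl), Inv45.cov_ae hG hε hε0] with p h1 h2
    hD hk
  have hD1 : p.1 ∈ PP v := hD.1
  have hD2 : ‖p.2‖ < 1 := by
    have := hD.2
    rwa [Metric.mem_ball, dist_zero_right] at this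
  obtain ⟨c, hc⟩ := h2 hD1 hk hD2
  refine ⟨c, hc, ?_⟩
  have h := h1 hD1 hk hD2 c hc
  simp only [ofReal_one, one_mul] at h
  exact h

end Pool.Agent.Lib.BilE.Row45
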