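import Mathlib

/-!
Averaging along disjoint images (abstract form).
-/

set_option autoImplicit false

namespace Pool.Agent.Lib.BilE.Avg5

open MeasureTheory Set Filter Topology
open scoped ENNReal

variable {X ι : Type*} [MeasurableSpace X]

/-- The images of `B` under the partial maps. -/
def Im (S : ι → Set X) (T : ι → X → X) (B : Set X) : ℕ → Set X
  | 0 => B
  | j + 1 => ⋃ c, T c '' (S c ∩ Im S T B j)

theorem Im_succ (S : ι → Set X) (T : ι → X → X) (B : Set X) (j : ℕ) :
    Im S T B (j + 1) = ⋃ c, T c '' (S c ∩ Im S T B j) := rfl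

theorem Im_meas [Countable ι] {S : ι → Set X} {T : ι → X → X} {B : Set X}
    (hS : ∀ c, MeasurableSet (S c)) (hT : ∀ c, (S c).Nonempty → MeasurableEmbedding (T c))
    (hB : MeasurableSet B) (j : ℕ) : MeasurableSet (Im S T B j) := by
  induction j with
  | zero => exact hB
  | succ j ih =>
    rw [Im_succ]
    refine MeasurableSet.iUnion (fun c => ?_)
    by_cases hc : (S c).Nonempty
    · exact (hT c hc).measurableSet_image' ((hS c).inter ih)
    · rw [not_nonempty_iff_eq_empty] at hc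
      rw [hc, empty_inter, image_empty]
      exact MeasurableSet.empty

theorem Im_disj {S : ι → Set X} {T : ι → X → X} {B : Set X}
    (hT : ∀ c, (S c).Nonempty → Function.Injective (T c))
    (hdis : ∀ c c', c ≠ c' → Disjoint (T c '' S c) (T c' '' S c')) (a l : ℕ)
    (h : Disjoint B (Im S T B l)) : Disjoint (Im S T B a) (Im S T B (a + l)) := by
  induction a with
  | zero => rw [zero_add]; exact h
  | succ a ih =>
    rw [disjoint_left] at ih ⊢
    intro z hz hz'
    rw [show a + 1 + l = (a + l) + 1 by ring, Im_succ] at hz'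
    rw [Im_succ] at hz
    simp only [mem_iUnion] at hz hz'
    obtain ⟨c, p, hp, rfl⟩ := hz
    obtain ⟨c', p', hp', he⟩ := hz'
    have hcc : c = c' := by
      by_contra hne
      exact (disjoint_left.1 (hdis c c' hne)) ⟨p, hp.1, rfl⟩ ⟨p', hp'.1, he⟩
    subst hcc
    have hpp := hT c ⟨p, hp.1⟩ he
    subst hpp
    exact ih hp.2 hp'.2

theorem Im_step [Countable ι] {μ : Measure X} {S : ι → Set X} {T : ι → X → X} {B : Set X}
    (hS : ∀ c, MeasurableSet (S c))
    (hT : ∀ c, (S c).Nonempty → MeasurePreserving (T c) μ μ ∧ MeasurableEmbedding (T c))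
    (hdis : ∀ c c', c ≠ c' → Disjoint (T c '' S c) (T c' '' S c')) (hB : MeasurableSet B)
    {h : X → ℝ≥0∞} (j : ℕ)
    (hcov : ∀ᵐ p ∂μ, p ∈ Im S T B j → ∃ c, p ∈ S c)
    (hinv : ∀ c, ∀ᵐ p ∂μ, p ∈ S c → p ∈ Im S T B j → h (T c p) = h p) :
    ∫⁻ p in Im S T B j, h p ∂μ ≤ ∫⁻ p in Im S T B (j + 1), h p ∂μ := by
  have hIm := Im_meas hS (fun c hc => (hT c hc).2) hB
  have e1 : ∫⁻ p in Im S T B (j + 1), h p ∂μ =
      ∑' c, ∫⁻ p in T c '' (S c ∩ Im S T B j), h p ∂μ := by
    rw [Im_succ]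
    apply lintegral_iUnion
    · intro c
      by_cases hc : (S c).Nonempty
      · exact (hT c hc).2.measurableSet_image' ((hS c).inter (hIm j))
      · rw [not_nonempty_iff_eq_empty] at hc
        rw [hc, empty_inter, image_empty]
        exact MeasurableSet.empty
    · intro c c' hcc
      exact (hdis c c' hcc).mono (image_mono inter_subset_left) (image_mono inter_subset_left)
  have e2 : ∀ c, ∫⁻ p in T c '' (S c ∩ Im S T B j), h p ∂μ =
      ∫⁻ p in S c ∩ Im S T B j, h p ∂μ := by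
    intro c
    by_cases hc : (S c).Nonempty
    · obtain ⟨h1, h2⟩ := hT c hc
      rw [← h1.setLIntegral_comp_preimage_emb h2, h2.injective.preimage_image]
      apply setLIntegral_congr_fun_ae ((hS c).inter (hIm j))
      filter_upwards [hinv c] with p hp hpm
      exact hp hpm.1 hpm.2
    · rw [not_nonempty_iff_eq_empty] at hc
      rw [hc, empty_inter, image_empty]
  rw [e1]
  simp_rw [e2]
  calc ∫⁻ p in Im S T B j, h p ∂μ ≤ ∫⁻ p in ⋃ c, (S c ∩ Im S T B j), h p ∂μ := by
        apply lintegral_mono_set'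
        filter_upwards [hcov] with p hp hpm
        obtain ⟨c, hc⟩ := hp hpm
        exact mem_iUnion.2 ⟨c, hc, hpm⟩
    _ ≤ ∑' c, ∫⁻ p in S c ∩ Im S T B j, h p ∂μ := lintegral_iUnion_le _ _

/-- Averaging: `(m / K + 1) ∫_B h ≤ ∫_Y h`. -/
theorem avg [Countable ι] {μ : Measure X} {S : ι → Set X} {T : ι → X → X} {B Y : Set X}
    (hS : ∀ c, MeasurableSet (S c))
    (hT : ∀ c, (S c).Nonempty → MeasurePreserving (T c) μ μ ∧ MeasurableEmbedding (T c))
    (hdis : ∀ c c', c ≠ c' → Disjoint (T c '' S c) (T c' '' S c')) (hB : MeasurableSet B)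
    {h : X → ℝ≥0∞} {K m : ℕ} (hK : 0 < K)
    (hcov : ∀ j < m, ∀ᵐ p ∂μ, p ∈ Im S T B j → ∃ c, p ∈ S c)
    (hinv : ∀ j < m, ∀ c, ∀ᵐ p ∂μ, p ∈ S c → p ∈ Im S T B j → h (T c p) = h p)
    (hret : ∀ l, K ≤ l → l ≤ m → Disjoint B (Im S T B l))
    (hY : ∀ j ≤ m, Im S T B j ⊆ Y) :
    ((m / K + 1 : ℕ) : ℝ≥0∞) * ∫⁻ p in B, h p ∂μ ≤ ∫⁻ p in Y, h p ∂μ := by
  have hIm := Im_meas hS (fun c hc => (hT c hc).2) hB
  -- monotonicity
  have mono : ∀ j ≤ m, ∫⁻ p in B, h p ∂μ ≤ ∫⁻ p in Im S T B j, h p ∂μ := by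
    intro j
    induction j with
    | zero => intro _; exact le_refl _
    | succ j ih =>
      intro hj
      exact (ih (by omega)).trans (Im_step hS hT hdis hB j (hcov j (by omega)) (hinv j (by omega)))
  -- disjointness
  have hd : Pairwise (fun a b : Fin (m / K + 1) =>
      Disjoint (Im S T B (a.1 * K)) (Im S T B (b.1 * K))) := by
    have key : ∀ a b : Fin (m / K + 1), a.1 < b.1 →
        Disjoint (Im S T B (a.1 * K)) (Im S T B (b.1 * K)) := by
      intro a b hab
      obtain ⟨d, hd⟩ := Nat.exists_eq_add_of_lt hab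
      have hb : b.1 * K ≤ m := by
        have := Nat.lt_succ_iff.1 b.2
        calc b.1 * K ≤ (m / K) * K := Nat.mul_le_mul_right K this
          _ ≤ m := Nat.div_mul_le_self m K
      have e : b.1 * K = a.1 * K + (d + 1) * K := by
        rw [hd]; ring
      rw [e]
      apply Im_disj (fun c hc => (hT c hc).2.injective) hdis
      apply hret
      · calc K = 1 * K := (one_mul K).symm
          _ ≤ (d + 1) * K := Nat.mul_le_mul_right K (by omega)
      · omega
    intro a b hab
    rcases lt_or_gt_of_ne (fun h0 => hab (Fin.ext h0)) with h0 | h0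
    · exact key a b h0
    · exact (key b a h0).symm
  calc ((m / K + 1 : ℕ) : ℝ≥0∞) * ∫⁻ p in B, h p ∂μ
      = ∑ _a : Fin (m / K + 1), ∫⁻ p in B, h p ∂μ := by
        rw [Finset.sum_const, Finset.card_univ, Fintype.card_fin, nsmul_eq_mul]
    _ ≤ ∑ a : Fin (m / K + 1), ∫⁻ p in Im S T B (a.1 * K), h p ∂μ := by
        apply Finset.sum_le_sum
        intro a _
        apply mono
        have := Nat.lt_succ_iff.1 a.2
        calc a.1 * K ≤ (m / K) * K := Nat.mul_le_mul_right K this
          _ ≤ m := Nat.div_mul_le_self m K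
    _ = ∫⁻ p in ⋃ a : Fin (m / K + 1), Im S T B (a.1 * K), h p ∂μ := by
        rw [lintegral_iUnion (fun a => hIm _) hd, tsum_fintype]
    _ ≤ ∫⁻ p in Y, h p ∂μ := by
        apply lintegral_mono_set
        intro p hp
        obtain ⟨a, ha⟩ := mem_iUnion.1 hp
        have := Nat.lt_succ_iff.1 a.2
        exact hY _ ((Nat.mul_le_mul_right K this).trans (Nat.div_mul_le_self m K)) ha

end Pool.Agent.Lib.BilE.Avg5
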