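import Pool.Agent.Lib.MP_7bc51d_an_erg.Defs
import Pool.Agent.Lib.MP_7bc51d_an_erg.Avg5

/-!
# Row TUBE: disjoint images
-/

set_option autoImplicit false

namespace Pool.Agent.Lib.BilE.Tube5

open Complex MeasureTheory Set Filter Topology
open scoped ComplexConjugate ENNReal
open Pool.Agent.Lib.Bil Pool.Agent.Lib.BilD Pool.Agent.Lib.BilE

variable {n : ℕ} {v : Fin n → ℂ}

theorem stepMap_inj (hv : ConvexIndependent ℝ v) (h : ℝ) {c : Option (Fin n × Fin n)}
    (hc : (stepSet v h c).Nonempty) : Function.Injective (stepMap v h c) := by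
  match c with
  | none =>
    intro p q hpq
    change (p.1 + (h : ℂ) * p.2, p.2) = (q.1 + (h : ℂ) * q.2, q.2) at hpq
    rw [Prod.mk.injEq] at hpq
    obtain ⟨h1, h2⟩ := hpq
    rw [h2] at h1
    exact Prod.ext (add_right_cancel h1) h2
  | some (i, j) =>
    obtain ⟨p0, hp0⟩ := hc
    have hne := v_sub_ne hv hp0.1.1
    intro p q hpq
    change (RR v i j (p.1 + (h : ℂ) * p.2), rl (v j - v i) p.2) =
      (RR v i j (q.1 + (h : ℂ) * q.2), rl (v j - v i) q.2) at hpq
    rw [Prod.mk.injEq] at hpq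
    obtain ⟨h1, h2⟩ := hpq
    have h3 : p.2 = q.2 := by rw [← rl_rl hne p.2, h2, rl_rl hne]
    unfold RR at h1
    have h4 := add_left_cancel h1
    have h5 : p.1 + (h : ℂ) * p.2 - v i = q.1 + (h : ℂ) * q.2 - v i := by
      rw [← rl_rl hne (p.1 + (h : ℂ) * p.2 - v i), h4, rl_rl hne]
    rw [h3] at h5
    exact Prod.ext (add_right_cancel (sub_left_injective h5)) h3

theorem stepMap_emb (hv : ConvexIndependent ℝ v) (h : ℝ) {c : Option (Fin n × Fin n)}
    (hc : (stepSet v h c).Nonempty) : MeasurableEmbedding (stepMap v h c) :=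
  (continuous_stepMap h c).measurableEmbedding (stepMap_inj hv h hc)

theorem img_disj (hv : ConvexIndependent ℝ v) (h : ℝ) (c c' : Option (Fin n × Fin n))
    (hcc : c ≠ c') : Disjoint (stepMap v h c '' stepSet v h c)
      (stepMap v h c' '' stepSet v h c') := by
  refine (imgSet_disjoint hv (h := h) hcc).mono ?_ ?_
  · rintro _ ⟨p, hp, rfl⟩; exact stepMap_mem_imgSet hv hp
  · rintro _ ⟨p, hp, rfl⟩; exact stepMap_mem_imgSet hv hp

/-- The step at a phase point is unique. -/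
theorem step_unique (hv : ConvexIndependent ℝ v) {h : ℝ} {c c' : Option (Fin n × Fin n)}
    {p : ℂ × ℂ} (hp : p ∈ stepSet v h c) (hp' : p ∈ stepSet v h c') : c = c' := by
  have key : ∀ c, p ∈ stepSet v h c → (p.1, -p.2) ∈ imgSet v h c := by
    intro c hc
    match c with
    | none =>
      refine ⟨hc.1, ?_⟩
      change p.1 - (h : ℂ) * (-p.2) ∈ PP v
      rw [mul_neg, sub_neg_eq_add]; exact hc.2
    | some (i, j) =>
      obtain ⟨hij, hx, h1, h2, h3⟩ := hc
      have hne := v_sub_ne hv hij.1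
      refine ⟨hij, hx, ?_, ?_, ?_⟩
      · change cr (-p.2) (v j - p.1) < 0
        rw [cr_neg_left]; linarith
      · change 0 < cr (-p.2) (v i - p.1)
        rw [cr_neg_left]; linarith
      · change p.1 - (h : ℂ) * (-p.2) ∉ PP v
        rw [mul_neg, sub_neg_eq_add]
        intro hmem
        have h5 := hij.cr_pos hv h3
        have h6 := hij.cr_pos hv hmem
        have h7 : RR v i j (p.1 + (h : ℂ) * p.2) - v i =
            rl (v j - v i) (p.1 + (h : ℂ) * p.2 - v i) := by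
          unfold RR
          rw [add_sub_cancel_left]
        rw [h7] at h5
        have h8 := cr_rl hne (v j - v i) (p.1 + (h : ℂ) * p.2 - v i)
        rw [rl_self hne] at h8
        linarith
  by_contra hcc
  exact disjoint_left.1 (imgSet_disjoint hv (h := h) hcc) (key c hp) (key c' hp')

theorem Im_eq (h : ℝ) (B : Set (ℂ × ℂ)) (j : ℕ) :
    Avg5.Im (stepSet v h) (stepMap v h) B j = (Nx v h)^[j] B := by
  induction j with
  | zero => rfl
  | succ j ih => rw [Avg5.Im_succ, Function.iterate_succ_apply', ih]; rfl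

theorem Nx_sub (hv : ConvexIndependent ℝ v) (h : ℝ) {B : Set (ℂ × ℂ)} (hB : B ⊆ DD v) (j : ℕ) :
    (Nx v h)^[j] B ⊆ DD v := by
  induction j with
  | zero => exact hB
  | succ j ih =>
    rw [Function.iterate_succ_apply']
    intro q hq
    obtain ⟨c, hc⟩ := mem_iUnion.1 hq
    obtain ⟨p, ⟨hp1, hp2⟩, rfl⟩ := hc
    rw [mem_DD, norm_snd_stepMap hv hp1]
    exact ⟨fst_stepMap_mem hp1, (mem_DD.1 (ih hp2)).2⟩

/-- (TUBE), strong form. -/
theorem tube (hv : ConvexIndependent ℝ v) (h : ℝ) {φ : ℂ × ℂ → ℝ≥0∞} {B : Set (ℂ × ℂ)}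
    (hB : MeasurableSet B) (hBD : B ⊆ DD v) {K m : ℕ} (hK : 1 ≤ K)
    (hinv : ∀ j < m, ∀ᵐ p : ℂ × ℂ, p ∈ (Nx v h)^[j] B →
      ∃ c, p ∈ stepSet v h c ∧ φ (stepMap v h c p) = φ p)
    (hret : ∀ j, K ≤ j → j ≤ m → Disjoint B ((Nx v h)^[j] B)) :
    ((m / K + 1 : ℕ) : ℝ≥0∞) * ∫⁻ p in B, φ p ≤ ∫⁻ p in DD v, φ p := by
  have hh := Avg5.avg (μ := (volume : Measure (ℂ × ℂ))) (S := stepSet v h) (T := stepMap v h)
    (B := B) (Y := DD v) (fun c => (isOpen_stepSet h c).measurableSet)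
    (fun c hc => ⟨mp_stepMap hv h hc, stepMap_emb hv h hc⟩) (img_disj hv h) hB (h := φ)
    (K := K) (m := m) hK
  refine hh ?_ ?_ ?_ ?_
  · intro j hj
    filter_upwards [hinv j hj] with p hp hpm
    rw [Im_eq] at hpm
    obtain ⟨c, hc, -⟩ := hp hpm
    exact ⟨c, hc⟩
  · intro j hj c
    filter_upwards [hinv j hj] with p hp hpc hpm
    rw [Im_eq] at hpm
    obtain ⟨c', hc', he⟩ := hp hpm
    rw [step_unique hv hpc hc']
    exact he
  · intro l hl hlm
    rw [Im_eq]
    exact hret l hl hlm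
  · intro j _
    rw [Im_eq]
    exact Nx_sub hv h hBD j

/-- (TUBE) -/
theorem row : StTube := by
  intro n v hv h _ φ _ B hB hBD K m hK hinv hret
  refine le_trans ?_ (tube hv h hB hBD hK hinv hret)
  gcongr
  exact Nat.le_succ _

end Pool.Agent.Lib.BilE.Tube5
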