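import Pool.Agent.Lib.MP_7bc51d_an_dense.Geo40
import Pool.Agent.Lib.MP_7bc51d_an_erg.BadVol16
import Pool.Agent.Lib.MP_7bc51d_an_erg.HB85
import Pool.Agent.Lib.MP_7bc51d_an_erg.Hinv33
import Pool.Agent.Lib.MP_7bc51d_an_erg.Hit17
import Pool.Agent.Lib.MP_7bc51d_an_erg.Lim89
import Pool.Agent.Lib.MP_7bc51d_an_erg.Main16
import Pool.Agent.Lib.MP_7bc51d_an_erg.Mass12
import Pool.Agent.Lib.MP_7bc51d_an_erg.Rec33
import Pool.Agent.Lib.MP_7bc51d_an_erg.Row45
import Pool.Agent.Lib.MP_7bc51d_an_erg.Small73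
import Pool.Agent.Lib.MP_7bc51d_an_erg.Tube5
import Pool.Agent.Lib.MP_7bc51d_an_erg.Const1

/-!
# Glue of the finished rows
-/

set_option autoImplicit false

namespace Pool.Agent.Lib.BilE.All17

open Pool.Agent.Lib.Bil Pool.Agent.Lib.BilD Pool.Agent.Lib.BilE

theorem main : StMain := Main16.row HB85.row Hinv33.row Tube5.row

theorem small : StSmall :=
  Small73.row main Mass12.row (BadVol16.row Rec33.row Hit17.row)

theorem lim3 : StLim3 := Lim89.row WP12.row Smo74.row

theorem const : StConst := Const1.row Geo40.row Row45.tel3 lim3 small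

end Pool.Agent.Lib.BilE.All17
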