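import Mathlib

/-!
# Quadratic growth of the number implies linear growth of the sum of the inverse lengths
-/

set_option autoImplicit false

namespace Pool.Agent.Lib.BilE.Count17

open Set

theorem dyadic {H : Set ℂ} {C : ℝ}
    (h : ∀ R : ℝ, 1 ≤ R → ∀ T : Finset ℂ, (∀ z ∈ T, z ∈ H ∧ ‖z‖ ≤ R) → (T.card : ℝ) ≤ C * R ^ 2) :
    ∃ S0 : ℝ, 0 ≤ S0 ∧ ∀ j : ℕ, ∀ T : Finset ℂ, (∀ z ∈ T, z ∈ H ∧ ‖z‖ ≤ 2 ^ j) →
      ∑ z ∈ T, ‖z‖⁻¹ ≤ S0 + 4 * C * 2 ^ j := by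
  have hC : 0 ≤ C := by
    have := h 1 le_rfl ∅ (by simp)
    simpa using this
  have hfin : (H ∩ {z | ‖z‖ ≤ 1}).Finite := by
    by_contra hcon
    obtain ⟨N, hN⟩ := exists_nat_gt C
    obtain ⟨T, hT, hTc⟩ := Set.Infinite.exists_subset_card_eq hcon (N)
    have := h 1 le_rfl T (fun z hz => hT hz)
    rw [hTc, one_pow, mul_one] at this
    linarith
  refine ⟨∑ z ∈ hfin.toFinset, ‖z‖⁻¹, Finset.sum_nonneg (fun _ _ => by positivity), ?_⟩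
  intro j
  induction j with
  | zero =>
    intro T hT
    have h1 : T ⊆ hfin.toFinset := by
      intro z hz
      rw [Set.Finite.mem_toFinset]
      have := hT z hz
      rw [pow_zero] at this
      exact this
    have h2 := Finset.sum_le_sum_of_subset_of_nonneg (f := fun z : ℂ => ‖z‖⁻¹) h1
      (fun _ _ _ => by positivity)
    have : 0 ≤ 4 * C * 2 ^ 0 := by positivity
    linarith
  | succ j ih =>
    intro T hT
    classical
    rw [← Finset.sum_filter_add_sum_filter_not T (fun z => ‖z‖ ≤ 2 ^ j)]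
    have h1 := ih (T.filter (fun z => ‖z‖ ≤ 2 ^ j)) (by
      intro z hz
      rw [Finset.mem_filter] at hz
      exact ⟨(hT z hz.1).1, hz.2⟩)
    have h2 : ∑ z ∈ T.filter (fun z => ¬ ‖z‖ ≤ 2 ^ j), ‖z‖⁻¹ ≤ 2 * C * 2 ^ (j + 1) := by
      have h3 : ∀ z ∈ T.filter (fun z => ¬ ‖z‖ ≤ 2 ^ j), ‖z‖⁻¹ ≤ ((2 : ℝ) ^ j)⁻¹ := by
        intro z hz
        rw [Finset.mem_filter, not_le] at hz
        exact inv_anti₀ (by positivity) hz.2.le
      have h4 := Finset.sum_le_card_nsmul _ _ _ h3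
      rw [nsmul_eq_mul] at h4
      have h5 : ((T.filter (fun z => ¬ ‖z‖ ≤ 2 ^ j)).card : ℝ) ≤ C * (2 ^ (j + 1)) ^ 2 := by
        apply h (2 ^ (j + 1)) (one_le_pow₀ (by norm_num))
        intro z hz
        rw [Finset.mem_filter] at hz
        exact hT z hz.1
      calc _ ≤ _ := h4
        _ ≤ C * (2 ^ (j + 1)) ^ 2 * ((2 : ℝ) ^ j)⁻¹ :=
          mul_le_mul_of_nonneg_right h5 (by positivity)
        _ = 2 * C * 2 ^ (j + 1) := by
          rw [pow_succ]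
          field_simp
          ring
    have h6 : 4 * C * 2 ^ j + 2 * C * 2 ^ (j + 1) = 4 * C * 2 ^ (j + 1) := by
      rw [pow_succ]; ring
    linarith

theorem lin {n : ℕ} {H : Fin n → Set ℂ} {C : ℝ}
    (h : ∀ R : ℝ, 1 ≤ R → ∀ (k : Fin n) (T : Finset ℂ), (∀ z ∈ T, z ∈ H k ∧ ‖z‖ ≤ R) →
      (T.card : ℝ) ≤ C * R ^ 2) :
    ∃ Cq : ℝ, ∀ R0 : ℝ, ∃ R : ℝ, R0 ≤ R ∧ ∀ (k : Fin n) (T : Finset ℂ),
      (∀ z ∈ T, z ∈ H k ∧ ‖z‖ ≤ R) → ∑ z ∈ T, ‖z‖⁻¹ ≤ Cq * R := by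
  rcases Nat.eq_zero_or_pos n with hn | hn
  · subst hn
    exact ⟨0, fun R0 => ⟨R0, le_rfl, fun k => k.elim0⟩⟩
  have hC : 0 ≤ C := by
    have := h 1 le_rfl ⟨0, hn⟩ ∅ (by simp)
    simpa using this
  choose S hS0 hS using fun k => dyadic (fun R hR T hT => h R hR k T hT)
  have hsum : 0 ≤ ∑ k, S k := Finset.sum_nonneg (fun k _ => hS0 k)
  refine ⟨∑ k, S k + 4 * C, fun R0 => ?_⟩
  obtain ⟨j, hj⟩ := pow_unbounded_of_one_lt R0 (by norm_num : (1 : ℝ) < 2)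
  refine ⟨2 ^ j, hj.le, fun k T hT => ?_⟩
  have h1 := hS k j T hT
  have h2 : S k ≤ ∑ k, S k :=
    Finset.single_le_sum (f := S) (fun k _ => hS0 k) (Finset.mem_univ k)
  have h3 : (1 : ℝ) ≤ 2 ^ j := one_le_pow₀ (by norm_num)
  nlinarith

end Pool.Agent.Lib.BilE.Count17
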