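import Pool.Agent.Lib.MP_7bc51d_an_erg.Defs

/-!
# Ergodicity: anisotropic distance to the vertices and cutoff in phase space (definitions, rows)
-/

set_option autoImplicit false

namespace Pool.Agent.Lib.BilE

open Complex MeasureTheory Set Filter Topology
open scoped ComplexConjugate ENNReal
open Pool.Agent.Lib.Bil Pool.Agent.Lib.BilD

variable {n : ℕ}

/-- Time of the last crossing of the code `g` (the most recent side comes first). -/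
noncomputable def tau (v : Fin n → ℂ) (x w : ℂ) : List (Fin n × Fin n) → ℝ
  | [] => 0
  | s :: g => - cr (v s.2 - v s.1) (Fo v g x - v s.1) / cr (v s.2 - v s.1) (Lo v g w)

/-- Cost of reaching the vertex `l` from `(x, w)`: `a` times the distance travelled to the chord `g`
plus `b` times the distance of the line of this chord to the vertex. -/
noncomputable def cst (v : Fin n → ℂ) (a b : ℝ) (x w : ℂ) (g : List (Fin n × Fin n))
    (l : Fin n) : ℝ :=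
  a * (tau v x w g * ‖w‖) + b * (|cr (Lo v g w) (v l - Fo v g x)| / ‖w‖)

/-- All costs, forward and backward in time. -/
def Cst (v : Fin n → ℂ) (a b : ℝ) (x w : ℂ) : Set ℝ :=
  {c | ∃ (g : List (Fin n × Fin n)) (l : Fin n),
    (Rz v g x w ∧ c = cst v a b x w g l) ∨ (Rz v g x (-w) ∧ c = cst v a b x (-w) g l)}

/-- Anisotropic distance to the vertices. -/
noncomputable def Da (v : Fin n → ℂ) (a b : ℝ) (x w : ℂ) : ℝ := sInf (Cst v a b x w)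

/-- The cutoff. -/
noncomputable def chi (v : Fin n → ℂ) (a b r0 : ℝ) (m : ℕ) (x w : ℂ) : ℝ :=
  (m : ℝ)⁻¹ * ∑ i ∈ Finset.range m, min 1 (max 0 (Da v a b x w / (4 ^ (i + 1) * r0) - 1))

/-- Reflected extension of a function on the phase space. -/
noncomputable def gE (v : Fin n → ℂ) (G : ℂ → ℂ → ℝ) (x w : ℂ) : ℝ :=
  (PP v).indicator (fun x => G x w) x +
    ∑ s ∈ SD v, (OO v s).indicator (fun x => G (Rs v s x) (rl (ed v s) w)) x

/-! ### Row statements -/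

/-- (D0) elementary properties. -/
def StD0 : Prop := ∀ (n : ℕ) (v : Fin n → ℂ), 3 ≤ n → ConvexIndependent ℝ v →
  ∀ a b : ℝ, 0 ≤ a → 0 ≤ b →
    (∀ x ∈ PP v, ∀ w : ℂ, w ≠ 0 → 0 ≤ Da v a b x w ∧ (∀ l, Da v a b x w ≤ b * ‖x - v l‖)) ∧
    (∀ x w : ℂ, Da v a b x (-w) = Da v a b x w) ∧
    (∀ x w : ℂ, ∀ c : ℝ, 0 < c → Da v a b x ((c : ℂ) * w) = Da v a b x w) ∧
    Measurable (fun p : ℂ × ℂ => (DD v).indicator (fun p => Da v a b p.1 p.2) p)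

/-- (D1) along the flow. -/
def StD1 : Prop := ∀ (n : ℕ) (v : Fin n → ℂ), 3 ≤ n → ConvexIndependent ℝ v →
  ∀ a b : ℝ, 0 ≤ a → 0 ≤ b → ∀ x w : ℂ, w ≠ 0 →
    (∀ t : ℝ, x ∈ PP v → x + (t : ℂ) * w ∈ PP v →
      |Da v a b (x + (t : ℂ) * w) w - Da v a b x w| ≤ a * (|t| * ‖w‖)) ∧
    (∀ h : ℝ, 0 ≤ h → ∀ c, (x, w) ∈ stepSet v h c →
      |Da v a b (stepMap v h c (x, w)).1 (stepMap v h c (x, w)).2 - Da v a b x w| ≤ a * (h * ‖w‖))

/-- (D2) across the flow. -/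
def StD2 : Prop := ∀ (n : ℕ) (v : Fin n → ℂ), 3 ≤ n → ConvexIndependent ℝ v →
  ∃ M0 : ℝ, 0 < M0 ∧ ∀ a b : ℝ, 0 ≤ a → 0 ≤ b →
    (∀ x ∈ PP v, ∀ y ∈ PP v, ∀ w : ℂ, w ≠ 0 →
      |Da v a b y w - Da v a b x w| ≤ b * ‖y - x‖ + a * M0) ∧
    (∀ s ∈ SD v, ∀ x ∈ PP v, ∀ y ∈ OO v s, ∀ θ ∈ Ioo (0 : ℝ) 1,
      v s.1 + (θ : ℂ) * ed v s ∈ segment ℝ x y → ∀ w : ℂ, w ≠ 0 →
      |Da v a b (Rs v s y) (rl (ed v s) w) - Da v a b x w| ≤ b * ‖y - x‖ + a * M0)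

/-- (D3) volume. -/
def StD3 : Prop := ∀ (n : ℕ) (v : Fin n → ℂ), 3 ≤ n → ConvexIndependent ℝ v →
  ∃ C : ℝ, 0 < C ∧ ∀ a b r : ℝ, 0 < a → 0 < b → 0 < r →
    volume {p : ℂ × ℂ | p ∈ DD v ∧ Da v a b p.1 p.2 < r} ≤
      ENNReal.ofReal (C * (r / b) * (r / a + 1))

end Pool.Agent.Lib.BilE
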