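import Pool.Agent.Lib.MP_7bc51d_an_dense.Defs
import Pool.Agent.Lib.MP_7bc51d_an.Code
import Pool.Agent.Lib.MP_7bc51d_an.Words

/-!
# Rare returns to the vertices imply ergodicity: definitions and row statements
-/

set_option autoImplicit false

namespace Pool.Agent.Lib.BilE

open Complex MeasureTheory Set Filter Topology
open scoped ComplexConjugate
open Pool.Agent.Lib.Bil Pool.Agent.Lib.BilD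

variable {n : ℕ}

/-- Homogeneous line functions. -/
def Hg (F : ℂ → ℝ → ℝ) : Prop := ∀ r : ℝ, 0 < r → ∀ (w : ℂ) (Q : ℝ), F ((r : ℂ) * w) (r * Q) = F w Q

/-- Derivative in `x`, direction `h`, of the mollified extended function (direction `w` fixed). -/
noncomputable def gd (v : Fin n → ℂ) (F : ℂ → ℝ → ℝ) (ε : ℝ) (x w h : ℂ) : ℝ :=
  ∫ y, gx v F y w * fderiv ℝ (et ε) (x - y) h

/-- Squared length of the `x`-gradient of the mollified extended function. -/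
noncomputable def hh (v : Fin n → ℂ) (F : ℂ → ℝ → ℝ) (ε : ℝ) (p : ℂ × ℂ) : ℝ :=
  gd v F ε p.1 p.2 1 ^ 2 + gd v F ε p.1 p.2 I ^ 2

/-- Annuli at the vertices. -/
def ZZ (v : Fin n → ℂ) (C ε : ℝ) : Set ℂ :=
  {x | x ∈ PP v ∧ (∃ k, ‖x - v k‖ ≤ 2 * C * ε) ∧ ∀ k, C * ε ≤ ‖x - v k‖}

/-- Gradient energy in the annuli. -/
noncomputable def GE (v : Fin n → ℂ) (F : ℂ → ℝ → ℝ) (C ε : ℝ) : ℝ :=
  ∫ x in ZZ v C ε, ∫ w in BV, hh v F ε (x, w)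

/-- Total gradient energy. -/
noncomputable def Me (v : Fin n → ℂ) (F : ℂ → ℝ → ℝ) (ε : ℝ) : ℝ :=
  ∫ p in DD v, hh v F ε p

/-- Time reversal. -/
def rv (F : ℂ → ℝ → ℝ) : ℂ → ℝ → ℝ := fun w Q => F (-w) (-Q)

/-- Receding phase points in the annulus at the vertex `k` whose orbit (steps of time `ε/4`) comes
`Cε`-close to a vertex within `m` steps, or `2Cε`-close between the steps `K` and `m`. -/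
def Bad (v : Fin n → ℂ) (C ε : ℝ) (K m : ℕ) (k : Fin n) : Set (ℂ × ℂ) :=
  {p | p.1 ∈ ZZ v C ε ∧ ‖p.1 - v k‖ ≤ 2 * C * ε ∧ 1 / 2 < ‖p.2‖ ∧ ‖p.2‖ < 1 ∧
    0 < dt p.2 (p.1 - v k) ∧
    ∃ u : List (Option (Fin n × Fin n)), u.length ≤ m ∧ p ∈ Bil.OO v (ε / 4) u ∧
      ((∃ l, ‖(eM v (ε / 4) u p).1 - v l‖ < C * ε) ∨
        (K ≤ u.length ∧ ∃ l, ‖(eM v (ε / 4) u p).1 - v l‖ ≤ 2 * C * ε))}

/-- Holonomy vectors of the generalized diagonals issued from the vertex `k`. -/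
def Hd (v : Fin n → ℂ) (k : Fin n) : Set ℂ :=
  {z | Out v k z ∧ ∃ (g : List (Fin n × Fin n)) (l : Fin n), Rz v g (v k) z ∧
    Fo v g (v k + z) = v l}

/-- The generalized diagonals do not grow superquadratically, along a sequence of lengths. -/
def QG (v : Fin n → ℂ) : Prop :=
  ∃ Cq : ℝ, ∀ R0 : ℝ, ∃ R : ℝ, R0 ≤ R ∧ ∀ (k : Fin n) (T : Finset ℂ),
    (∀ z ∈ T, z ∈ Hd v k ∧ ‖z‖ ≤ R) → ∑ z ∈ T, ‖z‖⁻¹ ≤ Cq * R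

/-- Image of a set under one step. -/
def Nx (v : Fin n → ℂ) (h : ℝ) (I : Set (ℂ × ℂ)) : Set (ℂ × ℂ) :=
  ⋃ c : Option (Fin n × Fin n), stepMap v h c '' (stepSet v h c ∩ I)

/-! ### Row statements -/

/-- (BES3) -/
def StBes3 : Prop := ∀ (n : ℕ) (v : Fin n → ℂ) (C e0 : ℝ), Geo v C e0 →
  ∃ C2 : ℝ, 0 < C2 ∧ ∀ F, LFS v F → ∀ ε, 0 < ε → ∀ (x : ℂ) (p N : ℕ),
    ∑ j ∈ Finset.range N, ‖fderiv ℝ (um v F (p + 2 * j) ε) x‖ ^ 2 ≤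
      C2 * ∫ w in BV, hh v F ε (x, w)

/-- (TEL3) -/
def StTel3 : Prop := ∀ (n : ℕ) (v : Fin n → ℂ) (C e0 : ℝ), 3 ≤ n → ConvexIndependent ℝ v →
  Geo v C e0 → ∃ C5 : ℝ, 0 < C5 ∧ ∀ F, LFS v F → ∀ ε, 0 < ε → ε < e0 → ∀ p : ℕ, p ≤ 1 →
    ∫ x in PP v, WW v C ε x * (‖dz (um v F p ε) x‖ ^ 2 + ‖dzb (um v F p ε) x‖ ^ 2) ≤
      C5 * √(GE v F C ε)

/-- (LIM3) -/
def StLim3 : Prop := ∀ (n : ℕ) (v : Fin n → ℂ) (C e0 : ℝ), 3 ≤ n → ConvexIndependent ℝ v →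
  Geo v C e0 → ∀ F, LFS v F → ∀ p : ℕ,
    (∀ η > 0, ∀ r0 > 0, ∃ ε, 0 < ε ∧ ε < r0 ∧
      ∫ x in PP v, WW v C ε x * (‖dz (um v F p ε) x‖ ^ 2 + ‖dzb (um v F p ε) x‖ ^ 2) ≤ η) →
    ∃ c : ℂ, ∀ᵐ x, x ∈ PP v → am v F p x = c

/-- (MASS) -/
def StMass : Prop := ∀ (n : ℕ) (v : Fin n → ℂ) (C e0 : ℝ), Geo v C e0 → ∀ F, LFS v F →
  ∀ η > 0, ∃ r0 > 0, ∀ ε, 0 < ε → ε < r0 → ε ^ 2 * Me v F ε ≤ η

/-- (HB) bounds and measurability of `hh`. -/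
def StHB : Prop := ∀ (n : ℕ) (v : Fin n → ℂ) (C e0 : ℝ), Geo v C e0 →
  ∃ B : ℝ, 0 < B ∧ ∀ F, LFS v F → ∀ ε, 0 < ε → Measurable (hh v F ε) ∧
    (∀ p, 0 ≤ hh v F ε p ∧ hh v F ε p ≤ B / ε ^ 2) ∧
    (∀ x w : ℂ, hh v (rv F) ε (x, w) = hh v F ε (x, -w)) ∧
    (Hg F → ∀ (x w : ℂ) (r : ℝ), 0 < r → hh v F ε (x, (r : ℂ) * w) = hh v F ε (x, w))

/-- (HINV) one step away from the vertices: almost every point has a step, and `hh` is invariant. -/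
def StHinv : Prop := ∀ (n : ℕ) (v : Fin n → ℂ) (C e0 : ℝ), 3 ≤ n → ConvexIndependent ℝ v →
  Geo v C e0 → ∀ F, LFS v F → ∀ ε, 0 < ε → ε < e0 →
    ∀ᵐ p : ℂ × ℂ, p ∈ DD v → (∀ k, C * ε ≤ ‖p.1 - v k‖) →
      ∃ c, p ∈ stepSet v (ε / 4) c ∧ hh v F ε (stepMap v (ε / 4) c p) = hh v F ε p

/-- (TUBE) disjoint images. -/
def StTube : Prop := ∀ (n : ℕ) (v : Fin n → ℂ), ConvexIndependent ℝ v → ∀ h : ℝ, 0 < h →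
  ∀ φ : ℂ × ℂ → ENNReal, Measurable φ → ∀ B : Set (ℂ × ℂ), MeasurableSet B → B ⊆ DD v →
  ∀ K m : ℕ, 1 ≤ K →
    (∀ j < m, ∀ᵐ p : ℂ × ℂ, p ∈ (Nx v h)^[j] B → ∃ c, p ∈ stepSet v h c ∧ φ (stepMap v h c p) = φ p) →
    (∀ j, K ≤ j → j ≤ m → Disjoint B ((Nx v h)^[j] B)) →
    ((m / K : ℕ) : ENNReal) * ∫⁻ p in B, φ p ≤ ∫⁻ p in DD v, φ p

/-- (MAIN) -/
def StMain : Prop := ∀ (n : ℕ) (v : Fin n → ℂ) (C e0 : ℝ), 3 ≤ n → ConvexIndependent ℝ v →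
  Geo v C e0 → ∃ C6 e1 : ℝ, 0 < C6 ∧ 0 < e1 ∧ e1 ≤ e0 ∧ ∀ F, LFS v F → Hg F →
    ∀ ε, 0 < ε → ε < e1 → ∀ K m : ℕ, 1 ≤ K → K ≤ m →
      GE v F C ε ≤ C6 * ((K : ℝ) / m * Me v F ε +
        (ε ^ 2)⁻¹ * ∑ k, (volume (Bad v C ε K m k)).toReal)

/-- (REC) receding orbits near a vertex. -/
def StRec : Prop := ∀ (n : ℕ) (v : Fin n → ℂ) (C e0 : ℝ), 3 ≤ n → ConvexIndependent ℝ v →
  Geo v C e0 → ∃ d2 e1 : ℝ, 0 < d2 ∧ 0 < e1 ∧ e1 ≤ e0 ∧ ∀ ε, 0 < ε → ε < e1 →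
    ∀ (k : Fin n) (p : ℂ × ℂ), p.1 ∈ ZZ v C ε → ‖p.1 - v k‖ ≤ 2 * C * ε → ‖p.2‖ < 1 →
      0 < dt p.2 (p.1 - v k) → ∀ u : List (Option (Fin n × Fin n)),
        (u.length : ℝ) * (ε / 4) ≤ d2 → p ∈ Bil.OO v (ε / 4) u →
        dt (eM v (ε / 4) u p).2 ((eM v (ε / 4) u p).1 - v k) =
            dt p.2 (p.1 - v k) + u.length * (ε / 4) * ‖p.2‖ ^ 2 ∧
        |cr (eM v (ε / 4) u p).2 ((eM v (ε / 4) u p).1 - v k)| = |cr p.2 (p.1 - v k)| ∧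
        C * ε ≤ ‖(eM v (ε / 4) u p).1 - v k‖ ∧
        ‖(eM v (ε / 4) u p).1 - v k‖ ≤ 2 * C * ε + u.length * (ε / 4) ∧
        ∀ l, l ≠ k → 4 * C * ε < ‖(eM v (ε / 4) u p).1 - v l‖

/-- (HIT) an orbit almost issued from the vertex `k` which comes close to a vertex is close to a
generalized diagonal (or almost parallel to a side at `k`). -/
def StHit : Prop := ∀ (n : ℕ) (v : Fin n → ℂ) (C e0 : ℝ), 3 ≤ n → ConvexIndependent ℝ v →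
  Geo v C e0 → ∀ d1 : ℝ, 0 < d1 → ∃ e1 D M : ℝ, 0 < e1 ∧ 0 < D ∧ 0 < M ∧
    ∀ ε, 0 < ε → ε < e1 → ∀ (k : Fin n) (p : ℂ × ℂ), p.1 ∈ PP v → 1 / 2 < ‖p.2‖ → ‖p.2‖ < 1 →
      |cr p.2 (p.1 - v k)| ≤ 2 * C * ε * ‖p.2‖ → d1 ≤ dt p.2 (p.1 - v k) →
      ∀ u : List (Option (Fin n × Fin n)), p ∈ Bil.OO v (ε / 4) u →
        (∃ l, ‖(eM v (ε / 4) u p).1 - v l‖ ≤ 2 * C * ε) →
        (∃ s ∈ SD v, (k = s.1 ∨ k = s.2) ∧ |cr p.2 (ed v s)| ≤ M * ε) ∨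
        ∃ z ∈ Hd v k, ‖z‖ ≤ u.length * (ε / 4) + D ∧ |cr p.2 z| ≤ M * ε

/-- (BADVOL) -/
def StBadVol : Prop := ∀ (n : ℕ) (v : Fin n → ℂ) (C e0 : ℝ), 3 ≤ n → ConvexIndependent ℝ v →
  Geo v C e0 → ∃ C7 e1 D : ℝ, ∃ K : ℕ, 0 < C7 ∧ 0 < e1 ∧ 0 < D ∧ 1 ≤ K ∧
    ∀ ε, 0 < ε → ε < e1 → ∀ (m : ℕ) (k : Fin n) (S : ℝ), 0 ≤ S →
      (∀ T : Finset ℂ, (∀ z ∈ T, z ∈ Hd v k ∧ ‖z‖ ≤ m * (ε / 4) + D) → ∑ z ∈ T, ‖z‖⁻¹ ≤ S) →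
      (volume (Bad v C ε K m k)).toReal ≤ C7 * ε ^ 3 * (1 + S)

/-- (SMALL) -/
def StSmall : Prop := ∀ (n : ℕ) (v : Fin n → ℂ) (C e0 : ℝ), 3 ≤ n → ConvexIndependent ℝ v →
  Geo v C e0 → QG v → ∀ F, LFS v F → Hg F → ∀ η > 0, ∀ r0 > 0, ∃ ε, 0 < ε ∧ ε < r0 ∧
    GE v F C ε ≤ η

/-- (CONST) both lowest modes of a homogeneous admissible line function are constant. -/
def StConst : Prop := ∀ (n : ℕ) (v : Fin n → ℂ), 3 ≤ n → ConvexIndependent ℝ v → QG v →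
  ∀ F, LFS v F → Hg F → ∀ p : ℕ, p ≤ 1 → ∃ c : ℂ, ∀ᵐ x, x ∈ PP v →
    ∫ w in BV, (F w (cr w x) : ℂ) * em p w = c

end Pool.Agent.Lib.BilE
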