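import Pool.Agent.Lib.MP_7bc51d_an_erg.Defs
import Pool.Agent.Lib.MP_7bc51d_an_mode.Sets

/-!
# Theorem E, last step: from the constancy of the two lowest modes to triviality
-/

set_option autoImplicit false

namespace Pool.Agent.Lib.BilE.Fin12

open Complex MeasureTheory Set Filter Topology
open scoped ComplexConjugate
open Pool.Agent.Lib.Bil Pool.Agent.Lib.BilD Pool.Agent.Lib.BilE Pool.Agent.Lib.BilH

variable {n : ℕ} {v : Fin n → ℂ}

/-- one side does not contribute to the flux -/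
theorem side_flux {F : ℂ → ℝ → ℝ} (hF : LF F) {a e b : ℂ} (he : e ≠ 0) (hs : SymAt F a e) :
    IntegrableOn (fun w => ∫ τ in (0 : ℝ)..1, F w (cr w (a + (τ : ℂ) * e)) *
        dt b (a + (τ : ℂ) * e) * cr w e) BV ∧
    ∫ w in BV, ∫ τ in (0 : ℝ)..1, F w (cr w (a + (τ : ℂ) * e)) *
        dt b (a + (τ : ℂ) * e) * cr w e = 0 := by
  set d : ℝ → ℝ := fun τ => dt b (a + (τ : ℂ) * e) with hd
  have hdc : Continuous d := (continuous_dt b).comp (by fun_prop)
  set D : ℂ → ℝ := fun w => ∫ τ in (0 : ℝ)..1, F w (cr w (a + (τ : ℂ) * e)) * d τ with hD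
  have hpt : ∀ w, ∫ τ in (0 : ℝ)..1, F w (cr w (a + (τ : ℂ) * e)) *
        dt b (a + (τ : ℂ) * e) * cr w e = D w * cr w e := by
    intro w
    rw [hD]
    simp only
    rw [← intervalIntegral.integral_mul_const]
  have hDm : Measurable D := by
    have h0 : D = fun w => ∫ τ in Ioc (0 : ℝ) 1, F w (cr w (a + (τ : ℂ) * e)) * d τ := by
      funext w
      rw [hD]
      simp only
      rw [intervalIntegral.integral_of_le zero_le_one]
    rw [h0]
    have h1 : Measurable (fun z : ℂ × ℝ => F z.1 (cr z.1 (a + (z.2 : ℂ) * e)) * d z.2) := by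
      have hc1 : Measurable (fun z : ℂ × ℝ => cr z.1 (a + (z.2 : ℂ) * e)) := by
        apply Continuous.measurable; unfold cr; fun_prop
      exact (hF.meas.comp (measurable_fst.prodMk hc1)).mul (hdc.measurable.comp measurable_snd)
    have h2 : StronglyMeasurable (Function.uncurry
        (fun (w : ℂ) (τ : ℝ) => F w (cr w (a + (τ : ℂ) * e)) * d τ)) := h1.stronglyMeasurable
    exact h2.integral_prod_right.measurable
  obtain ⟨M, hM⟩ : ∃ M : ℝ, ∀ τ ∈ Icc (0 : ℝ) 1, ‖d τ‖ ≤ M :=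
    isCompact_Icc.exists_bound_of_continuousOn hdc.continuousOn
  have hM0 : 0 ≤ M := (norm_nonneg _).trans (hM 0 ⟨le_rfl, zero_le_one⟩)
  have hDb : ∀ w, |D w| ≤ M := by
    intro w
    rw [hD, ← Real.norm_eq_abs]
    have := intervalIntegral.norm_integral_le_of_norm_le_const (a := 0) (b := 1)
      (f := fun τ : ℝ => F w (cr w (a + (τ : ℂ) * e)) * d τ) (C := M) (by
        intro τ hτ
        rw [uIoc_of_le zero_le_one] at hτ
        rw [norm_mul]
        have h1 := hM τ ⟨hτ.1.le, hτ.2⟩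
        have h2 := hF.bd w (cr w (a + (τ : ℂ) * e))
        rw [← Real.norm_eq_abs] at h2
        calc _ ≤ 1 * M := by gcongr
          _ = M := one_mul _)
    simpa using this
  have hi1 : IntegrableOn (fun w => D w * cr w e) BV := by
    refine intOn_ball (hDm.mul (meas_cr_left e)) (C := M * ‖e‖) ?_
    intro w hw
    have hw1 := (norm_lt_of_BV hw).le
    rw [abs_mul]
    have h1 := hDb w
    have h3 : |cr w e| ≤ ‖e‖ := by
      refine (abs_cr_le w e).trans ?_
      calc ‖w‖ * ‖e‖ ≤ 1 * ‖e‖ := by gcongr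
        _ = ‖e‖ := one_mul _
    gcongr
  simp_rw [hpt]
  refine ⟨hi1, ?_⟩
  apply antisym_integral he
  filter_upwards [hs] with w hw
  rw [cr_rl_left he]
  have : D (rl e w) = D w := by
    rw [hD]
    simp only
    apply intervalIntegral.integral_congr_ae
    have h1 : ∀ᵐ τ : ℝ, τ ≠ 1 := by simp [ae_iff, measure_singleton]
    filter_upwards [hw, h1] with τ h2 h3 hτ
    rw [uIoc_of_le zero_le_one] at hτ
    rw [h2 ⟨hτ.1, lt_of_le_of_ne hτ.2 h3⟩]
  rw [this]
  ring

/-- the mean velocity of an admissible line function vanishes -/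
theorem flux (hn : 3 ≤ n) (hv : ConvexIndependent ℝ v) {F : ℂ → ℝ → ℝ} (hF : LF F)
    (hs : ∀ i, SymAt F (v i) (v (nxt hn hv i) - v i)) (b : ℂ) :
    ∫ w in BV, ∫ x in PP v, F w (cr w x) * dt b w = 0 := by
  have hgen : ∀ᵐ w : ℂ, ∀ i, w ∉ (Submodule.span ℝ {v (nxt hn hv i) - v i} : Submodule ℝ ℂ) := by
    rw [ae_all_iff]; intro i
    exact ae_not_mem_line _
  have hne : ∀ i, v (nxt hn hv i) - v i ≠ 0 := fun i => v_sub_ne hv (nxt_side hn hv i).ne
  have h1 : ∀ᵐ w : ℂ, ∫ x in PP v, F w (cr w x) * dt b w =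
      ∑ i, ∫ τ in (0 : ℝ)..1, F w (cr w (v i + (τ : ℂ) * (v (nxt hn hv i) - v i))) *
        dt b (v i + (τ : ℂ) * (v (nxt hn hv i) - v i)) * cr w (v (nxt hn hv i) - v i) := by
    filter_upwards [hgen] with w hw
    have hw0 : w ≠ 0 := by
      rintro rfl
      have i0 : Fin n := ⟨0, by omega⟩
      exact hw i0 (Submodule.zero_mem _)
    refine green hn hv hw0 ?_ (hF.meas2 w) (hF.bd w) (K := fun y => dt b y)
      (k := fun _ => dt b w) (continuous_dt b) measurable_const (C := |dt b w|)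
      (fun y _ => le_rfl) ?_
    · intro i hcon
      have h2 : cr w (v (nxt hn hv i) - v i) = 0 := by rw [cr_sub_right, hcon, sub_self]
      rw [cr_swap, neg_eq_zero] at h2
      obtain ⟨t, ht⟩ := (cr_eq_zero_iff (hne i)).1 h2
      apply hw i
      rw [Submodule.mem_span_singleton]
      exact ⟨t, by rw [real_smul, ht]⟩
    · intro y s
      rw [intervalIntegral.integral_const, sub_zero, smul_eq_mul]
      simp only [dt, add_re, add_im, mul_re, mul_im, ofReal_re, ofReal_im]
      ring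
  rw [integral_congr_ae (ae_restrict_of_ae h1), integral_finsetSum]
  · apply Finset.sum_eq_zero
    intro i _
    exact (side_flux hF (hne i) (hs i)).2
  · intro i _
    exact (side_flux hF (hne i) (hs i)).1

/-- the same with the order of integration exchanged -/
theorem flux' (hn : 3 ≤ n) (hv : ConvexIndependent ℝ v) {F : ℂ → ℝ → ℝ} (hF : LF F)
    (hs : ∀ i, SymAt F (v i) (v (nxt hn hv i) - v i)) (b : ℂ) :
    ∫ x in PP v, ∫ w in BV, F w (cr w x) * dt b w = 0 := by
  rw [← flux hn hv hF hs b]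
  apply integral_integral_swap
  have hm : Measurable (fun p : ℂ × ℂ => F p.2 (cr p.2 p.1) * dt b p.2) :=
    (BilM.meas_F_swap hF).mul ((continuous_dt b).measurable.comp measurable_snd)
  have hfin : IsFiniteMeasure ((volume : Measure ℂ).restrict (PP v)) :=
    ⟨by rw [Measure.restrict_apply_univ]; exact isBounded_PP.measure_lt_top⟩
  have hfin2 : IsFiniteMeasure ((volume : Measure ℂ).restrict BV) :=
    ⟨by rw [Measure.restrict_apply_univ]; exact measure_ball_lt_top⟩
  have hb : ∀ᵐ p ∂(((volume : Measure ℂ).restrict (PP v)).prod ((volume : Measure ℂ).restrict BV)),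
      ‖F p.2 (cr p.2 p.1) * dt b p.2‖ ≤ ‖b‖ := by
    rw [Measure.prod_restrict, ae_restrict_iff' (isOpen_PP.measurableSet.prod measurableSet_ball)]
    refine Eventually.of_forall (fun p hp => ?_)
    have hw1 := (norm_lt_of_BV hp.2).le
    rw [norm_mul, Real.norm_eq_abs, Real.norm_eq_abs]
    have h1 := hF.bd p.2 (cr p.2 p.1)
    have h2 : |dt b p.2| ≤ ‖b‖ := by
      refine (abs_dt_le b p.2).trans ?_
      calc ‖b‖ * ‖p.2‖ ≤ ‖b‖ * 1 := by gcongr
        _ = ‖b‖ := mul_one _
    calc _ ≤ 1 * ‖b‖ := by gcongr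
      _ = ‖b‖ := one_mul _
  exact Integrable.of_bound hm.aestronglyMeasurable _ hb

/-- relation between the two normalisations of the modes -/
theorem cm_em {F : ℂ → ℝ → ℝ} (hh : Hom0 F) (k : ℕ) (x : ℂ) :
    cm F (ph k) x = (2 / ((k : ℂ) + 2)) * ∫ w in BV, ((F w (cr w x) : ℝ) : ℂ) * em k w := by
  have h1 : cm F (ph k) x = (1 / ((k : ℂ) + 2)) *
      ∫ θ in Ioo (-Real.pi) Real.pi, ((F (ut θ) (cr (ut θ) x) : ℝ) : ℂ) * ph k (ut θ) := by
    unfold cm
    apply polar_homC k
    intro r hr w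
    rw [cr_smul_left, hh r hr]
    unfold ph
    rw [map_mul, conj_ofReal]
    ring
  have h2 : ∫ w in BV, ((F w (cr w x) : ℝ) : ℂ) * em k w = (1 / (((0 : ℕ) : ℂ) + 2)) *
      ∫ θ in Ioo (-Real.pi) Real.pi, ((F (ut θ) (cr (ut θ) x) : ℝ) : ℂ) * em k (ut θ) := by
    apply polar_homC 0
    intro r hr w
    rw [cr_smul_left, hh r hr]
    unfold BilD.em
    rw [map_mul, conj_ofReal, norm_mul, norm_real, Real.norm_eq_abs, abs_of_pos hr, pow_zero,
      one_mul]
    congr 2
    have hr0 : (r : ℂ) ≠ 0 := by exact_mod_cast hr.ne'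
    push_cast
    rw [mul_div_mul_left _ _ hr0]
  have h3 : ∀ θ : ℝ, em k (ut θ) = ph k (ut θ) := by
    intro θ
    unfold BilD.em ph
    have h4 : ‖ut θ‖ = 1 := by
      have := ut_norm θ
      rw [mul_conj, Complex.normSq_eq_norm_sq] at this
      have h5 : ‖ut θ‖ ^ 2 = 1 := by exact_mod_cast this
      nlinarith [norm_nonneg (ut θ)]
    rw [h4, ofReal_one, div_one]
  simp_rw [h3] at h2
  rw [h1, h2]
  have h4 : ((k : ℂ) + 2) ≠ 0 := by
    have : ((k + 2 : ℕ) : ℂ) ≠ 0 := by exact_mod_cast (by omega : k + 2 ≠ 0)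
    push_cast at this
    exact this
  push_cast
  field_simp
  ring

/-- the lowest modes of an admissible homogeneous line function, once constant -/
theorem modes01 (hn : 3 ≤ n) (hv : ConvexIndependent ℝ v) {F : ℂ → ℝ → ℝ} (hF : LF F)
    (hh : Hom0 F) (hs : ∀ i, SymAt F (v i) (v (nxt hn hv i) - v i)) {p : ℕ} (hp : p ≤ 1)
    (hc : ∃ c : ℂ, ∀ᵐ x, x ∈ PP v → ∫ w in BV, (F w (cr w x) : ℂ) * em p w = c) :
    ∃ c : ℝ, (p ≠ 0 → c = 0) ∧ ∀ᵐ x : ℂ, x ∈ PP v → cm F (ph p) x = c := by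
  obtain ⟨c, hc⟩ := hc
  have hc' : ∀ᵐ x, x ∈ PP v → cm F (ph p) x = (2 / ((p : ℂ) + 2)) * c := by
    filter_upwards [hc] with x hx hxP
    rw [cm_em hh, hx hxP]
  set c' : ℂ := (2 / ((p : ℂ) + 2)) * c with hc'def
  have hre : ∀ x, (cm F (ph p) x).re = ∫ w in BV, F w (cr w x) * (ph p w).re := by
    intro x
    have h1 := cm_int hF (ph_meas p) (C := 1) (fun w hw => ph_norm p hw) x
    have h2 : (cm F (ph p) x).re = RCLike.re (∫ w in BV, ((F w (cr w x) : ℝ) : ℂ) * ph p w) := rfl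
    rw [h2, ← integral_re h1]
    apply integral_congr_ae
    refine Eventually.of_forall (fun w => ?_)
    simp
  have him : ∀ x, (cm F (ph p) x).im = ∫ w in BV, F w (cr w x) * (ph p w).im := by
    intro x
    have h1 := cm_int hF (ph_meas p) (C := 1) (fun w hw => ph_norm p hw) x
    have h2 : (cm F (ph p) x).im = RCLike.im (∫ w in BV, ((F w (cr w x) : ℝ) : ℂ) * ph p w) := rfl
    rw [h2, ← integral_im h1]
    apply integral_congr_ae
    refine Eventually.of_forall (fun w => ?_)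
    simp
  have hpos : 0 < (volume (PP v)).toReal := by
    apply ENNReal.toReal_pos
    · exact (isOpen_PP.measure_pos volume (PP_nonempty hn hv)).ne'
    · exact isBounded_PP.measure_lt_top.ne
  interval_cases p
  · have hex : ∃ x ∈ PP v, cm F (ph 0) x = c' := by
      by_contra hcon
      have h2 := (isOpen_PP (v := v)).measure_pos volume (PP_nonempty hn hv)
      apply h2.ne'
      apply measure_mono_null _ hc'
      intro x hx hx'
      exact hcon ⟨x, hx, hx' hx⟩
    obtain ⟨x1, -, hx1c⟩ := hex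
    have himc : c'.im = 0 := by
      rw [← hx1c, him]
      unfold ph
      simp
    refine ⟨c'.re, fun h => absurd rfl h, ?_⟩
    filter_upwards [hc'] with x hx hxP
    rw [hx hxP]
    apply Complex.ext
    · simp
    · simp [himc]
  · have e1 : ∀ w : ℂ, (ph 1 w).re = dt 1 w := by
      intro w
      unfold ph dt
      simp
    have e2 : ∀ w : ℂ, (ph 1 w).im = dt (-I) w := by
      intro w
      unfold ph dt
      simp
    have f1 : c'.re = 0 := by
      have h1 := flux' hn hv hF hs 1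
      have h2 : ∫ x in PP v, ∫ w in BV, F w (cr w x) * dt 1 w = ∫ _x in PP v, c'.re := by
        apply integral_congr_ae
        rw [EventuallyEq, ae_restrict_iff' isOpen_PP.measurableSet]
        filter_upwards [hc'] with x hx hxP
        rw [← hx hxP, hre]
        simp_rw [e1]
      rw [h1, setIntegral_const, smul_eq_mul] at h2
      rcases mul_eq_zero.1 h2.symm with h3 | h3
      · exact absurd h3 hpos.ne'
      · exact h3
    have f2 : c'.im = 0 := by
      have h1 := flux' hn hv hF hs (-I)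
      have h2 : ∫ x in PP v, ∫ w in BV, F w (cr w x) * dt (-I) w = ∫ _x in PP v, c'.im := by
        apply integral_congr_ae
        rw [EventuallyEq, ae_restrict_iff' isOpen_PP.measurableSet]
        filter_upwards [hc'] with x hx hxP
        rw [← hx hxP, him]
        simp_rw [e2]
      rw [h1, setIntegral_const, smul_eq_mul] at h2
      rcases mul_eq_zero.1 h2.symm with h3 | h3
      · exact absurd h3 hpos.ne'
      · exact h3
    refine ⟨0, fun _ => rfl, ?_⟩
    filter_upwards [hc'] with x hx hxP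
    rw [hx hxP]
    apply Complex.ext
    · simpa using f1
    · simpa using f2

/-- The line function of an invariant set is admissible. -/
theorem lfs_FA (hn : 3 ≤ n) (hv : ConvexIndependent ℝ v) {A : Set (ℂ × ℂ)}
    (hA : MeasurableSet A) (H : ∀ᵐ p ∂(volume : Measure (ℂ × ℂ)), HypAt v A p) :
    LFS v (FA v A) where
  lf := LF_FA hA
  nn := by
    intro w Q
    unfold FA
    exact indicator_nonneg (fun _ _ => zero_le_one) _
  sym := by
    intro s hs
    exact symAt_FA hn hv (inv_of_hyp hv H) (chord_of_hyp H) (mem_SD.1 hs)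

theorem hyp_empty (q : ℂ × ℂ) : HypAt v ∅ q := by
  intro _ _ τ _ _
  exact ⟨fun _ _ _ => Iff.rfl, fun _ _ _ _ _ _ _ _ _ _ _ => Iff.rfl⟩

/-- (FIN) Null or conull. -/
theorem fin (hconst : StConst) (hn : 3 ≤ n) (hv : ConvexIndependent ℝ v) (hirr : IrrPair v)
    (hQ : QG v) {A : Set (ℂ × ℂ)} (hA : MeasurableSet A)
    (hcone : ∀ x w : ℂ, ∀ c : ℝ, 0 < c → ((x, w) ∈ A ↔ (x, (c : ℂ) * w) ∈ A))
    (H : ∀ᵐ p ∂(volume : Measure (ℂ × ℂ)), HypAt v A p) :
    volume (A ∩ (PP v ×ˢ Metric.ball (0 : ℂ) 1)) = 0 ∨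
      volume ((PP v ×ˢ Metric.ball (0 : ℂ) 1) \ A) = 0 := by
  have hch := chord_of_hyp (v := v) H
  have hF := lfs_FA hn hv hA H
  have hhom : Hom0 (FA v A) := BilM.FA_hom hcone
  have hs : ∀ i, SymAt (FA v A) (v i) (v (nxt hn hv i) - v i) := fun i =>
    symAt_FA hn hv (inv_of_hyp hv H) hch (nxt_side hn hv i)
  have key : ∀ p : ℕ, p ≤ 1 → ∃ c : ℝ, ∀ᵐ q : ℂ × ℂ, q.1 ∈ PP v →
      (A.indicator (1 : ℂ × ℂ → ℝ) q - (∅ : Set (ℂ × ℂ)).indicator 1 q) +
        (-1) ^ p * (A.indicator (1 : ℂ × ℂ → ℝ) (q.1, -q.2) -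
          (∅ : Set (ℂ × ℂ)).indicator 1 (q.1, -q.2)) = c := by
    intro p hp
    refine mode_sets hn hv hirr hA MeasurableSet.empty hcone (fun _ _ _ _ => Iff.rfl) H
      (Eventually.of_forall (fun q => hyp_empty q)) (k := p) ?_
    obtain ⟨c, hc0, hc⟩ := modes01 hn hv hF.lf hhom hs hp (hconst n v hn hv hQ _ hF hhom p hp)
    refine ⟨c, hc0, ?_⟩
    filter_upwards [hc, mode_eq hA hch] with x g1 g2 hxP
    rw [g2 hxP p, g1 hxP]
    unfold mode
    simp
  obtain ⟨c, hc⟩ := key 0 (by omega)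
  obtain ⟨d, hd⟩ := key 1 le_rfl
  have h3 : ∀ᵐ p : ℂ × ℂ, p.1 ∈ PP v →
      A.indicator (1 : ℂ × ℂ → ℝ) p - (∅ : Set (ℂ × ℂ)).indicator 1 p = (c + d) / 2 := by
    filter_upwards [hc, hd] with p g1 g2 hp
    have g3 := g1 hp
    have g4 := g2 hp
    rw [pow_zero, one_mul] at g3
    rw [pow_one] at g4
    linarith
  rcases BilM.ind_diff_cases h3 (Metric.ball (0 : ℂ) 1) with h | h | h
  · left
    apply measure_mono_null _ h
    intro p hp
    exact ⟨fun hcon => hcon.1 hp.1, hp.2⟩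
  · left; exact h.1
  · right; exact h.1

/-- two sides at an irrational angle, in the form used by the library -/
theorem irrPair_of (hn : 3 ≤ n) (hv : ConvexIndependent ℝ v)
    (hirr : ∃ i j k l : Fin n, i ≠ j ∧ k ≠ l ∧
      segment ℝ (v i) (v j) ⊆ frontier (convexHull ℝ (Set.range v)) ∧
      segment ℝ (v k) (v l) ⊆ frontier (convexHull ℝ (Set.range v)) ∧
      ∀ m : ℕ, 0 < m → (((v j - v i) / (v l - v k)) ^ m).im ≠ 0) : IrrPair v := by
  obtain ⟨i, j, k, l, hij, hkl, s1, s2, him⟩ := hirr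
  have hneg : ∀ z : ℂ, ∀ m : ℕ, (z ^ m).im ≠ 0 → ((-z) ^ m).im ≠ 0 := by
    intro z m h
    rw [neg_pow]
    rcases neg_one_pow_eq_or ℂ m with h1 | h1
    · rw [h1, one_mul]; exact h
    · rw [h1, neg_one_mul, Complex.neg_im]; exact neg_ne_zero.2 h
  rcases side_of_segment hn hv hij s1 with h1 | h1 <;>
    rcases side_of_segment hn hv hkl s2 with h2 | h2
  · exact ⟨_, _, _, _, h1, h2, him⟩
  · refine ⟨_, _, _, _, h1, h2, fun m hm => ?_⟩
    have := hneg _ m (him m hm)
    convert this using 3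
    rw [← neg_sub (v l) (v k), div_neg]
  · refine ⟨_, _, _, _, h1, h2, fun m hm => ?_⟩
    have := hneg _ m (him m hm)
    convert this using 3
    rw [← neg_sub (v j) (v i), neg_div]
  · refine ⟨_, _, _, _, h1, h2, fun m hm => ?_⟩
    have := him m hm
    convert this using 3
    rw [← neg_sub (v j) (v i), ← neg_sub (v l) (v k), neg_div_neg_eq]

end Pool.Agent.Lib.BilE.Fin12
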