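import Pool.Agent.Lib.MP_7bc51d_an_erg.Defs
import Pool.Agent.Lib.MP_7bc51d_an.Distinct
import Pool.Agent.Lib.MP_7bc51d_an.Generic

/-!
# Finitely many generalized diagonals of bounded length
-/

set_option autoImplicit false

namespace Pool.Agent.Lib.BilE.FinGD45

open Complex MeasureTheory Set Filter Topology
open scoped ComplexConjugate
open Pool.Agent.Lib.Bil

variable {n : ℕ} {v : Fin n → ℂ}

/-! ### rotations of the upper half plane -/

theorem arg_im_pos {z : ℂ} (h : 0 < z.im) : 0 < arg z ∧ arg z < Real.pi := by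
  constructor
  · have h1 : 0 ≤ arg z := Complex.arg_nonneg_iff.2 h.le
    refine lt_of_le_of_ne h1 (fun h2 => ?_)
    have := (Complex.arg_eq_zero_iff.1 h2.symm).2
    linarith
  · refine lt_of_le_of_ne (Complex.arg_le_pi z) (fun h2 => ?_)
    have := (Complex.arg_eq_pi_iff.1 h2).2
    linarith

theorem arg_step {x y : ℂ} (hx : 0 < x.im) (hy : 0 < y.im) (hxy : 0 < (x * y).im) :
    arg (x * y) = arg x + arg y := by
  obtain ⟨a1, a2⟩ := arg_im_pos hx
  obtain ⟨b1, b2⟩ := arg_im_pos hy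
  have hx0 : x ≠ 0 := by rintro rfl; simp at hx
  have hy0 : y ≠ 0 := by rintro rfl; simp at hy
  apply Complex.arg_mul hx0 hy0
  constructor
  · linarith [Real.pi_pos]
  · by_contra hcon
    push Not at hcon
    have h1 : (x * y).im = ‖x‖ * ‖y‖ * Real.sin (arg x + arg y) := by
      rw [Real.sin_add, mul_im]
      conv_lhs => rw [← Complex.norm_mul_cos_arg x, ← Complex.norm_mul_sin_arg x,
        ← Complex.norm_mul_cos_arg y, ← Complex.norm_mul_sin_arg y]
      ring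
    have h2 : Real.sin (arg x + arg y) < 0 := by
      have e : Real.sin (arg x + arg y) = -Real.sin (arg x + arg y - Real.pi) := by
        rw [Real.sin_sub_pi]; ring
      rw [e, neg_lt_zero]
      exact Real.sin_pos_of_pos_of_lt_pi (by linarith) (by linarith)
    have h3 : 0 < ‖x‖ * ‖y‖ := mul_pos (norm_pos_iff.2 hx0) (norm_pos_iff.2 hy0)
    rw [h1] at hxy
    have := mul_neg_of_pos_of_neg h3 h2
    linarith

theorem rot {κ : ℂ} (hκ : 0 < κ.im) : ∃ N : ℕ, ∀ (z : ℂ) (m : ℕ),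
    (∀ j ≤ m, 0 < (z * κ ^ j).im) → m ≤ N := by
  obtain ⟨b1, b2⟩ := arg_im_pos hκ
  refine ⟨⌈Real.pi / arg κ⌉₊, fun z m h => ?_⟩
  have hk : ∀ j : ℕ, j ≤ m → arg (z * κ ^ j) = arg z + j * arg κ := by
    intro j
    induction j with
    | zero => intro _; simp
    | succ j ih =>
      intro hj
      have e : z * κ ^ (j + 1) = (z * κ ^ j) * κ := by ring
      rw [e, arg_step (h j (by omega)) hκ (by rw [← e]; exact h _ hj), ih (by omega)]
      push_cast; ring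
  have h1 := (arg_im_pos (h m le_rfl)).2
  rw [hk m le_rfl] at h1
  have h2 := (arg_im_pos (h 0 (Nat.zero_le _))).1
  simp only [pow_zero, mul_one] at h2
  have h3 : (m : ℝ) ≤ Real.pi / arg κ := by
    rw [le_div_iff₀ b1]; linarith
  have := Nat.le_ceil (Real.pi / arg κ)
  exact_mod_cast h3.trans this

/-! ### crossings around one vertex -/

theorem den_pos {s : Fin n × Fin n} {g : List (Fin n × Fin n)} {x w : ℂ}
    (h : Rz v (s :: g) x w) : 0 < cr (Lo v g w) (v s.2 - v s.1) := by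
  rw [cr_sub_right]
  linarith [h.2.2.1, h.2.2.2]

theorem cr_self_rl {a : ℂ} (ha : a ≠ 0) (w : ℂ) : cr a (rl a w) = -cr a w := by
  have h := cr_rl ha a w
  rwa [rl_self ha] at h

theorem rz_ne (hv : ConvexIndependent ℝ v) {s s' : Fin n × Fin n} {g : List (Fin n × Fin n)}
    {x w : ℂ} (h : Rz v (s' :: s :: g) x w) : s' ≠ s := by
  rintro rfl
  have h1 := den_pos h
  have h2 := den_pos h.1
  have he : v s'.2 - v s'.1 ≠ 0 := v_sub_ne hv h.2.1.1
  have h3 : cr (Lo v (s' :: g) w) (v s'.2 - v s'.1) = -cr (Lo v g w) (v s'.2 - v s'.1) := by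
    change cr (rl (v s'.2 - v s'.1) (Lo v g w)) (v s'.2 - v s'.1) = _
    rw [cr_swap, cr_self_rl he, neg_neg, cr_swap]
  linarith

/-- The half plane variable of the crossing of the side `s` at the vertex `a`. -/
noncomputable def zt (v : Fin n → ℂ) (a : Fin n) (s : Fin n × Fin n) (w : ℂ) : ℂ :=
  if s.2 = a then conj w * (v s.2 - v s.1) else -(w * conj (v s.2 - v s.1))

theorem zt_im (a : Fin n) (s : Fin n × Fin n) (w : ℂ) :
    (zt v a s w).im = cr w (v s.2 - v s.1) := by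
  unfold zt
  split_ifs
  · rw [cr_eq_im]
  · rw [cr_eq_im]
    simp only [neg_im, mul_im, conj_re, conj_im]
    ring

theorem kap_pos (hn : 3 ≤ n) {p a q : Fin n} (h1 : IsSide v p a) (h2 : IsSide v a q) :
    0 < (-((v a - v p) * conj (v q - v a))).im := by
  have hpq : q ≠ p := by
    rintro rfl
    exact not_both_sides hn h1 h2
  have h3 := h1.2 q hpq h2.1.symm
  have e : v q - v p = (v q - v a) + (v a - v p) := by ring
  rw [e, cr_add_right, cr_self, add_zero] at h3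
  have e2 : (-((v a - v p) * conj (v q - v a))).im = cr (v a - v p) (v q - v a) := by
    simp only [cr, neg_im, mul_im, conj_re, conj_im]
    ring
  rw [e2]
  exact h3

theorem fan_step (hv : ConvexIndependent ℝ v) {p a q : Fin n} (h1 : IsSide v p a)
    (h2 : IsSide v a q) {s s' : Fin n × Fin n} (hs : s = (p, a) ∨ s = (a, q))
    (hs' : s' = (p, a) ∨ s' = (a, q)) (hne : s' ≠ s) (w : ℂ) :
    zt v a s' (rl (v s.2 - v s.1) w) = (((‖v s.2 - v s.1‖ ^ 2)⁻¹ : ℝ) : ℂ) *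
      (zt v a s w * -((v a - v p) * conj (v q - v a))) := by
  have hpa : v a - v p ≠ 0 := v_sub_ne hv h1.1
  have haq : v q - v a ≠ 0 := v_sub_ne hv h2.1
  have hpa' : conj (v a - v p) ≠ 0 := (map_ne_zero _).2 hpa
  have haq' : conj (v q - v a) ≠ 0 := (map_ne_zero _).2 haq
  have hn1 : ∀ z : ℂ, ((‖z‖ ^ 2 : ℝ) : ℂ) = z * conj z := by
    intro z
    rw [Complex.mul_conj, Complex.normSq_eq_norm_sq]
  rcases hs with rfl | rfl <;> rcases hs' with rfl | rfl
  · exact absurd rfl hne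
  · have hqa : q ≠ a := h2.1.symm
    simp only [zt, if_neg hqa, if_true]
    rw [ofReal_inv, hn1]
    simp only [rl]
    generalize v a - v p = e at *
    generalize v q - v a = e' at *
    field_simp
  · have hqa : q ≠ a := h2.1.symm
    simp only [zt, if_neg hqa, if_true]
    rw [ofReal_inv, hn1]
    simp only [rl]
    generalize v a - v p = e at *
    generalize v q - v a = e' at *
    simp only [map_mul, map_div₀, conj_conj]
    field_simp
  · exact absurd rfl hne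

theorem fan_aux (hv : ConvexIndependent ℝ v) {p a q : Fin n} (h1 : IsSide v p a)
    (h2 : IsSide v a q) {g : List (Fin n × Fin n)} {x w : ℂ} :
    ∀ (B : List (Fin n × Fin n)) (s : Fin n × Fin n),
      (∀ r ∈ s :: B, r = (p, a) ∨ r = (a, q)) → Rz v (s :: (B ++ g)) x w →
      ∃ (z : ℂ) (r : ℝ), 0 < r ∧
        (∀ j ≤ B.length, 0 < (z * (-((v a - v p) * conj (v q - v a))) ^ j).im) ∧
        zt v a s (Lo v (B ++ g) w) =
          (r : ℂ) * (z * (-((v a - v p) * conj (v q - v a))) ^ B.length) := by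
  intro B
  induction B with
  | nil =>
    intro s _ h
    refine ⟨zt v a s (Lo v g w), 1, one_pos, ?_, ?_⟩
    · intro j hj
      have : j = 0 := by simpa using hj
      subst this
      rw [pow_zero, mul_one, zt_im]
      exact den_pos h
    · simp
  | cons s0 B ih =>
    intro s hm h
    obtain ⟨z, r, hr, hz, he⟩ := ih s0 (fun r hr => hm r (List.mem_cons_of_mem _ hr)) h.1
    have hne : s ≠ s0 := rz_ne hv h
    have h3 := fan_step hv h1 h2 (hm s0 (by simp)) (hm s (by simp)) hne (Lo v (B ++ g) w)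
    have h4 : zt v a s (Lo v ((s0 :: B) ++ g) w) =
        (((‖v s0.2 - v s0.1‖ ^ 2)⁻¹ * r : ℝ) : ℂ) *
          (z * (-((v a - v p) * conj (v q - v a))) ^ (s0 :: B).length) := by
      change zt v a s (rl (v s0.2 - v s0.1) (Lo v (B ++ g) w)) = _
      rw [h3, he, List.length_cons, pow_succ]
      push_cast
      ring
    have hpos : 0 < (‖v s0.2 - v s0.1‖ ^ 2)⁻¹ * r := by
      have : 0 < ‖v s0.2 - v s0.1‖ := norm_pos_iff.2 (v_sub_ne hv (h.1.2.1).1)
      positivity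
    refine ⟨z, (‖v s0.2 - v s0.1‖ ^ 2)⁻¹ * r, hpos, ?_, h4⟩
    intro j hj
    rcases Nat.lt_or_ge j (s0 :: B).length with hj1 | hj1
    · exact hz j (by rw [List.length_cons] at hj1; omega)
    · have hje : j = (s0 :: B).length := le_antisymm hj hj1
      have h5 : 0 < (zt v a s (Lo v ((s0 :: B) ++ g) w)).im := by
        rw [zt_im]; exact den_pos h
      rw [h4, Complex.im_ofReal_mul] at h5
      rw [hje]
      exact pos_of_mul_pos_right h5 hpos.le

theorem fan_len (hn : 3 ≤ n) (hv : ConvexIndependent ℝ v) : ∃ N : ℕ, 2 ≤ N ∧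
    ∀ (a : Fin n) (B g : List (Fin n × Fin n)) (x w : ℂ), (∀ r ∈ B, r.1 = a ∨ r.2 = a) →
      Rz v (B ++ g) x w → B.length ≤ N := by
  have key : ∀ a : Fin n, ∃ N : ℕ, ∀ (B g : List (Fin n × Fin n)) (x w : ℂ),
      (∀ r ∈ B, r.1 = a ∨ r.2 = a) → Rz v (B ++ g) x w → B.length ≤ N := by
    intro a
    obtain ⟨p, hp⟩ := (nxt_bijective hn hv).2 a
    have h1 : IsSide v p a := by
      have := nxt_side hn hv p
      rwa [hp] at this
    have h2 : IsSide v a (nxt hn hv a) := nxt_side hn hv a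
    obtain ⟨N, hN⟩ := rot (kap_pos hn h1 h2)
    refine ⟨N + 1, fun B g x w hB h => ?_⟩
    have hB' : ∀ r ∈ B, r = (p, a) ∨ r = (a, nxt hn hv a) := by
      intro r hr
      have hs : IsSide v r.1 r.2 := h.val r (List.mem_append_left _ hr)
      rcases hB r hr with h3 | h3
      · right
        rw [h3] at hs
        exact Prod.ext h3 (next_unique hs h2)
      · left
        rw [h3] at hs
        exact Prod.ext (prev_unique hs h1) h3
    cases B with
    | nil => simp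
    | cons s B =>
      obtain ⟨z, r, _, hz, _⟩ := fan_aux hv h1 h2 B s hB' h
      have := hN z B.length hz
      rw [List.length_cons]
      omega
  choose N hN using key
  refine ⟨(∑ a, N a) + 2, by omega, fun a B g x w hB h => ?_⟩
  have h1 := hN a B g x w hB h
  have h2 : N a ≤ ∑ a, N a := Finset.single_le_sum (fun _ _ => Nat.zero_le _) (Finset.mem_univ a)
  omega

/-! ### crossing times -/

/-- Time at which the line crosses the side `s` after the crossings `g`. -/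
noncomputable def ct (v : Fin n → ℂ) (g : List (Fin n × Fin n)) (s : Fin n × Fin n)
    (x w : ℂ) : ℝ :=
  cr (v s.2 - v s.1) (Fo v g x - v s.1) / cr (Lo v g w) (v s.2 - v s.1)

theorem ct_pt (hv : ConvexIndependent ℝ v) {s : Fin n × Fin n} {g : List (Fin n × Fin n)}
    {x w : ℂ} (h : Rz v (s :: g) x w) : ∃ l : ℝ, 0 < l ∧ l < 1 ∧
      Fo v g (x + (ct v g s x w : ℂ) * w) = v s.1 + (l : ℂ) * (v s.2 - v s.1) := by
  have hd := den_pos h
  have he : v s.2 - v s.1 ≠ 0 := v_sub_ne hv h.2.1.1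
  set t := ct v g s x w with ht
  set W := Lo v g w with hW
  set X := Fo v g x with hX
  have e1 : Fo v g (x + (t : ℂ) * w) = X + (t : ℂ) * W := by rw [Fo_add, Lo_smul]
  have e2 : t * cr W (v s.2 - v s.1) = cr (v s.2 - v s.1) (X - v s.1) := by
    rw [ht, ct, div_mul_cancel₀ _ hd.ne']
  have e3 : cr (v s.2 - v s.1) (X + (t : ℂ) * W - v s.1) = 0 := by
    have : X + (t : ℂ) * W - v s.1 = (X - v s.1) + (t : ℂ) * W := by ring
    rw [this, cr_add_right, cr_smul_right, cr_swap (v s.2 - v s.1) W]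
    linarith
  obtain ⟨l, hl⟩ := (cr_eq_zero_iff he).1 e3
  have e4 : cr W (X - v s.1) = l * cr W (v s.2 - v s.1) := by
    have h5 : X - v s.1 = (l : ℂ) * (v s.2 - v s.1) - (t : ℂ) * W := by
      rw [← hl]; ring
    rw [h5, cr_sub_right, cr_smul_right, cr_smul_right, cr_self, mul_zero, sub_zero]
  have h6 := h.2.2.1
  have h7 := h.2.2.2
  rw [cr_sub_right] at e4
  have h8 : cr W (v s.2 - v s.1) = cr W (v s.2) - cr W (v s.1) := cr_sub_right _ _ _
  refine ⟨l, ?_, ?_, ?_⟩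
  · by_contra hcon
    push Not at hcon
    nlinarith
  · by_contra hcon
    push Not at hcon
    nlinarith
  · rw [e1]
    linear_combination hl

theorem Fo_cross (hv : ConvexIndependent ℝ v) {s : Fin n × Fin n} {g : List (Fin n × Fin n)}
    {x w : ℂ} (h : Rz v (s :: g) x w) :
    Fo v (s :: g) (x + (ct v g s x w : ℂ) * w) = Fo v g (x + (ct v g s x w : ℂ) * w) := by
  obtain ⟨l, _, _, hl⟩ := ct_pt hv h
  change RR v s.1 s.2 (Fo v g (x + (ct v g s x w : ℂ) * w)) = _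
  rw [hl, RR_line (v_sub_ne hv h.2.1.1)]

theorem ct_ge {s : Fin n × Fin n} {g : List (Fin n × Fin n)}
    {x w : ℂ} (h : Rz v (s :: g) x w) {t : ℝ} (ht : Fo v g (x + (t : ℂ) * w) ∈ KK v) :
    t ≤ ct v g s x w := by
  have hd := den_pos h
  have h1 := h.2.1.cr_nonneg ht
  rw [Fo_add, Lo_smul] at h1
  have e : Fo v g x + (t : ℂ) * Lo v g w - v s.1 =
      (Fo v g x - v s.1) + (t : ℂ) * Lo v g w := by ring
  rw [e, cr_add_right, cr_smul_right, cr_swap (v s.2 - v s.1) (Lo v g w)] at h1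
  rw [ct, le_div_iff₀ hd]
  linarith

theorem ct_le (hv : ConvexIndependent ℝ v) {s : Fin n × Fin n} {g : List (Fin n × Fin n)}
    {x w : ℂ} (h : Rz v (s :: g) x w) {t : ℝ} (ht : Fo v (s :: g) (x + (t : ℂ) * w) ∈ KK v) :
    ct v g s x w ≤ t := by
  have hd := den_pos h
  have he : v s.2 - v s.1 ≠ 0 := v_sub_ne hv h.2.1.1
  obtain ⟨l, _, _, hl⟩ := ct_pt hv h
  have h2 := Fo_cross hv h
  have h1 := h.2.1.cr_nonneg ht
  rw [hl, Fo_add, Lo_smul] at h2
  rw [Fo_add, Lo_smul] at h1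
  have e : Fo v (s :: g) x + (t : ℂ) * Lo v (s :: g) w - v s.1 =
      (l : ℂ) * (v s.2 - v s.1) + ((t - ct v g s x w : ℝ) : ℂ) * Lo v (s :: g) w := by
    push_cast
    linear_combination h2
  have e3 : cr (v s.2 - v s.1) (Lo v (s :: g) w) = cr (Lo v g w) (v s.2 - v s.1) := by
    change cr (v s.2 - v s.1) (rl (v s.2 - v s.1) (Lo v g w)) = _
    rw [cr_self_rl he, cr_swap, neg_neg]
  rw [e, cr_add_right, cr_smul_right, cr_smul_right, cr_self, mul_zero, zero_add, e3] at h1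
  by_contra hcon
  push Not at hcon
  nlinarith

theorem ct_mono (hv : ConvexIndependent ℝ v) {s s' : Fin n × Fin n}
    {g : List (Fin n × Fin n)} {x w : ℂ} (h : Rz v (s' :: s :: g) x w) :
    ct v g s x w ≤ ct v (s :: g) s' x w := by
  obtain ⟨l, h0, h1, hl⟩ := ct_pt hv h.1
  apply ct_ge h
  rw [Fo_cross hv h.1, hl]
  exact side_point_mem_KK h0.le h1.le

/-! ### three consecutive crossings without common vertex -/

/-- A common vertex of three sides. -/
def CV (s1 s2 s3 : Fin n × Fin n) : Prop :=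
  ∃ a, (s1.1 = a ∨ s1.2 = a) ∧ (s2.1 = a ∨ s2.2 = a) ∧ (s3.1 = a ∨ s3.2 = a)

theorem shared_unique (hn : 3 ≤ n) {s s' : Fin n × Fin n} (hs : IsSide v s.1 s.2)
    (hs' : IsSide v s'.1 s'.2) (hne : s ≠ s') {a b : Fin n} (ha : s.1 = a ∨ s.2 = a)
    (ha' : s'.1 = a ∨ s'.2 = a) (hb : s.1 = b ∨ s.2 = b) (hb' : s'.1 = b ∨ s'.2 = b) :
    a = b := by
  obtain ⟨i, j⟩ := s
  obtain ⟨k, l⟩ := s'
  simp only at *
  by_contra hab
  rcases ha with rfl | rfl <;> rcases ha' with h1 | h1 <;> rcases hb with h2 | h2 <;>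
    rcases hb' with h3 | h3 <;> subst_vars <;>
    first
      | exact absurd rfl hab
      | exact absurd rfl hne
      | exact not_both_sides hn hs hs'

theorem on_line_vertex (hn : 3 ≤ n) {s t : Fin n × Fin n} (hs : IsSide v s.1 s.2)
    (ht : IsSide v t.1 t.2) (hne : s ≠ t) {l : ℝ} (h0 : 0 ≤ l) (h1 : l ≤ 1)
    (h : cr (v t.2 - v t.1) (v s.1 + (l : ℂ) * (v s.2 - v s.1) - v t.1) = 0) :
    ∃ a, (s.1 = a ∨ s.2 = a) ∧ (t.1 = a ∨ t.2 = a) ∧ v s.1 + (l : ℂ) * (v s.2 - v s.1) = v a := by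
  have e : v s.1 + (l : ℂ) * (v s.2 - v s.1) - v t.1 =
      ((1 - l : ℝ) : ℂ) * (v s.1 - v t.1) + (l : ℂ) * (v s.2 - v t.1) := by
    push_cast; ring
  rw [e, cr_add_right, cr_smul_right, cr_smul_right] at h
  have hA := ht.cr_nonneg_vert s.1
  have hB := ht.cr_nonneg_vert s.2
  have hAp : s.1 ≠ t.1 → s.1 ≠ t.2 → 0 < cr (v t.2 - v t.1) (v s.1 - v t.1) := ht.2 s.1
  have hBp : s.2 ≠ t.1 → s.2 ≠ t.2 → 0 < cr (v t.2 - v t.1) (v s.2 - v t.1) := ht.2 s.2
  have key : (¬ (s.1 = t.1 ∨ s.1 = t.2)) ∨ (¬ (s.2 = t.1 ∨ s.2 = t.2)) := by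
    by_contra hcon
    push Not at hcon
    obtain ⟨c1, c2⟩ := hcon
    rcases c1 with c1 | c1 <;> rcases c2 with c2 | c2
    · exact hs.1 (c1.trans c2.symm)
    · exact hne (Prod.ext c1 c2)
    · rw [c1, c2] at hs
      exact not_both_sides hn ht hs
    · exact hs.1 (c1.trans c2.symm)
  rcases key with k | k
  · push Not at k
    have hA' := hAp k.1 k.2
    have hl : l = 1 := by
      have : (1 - l) * cr (v t.2 - v t.1) (v s.1 - v t.1) ≤ 0 := by nlinarith
      by_contra hcon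
      have : 0 < 1 - l := by
        rcases lt_or_eq_of_le h1 with h2 | h2
        · linarith
        · exact absurd h2 hcon
      nlinarith
    subst hl
    have hB0 : cr (v t.2 - v t.1) (v s.2 - v t.1) = 0 := by linarith
    have : s.2 = t.1 ∨ s.2 = t.2 := by
      by_contra hcon
      push Not at hcon
      have := hBp hcon.1 hcon.2
      linarith
    refine ⟨s.2, Or.inr rfl, ?_, by push_cast; ring⟩
    rcases this with h | h
    · exact Or.inl h.symm
    · exact Or.inr h.symm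
  · push Not at k
    have hB' := hBp k.1 k.2
    have hl : l = 0 := by
      by_contra hcon
      have : 0 < l := lt_of_le_of_ne h0 (Ne.symm hcon)
      nlinarith
    subst hl
    have hA0 : cr (v t.2 - v t.1) (v s.1 - v t.1) = 0 := by linarith
    have : s.1 = t.1 ∨ s.1 = t.2 := by
      by_contra hcon
      push Not at hcon
      have := hAp hcon.1 hcon.2
      linarith
    refine ⟨s.1, Or.inl rfl, ?_, by push_cast; ring⟩
    rcases this with h | h
    · exact Or.inl h.symm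
    · exact Or.inr h.symm

theorem turn_ne (hn : 3 ≤ n) (hv : ConvexIndependent ℝ v) {s1 s2 s3 : Fin n × Fin n}
    (h1 : IsSide v s1.1 s1.2) (h2 : IsSide v s2.1 s2.2) (h3 : IsSide v s3.1 s3.2)
    (h12 : s1 ≠ s2) (h23 : s3 ≠ s2) (hcv : ¬ CV s1 s2 s3) {l m : ℝ} (l0 : 0 ≤ l) (l1 : l ≤ 1)
    (m0 : 0 ≤ m) (m1 : m ≤ 1) :
    v s3.1 + (m : ℂ) * (v s3.2 - v s3.1) ≠
      RR v s2.1 s2.2 (v s1.1 + (l : ℂ) * (v s1.2 - v s1.1)) := by
  intro he
  have he2 : v s2.2 - v s2.1 ≠ 0 := v_sub_ne hv h2.1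
  have a1 := h2.cr_nonneg (side_point_mem_KK (v := v) (i := s1.1) (j := s1.2) l0 l1)
  have a3 := h2.cr_nonneg (side_point_mem_KK (v := v) (i := s3.1) (j := s3.2) m0 m1)
  have e : RR v s2.1 s2.2 (v s1.1 + (l : ℂ) * (v s1.2 - v s1.1)) - v s2.1 =
      rl (v s2.2 - v s2.1) (v s1.1 + (l : ℂ) * (v s1.2 - v s1.1) - v s2.1) := by
    unfold RR; ring
  rw [he, e, cr_self_rl he2] at a3
  have z1 : cr (v s2.2 - v s2.1) (v s1.1 + (l : ℂ) * (v s1.2 - v s1.1) - v s2.1) = 0 := by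
    linarith
  have z3 : cr (v s2.2 - v s2.1) (v s3.1 + (m : ℂ) * (v s3.2 - v s3.1) - v s2.1) = 0 := by
    rw [he, e, cr_self_rl he2, z1, neg_zero]
  obtain ⟨t, ht⟩ := (cr_eq_zero_iff he2).1 z1
  have hRP : RR v s2.1 s2.2 (v s1.1 + (l : ℂ) * (v s1.2 - v s1.1)) =
      v s1.1 + (l : ℂ) * (v s1.2 - v s1.1) := by
    have e4 : v s1.1 + (l : ℂ) * (v s1.2 - v s1.1) = v s2.1 + (t : ℂ) * (v s2.2 - v s2.1) := by
      rw [← ht]; ring
    rw [e4, RR_line he2]
  obtain ⟨a, ha1, ha2, ha3⟩ := on_line_vertex hn h1 h2 h12 l0 l1 z1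
  obtain ⟨b, hb1, hb2, hb3⟩ := on_line_vertex hn h3 h2 h23 m0 m1 z3
  have hab : v a = v b := by rw [← ha3, ← hb3, he, hRP]
  have := hv.injective hab
  subst this
  exact hcv ⟨a, ha1, ha2, hb1⟩

theorem turn_delta (hn : 3 ≤ n) (hv : ConvexIndependent ℝ v) : ∃ δ : ℝ, 0 < δ ∧
    ∀ s1 s2 s3 : Fin n × Fin n, IsSide v s1.1 s1.2 → IsSide v s2.1 s2.2 → IsSide v s3.1 s3.2 →
      s1 ≠ s2 → s3 ≠ s2 → ¬ CV s1 s2 s3 → ∀ l m : ℝ, 0 ≤ l → l ≤ 1 → 0 ≤ m → m ≤ 1 →
      δ ≤ ‖v s3.1 + (m : ℂ) * (v s3.2 - v s3.1) -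
        RR v s2.1 s2.2 (v s1.1 + (l : ℂ) * (v s1.2 - v s1.1))‖ := by
  have key : ∀ s1 s2 s3 : Fin n × Fin n, ∀ᶠ δ in 𝓝[>] (0 : ℝ),
      IsSide v s1.1 s1.2 → IsSide v s2.1 s2.2 → IsSide v s3.1 s3.2 →
      s1 ≠ s2 → s3 ≠ s2 → ¬ CV s1 s2 s3 → ∀ l m : ℝ, 0 ≤ l → l ≤ 1 → 0 ≤ m → m ≤ 1 →
      δ ≤ ‖v s3.1 + (m : ℂ) * (v s3.2 - v s3.1) -
        RR v s2.1 s2.2 (v s1.1 + (l : ℂ) * (v s1.2 - v s1.1))‖ := by
    intro s1 s2 s3
    by_cases hg : IsSide v s1.1 s1.2 ∧ IsSide v s2.1 s2.2 ∧ IsSide v s3.1 s3.2 ∧ s1 ≠ s2 ∧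
        s3 ≠ s2 ∧ ¬ CV s1 s2 s3
    · obtain ⟨h1, h2, h3, h12, h23, hcv⟩ := hg
      set f : ℝ × ℝ → ℝ := fun p => ‖v s3.1 + (p.2 : ℂ) * (v s3.2 - v s3.1) -
        RR v s2.1 s2.2 (v s1.1 + (p.1 : ℂ) * (v s1.2 - v s1.1))‖ with hf
      have hfc : Continuous f := by
        have c1 : Continuous (fun p : ℝ × ℝ => v s3.1 + (p.2 : ℂ) * (v s3.2 - v s3.1)) := by
          fun_prop
        have c2 : Continuous (fun p : ℝ × ℝ => v s1.1 + (p.1 : ℂ) * (v s1.2 - v s1.1)) := by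
          fun_prop
        exact (c1.sub ((continuous_RR v s2.1 s2.2).comp c2)).norm
      have hK : IsCompact (Icc (0 : ℝ) 1 ×ˢ Icc (0 : ℝ) 1) := isCompact_Icc.prod isCompact_Icc
      obtain ⟨p, hp, hmin⟩ := hK.exists_isMinOn
        ⟨((0 : ℝ), (0 : ℝ)), by simp⟩ hfc.continuousOn
      have hpos : 0 < f p := by
        rw [hf]
        refine norm_pos_iff.2 (sub_ne_zero.2 ?_)
        exact turn_ne hn hv h1 h2 h3 h12 h23 hcv hp.1.1 hp.1.2 hp.2.1 hp.2.2
      filter_upwards [Ioo_mem_nhdsGT hpos] with δ hδ _ _ _ _ _ _ l m l0 l1 m0 m1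
      have := hmin (show (l, m) ∈ Icc (0 : ℝ) 1 ×ˢ Icc (0 : ℝ) 1 from ⟨⟨l0, l1⟩, ⟨m0, m1⟩⟩)
      exact hδ.2.le.trans this
    · filter_upwards with δ h1 h2 h3 h12 h23 hcv
      exact absurd ⟨h1, h2, h3, h12, h23, hcv⟩ hg
  have h2 : ∀ᶠ δ in 𝓝[>] (0 : ℝ), ∀ s1 s2 s3 : Fin n × Fin n,
      IsSide v s1.1 s1.2 → IsSide v s2.1 s2.2 → IsSide v s3.1 s3.2 →
      s1 ≠ s2 → s3 ≠ s2 → ¬ CV s1 s2 s3 → ∀ l m : ℝ, 0 ≤ l → l ≤ 1 → 0 ≤ m → m ≤ 1 →
      δ ≤ ‖v s3.1 + (m : ℂ) * (v s3.2 - v s3.1) -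
        RR v s2.1 s2.2 (v s1.1 + (l : ℂ) * (v s1.2 - v s1.1))‖ :=
    eventually_all.2 (fun s1 => eventually_all.2 (fun s2 => eventually_all.2 (key s1 s2)))
  obtain ⟨δ, hδ, h0⟩ := (h2.and self_mem_nhdsWithin).exists
  exact ⟨δ, h0, hδ⟩

theorem dist_turn (hv : ConvexIndependent ℝ v) {s1 s2 s3 : Fin n × Fin n}
    {g : List (Fin n × Fin n)} {x w : ℂ} (h : Rz v (s3 :: s2 :: s1 :: g) x w) :
    ∃ l m : ℝ, 0 ≤ l ∧ l ≤ 1 ∧ 0 ≤ m ∧ m ≤ 1 ∧
      ‖v s3.1 + (m : ℂ) * (v s3.2 - v s3.1) -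
        RR v s2.1 s2.2 (v s1.1 + (l : ℂ) * (v s1.2 - v s1.1))‖ =
      ‖w‖ * (ct v (s2 :: s1 :: g) s3 x w - ct v g s1 x w) := by
  obtain ⟨m, m0, m1, hm⟩ := ct_pt hv h
  obtain ⟨l, l0, l1, hl⟩ := ct_pt hv h.1.1
  have h13 : ct v g s1 x w ≤ ct v (s2 :: s1 :: g) s3 x w := (ct_mono hv h.1).trans (ct_mono hv h)
  refine ⟨l, m, l0.le, l1.le, m0.le, m1.le, ?_⟩
  have e1 : Fo v (s2 :: s1 :: g) (x + (ct v g s1 x w : ℂ) * w) =
      RR v s2.1 s2.2 (v s1.1 + (l : ℂ) * (v s1.2 - v s1.1)) := by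
    change RR v s2.1 s2.2 (Fo v (s1 :: g) (x + (ct v g s1 x w : ℂ) * w)) = _
    rw [Fo_cross hv h.1.1, hl]
  rw [← e1, ← hm, Fo_sub, norm_Lo hv h.1.val]
  have e2 : x + (ct v (s2 :: s1 :: g) s3 x w : ℂ) * w - (x + (ct v g s1 x w : ℂ) * w) =
      ((ct v (s2 :: s1 :: g) s3 x w - ct v g s1 x w : ℝ) : ℂ) * w := by
    push_cast; ring
  rw [e2, norm_mul, norm_real, Real.norm_eq_abs, abs_of_nonneg (by linarith), mul_comm]

/-! ### counting -/

theorem count (hn : 3 ≤ n) (hv : ConvexIndependent ℝ v) : ∃ (N : ℕ) (δ : ℝ), 0 < δ ∧ 2 ≤ N ∧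
    ∀ (x w : ℂ), x ∈ KK v → ∀ (g : List (Fin n × Fin n)) (s' s : Fin n × Fin n),
      Rz v (s' :: s :: g) x w →
      ∃ (k : ℕ) (B g1 : List (Fin n × Fin n)), g = B ++ g1 ∧
        (B = [] ∨ ∃ a, (∀ r ∈ B, r.1 = a ∨ r.2 = a) ∧ (s.1 = a ∨ s.2 = a) ∧
          (s'.1 = a ∨ s'.2 = a)) ∧ B.length + 2 ≤ N ∧
        g.length + 2 ≤ k * N + (B.length + 2) ∧
        δ * k ≤ ‖w‖ * (ct v (s :: g) s' x w + ct v g s x w) := by
  obtain ⟨N, hN2, hN⟩ := fan_len hn hv
  obtain ⟨δ, hδ, hd⟩ := turn_delta hn hv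
  refine ⟨N, δ, hδ, hN2, fun x w hx g => ?_⟩
  induction g with
  | nil =>
    intro s' s h
    refine ⟨0, [], [], rfl, Or.inl rfl, by simpa using hN2, by simp, ?_⟩
    have h1 : 0 ≤ ct v [] s x w := ct_ge h.1 (by simpa [Fo] using hx)
    have h2 := ct_mono hv h
    have : 0 ≤ ‖w‖ * (ct v [s] s' x w + ct v [] s x w) :=
      mul_nonneg (norm_nonneg _) (by linarith)
    simpa using this
  | cons s0 g ih =>
    intro s' s h
    obtain ⟨k, B, g1, hB, hBa, hBN, hlen, htime⟩ := ih s s0 h.1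
    have hm1 := ct_mono hv h.1
    have hm2 := ct_mono hv h
    have hss' : s' ≠ s := rz_ne hv h
    have hs0s : s ≠ s0 := rz_ne hv h.1
    by_cases hcv : CV s0 s s'
    · obtain ⟨a, ha0, has, has'⟩ := hcv
      have hall : ∀ r ∈ s0 :: B, r.1 = a ∨ r.2 = a := by
        intro r hr
        rcases List.mem_cons.1 hr with rfl | hr
        · exact ha0
        · rcases hBa with hB0 | ⟨b, hb1, hb2, hb3⟩
          · rw [hB0] at hr; simp at hr
          · have : a = b := shared_unique hn h.1.1.2.1 h.1.2.1 (Ne.symm hs0s) ha0 has hb2 hb3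
            rw [this]
            exact hb1 r hr
      refine ⟨k, s0 :: B, g1, by rw [hB]; rfl, Or.inr ⟨a, hall, has, has'⟩, ?_, ?_, ?_⟩
      · have hR : Rz v ((s' :: s :: s0 :: B) ++ g1) x w := by
          have e : (s' :: s :: s0 :: B) ++ g1 = s' :: s :: s0 :: g := by rw [hB]; rfl
          rw [e]; exact h
        have := hN a (s' :: s :: s0 :: B) g1 x w (by
          intro r hr
          rcases List.mem_cons.1 hr with rfl | hr
          · exact has'
          · rcases List.mem_cons.1 hr with rfl | hr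
            · exact has
            · exact hall r hr) hR
        simp only [List.length_cons] at this ⊢
        omega
      · simp only [List.length_cons]
        omega
      · refine htime.trans (mul_le_mul_of_nonneg_left ?_ (norm_nonneg _))
        linarith
    · refine ⟨k + 1, [], s0 :: g, rfl, Or.inl rfl, by simpa using hN2, ?_, ?_⟩
      · simp only [List.length_cons, List.length_nil]
        have : k * N + (B.length + 2) ≤ k * N + N := by omega
        have e : (k + 1) * N = k * N + N := by ring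
        rw [e]
        omega
      · obtain ⟨l, m, l0, l1, m0, m1, hlm⟩ := dist_turn hv h
        have h5 := hd s0 s s' h.1.1.2.1 h.1.2.1 h.2.1 (Ne.symm hs0s) hss' hcv l m l0 l1 m0 m1
        rw [hlm] at h5
        push_cast
        have e : ‖w‖ * (ct v (s :: s0 :: g) s' x w + ct v (s0 :: g) s x w) =
            ‖w‖ * (ct v (s0 :: g) s x w + ct v g s0 x w) +
              ‖w‖ * (ct v (s :: s0 :: g) s' x w - ct v g s0 x w) := by ring
        rw [e]
        linarith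

theorem len_bound (hn : 3 ≤ n) (hv : ConvexIndependent ℝ v) : ∃ (N : ℕ) (δ : ℝ), 0 < δ ∧
    ∀ (x w : ℂ) (g : List (Fin n × Fin n)), x ∈ KK v → Fo v g (x + w) ∈ KK v →
      Rz v g x w → (g.length : ℝ) ≤ N * (2 * ‖w‖ / δ + 1) := by
  obtain ⟨N, δ, hδ, hN2, hN⟩ := count hn hv
  refine ⟨N, δ, hδ, fun x w g hx hw h => ?_⟩
  have hN2' : (2 : ℝ) ≤ N := by exact_mod_cast hN2
  have hq : 0 ≤ 2 * ‖w‖ / δ := by positivity
  rcases g with _ | ⟨s', g⟩
  · simp only [List.length_nil, Nat.cast_zero]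
    positivity
  rcases g with _ | ⟨s, g⟩
  · simp only [List.length_cons, List.length_nil]
    push_cast
    nlinarith
  obtain ⟨k, B, g1, hB, hBa, hBN, hlen, htime⟩ := hN x w hx g s' s h
  have h1 : ct v (s :: g) s' x w ≤ 1 := ct_le hv h (by simpa using hw)
  have h2 := ct_mono hv h
  have h3 : δ * k ≤ 2 * ‖w‖ := by
    refine htime.trans ?_
    have := norm_nonneg w
    nlinarith
  have h4 : (k : ℝ) ≤ 2 * ‖w‖ / δ := by
    rw [le_div_iff₀ hδ]; linarith
  have h5 : (s' :: s :: g).length ≤ k * N + N := by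
    simp only [List.length_cons]
    omega
  have h6 : (((s' :: s :: g).length : ℕ) : ℝ) ≤ k * N + N := by exact_mod_cast h5
  nlinarith

/-- Only finitely many generalized diagonals of bounded length leave a vertex. -/
theorem fin_gd (hn : 3 ≤ n) (hv : ConvexIndependent ℝ v) (k : Fin n) (T : ℝ) :
    {z | z ∈ Hd v k ∧ ‖z‖ ≤ T}.Finite := by
  obtain ⟨N, δ, hδ, hN⟩ := len_bound hn hv
  set M : ℕ := ⌈(N : ℝ) * (2 * T / δ + 1)⌉₊ with hM
  have hfin : {g : List (Fin n × Fin n) | g.length ≤ M}.Finite := List.finite_length_le _ _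
  have himg : (⋃ l : Fin n, (fun g : List (Fin n × Fin n) => Un v g (v l) - v k) ''
      {g | g.length ≤ M}).Finite := Set.finite_iUnion (fun l => hfin.image _)
  refine himg.subset ?_
  rintro z ⟨⟨_, g, l, hR, hF⟩, hz⟩
  have h1 := hN (v k) z g (vert_mem_KK k) (by rw [hF]; exact vert_mem_KK l) hR
  have h2 : (g.length : ℝ) ≤ N * (2 * T / δ + 1) := by
    refine h1.trans (mul_le_mul_of_nonneg_left ?_ (Nat.cast_nonneg _))
    have : 2 * ‖z‖ / δ ≤ 2 * T / δ := by gcongr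
    linarith
  have h3 : g.length ≤ M := by
    have := h2.trans (Nat.le_ceil _)
    exact_mod_cast this
  rw [mem_iUnion]
  refine ⟨l, g, h3, ?_⟩
  simp only
  rw [← hF, Un_Fo hv hR.val]
  ring

/-- The inverse lengths of the generalized diagonals of bounded length have bounded sums. -/
theorem sum_gd (hn : 3 ≤ n) (hv : ConvexIndependent ℝ v) (k : Fin n) (T : ℝ) :
    ∃ S : ℝ, 0 ≤ S ∧ ∀ Z : Finset ℂ, (∀ z ∈ Z, z ∈ Hd v k ∧ ‖z‖ ≤ T) → ∑ z ∈ Z, ‖z‖⁻¹ ≤ S := by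
  refine ⟨∑ z ∈ (fin_gd hn hv k T).toFinset, ‖z‖⁻¹, Finset.sum_nonneg (fun z _ => by positivity),
    fun Z hZ => ?_⟩
  refine Finset.sum_le_sum_of_subset_of_nonneg (fun z hz => ?_) (fun z _ _ => by positivity)
  rw [Set.Finite.mem_toFinset]
  exact hZ z hz

end Pool.Agent.Lib.BilE.FinGD45
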