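import Pool.Agent.Lib.MP_7bc51d_an_erg.Hit17

/-!
# Billiard trajectories from vertex to vertex
-/

set_option autoImplicit false

namespace Pool.Agent.Lib.BilE.Hits17

open Complex MeasureTheory Set Filter Topology
open scoped ComplexConjugate
open Pool.Agent.Lib.Bil Pool.Agent.Lib.BilD Pool.Agent.Lib.BilE Pool.Agent.Lib.BilE.Hit17

variable {n : ℕ} {v : Fin n → ℂ}

/-- interior along a chord -/
theorem chord_in {x w : ℂ} {b : ℝ} (hx : ∃ δ > 0, ∀ t : ℝ, 0 < t → t ≤ δ → x + (t : ℂ) * w ∈ PP v)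
    (hb : x + (b : ℂ) * w ∈ KK v) {r : ℝ} (hr : 0 < r) (hrb : r < b) :
    x + (r : ℂ) * w ∈ PP v := by
  obtain ⟨δ, hδ, h⟩ := hx
  rcases le_or_gt r δ with h1 | h1
  · exact h r hr h1
  · have h2 := h δ hδ le_rfl
    apply convex_KK.openSegment_interior_self_subset_interior h2 hb
    rw [openSegment_eq_image]
    have hbd : 0 < b - δ := by linarith
    refine ⟨(r - δ) / (b - δ), ⟨div_pos (by linarith) hbd,
      by rw [div_lt_one hbd]; linarith⟩, ?_⟩
    simp only [real_smul]
    have hne : ((b : ℂ) - δ) ≠ 0 := by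
      have : (b - δ : ℝ) ≠ 0 := hbd.ne'
      exact_mod_cast this
    push_cast
    field_simp
    ring

theorem vert_notMem_PP (hn : 3 ≤ n) (hv : ConvexIndependent ℝ v) (l : Fin n) : v l ∉ PP v := by
  intro h
  have := (nxt_side hn hv l).cr_pos hv h
  rw [sub_self, cr_zero_right] at this
  exact lt_irrefl _ this

/-- The trajectory which is described by a word satisfies every predicate closed under direct
flights to a vertex and reflections. -/
theorem hits (hn : 3 ≤ n) (hv : ConvexIndependent ℝ v) {P : ℂ → ℂ → ℝ → Fin n → Prop}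
    (hdir : ∀ (x w : ℂ) (t : ℝ) (l : Fin n), 0 < t → x + (t : ℂ) * w = v l →
      (∀ s : ℝ, 0 < s → s < t → x + (s : ℂ) * w ∈ PP v) → P x w t l)
    (hbou : ∀ (x w : ℂ) (s t : ℝ) (i j l : Fin n), 0 < s →
      (∀ r : ℝ, 0 < r → r < s → x + (r : ℂ) * w ∈ PP v) → IsSide v i j →
      x + (s : ℂ) * w ∈ segment ℝ (v i) (v j) → x + (s : ℂ) * w ∉ Set.range v →
      P (x + (s : ℂ) * w) (rl (v j - v i) w) t l → P x w (s + t) l)
    (l : Fin n) (g : List (Sd n)) : ∀ (x w : ℂ) (τ : ℝ),
      (∃ δ > 0, ∀ t : ℝ, 0 < t → t ≤ δ → x + (t : ℂ) * w ∈ PP v) → Rz v g x w →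
      Fo v g (x + (τ : ℂ) * w) = v l → (g = [] → 0 < τ) → P x w τ l ∧ 0 < τ := by
  induction g using List.reverseRecOn with
  | nil =>
    intro x w τ hx _ hF hτ
    have hτ := hτ rfl
    change x + (τ : ℂ) * w = v l at hF
    refine ⟨hdir x w τ l hτ hF (fun s hs hst => chord_in hx ?_ hs hst), hτ⟩
    rw [hF]; exact vert_mem_KK l
  | append_singleton g s ih =>
    intro x w τ hx hR hF _
    rw [Rz_append] at hR
    rw [Fo_append] at hF
    obtain ⟨⟨r1, r2, r3⟩, r4⟩ := hR
    have hne := v_sub_ne hv r1.1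
    -- the exit point
    have hab : 0 < cr w (v s.2) - cr w (v s.1) := by linarith
    have hw : w ≠ 0 := by
      rintro rfl
      rw [cr_zero_left, cr_zero_left] at hab
      linarith
    set σ : ℝ := (cr w x - cr w (v s.1)) / (cr w (v s.2) - cr w (v s.1)) with hσ
    have σ0 : 0 < σ := div_pos (by linarith) hab
    have σ1 : σ < 1 := by rw [hσ, div_lt_one hab]; linarith
    set y : ℂ := v s.1 + (σ : ℂ) * (v s.2 - v s.1) with hy
    have hyx : cr w (y - x) = 0 := by
      rw [cr_sub_right, hy, cr_add_right, cr_smul_right, cr_sub_right, hσ]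
      field_simp
      ring
    obtain ⟨b, hb⟩ := (cr_eq_zero_iff hw).1 hyx
    have hyb : y = x + (b : ℂ) * w := by rw [← hb]; ring
    have hyK : y ∈ KK v := side_point_mem_KK σ0.le σ1.le
    have hcw : cr (v s.2 - v s.1) w < 0 := by
      rw [cr_swap, cr_sub_right]; linarith
    have hb0 : 0 < b := by
      obtain ⟨δ, hδ, h⟩ := hx
      have h2 := r1.cr_pos hv (h δ hδ le_rfl)
      have h3 : cr (v s.2 - v s.1) (y - v s.1) = 0 := by
        rw [hy, add_sub_cancel_left, cr_smul_right, cr_self, mul_zero]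
      have h4 : x + (δ : ℂ) * w - v s.1 = (y - v s.1) + ((δ - b : ℝ) : ℂ) * w := by
        rw [hyb]; push_cast; ring
      rw [h4, cr_add_right, cr_smul_right, h3, zero_add] at h2
      by_contra hcon
      push Not at hcon
      have : 0 ≤ (δ - b) := by linarith
      have := mul_nonpos_of_nonneg_of_nonpos this hcw.le
      linarith
    have hyv : y ∉ Set.range v := by
      rintro ⟨m, hm⟩
      by_cases h1 : m = s.1
      · rw [h1, hy] at hm
        have : (σ : ℂ) * (v s.2 - v s.1) = 0 := by linear_combination -hm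
        rcases mul_eq_zero.1 this with h5 | h5
        · exact σ0.ne' (by exact_mod_cast h5)
        · exact hne h5
      · by_cases h2 : m = s.2
        · rw [h2, hy] at hm
          have : ((1 - σ : ℝ) : ℂ) * (v s.2 - v s.1) = 0 := by
            push_cast; linear_combination hm
          rcases mul_eq_zero.1 this with h5 | h5
          · have : 1 - σ = 0 := by exact_mod_cast h5
            linarith
          · exact hne h5
        · exact no_between hv h1 h2 σ0.le σ1.le (by rw [hm, hy])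
    have hyseg : y ∈ segment ℝ (v s.1) (v s.2) := by
      rw [segment_eq_image]
      refine ⟨σ, ⟨σ0.le, σ1.le⟩, ?_⟩
      simp only [real_smul]
      rw [hy]; push_cast; ring
    set w' := rl (v s.2 - v s.1) w with hw'
    have hRy : RR v s.1 s.2 y = y := by
      rw [hy]
      unfold RR
      rw [add_sub_cancel_left, rl_smul, rl_self hne]
    have hRx : RR v s.1 s.2 x = y + ((-b : ℝ) : ℂ) * w' := by
      have : x = y + ((-b : ℝ) : ℂ) * w := by rw [hyb]; push_cast; ring
      conv_lhs => rw [this]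
      rw [RR_add, hRy, rl_smul]
    have hRz : Rz v g y w' := by
      rw [hRx] at r4
      exact (Rz_line _ _ _ _).1 r4
    have hF' : Fo v g (y + ((τ - b : ℝ) : ℂ) * w') = v l := by
      rw [← hF]
      congr 1
      rw [RR_add, hRx, rl_smul]
      push_cast; ring
    have hin : 0 < cr (v s.2 - v s.1) w' := by
      have := cr_rl hne (v s.2 - v s.1) w
      rw [rl_self hne] at this
      rw [hw', this]; linarith
    have hstart : ∃ δ > 0, ∀ t : ℝ, 0 < t → t ≤ δ → y + (t : ℂ) * w' ∈ PP v := by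
      obtain ⟨δ, hδ, h⟩ := inward hn hv r1 σ0 σ1 hin
      exact ⟨δ, hδ, h⟩
    have hpos : g = [] → 0 < τ - b := by
      intro hg
      rw [hg] at hF'
      change y + ((τ - b : ℝ) : ℂ) * w' = v l at hF'
      have h1 := r1.cr_nonneg_vert l
      have h3 : cr (v s.2 - v s.1) (y - v s.1) = 0 := by
        rw [hy, add_sub_cancel_left, cr_smul_right, cr_self, mul_zero]
      have h4 : v l - v s.1 = (y - v s.1) + ((τ - b : ℝ) : ℂ) * w' := by
        rw [← hF']; ring
      rw [h4, cr_add_right, cr_smul_right, h3, zero_add] at h1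
      rcases lt_trichotomy (τ - b) 0 with h5 | h5 | h5
      · have := mul_neg_of_neg_of_pos h5 hin
        linarith
      · exfalso
        apply hyv
        rw [h5, ofReal_zero, zero_mul, add_zero] at hF'
        exact ⟨l, hF'.symm⟩
      · exact h5
    obtain ⟨k1, k2⟩ := ih y w' (τ - b) hstart hRz hF' hpos
    refine ⟨?_, by linarith⟩
    have k3 := hbou x w b (τ - b) s.1 s.2 l hb0
      (fun r hr hrb => chord_in hx (by rw [← hyb]; exact hyK) hr hrb) r1
      (by rw [← hyb]; exact hyseg) (by rw [← hyb]; exact hyv) (by rw [← hyb]; exact k1)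
    have : b + (τ - b) = τ := by ring
    rwa [this] at k3

/-- Generalized diagonals as trajectories. -/
theorem hits_Hd (hn : 3 ≤ n) (hv : ConvexIndependent ℝ v) {P : ℂ → ℂ → ℝ → Fin n → Prop}
    (hdir : ∀ (x w : ℂ) (t : ℝ) (l : Fin n), 0 < t → x + (t : ℂ) * w = v l →
      (∀ s : ℝ, 0 < s → s < t → x + (s : ℂ) * w ∈ PP v) → P x w t l)
    (hbou : ∀ (x w : ℂ) (s t : ℝ) (i j l : Fin n), 0 < s →
      (∀ r : ℝ, 0 < r → r < s → x + (r : ℂ) * w ∈ PP v) → IsSide v i j →
      x + (s : ℂ) * w ∈ segment ℝ (v i) (v j) → x + (s : ℂ) * w ∉ Set.range v →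
      P (x + (s : ℂ) * w) (rl (v j - v i) w) t l → P x w (s + t) l)
    {k : Fin n} {z : ℂ} (hz : z ∈ Hd v k) : ∃ l, P (v k) z 1 l := by
  obtain ⟨h1, g, l, h2, h3⟩ := hz
  obtain ⟨δ, hδ, h⟩ := h1
  exact ⟨l, (hits hn hv hdir hbou l g (v k) z 1 ⟨δ, hδ, h⟩ h2
    (by rw [ofReal_one, one_mul]; exact h3) (fun _ => one_pos)).1⟩

end Pool.Agent.Lib.BilE.Hits17
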