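import Pool.Agent.Lib.MP_7bc51d_an_erg.Defs
import Pool.Agent.Lib.MP_7bc51d_an_dense.Mass5

/-!
# Row MASS: the total gradient energy is `o(ε⁻²)`
-/

set_option autoImplicit false

namespace Pool.Agent.Lib.BilE.MassRow5

open Complex MeasureTheory Set Filter Topology
open scoped ComplexConjugate ENNReal
open Pool.Agent.Lib.Bil Pool.Agent.Lib.BilD Pool.Agent.Lib.BilE

variable {n : ℕ} {v : Fin n → ℂ} {F : ℂ → ℝ → ℝ} {ε : ℝ}

theorem hh_eq (p : ℂ × ℂ) : hh v F ε p = Erg45.hq v F ε p.1 p.2 := rfl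

theorem hh_meas (hF : LFS v F) : Measurable (hh v F ε) := Erg45.hq_meas2 hF

/-- Bound of the energy by the oscillation under translations. -/
theorem Me_le (v : Fin n → ℂ) : ∃ K : ℝ, 0 < K ∧ ∀ (F : ℂ → ℝ → ℝ), LFS v F → ∀ ε : ℝ, 0 < ε →
    ∀ D : ℝ, 0 ≤ D → (∀ z : ℂ, ‖z‖ < ε → Mass5.Dl v F z ≤ ENNReal.ofReal D) →
      ε ^ 2 * Me v F ε ≤ K * D := by
  obtain ⟨K, hK, hb⟩ := Mass5.mass v
  refine ⟨K, hK, fun F hF ε hε D hD hz => ?_⟩
  have h1 := hb F hF ε hε _ hz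
  have hm : Measurable (hh v F ε) := hh_meas hF
  have h0 : ∀ p, 0 ≤ hh v F ε p := fun p => Erg45.hq_nonneg _ _
  have h2 : ∫⁻ p in DD v, ENNReal.ofReal (hh v F ε p) ≤
      ∫⁻ x, ∫⁻ w in BV, ENNReal.ofReal (Erg45.hq v F ε x w) := by
    have e1 : (volume : Measure (ℂ × ℂ)).restrict (DD v) =
        ((volume : Measure ℂ).restrict (PP v)).prod ((volume : Measure ℂ).restrict BV) := by
      rw [Measure.prod_restrict, ← Measure.volume_eq_prod]; rfl
    have hm' : Measurable (fun p : ℂ × ℂ => ENNReal.ofReal (hh v F ε p)) :=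
      ENNReal.measurable_ofReal.comp hm
    rw [e1, lintegral_prod _ hm'.aemeasurable]
    exact setLIntegral_le_lintegral _ _
  have h3 : Me v F ε = (∫⁻ p in DD v, ENNReal.ofReal (hh v F ε p)).toReal := by
    unfold Me
    rw [integral_eq_lintegral_of_nonneg_ae (Eventually.of_forall h0) hm.aestronglyMeasurable]
  have h4 : Me v F ε ≤ K / ε ^ 2 * D := by
    rw [h3]
    have h5 := h2.trans h1
    rw [← ENNReal.ofReal_mul (by positivity)] at h5
    exact ENNReal.toReal_le_of_le_ofReal (by positivity) h5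
  calc ε ^ 2 * Me v F ε ≤ ε ^ 2 * (K / ε ^ 2 * D) := by gcongr
    _ = K * D := by field_simp

/-- (MASS) -/
theorem row : StMass := by
  intro n v C e0 G F hF η hη
  obtain ⟨K, hK, hb⟩ := Me_le v
  obtain ⟨d, hd, h⟩ := Mass5.delta0' G.edn hF (η := ENNReal.ofReal (η / K))
    (ENNReal.ofReal_pos.2 (by positivity))
  refine ⟨d, hd, fun ε hε hεd => ?_⟩
  have := hb F hF ε hε (η / K) (by positivity) (fun z hz => h z (hz.trans hεd))
  refine this.trans (le_of_eq ?_)
  field_simp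

end Pool.Agent.Lib.BilE.MassRow5
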