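import Pool.Agent.Lib.MP_7bc51d_an_erg.FinGD45

/-!
# Small energy in the annuli from a total energy `O(1/ε)`
-/

set_option autoImplicit false

namespace Pool.Agent.Lib.BilE.PerSmall17

open Complex MeasureTheory Set Filter Topology
open Pool.Agent.Lib.Bil Pool.Agent.Lib.BilD Pool.Agent.Lib.BilE

variable {n : ℕ} {v : Fin n → ℂ} {F : ℂ → ℝ → ℝ} {C e0 : ℝ}

theorem small (hMain : StMain) (hBad : StBadVol) (hn : 3 ≤ n) (hv : ConvexIndependent ℝ v)
    (hG : Geo v C e0) (hF : LFS v F) (hH : Hg F) {M : ℝ}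
    (hM : ∀ e : ℝ, 0 < e → ∃ ε : ℝ, 0 < ε ∧ ε < e ∧ ε * Me v F ε ≤ M) :
    ∀ η > 0, ∀ r0 > 0, ∃ ε, 0 < ε ∧ ε < r0 ∧ GE v F C ε ≤ η := by
  intro η hη r0 hr0
  obtain ⟨C6, e1, hC6, he1, -, hmain⟩ := hMain n v C e0 hn hv hG
  obtain ⟨C7, e2, D, K, hC7, he2, hD, hK, hbad⟩ := hBad n v C e0 hn hv hG
  set M' : ℝ := max M 0 with hM'
  have hM0 : 0 ≤ M' := le_max_right _ _
  have hKr : (1 : ℝ) ≤ K := by exact_mod_cast hK
  set T : ℝ := 2 * C6 * K * (M' + 1) / η with hT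
  have hTp : 0 < T := by positivity
  choose S hS0 hS using fun k : Fin n => FinGD45.sum_gd hn hv k (T / 4 + 1 + D)
  set W : ℝ := C6 * (C7 * ∑ k, (1 + S k)) with hW
  have hW0 : 0 ≤ W := by
    have : 0 ≤ ∑ k, (1 + S k) := Finset.sum_nonneg (fun k _ => by have := hS0 k; positivity)
    positivity
  obtain ⟨ε, hε, hεe, hMe⟩ := hM (min (min (min r0 e1) (min e2 1)) (min (T / K) (η / (2 * (W + 1)))))
    (by positivity)
  simp only [lt_min_iff] at hεe
  obtain ⟨⟨⟨h1, h2⟩, ⟨h3, h4⟩⟩, ⟨h5, h6⟩⟩ := hεe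
  refine ⟨ε, hε, h1, ?_⟩
  set m : ℕ := ⌈T / ε⌉₊ with hm
  have hm1 : T / ε ≤ m := Nat.le_ceil _
  have hm2 : (m : ℝ) < T / ε + 1 := Nat.ceil_lt_add_one (by positivity)
  have hKm : (K : ℝ) ≤ m := by
    refine le_trans ?_ hm1
    rw [le_div_iff₀ hε]
    rw [lt_div_iff₀ (by positivity)] at h5
    linarith
  have hmp : (0 : ℝ) < m := lt_of_lt_of_le (by positivity) hKm
  have hlen : (m : ℝ) * (ε / 4) + D ≤ T / 4 + 1 + D := by
    have : (m : ℝ) * (ε / 4) ≤ (T / ε + 1) * (ε / 4) := by gcongr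
    have h' : (T / ε + 1) * (ε / 4) = T / 4 + ε / 4 := by field_simp
    linarith
  have hb : ∀ k, (volume (Bad v C ε K m k)).toReal ≤ C7 * ε ^ 3 * (1 + S k) := fun k =>
    hbad ε hε h3 m k (S k) (hS0 k)
      (fun Z hZ => hS k Z (fun z hz => ⟨(hZ z hz).1, (hZ z hz).2.trans hlen⟩))
  have hge := hmain F hF hH ε hε h2 K m hK (by exact_mod_cast hKm)
  have hMe' : ε * Me v F ε ≤ M' := hMe.trans (le_max_left _ _)
  have hp1 : (K : ℝ) / m * Me v F ε ≤ K * M' / T := by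
    have hK1 : (K : ℝ) / m ≤ K * ε / T := by
      rw [div_le_div_iff₀ hmp hTp]
      rw [div_le_iff₀ hε] at hm1
      nlinarith
    rcases le_or_gt 0 (Me v F ε) with h0 | h0
    · calc (K : ℝ) / m * Me v F ε ≤ K * ε / T * Me v F ε := by gcongr
        _ = K * (ε * Me v F ε) / T := by ring
        _ ≤ K * M' / T := by gcongr
    · have : (K : ℝ) / m * Me v F ε ≤ 0 := mul_nonpos_of_nonneg_of_nonpos (by positivity) h0.le
      exact this.trans (by positivity)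
  have hp2 : (ε ^ 2)⁻¹ * ∑ k, (volume (Bad v C ε K m k)).toReal ≤ C7 * (∑ k, (1 + S k)) * ε := by
    calc (ε ^ 2)⁻¹ * ∑ k, (volume (Bad v C ε K m k)).toReal
        ≤ (ε ^ 2)⁻¹ * ∑ k, C7 * ε ^ 3 * (1 + S k) := by
          gcongr with k _
          exact hb k
      _ = C7 * (∑ k, (1 + S k)) * ε := by
          rw [← Finset.mul_sum]
          field_simp
  have hp3 : C6 * (K * M' / T) ≤ η / 2 := by
    rw [hT]
    have : C6 * (K * M' / (2 * C6 * K * (M' + 1) / η)) = η / 2 * (M' / (M' + 1)) := by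
      field_simp
    rw [this]
    have h' : M' / (M' + 1) ≤ 1 := by
      rw [div_le_one (by positivity)]; linarith
    calc η / 2 * (M' / (M' + 1)) ≤ η / 2 * 1 := by gcongr
      _ = η / 2 := mul_one _
  have hp4 : C6 * (C7 * (∑ k, (1 + S k)) * ε) ≤ η / 2 := by
    have e : C6 * (C7 * (∑ k, (1 + S k)) * ε) = W * ε := by rw [hW]; ring
    rw [e]
    rw [lt_div_iff₀ (by positivity)] at h6
    nlinarith
  calc GE v F C ε ≤ C6 * ((K : ℝ) / m * Me v F ε +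
        (ε ^ 2)⁻¹ * ∑ k, (volume (Bad v C ε K m k)).toReal) := hge
    _ ≤ C6 * (K * M' / T + C7 * (∑ k, (1 + S k)) * ε) := by gcongr
    _ = C6 * (K * M' / T) + C6 * (C7 * (∑ k, (1 + S k)) * ε) := by ring
    _ ≤ η := by linarith

end Pool.Agent.Lib.BilE.PerSmall17
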