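import Pool.Agent.Lib.MP_7bc51d_an_erg.Defs

/-!
# The gradient energy near the vertices tends to zero along a sequence of scales
-/

set_option autoImplicit false

namespace Pool.Agent.Lib.BilE.Small73

open Complex MeasureTheory Set Filter Topology
open scoped ComplexConjugate
open Pool.Agent.Lib.Bil Pool.Agent.Lib.BilD

variable {n : ℕ}

theorem Me_nonneg (v : Fin n → ℂ) (F : ℂ → ℝ → ℝ) (ε : ℝ) : 0 ≤ Me v F ε := by
  refine integral_nonneg fun p => ?_
  show 0 ≤ gd v F ε p.1 p.2 1 ^ 2 + gd v F ε p.1 p.2 I ^ 2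
  positivity

/-- (SMALL) -/
theorem row (hMain : StMain) (hMass : StMass) (hBV : StBadVol) : StSmall := by
  intro n v C e0 hn hv hG hQG F hF hHg η hη r0 hr0
  obtain ⟨C6, e1, hC6, he1, he10, hM⟩ := hMain n v C e0 hn hv hG
  obtain ⟨C7, e2, D, K, hC7, he2, hD, hK, hB⟩ := hBV n v C e0 hn hv hG
  obtain ⟨Cq, hq⟩ := hQG
  have hn0 : (0 : ℝ) < n := by
    have : 0 < n := by omega
    exact_mod_cast this
  have hK0 : (0 : ℝ) < K := by exact_mod_cast hK
  -- the constant `c`
  set A : ℝ := C6 * (n * C7) with hA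
  have hA0 : 0 < A := by positivity
  set c : ℝ := η / (3 * A * (|Cq| + 1)) with hc
  have hCq0 : 0 < |Cq| + 1 := by positivity
  have hc0 : 0 < c := by positivity
  have hcA : A * (|Cq| * c) ≤ η / 3 := by
    have h1 : A * ((|Cq| + 1) * c) = η / 3 := by
      rw [hc]
      field_simp
    have h2 : |Cq| * c ≤ (|Cq| + 1) * c := by nlinarith
    have h3 := mul_le_mul_of_nonneg_left h2 hA0.le
    linarith
  -- the mass
  set η1 : ℝ := c * η / (3 * C6 * K) with hη1
  have hη10 : 0 < η1 := by positivity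
  obtain ⟨r1, hr1, hmass⟩ := hMass n v C e0 hG F hF η1 hη10
  -- the scale
  set s : ℝ := min r0 (min e1 (min e2 (min r1 (η / (3 * A))))) with hs
  have hs0 : 0 < s := by
    rw [hs]
    refine lt_min hr0 (lt_min he1 (lt_min he2 (lt_min hr1 (by positivity))))
  obtain ⟨R, hR, hT⟩ := hq (max 1 (max (2 * D) (max (c / s + 1) (max c (K * c)))))
  have hR1 : 1 ≤ R := (le_max_left _ _).trans hR
  have hR' := (le_max_right _ _).trans hR
  have hRD : 2 * D ≤ R := (le_max_left _ _).trans hR'
  have hR'' := (le_max_right _ _).trans hR'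
  have hRs : c / s + 1 ≤ R := (le_max_left _ _).trans hR''
  have hR''' := (le_max_right _ _).trans hR''
  have hRc : c ≤ R := (le_max_left _ _).trans hR'''
  have hRK : K * c ≤ R := (le_max_right _ _).trans hR'''
  have hR0 : 0 < R := by linarith
  set ε : ℝ := c / R with hε
  have hε0 : 0 < ε := by positivity
  have hεs : ε < s := by
    rw [hε, div_lt_iff₀ hR0]
    have h1 : c / s < R := by linarith
    rw [div_lt_iff₀ hs0] at h1
    linarith
  have hεR : ε * R = c := by rw [hε]; field_simp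
  have h0 : ε < r0 := hεs.trans_le (min_le_left _ _)
  have h1 : ε < e1 := hεs.trans_le ((min_le_right _ _).trans (min_le_left _ _))
  have h2 : ε < e2 := hεs.trans_le ((min_le_right _ _).trans ((min_le_right _ _).trans
    (min_le_left _ _)))
  have h3 : ε < r1 := hεs.trans_le ((min_le_right _ _).trans ((min_le_right _ _).trans
    ((min_le_right _ _).trans (min_le_left _ _))))
  have h4 : ε < η / (3 * A) := hεs.trans_le ((min_le_right _ _).trans ((min_le_right _ _).trans
    ((min_le_right _ _).trans (min_le_right _ _))))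
  -- the number of steps
  set m : ℕ := ⌊4 * (R - D) / ε⌋₊ with hm
  have hRD0 : 0 ≤ 4 * (R - D) / ε := by
    have : 0 ≤ R - D := by linarith
    positivity
  have hm1 : (m : ℝ) ≤ 4 * (R - D) / ε := Nat.floor_le hRD0
  have hm2 : 4 * (R - D) / ε < m + 1 := Nat.lt_floor_add_one _
  have hm3 : m * (ε / 4) + D ≤ R := by
    rw [le_div_iff₀ hε0] at hm1
    linarith
  have hRε1 : 1 ≤ R / ε := by
    rw [le_div_iff₀ hε0, one_mul]
    have : ε ≤ c := by
      rw [hε]
      exact div_le_self hc0.le hR1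
    linarith
  have hm4 : R / ε ≤ m := by
    have h5 : 2 * (R / ε) ≤ 4 * (R - D) / ε := by
      rw [← mul_div_assoc]
      exact div_le_div_of_nonneg_right (by linarith) hε0.le
    linarith
  have hRε0 : 0 < R / ε := by positivity
  have hm0 : (0 : ℝ) < m := hRε0.trans_le hm4
  have hKm : K ≤ m := by
    have h5 : (K : ℝ) ≤ R / ε := by
      rw [le_div_iff₀ hε0]
      have h6 : K * c ≤ R * R := by nlinarith
      have h7 : K * ε * R = K * c := by rw [← hεR]; ring
      nlinarith
    exact_mod_cast h5.trans hm4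
  refine ⟨ε, hε0, h0, ?_⟩
  have hmain := hM F hF hHg ε hε0 h1 K m hK hKm
  have hmassε := hmass ε hε0 h3
  have hMe := Me_nonneg v F ε
  -- first term
  have hfirst : C6 * ((K : ℝ) / m * Me v F ε) ≤ η / 3 := by
    have h5 : (K : ℝ) / m ≤ K * ε / R := by
      rw [div_le_div_iff₀ hm0 hR0]
      have h6 : R ≤ m * ε := (div_le_iff₀ hε0).1 hm4
      nlinarith
    have h6 : Me v F ε ≤ η1 / ε ^ 2 := by
      rw [le_div_iff₀ (by positivity)]
      linarith
    have h7 : (K : ℝ) / m * Me v F ε ≤ K * ε / R * (η1 / ε ^ 2) :=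
      mul_le_mul h5 h6 hMe (by positivity)
    have h8 : C6 * (K * ε / R * (η1 / ε ^ 2)) = η / 3 := by
      rw [hη1, ← hεR]
      field_simp
    exact (mul_le_mul_of_nonneg_left h7 hC6.le).trans h8.le
  -- second term
  have hsecond : C6 * ((ε ^ 2)⁻¹ * ∑ k, (volume (Bad v C ε K m k)).toReal) ≤ 2 * (η / 3) := by
    have hS : ∀ k : Fin n, (volume (Bad v C ε K m k)).toReal ≤ C7 * ε ^ 3 * (1 + |Cq| * R) := by
      intro k
      refine hB ε hε0 h2 m k (|Cq| * R) (by positivity) fun T hTm => ?_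
      refine (hT k T fun z hz => ⟨(hTm z hz).1, (hTm z hz).2.trans hm3⟩).trans ?_
      exact mul_le_mul_of_nonneg_right (le_abs_self _) hR0.le
    have h5 : ∑ k, (volume (Bad v C ε K m k)).toReal ≤ n * (C7 * ε ^ 3 * (1 + |Cq| * R)) := by
      refine (Finset.sum_le_sum fun k _ => hS k).trans ?_
      rw [Finset.sum_const, Finset.card_univ, Fintype.card_fin, nsmul_eq_mul]
    have h6 : C6 * ((ε ^ 2)⁻¹ * (n * (C7 * ε ^ 3 * (1 + |Cq| * R)))) =
        A * ε + A * (|Cq| * c) := by
      rw [← hεR, hA]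
      field_simp
    have h7 : A * ε ≤ η / 3 := by
      rw [lt_div_iff₀ (by positivity)] at h4
      linarith
    calc C6 * ((ε ^ 2)⁻¹ * ∑ k, (volume (Bad v C ε K m k)).toReal)
        ≤ C6 * ((ε ^ 2)⁻¹ * (n * (C7 * ε ^ 3 * (1 + |Cq| * R)))) := by
          refine mul_le_mul_of_nonneg_left (mul_le_mul_of_nonneg_left h5 (by positivity)) hC6.le
      _ = A * ε + A * (|Cq| * c) := h6
      _ ≤ 2 * (η / 3) := by linarith
  calc GE v F C ε ≤ _ := hmain
    _ = C6 * ((K : ℝ) / m * Me v F ε) +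
        C6 * ((ε ^ 2)⁻¹ * ∑ k, (volume (Bad v C ε K m k)).toReal) := by ring
    _ ≤ η / 3 + 2 * (η / 3) := add_le_add hfirst hsecond
    _ = η := by ring

end Pool.Agent.Lib.BilE.Small73
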