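import Mathlib

/-!
# A square function estimate for convolutions with mean zero kernels at dyadic scales
-/

set_option autoImplicit false

namespace Pool.Agent.Lib.BilE.Sq42

open MeasureTheory Set Filter Topology

/-- Bounded measurable functions with bounded support. -/
structure BC (u : ℂ → ℝ) : Prop where
  meas : Measurable u
  bd : ∃ b : ℝ, 0 ≤ b ∧ ∀ z, |u z| ≤ b
  supp : ∃ R : ℝ, 0 ≤ R ∧ ∀ z, u z ≠ 0 → ‖z‖ ≤ R

theorem BC.integrable {u : ℂ → ℝ} (hu : BC u) : Integrable u := by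
  obtain ⟨b, hb0, hb⟩ := hu.bd
  obtain ⟨R, hR0, hR⟩ := hu.supp
  have h1 : u = (Metric.closedBall (0 : ℂ) R).indicator u := by
    symm
    rw [indicator_eq_self]
    intro z hz
    rw [mem_closedBall_zero_iff]
    exact hR z hz
  rw [h1, integrable_indicator_iff Metric.isClosed_closedBall.measurableSet]
  have h2 : IntegrableOn (fun _ : ℂ => b) (Metric.closedBall (0 : ℂ) R) :=
    integrableOn_const measure_closedBall_lt_top.ne
  exact h2.mono' hu.meas.aestronglyMeasurable (Eventually.of_forall (fun z => by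
    rw [Real.norm_eq_abs]; exact hb z))

theorem BC.mul {u f : ℂ → ℝ} (hu : BC u) (hf : Measurable f) (hb : ∃ b : ℝ, 0 ≤ b ∧ ∀ z, |f z| ≤ b) :
    BC (fun z => u z * f z) := by
  obtain ⟨b, hb0, hb⟩ := hu.bd
  obtain ⟨R, hR0, hR⟩ := hu.supp
  obtain ⟨c, hc0, hc⟩ := ‹∃ b : ℝ, 0 ≤ b ∧ ∀ z, |f z| ≤ b›
  refine ⟨hu.meas.mul hf, ⟨b * c, by positivity, fun z => ?_⟩, R, hR0, fun z hz => ?_⟩
  · rw [abs_mul]
    exact mul_le_mul (hb z) (hc z) (abs_nonneg _) hb0
  · exact hR z (left_ne_zero_of_mul hz)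

theorem BC.mul' {u f : ℂ → ℝ} (hu : BC u) (hf : BC f) : BC (fun z => u z * f z) :=
  hu.mul hf.meas hf.bd

theorem BC.sq {u : ℂ → ℝ} (hu : BC u) : BC (fun z => u z ^ 2) := by
  have h := hu.mul' hu
  simpa only [pow_two] using h

theorem BC.neg_arg {u : ℂ → ℝ} (hu : BC u) : BC (fun z => u (-z)) := by
  obtain ⟨b, hb0, hb⟩ := hu.bd
  obtain ⟨R, hR0, hR⟩ := hu.supp
  refine ⟨hu.meas.comp measurable_neg, ⟨b, hb0, fun z => hb _⟩, R, hR0, fun z hz => ?_⟩
  have := hR (-z) hz
  rwa [norm_neg] at this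

theorem BC.abs {u : ℂ → ℝ} (hu : BC u) : BC (fun z => |u z|) := by
  obtain ⟨b, hb0, hb⟩ := hu.bd
  obtain ⟨R, hR0, hR⟩ := hu.supp
  refine ⟨hu.meas.abs, ⟨b, hb0, fun z => by rw [abs_abs]; exact hb z⟩, R, hR0, fun z hz => ?_⟩
  exact hR z (fun h => hz (by simp [h]))

theorem BC.zero : BC (fun _ => 0) :=
  ⟨measurable_const, ⟨0, le_rfl, fun z => by simp⟩, 0, le_rfl, fun z hz => absurd rfl hz⟩

theorem BC.add {u f : ℂ → ℝ} (hu : BC u) (hf : BC f) : BC (fun z => u z + f z) := by
  obtain ⟨b, hb0, hb⟩ := hu.bd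
  obtain ⟨R, hR0, hR⟩ := hu.supp
  obtain ⟨c, hc0, hc⟩ := hf.bd
  obtain ⟨Q, hQ0, hQ⟩ := hf.supp
  refine ⟨hu.meas.add hf.meas, ⟨b + c, by positivity, fun z => ?_⟩, R + Q, by positivity,
    fun z hz => ?_⟩
  · exact (abs_add_le _ _).trans (add_le_add (hb z) (hc z))
  · by_cases h : u z = 0
    · have : f z ≠ 0 := fun h' => hz (by rw [h, h', add_zero])
      linarith [hQ z this]
    · linarith [hR z h]

theorem BC.sum {ι : Type*} (s : Finset ι) {u : ι → ℂ → ℝ} (hu : ∀ i ∈ s, BC (u i)) :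
    BC (fun z => ∑ i ∈ s, u i z) := by
  classical
  induction s using Finset.induction_on with
  | empty => simpa using BC.zero
  | insert a s ha ih =>
    have h1 := ih (fun i hi => hu i (Finset.mem_insert_of_mem hi))
    have h2 := hu a (Finset.mem_insert_self a s)
    have := h2.add h1
    simpa only [Finset.sum_insert ha] using this

/-- Joint integrability of `u(x) f(y)` times a bounded measurable function. -/
theorem int_prod {u f : ℂ → ℝ} (hu : BC u) (hf : BC f) {k : ℂ × ℂ → ℝ} (hk : Measurable k)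
    {c : ℝ} (hc : ∀ p, |k p| ≤ c) :
    Integrable (fun p : ℂ × ℂ => u p.1 * f p.2 * k p) (volume.prod volume) := by
  refine (hu.integrable.mul_prod hf.integrable).mul_bdd (c := c) hk.aestronglyMeasurable
    (Eventually.of_forall (fun p => ?_))
  rw [Real.norm_eq_abs]
  exact hc p

/-- Convolution. -/
noncomputable def cv (φ u : ℂ → ℝ) (x : ℂ) : ℝ := ∫ y, u y * φ (x - y)

theorem BC.cv {φ u : ℂ → ℝ} (hφ : BC φ) (hu : BC u) : BC (cv φ u) := by
  obtain ⟨b, hb0, hb⟩ := hφ.bd
  obtain ⟨R, hR0, hR⟩ := hφ.supp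
  obtain ⟨Q, hQ0, hQ⟩ := hu.supp
  refine ⟨?_, ⟨b * ∫ y, |u y|, by positivity, fun x => ?_⟩, R + Q, by positivity, fun x hx => ?_⟩
  · have h1 : Measurable (fun p : ℂ × ℂ => u p.2 * φ (p.1 - p.2)) :=
      (hu.meas.comp measurable_snd).mul (hφ.meas.comp (measurable_fst.sub measurable_snd))
    exact (h1.stronglyMeasurable.integral_prod_right (ν := volume)).measurable
  · unfold Sq42.cv
    rw [← integral_const_mul]
    refine (abs_integral_le_integral_abs).trans ?_
    refine integral_mono (hu.mul (hφ.meas.comp (measurable_const.sub measurable_id))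
      ⟨b, hb0, fun z => hb _⟩).abs.integrable (hu.abs.integrable.const_mul b) (fun y => ?_)
    show |u y * φ (x - y)| ≤ b * |u y|
    rw [abs_mul, mul_comm]
    exact mul_le_mul_of_nonneg_right (hb _) (abs_nonneg _)
  · by_contra hc
    apply hx
    unfold Sq42.cv
    apply integral_eq_zero_of_ae
    refine Eventually.of_forall (fun y => ?_)
    show u y * φ (x - y) = 0
    by_cases h : u y = 0
    · rw [h, zero_mul]
    · have h1 := hQ y h
      have h2 : φ (x - y) = 0 := by
        by_contra h3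
        have h4 := hR _ h3
        have h5 : ‖x‖ ≤ ‖x - y‖ + ‖y‖ := by
          have := norm_add_le (x - y) y
          rwa [sub_add_cancel] at this
        linarith
      rw [h2, mul_zero]

/-- Adjoint. -/
theorem adj {φ u a : ℂ → ℝ} (hφ : BC φ) (hu : BC u) (ha : BC a) :
    ∫ x, a x * cv φ u x = ∫ y, u y * cv (fun z => φ (-z)) a y := by
  obtain ⟨b, hb0, hb⟩ := hφ.bd
  unfold cv
  have e1 : ∀ x, a x * ∫ y, u y * φ (x - y) = ∫ y, a x * u y * φ (x - y) := by
    intro x
    rw [← integral_const_mul]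
    congr 1; funext y; ring
  have e2 : ∀ y, u y * ∫ x, a x * φ (-(y - x)) = ∫ x, a x * u y * φ (x - y) := by
    intro y
    rw [← integral_const_mul]
    congr 1; funext x; rw [neg_sub]; ring
  simp_rw [e1, e2]
  refine integral_integral_swap ?_
  have hm : Measurable (fun p : ℂ × ℂ => φ (p.1 - p.2)) :=
    hφ.meas.comp (measurable_fst.sub measurable_snd)
  exact int_prod ha hu hm (fun p => hb _)

/-- Associativity. -/
theorem assoc {φ ψ u : ℂ → ℝ} (hφ : BC φ) (hψ : BC ψ) (hu : BC u) (z : ℂ) :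
    cv φ (cv ψ u) z = cv (cv φ ψ) u z := by
  obtain ⟨b, hb0, hb⟩ := hψ.bd
  have e0 : ∀ x, cv φ ψ (z - x) = ∫ y, ψ (y - x) * φ (z - y) := by
    intro x
    unfold cv
    rw [← integral_sub_right_eq_self (fun y => ψ y * φ (z - x - y)) x]
    congr 1; funext y
    rw [show z - x - (y - x) = z - y by ring]
  have e1 : cv (cv φ ψ) u z = ∫ x, ∫ y, u x * ψ (y - x) * φ (z - y) := by
    show ∫ x, u x * cv φ ψ (z - x) = _
    congr 1; funext x
    rw [e0, ← integral_const_mul]
    congr 1; funext y; ring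
  have e2 : cv φ (cv ψ u) z = ∫ y, ∫ x, u x * ψ (y - x) * φ (z - y) := by
    show ∫ y, (∫ x, u x * ψ (y - x)) * φ (z - y) = _
    congr 1; funext y
    rw [← integral_mul_const]
  rw [e1, e2]
  refine integral_integral_swap ?_
  have hf : BC (fun y => φ (z - y)) := by
    obtain ⟨c, hc0, hc⟩ := hφ.bd
    obtain ⟨R, hR0, hR⟩ := hφ.supp
    refine ⟨hφ.meas.comp (measurable_const.sub measurable_id), ⟨c, hc0, fun y => hc _⟩,
      R + ‖z‖, by positivity, fun y hy => ?_⟩
    have h1 := hR _ hy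
    have h2 : ‖y‖ ≤ ‖z - y‖ + ‖z‖ := by
      have := norm_sub_le z (z - y)
      rw [sub_sub_cancel] at this
      linarith
    linarith
  have hm : Measurable (fun p : ℂ × ℂ => ψ (p.1 - p.2)) :=
    hψ.meas.comp (measurable_fst.sub measurable_snd)
  have h := int_prod hf hu hm (fun p => hb _)
  refine h.congr (Eventually.of_forall (fun p => ?_))
  show φ (z - p.1) * u p.2 * ψ (p.1 - p.2) = u p.2 * ψ (p.1 - p.2) * φ (z - p.1)
  ring

/-- Schur's test. -/
theorem schur {κ u a : ℂ → ℝ} (hκ : BC κ) (hu : BC u) (ha : BC a) {c : ℝ}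
    (hc : ∫ t, |κ t| ≤ c) :
    ∫ z, a z * cv κ u z ≤ c / 2 * ((∫ z, a z ^ 2) + ∫ z, u z ^ 2) := by
  obtain ⟨b, hb0, hb⟩ := hκ.bd
  have hk : BC (fun t => |κ t|) := hκ.abs
  have hkneg : BC (fun t => |κ (-t)|) := hκ.neg_arg.abs
  have i1 : ∀ z, ∫ x, |κ (z - x)| = ∫ t, |κ t| := fun z =>
    integral_sub_left_eq_self (fun t => |κ t|) volume z
  have m1 : Measurable (fun p : ℂ × ℂ => |κ (p.1 - p.2)|) :=
    (hκ.meas.comp (measurable_fst.sub measurable_snd)).abs
  -- bound of the inner integral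
  have hin : ∀ z, a z * cv κ u z ≤ 2⁻¹ * (a z ^ 2 * ∫ t, |κ t|) + 2⁻¹ * cv (fun t => |κ t|) (fun x => u x ^ 2) z := by
    intro z
    have hs : BC (fun x => u x ^ 2) := hu.sq
    have g1 : Integrable (fun x => u x ^ 2 * |κ (z - x)|) :=
      (hs.mul (hκ.meas.comp (measurable_const.sub measurable_id)).abs
        ⟨b, hb0, fun x => by rw [abs_abs]; exact hb _⟩).integrable
    have g2 : Integrable (fun x => a z ^ 2 * |κ (z - x)|) := by
      have h3 : Integrable (fun x => |κ (z - x)|) := by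
        have := (hk.integrable.comp_sub_left z)
        exact this
      exact h3.const_mul _
    have e1 : a z * cv κ u z = ∫ x, a z * (u x * κ (z - x)) := by
      unfold cv; rw [integral_const_mul]
    have e2 : 2⁻¹ * (a z ^ 2 * ∫ t, |κ t|) + 2⁻¹ * cv (fun t => |κ t|) (fun x => u x ^ 2) z =
        ∫ x, (2⁻¹ * (a z ^ 2 * |κ (z - x)|) + 2⁻¹ * (u x ^ 2 * |κ (z - x)|)) := by
      rw [integral_add (g2.const_mul _) (g1.const_mul _), integral_const_mul, integral_const_mul,
        integral_const_mul, i1]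
      rfl
    rw [e1, e2]
    refine integral_mono ?_ ((g2.const_mul _).add (g1.const_mul _)) (fun x => ?_)
    · exact ((hu.mul (hκ.meas.comp (measurable_const.sub measurable_id))
        ⟨b, hb0, fun x => hb _⟩).integrable.const_mul (a z))
    · show a z * (u x * κ (z - x)) ≤ 2⁻¹ * (a z ^ 2 * |κ (z - x)|) + 2⁻¹ * (u x ^ 2 * |κ (z - x)|)
      have h4 : a z * (u x * κ (z - x)) ≤ |a z| * |u x| * |κ (z - x)| := by
        rw [← mul_assoc, ← abs_mul, ← abs_mul]
        exact le_abs_self _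
      have h5 : |a z| * |u x| ≤ 2⁻¹ * a z ^ 2 + 2⁻¹ * u x ^ 2 := by
        nlinarith [sq_abs (a z), sq_abs (u x), sq_nonneg (|a z| - |u x|)]
      have h6 := mul_le_mul_of_nonneg_right h5 (abs_nonneg (κ (z - x)))
      linarith
  -- integration
  have hint1 : Integrable (fun z => a z * cv κ u z) := (ha.mul' (hκ.cv hu)).integrable
  have hint2 : Integrable (fun z => cv (fun t => |κ t|) (fun x => u x ^ 2) z) :=
    (hk.cv hu.sq).integrable
  have h1 : ∫ z, a z * cv κ u z ≤ ∫ z, (2⁻¹ * (a z ^ 2 * ∫ t, |κ t|) +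
      2⁻¹ * cv (fun t => |κ t|) (fun x => u x ^ 2) z) :=
    integral_mono hint1 (((ha.sq.integrable.mul_const _).const_mul _).add (hint2.const_mul _)) hin
  have h2 : ∫ z, cv (fun t => |κ t|) (fun x => u x ^ 2) z = (∫ x, u x ^ 2) * ∫ t, |κ t| := by
    unfold cv
    rw [integral_integral_swap]
    · have : ∀ x, ∫ z, u x ^ 2 * |κ (z - x)| = u x ^ 2 * ∫ t, |κ t| := by
        intro x
        rw [integral_const_mul, integral_sub_right_eq_self (fun t => |κ t|) x]
      simp_rw [this]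
      rw [integral_mul_const]
    · -- integrability of (z, x) ↦ u(x)^2 |κ(z-x)|
      obtain ⟨R, hR0, hR⟩ := hκ.supp
      obtain ⟨Q, hQ0, hQ⟩ := hu.supp
      have hone : BC ((Metric.closedBall (0 : ℂ) (R + Q)).indicator (fun _ => (1 : ℝ))) := by
        refine ⟨measurable_const.indicator Metric.isClosed_closedBall.measurableSet,
          ⟨1, zero_le_one, fun z => ?_⟩, R + Q, by positivity, fun z hz => ?_⟩
        · by_cases h : z ∈ Metric.closedBall (0 : ℂ) (R + Q)
          · rw [indicator_of_mem h]; simp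
          · rw [indicator_of_notMem h]; simp
        · have := mem_of_indicator_ne_zero hz
          rwa [mem_closedBall_zero_iff] at this
      have h := int_prod hone hu.sq m1 (c := b) (fun p => by rw [abs_abs]; exact hb _)
      refine h.congr (Eventually.of_forall (fun p => ?_))
      show (Metric.closedBall (0 : ℂ) (R + Q)).indicator (fun _ => (1 : ℝ)) p.1 * u p.2 ^ 2 *
        |κ (p.1 - p.2)| = u p.2 ^ 2 * |κ (p.1 - p.2)|
      by_cases h1 : u p.2 = 0
      · rw [h1]; simp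
      · by_cases h2 : κ (p.1 - p.2) = 0
        · rw [h2]; simp
        · have h3 := hR _ h2
          have h4 := hQ _ h1
          have h5 : ‖p.1‖ ≤ ‖p.1 - p.2‖ + ‖p.2‖ := by
            have := norm_add_le (p.1 - p.2) p.2
            rwa [sub_add_cancel] at this
          rw [indicator_of_mem (by rw [mem_closedBall_zero_iff]; linarith), one_mul]
  rw [integral_add ((ha.sq.integrable.mul_const _).const_mul _) (hint2.const_mul _),
    integral_const_mul, integral_const_mul, integral_mul_const, h2] at h1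
  have ha2 : 0 ≤ ∫ z, a z ^ 2 := integral_nonneg (fun z => sq_nonneg _)
  have hu2 : 0 ≤ ∫ z, u z ^ 2 := integral_nonneg (fun z => sq_nonneg _)
  have h3 : (∫ z, a z ^ 2) * ∫ t, |κ t| ≤ (∫ z, a z ^ 2) * c := mul_le_mul_of_nonneg_left hc ha2
  have h4 : (∫ z, u z ^ 2) * ∫ t, |κ t| ≤ (∫ z, u z ^ 2) * c := mul_le_mul_of_nonneg_left hc hu2
  linarith

/-- The abstract square function estimate. -/
theorem square {N : ℕ} {φ : ℕ → ℂ → ℝ} (hφ : ∀ i, BC (φ i)) {g : ℂ → ℝ} (hg : BC g)
    {c : ℕ → ℕ → ℝ} {K : ℝ} (hK : 0 < K)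
    (hc : ∀ i j, ∫ t, |cv (φ i) (fun z => φ j (-z)) t| ≤ c i j)
    (hsym : ∀ i j, c i j = c j i)
    (hsum : ∀ i, ∑ j ∈ Finset.range N, c i j ≤ K) :
    ∑ i ∈ Finset.range N, ∫ x, cv (φ i) g x ^ 2 ≤ K * ∫ x, g x ^ 2 := by
  set u : ℕ → ℂ → ℝ := fun i => cv (φ i) g with hu
  have hub : ∀ i, BC (u i) := fun i => (hφ i).cv hg
  set ψ : ℕ → ℂ → ℝ := fun i z => φ i (-z) with hψ
  have hψb : ∀ i, BC (ψ i) := fun i => (hφ i).neg_arg
  set V : ℂ → ℝ := fun z => ∑ i ∈ Finset.range N, cv (ψ i) (u i) z with hV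
  have hVb : BC V := BC.sum _ (fun i _ => (hψb i).cv (hub i))
  set S : ℝ := ∑ i ∈ Finset.range N, ∫ x, u i x ^ 2 with hS
  -- first step
  have h1 : S = ∫ x, g x * V x := by
    have e : ∀ x, g x * V x = ∑ i ∈ Finset.range N, g x * cv (ψ i) (u i) x := by
      intro x
      rw [hV, Finset.mul_sum]
    simp_rw [e]
    rw [integral_finsetSum _ (fun i _ => (hg.mul' ((hψb i).cv (hub i))).integrable), hS]
    refine Finset.sum_congr rfl (fun i _ => ?_)
    rw [← adj (hφ i) hg (hub i)]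
    refine integral_congr_ae (Eventually.of_forall (fun x => ?_))
    show u i x ^ 2 = u i x * cv (φ i) g x
    rw [sq]
  -- second step
  have h2 : ∫ x, g x * V x ≤ K / 2 * (∫ x, g x ^ 2) + (1 / (2 * K)) * ∫ x, V x ^ 2 := by
    rw [← integral_const_mul, ← integral_const_mul,
      ← integral_add (hg.sq.integrable.const_mul _) (hVb.sq.integrable.const_mul _)]
    refine integral_mono (hg.mul' hVb).integrable
      ((hg.sq.integrable.const_mul _).add (hVb.sq.integrable.const_mul _)) (fun x => ?_)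
    show g x * V x ≤ K / 2 * g x ^ 2 + 1 / (2 * K) * V x ^ 2
    have h3 : K / 2 * g x ^ 2 + 1 / (2 * K) * V x ^ 2 - g x * V x =
        (1 / (2 * K)) * (K * g x - V x) ^ 2 := by
      field_simp
      ring
    have h4 : 0 ≤ (1 / (2 * K)) * (K * g x - V x) ^ 2 := by positivity
    linarith
  -- third step
  have h3 : ∫ x, V x ^ 2 ≤ K * S := by
    have e : ∀ x, V x ^ 2 = ∑ i ∈ Finset.range N, ∑ j ∈ Finset.range N,
        cv (ψ i) (u i) x * cv (ψ j) (u j) x := by
      intro x
      rw [sq, hV]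
      exact Finset.sum_mul_sum _ _ _ _
    simp_rw [e]
    rw [integral_finsetSum _ (fun i _ => integrable_finsetSum _ (fun j _ =>
      (((hψb i).cv (hub i)).mul' ((hψb j).cv (hub j))).integrable))]
    have hij : ∀ i j, ∫ x, cv (ψ i) (u i) x * cv (ψ j) (u j) x ≤
        c i j / 2 * ((∫ x, u i x ^ 2) + ∫ x, u j x ^ 2) := by
      intro i j
      have e1 : ∫ x, cv (ψ i) (u i) x * cv (ψ j) (u j) x =
          ∫ x, cv (ψ j) (u j) x * cv (ψ i) (u i) x := by
        congr 1; funext x; ring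
      have e2 : (fun z => ψ i (-z)) = φ i := by
        funext z
        simp [hψ]
      have e3 : cv (φ i) (cv (ψ j) (u j)) = cv (cv (φ i) (ψ j)) (u j) :=
        funext (assoc (hφ i) (hψb j) (hub j))
      rw [e1, adj (hψb i) (hub i) ((hψb j).cv (hub j)), e2, e3]
      exact schur ((hφ i).cv (hψb j)) (hub j) (hub i) (hc i j)
    calc ∑ i ∈ Finset.range N, ∫ x, ∑ j ∈ Finset.range N, cv (ψ i) (u i) x * cv (ψ j) (u j) x
        = ∑ i ∈ Finset.range N, ∑ j ∈ Finset.range N,
            ∫ x, cv (ψ i) (u i) x * cv (ψ j) (u j) x := by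
          refine Finset.sum_congr rfl (fun i _ => ?_)
          exact integral_finsetSum _ (fun j _ =>
            (((hψb i).cv (hub i)).mul' ((hψb j).cv (hub j))).integrable)
      _ ≤ ∑ i ∈ Finset.range N, ∑ j ∈ Finset.range N,
            c i j / 2 * ((∫ x, u i x ^ 2) + ∫ x, u j x ^ 2) :=
          Finset.sum_le_sum (fun i _ => Finset.sum_le_sum (fun j _ => hij i j))
      _ = ∑ i ∈ Finset.range N, (∑ j ∈ Finset.range N, c i j) * ∫ x, u i x ^ 2 := by
          have s1 : ∑ i ∈ Finset.range N, ∑ j ∈ Finset.range N, c i j / 2 * ∫ x, u j x ^ 2 =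
              ∑ i ∈ Finset.range N, ∑ j ∈ Finset.range N, c i j / 2 * ∫ x, u i x ^ 2 := by
            rw [Finset.sum_comm]
            refine Finset.sum_congr rfl (fun i _ => Finset.sum_congr rfl (fun j _ => ?_))
            rw [hsym]
          simp_rw [mul_add, Finset.sum_add_distrib]
          rw [s1, ← Finset.sum_add_distrib]
          refine Finset.sum_congr rfl (fun i _ => ?_)
          rw [← Finset.sum_add_distrib, Finset.sum_mul]
          refine Finset.sum_congr rfl (fun j _ => ?_)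
          ring
      _ ≤ ∑ i ∈ Finset.range N, K * ∫ x, u i x ^ 2 := by
          refine Finset.sum_le_sum (fun i _ => ?_)
          exact mul_le_mul_of_nonneg_right (hsum i) (integral_nonneg (fun x => sq_nonneg _))
      _ = K * S := by rw [hS, Finset.mul_sum]
  have h4 : (1 / (2 * K)) * ∫ x, V x ^ 2 ≤ S / 2 := by
    have h5 := mul_le_mul_of_nonneg_left h3 (by positivity : (0 : ℝ) ≤ 1 / (2 * K))
    have h6 : 1 / (2 * K) * (K * S) = S / 2 := by field_simp
    linarith
  have h7 : S ≤ K / 2 * (∫ x, g x ^ 2) + S / 2 := by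
    calc S = ∫ x, g x * V x := h1
      _ ≤ _ := h2
      _ ≤ _ := by linarith
  linarith

end Pool.Agent.Lib.BilE.Sq42
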