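import Pool.Agent.Lib.MP_7bc51d_an_erg.SqA42
import Pool.Agent.Lib.MP_7bc51d_an_erg.Mass12
import Pool.Agent.Lib.MP_7bc51d_an_erg.HB85

/-!
# Row MASSP: the gradient energies at the dyadic scales are summable
-/

set_option autoImplicit false

namespace Pool.Agent.Lib.BilE.Sq42

open Complex MeasureTheory Set Filter Topology
open scoped ComplexConjugate
open Pool.Agent.Lib.Bil Pool.Agent.Lib.BilD Pool.Agent.Lib.BilE

/-- Mean zero kernels of radius `r`. -/
structure Kr (φ : ℂ → ℝ) (r B : ℝ) : Prop where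
  cont : Continuous φ
  supp : ∀ z, φ z ≠ 0 → ‖z‖ < r
  bd : ∀ z, |φ z| ≤ B / r ^ 2
  int0 : ∫ z, φ z = 0
  lip : ∀ z z', |φ z - φ z'| ≤ B / r ^ 3 * ‖z - z'‖

theorem Kr.bc {φ : ℂ → ℝ} {r B : ℝ} (hr : 0 < r) (hB : 0 ≤ B) (h : Kr φ r B) : BC φ :=
  ⟨h.cont.measurable, ⟨B / r ^ 2, by positivity, h.bd⟩, r, hr.le, fun z hz => (h.supp z hz).le⟩

theorem Kr.neg {φ : ℂ → ℝ} {r B : ℝ} (h : Kr φ r B) : Kr (fun z => φ (-z)) r B := by
  refine ⟨h.cont.comp continuous_neg, fun z hz => ?_, fun z => h.bd _, ?_, fun z z' => ?_⟩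
  · have := h.supp _ hz
    rwa [norm_neg] at this
  · rw [integral_neg_eq_self (fun z => φ z)]
    exact h.int0
  · have := h.lip (-z) (-z')
    rwa [show -z - -z' = -(z - z') by ring, norm_neg] at this

theorem vol_ball_real {x : ℂ} {s : ℝ} (hs : 0 ≤ s) :
    (volume : Measure ℂ).real (Metric.closedBall x s) = Real.pi * s ^ 2 := by
  rw [Measure.real, Complex.volume_closedBall, ENNReal.toReal_mul, ENNReal.toReal_pow,
    ENNReal.toReal_ofReal hs, mul_comm]
  rfl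

theorem int_abs_le {κ : ℂ → ℝ} (hκ : BC κ) {a ρ : ℝ} (hρ : 0 ≤ ρ) (ha : ∀ t, |κ t| ≤ a)
    (hs : ∀ t, κ t ≠ 0 → ‖t‖ ≤ ρ) : ∫ t, |κ t| ≤ a * (Real.pi * ρ ^ 2) := by
  have h1 : ∫ t, |κ t| = ∫ t in Metric.closedBall (0 : ℂ) ρ, |κ t| := by
    symm
    apply setIntegral_eq_integral_of_forall_compl_eq_zero
    intro t ht
    rw [mem_closedBall_zero_iff] at ht
    by_contra hc
    exact ht (hs t (fun h => hc (by rw [h, abs_zero])))
  rw [h1]
  have hi : IntegrableOn (fun _ : ℂ => a) (Metric.closedBall (0 : ℂ) ρ) :=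
    integrableOn_const measure_closedBall_lt_top.ne
  refine (integral_mono hκ.abs.integrable.integrableOn hi ha).trans ?_
  rw [setIntegral_const, vol_ball_real hρ, smul_eq_mul, mul_comm]

theorem cv_comm (φ ψ : ℂ → ℝ) (t : ℂ) : cv φ ψ t = cv ψ φ t := by
  unfold cv
  rw [← integral_sub_left_eq_self (fun y => φ y * ψ (t - y)) volume t]
  congr 1; funext y
  rw [sub_sub_cancel]; ring

theorem kb1 {φ ψ : ℂ → ℝ} {r s B : ℝ} (hr : 0 < r) (hs : 0 < s) (hB : 0 ≤ B) (hφ : Kr φ r B)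
    (hψ : Kr ψ s B) (t : ℂ) : |cv φ ψ t| ≤ Real.pi * B ^ 2 * s / r ^ 3 := by
  have hφb := hφ.bc hr hB
  have hψb := hψ.bc hs hB
  have e : cv φ ψ t = ∫ y, ψ y * (φ (t - y) - φ t) := by
    unfold cv
    have h1 : ∀ y, ψ y * (φ (t - y) - φ t) = ψ y * φ (t - y) - ψ y * φ t := fun y => by ring
    simp_rw [h1]
    rw [integral_sub, integral_mul_const, hψ.int0, zero_mul, sub_zero]
    · exact (hψb.mul (hφb.meas.comp (measurable_const.sub measurable_id))
        ⟨B / r ^ 2, by positivity, fun y => hφ.bd _⟩).integrable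
    · exact hψb.integrable.mul_const _
  have hk : BC (fun y => ψ y * (φ (t - y) - φ t)) := by
    refine hψb.mul ((hφb.meas.comp (measurable_const.sub measurable_id)).sub measurable_const)
      ⟨B / r ^ 2 + B / r ^ 2, by positivity, fun y => ?_⟩
    exact (abs_sub _ _).trans (add_le_add (hφ.bd _) (hφ.bd _))
  rw [e]
  refine (abs_integral_le_integral_abs).trans ?_
  have h2 := int_abs_le hk (a := B / s ^ 2 * (B / r ^ 3 * s)) hs.le (fun y => by
    rw [abs_mul]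
    by_cases h : ψ y = 0
    · rw [h, abs_zero, zero_mul]
      positivity
    · have h3 := hψ.supp y h
      have h4 := hφ.lip (t - y) t
      rw [show t - y - t = -y by ring, norm_neg] at h4
      refine mul_le_mul (hψ.bd y) (h4.trans ?_) (abs_nonneg _) (by positivity)
      exact mul_le_mul_of_nonneg_left h3.le (by positivity)) (fun y hy => by
    exact (hψ.supp y (left_ne_zero_of_mul hy)).le)
  refine h2.trans (le_of_eq ?_)
  field_simp

theorem kb_supp {φ ψ : ℂ → ℝ} {r s B : ℝ} (hφ : Kr φ r B)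
    (hψ : Kr ψ s B) {t : ℂ} (ht : cv φ ψ t ≠ 0) : ‖t‖ ≤ r + s := by
  by_contra hc
  push Not at hc
  apply ht
  unfold cv
  apply integral_eq_zero_of_ae
  refine Eventually.of_forall (fun y => ?_)
  show ψ y * φ (t - y) = 0
  by_contra h
  have h1 := hψ.supp y (left_ne_zero_of_mul h)
  have h2 := hφ.supp _ (right_ne_zero_of_mul h)
  have h3 : ‖t‖ ≤ ‖t - y‖ + ‖y‖ := by
    have := norm_add_le (t - y) y
    rwa [sub_add_cancel] at this
  linarith

theorem kb2 {φ ψ : ℂ → ℝ} {r s B : ℝ} (hr : 0 < r) (hs : 0 < s) (hsr : s ≤ r) (hB : 0 ≤ B)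
    (hφ : Kr φ r B) (hψ : Kr ψ s B) :
    ∫ t, |cv φ ψ t| ≤ 4 * Real.pi ^ 2 * B ^ 2 * (s / r) := by
  have h := int_abs_le ((hφ.bc hr hB).cv (hψ.bc hs hB)) (ρ := 2 * r) (by positivity)
    (kb1 hr hs hB hφ hψ) (fun t ht => (kb_supp hφ hψ ht).trans (by linarith))
  refine h.trans (le_of_eq ?_)
  field_simp
  ring

/-- dyadic scales -/
noncomputable def ee (i : ℕ) : ℝ := (1 / 2) ^ i

theorem ee_pos (i : ℕ) : 0 < ee i := by unfold ee; positivity

theorem kb3 {φ : ℕ → ℂ → ℝ} {B : ℝ} (hB : 0 ≤ B) (hφ : ∀ i, Kr (φ i) (ee i) B) (i j : ℕ) :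
    ∫ t, |cv (φ i) (fun z => φ j (-z)) t| ≤
      4 * Real.pi ^ 2 * B ^ 2 * (1 / 2) ^ ((i - j) + (j - i)) := by
  rcases le_total i j with h | h
  · have h1 := kb2 (ee_pos i) (ee_pos j) (by
      unfold ee
      exact pow_le_pow_of_le_one (by norm_num) (by norm_num) h) hB (hφ i) (hφ j).neg
    have h2 : ee j / ee i = (1 / 2) ^ ((i - j) + (j - i)) := by
      rw [Nat.sub_eq_zero_of_le h, zero_add, div_eq_iff (ee_pos i).ne', ee, ee, ← pow_add,
        Nat.sub_add_cancel h]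
    rwa [h2] at h1
  · have h0 : ∫ t, |cv (φ i) (fun z => φ j (-z)) t| = ∫ t, |cv (fun z => φ j (-z)) (φ i) t| := by
      congr 1; funext t
      rw [cv_comm]
    have h1 := kb2 (ee_pos j) (ee_pos i) (by
      unfold ee
      exact pow_le_pow_of_le_one (by norm_num) (by norm_num) h) hB (hφ j).neg (hφ i)
    have h2 : ee i / ee j = (1 / 2) ^ ((i - j) + (j - i)) := by
      rw [Nat.sub_eq_zero_of_le h, add_zero, div_eq_iff (ee_pos j).ne', ee, ee, ← pow_add,
        Nat.sub_add_cancel h]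
    rw [h0]
    rwa [h2] at h1

theorem sum_dist (N i : ℕ) : ∑ j ∈ Finset.range N, (1 / 2 : ℝ) ^ ((i - j) + (j - i)) ≤ 4 := by
  have h1 : ∀ j ∈ Finset.range N, (1 / 2 : ℝ) ^ ((i - j) + (j - i)) ≤
      (if j < i + 1 then (1 / 2 : ℝ) ^ (i - j) else 0) + (if i ≤ j then (1 / 2) ^ (j - i) else 0) := by
    intro j _
    rcases le_total i j with h | h
    · have e : (i - j) + (j - i) = j - i := by omega
      rw [e, if_pos h]
      have : (0 : ℝ) ≤ if j < i + 1 then (1 / 2 : ℝ) ^ (i - j) else 0 := by positivity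
      linarith
    · have e : (i - j) + (j - i) = i - j := by omega
      rw [e, if_pos (by omega)]
      have : (0 : ℝ) ≤ if i ≤ j then (1 / 2 : ℝ) ^ (j - i) else 0 := by positivity
      linarith
  refine (Finset.sum_le_sum h1).trans ?_
  rw [Finset.sum_add_distrib, ← Finset.sum_filter, ← Finset.sum_filter]
  have hgeo : ∀ M : ℕ, ∑ k ∈ Finset.range M, (1 / 2 : ℝ) ^ k ≤ 2 := by
    intro M
    have := Summable.sum_le_tsum (f := fun k : ℕ => (1 / 2 : ℝ) ^ k) (Finset.range M)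
      (fun _ _ => by positivity) summable_geometric_two
    rwa [tsum_geometric_two] at this
  have a1 : ∑ j ∈ (Finset.range N).filter (fun j => j < i + 1), (1 / 2 : ℝ) ^ (i - j) ≤ 2 := by
    refine le_trans ?_ (hgeo (i + 1))
    rw [← Finset.sum_range_reflect]
    refine (Finset.sum_le_sum_of_subset_of_nonneg (t := Finset.range (i + 1)) ?_
      (fun _ _ _ => by positivity)).trans (le_of_eq ?_)
    · intro j hj
      rw [Finset.mem_filter] at hj
      exact Finset.mem_range.2 hj.2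
    · refine Finset.sum_congr rfl (fun j hj => ?_)
      rw [Nat.add_sub_cancel]
  have a2 : ∑ j ∈ (Finset.range N).filter (fun j => i ≤ j), (1 / 2 : ℝ) ^ (j - i) ≤ 2 := by
    refine le_trans ?_ (hgeo N)
    have : ∑ j ∈ (Finset.range N).filter (fun j => i ≤ j), (1 / 2 : ℝ) ^ (j - i) =
        ∑ k ∈ ((Finset.range N).filter (fun j => i ≤ j)).image (fun j => j - i), (1 / 2 : ℝ) ^ k := by
      rw [Finset.sum_image]
      intro a ha b hb hab
      simp only [Finset.coe_filter, Finset.mem_range, mem_setOf_eq] at ha hb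
      simp only at hab
      omega
    rw [this]
    refine Finset.sum_le_sum_of_subset_of_nonneg ?_ (fun _ _ _ => by positivity)
    intro k hk
    rw [Finset.mem_image] at hk
    obtain ⟨j, hj, rfl⟩ := hk
    rw [Finset.mem_filter, Finset.mem_range] at hj
    exact Finset.mem_range.2 (by omega)
  linarith

/-- The square function estimate for mean zero kernels at dyadic scales. -/
theorem square2 {φ : ℕ → ℂ → ℝ} {B : ℝ} (hB : 0 < B) (hφ : ∀ i, Kr (φ i) (ee i) B)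
    {g : ℂ → ℝ} (hg : BC g) (N : ℕ) :
    ∑ i ∈ Finset.range N, ∫ x, cv (φ i) g x ^ 2 ≤ 16 * Real.pi ^ 2 * B ^ 2 * ∫ x, g x ^ 2 := by
  refine square (fun i => (hφ i).bc (ee_pos i) hB.le) hg (by positivity) (kb3 hB.le hφ)
    (fun i j => by rw [add_comm (i - j)]) (fun i => ?_)
  rw [← Finset.mul_sum]
  have := mul_le_mul_of_nonneg_left (sum_dist N i)
    (by positivity : (0 : ℝ) ≤ 4 * Real.pi ^ 2 * B ^ 2)
  linarith

theorem exists_lip : ∃ L : ℝ, 0 ≤ L ∧ ∀ ε, 0 < ε → ∀ z z' h : ℂ,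
    |fderiv ℝ (et ε) z h - fderiv ℝ (et ε) z' h| ≤ L / ε ^ 4 * ‖z - z'‖ * ‖h‖ := by
  have hc : ContDiff ℝ 1 (fderiv ℝ (et 1)) :=
    (et_contDiff 1).fderiv_right (m := 1) (by norm_cast)
  have hs : HasCompactSupport (fderiv ℝ (et 1)) := (et_compact one_pos).fderiv ℝ
  obtain ⟨L, hL⟩ := hc.lipschitzWith_of_hasCompactSupport hs (by norm_num)
  refine ⟨L, L.2, fun ε hε z z' h => ?_⟩
  rw [fderiv_et_scale hε, fderiv_et_scale hε, ← mul_sub, abs_mul,
    abs_of_pos (by positivity : (0 : ℝ) < (ε ^ 3)⁻¹)]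
  have h1 : |fderiv ℝ (et 1) ((ε⁻¹ : ℝ) • z) h - fderiv ℝ (et 1) ((ε⁻¹ : ℝ) • z') h| ≤
      L * (ε⁻¹ * ‖z - z'‖) * ‖h‖ := by
    rw [← ContinuousLinearMap.sub_apply, ← Real.norm_eq_abs]
    refine (ContinuousLinearMap.le_opNorm _ _).trans ?_
    refine mul_le_mul_of_nonneg_right ?_ (norm_nonneg _)
    have h2 := hL.dist_le_mul ((ε⁻¹ : ℝ) • z) ((ε⁻¹ : ℝ) • z')
    rw [dist_eq_norm, dist_eq_norm, ← smul_sub, norm_smul, Real.norm_eq_abs,
      abs_of_pos (inv_pos.2 hε)] at h2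
    exact h2
  calc (ε ^ 3)⁻¹ * |fderiv ℝ (et 1) ((ε⁻¹ : ℝ) • z) h - fderiv ℝ (et 1) ((ε⁻¹ : ℝ) • z') h| ≤
      (ε ^ 3)⁻¹ * (L * (ε⁻¹ * ‖z - z'‖) * ‖h‖) := mul_le_mul_of_nonneg_left h1 (by positivity)
    _ = _ := by field_simp

theorem kr_et : ∃ B : ℝ, 0 < B ∧ ∀ h : ℂ, ‖h‖ = 1 → ∀ ε, 0 < ε →
    Kr (fun z => ε * fderiv ℝ (et ε) z h) ε B := by
  obtain ⟨B, hB0, hB⟩ := exists_fderiv_et_bound
  obtain ⟨L, hL0, hL⟩ := exists_lip
  refine ⟨B + L, by positivity, fun h hh ε hε => ⟨?_, fun z hz => ?_, fun z => ?_, ?_,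
    fun z z' => ?_⟩⟩
  · exact continuous_const.mul (Mass12.fderiv_et_cont ε h)
  · by_contra hc
    push Not at hc
    apply hz
    show ε * fderiv ℝ (et ε) z h = 0
    rw [Mass12.fderiv_et_zero' hε hc]
    simp
  · have h1 := hB ε hε z h
    rw [hh, mul_one] at h1
    rw [abs_mul, abs_of_pos hε]
    calc ε * |fderiv ℝ (et ε) z h| ≤ ε * (B / ε ^ 3) := mul_le_mul_of_nonneg_left h1 hε.le
      _ = B / ε ^ 2 := by field_simp
      _ ≤ (B + L) / ε ^ 2 := div_le_div_of_nonneg_right (by linarith) (by positivity)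
  · rw [integral_const_mul, Mass12.int_fderiv_et, mul_zero]
  · have h1 := hL ε hε z z' h
    rw [hh, mul_one] at h1
    rw [← mul_sub, abs_mul, abs_of_pos hε]
    calc ε * |fderiv ℝ (et ε) z h - fderiv ℝ (et ε) z' h| ≤ ε * (L / ε ^ 4 * ‖z - z'‖) :=
          mul_le_mul_of_nonneg_left h1 hε.le
      _ = L / ε ^ 3 * ‖z - z'‖ := by field_simp
      _ ≤ (B + L) / ε ^ 3 * ‖z - z'‖ := by
          apply mul_le_mul_of_nonneg_right _ (norm_nonneg _)
          exact div_le_div_of_nonneg_right (by linarith) (by positivity)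

variable {n : ℕ} {v : Fin n → ℂ} {F : ℂ → ℝ → ℝ}

theorem bc_gx (hF : LFS v F) {M : ℝ} (hM0 : 0 < M)
    (hM : ∀ F : ℂ → ℝ → ℝ, ∀ x w : ℂ, gx v F x w ≠ 0 → ‖x‖ ≤ M) (w : ℂ) :
    BC (fun y => gx v F y w) :=
  ⟨gx_meas_x hF.lf w, ⟨(n : ℝ) ^ 2 + 1, by positivity, fun z => by
    rw [abs_of_nonneg (gx_nonneg hF _ _)]; exact gx_le hF _ _⟩, M, hM0.le, fun z hz => hM F z w hz⟩

theorem gx_sq_int (hF : LFS v F) {M : ℝ} (hM0 : 0 < M)
    (hM : ∀ F : ℂ → ℝ → ℝ, ∀ x w : ℂ, gx v F x w ≠ 0 → ‖x‖ ≤ M) (w : ℂ) :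
    ∫ y, gx v F y w ^ 2 ≤ ((n : ℝ) ^ 2 + 1) ^ 2 * (Real.pi * M ^ 2) := by
  have h := (bc_gx hF hM0 hM w).sq
  have h1 : ∫ y, gx v F y w ^ 2 = ∫ y, |gx v F y w ^ 2| := by
    congr 1; funext y
    rw [abs_of_nonneg (sq_nonneg _)]
  rw [h1]
  refine int_abs_le h hM0.le (fun t => ?_) (fun t ht => ?_)
  · rw [abs_of_nonneg (sq_nonneg _)]
    exact pow_le_pow_left₀ (gx_nonneg hF _ _) (gx_le hF _ _) 2
  · exact hM F t w (fun h0 => ht (by simp [h0]))

/-- Row statement (MASSP). -/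
def StMassP : Prop := ∀ (n : ℕ) (v : Fin n → ℂ) (C e0 : ℝ), Geo v C e0 → ∀ F, LFS v F →
  ∃ B : ℝ, 0 < B ∧ ∀ N : ℕ, ∑ i ∈ Finset.range N, ee i ^ 2 * Me v F (ee i) ≤ B

/-- (MASSP) -/
theorem massP : StMassP := by
  intro n v C e0 hG F hF
  obtain ⟨M, hM0, hM⟩ := exists_bound (v := v) hG.edn
  obtain ⟨B, hB, hkr⟩ := kr_et
  obtain ⟨B2, hB2, hHB⟩ := HB85.row n v C e0 hG
  set G : ℝ := 16 * Real.pi ^ 2 * B ^ 2 * (((n : ℝ) ^ 2 + 1) ^ 2 * (Real.pi * M ^ 2)) with hGd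
  have hG0 : 0 < G := by positivity
  set V : ℝ := (volume : Measure ℂ).real (Metric.ball (0 : ℂ) 1) with hV
  have hV0 : 0 ≤ V := measureReal_nonneg
  refine ⟨V * (2 * G) + 1, by positivity, fun N => ?_⟩
  have hcv : ∀ (i : ℕ) (x w h : ℂ), ee i * gd v F (ee i) x w h =
      cv (fun z => ee i * fderiv ℝ (et (ee i)) z h) (fun y => gx v F y w) x := by
    intro i x w h
    unfold gd cv
    rw [← integral_const_mul]
    congr 1; funext y; ring
  have hbc : ∀ (i : ℕ) (w h : ℂ), ‖h‖ = 1 →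
      BC (cv (fun z => ee i * fderiv ℝ (et (ee i)) z h) (fun y => gx v F y w)) := fun i w h hh =>
    ((hkr h hh (ee i) (ee_pos i)).bc (ee_pos i) hB.le).cv (bc_gx hF hM0 hM w)
  have hhh : ∀ (i : ℕ) (x w : ℂ), ee i ^ 2 * hh v F (ee i) (x, w) =
      cv (fun z => ee i * fderiv ℝ (et (ee i)) z 1) (fun y => gx v F y w) x ^ 2 +
      cv (fun z => ee i * fderiv ℝ (et (ee i)) z I) (fun y => gx v F y w) x ^ 2 := by
    intro i x w
    rw [← hcv, ← hcv]
    unfold hh
    ring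
  -- for each direction
  have hw : ∀ w : ℂ, ∑ i ∈ Finset.range N, ∫ x in PP v, ee i ^ 2 * hh v F (ee i) (x, w) ≤
      2 * G := by
    intro w
    have h1 : ∀ i ∈ Finset.range N, ∫ x in PP v, ee i ^ 2 * hh v F (ee i) (x, w) ≤
        (∫ x, cv (fun z => ee i * fderiv ℝ (et (ee i)) z 1) (fun y => gx v F y w) x ^ 2) +
        ∫ x, cv (fun z => ee i * fderiv ℝ (et (ee i)) z I) (fun y => gx v F y w) x ^ 2 := by
      intro i _
      simp_rw [hhh]
      have i1 := (hbc i w 1 norm_one).sq.integrable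
      have i2 := (hbc i w I Complex.norm_I).sq.integrable
      rw [← integral_add i1 i2]
      exact setIntegral_le_integral (i1.add i2) (Eventually.of_forall (fun x => by
        show 0 ≤ _ ^ 2 + _ ^ 2
        positivity))
    refine (Finset.sum_le_sum h1).trans ?_
    rw [Finset.sum_add_distrib]
    have s1 := square2 hB (φ := fun i z => ee i * fderiv ℝ (et (ee i)) z 1)
      (fun i => hkr 1 norm_one (ee i) (ee_pos i)) (bc_gx hF hM0 hM w) N
    have s2 := square2 hB (φ := fun i z => ee i * fderiv ℝ (et (ee i)) z I)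
      (fun i => hkr I Complex.norm_I (ee i) (ee_pos i)) (bc_gx hF hM0 hM w) N
    have s3 := mul_le_mul_of_nonneg_left (gx_sq_int hF hM0 hM w)
      (by positivity : (0 : ℝ) ≤ 16 * Real.pi ^ 2 * B ^ 2)
    linarith
  -- Fubini
  have hMe : ∀ i, ee i ^ 2 * Me v F (ee i) =
      ∫ w in Metric.ball (0 : ℂ) 1, ∫ x in PP v, ee i ^ 2 * hh v F (ee i) (x, w) := by
    intro i
    obtain ⟨hm, hb, -, -⟩ := hHB F hF (ee i) (ee_pos i)
    have hint : IntegrableOn (fun p => ee i ^ 2 * hh v F (ee i) p) (DD v)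
        (volume : Measure (ℂ × ℂ)) := by
      have : IntegrableOn (fun _ : ℂ × ℂ => ee i ^ 2 * (B2 / ee i ^ 2)) (DD v) :=
        integrableOn_const volume_DD_lt_top.ne
      refine this.mono' (hm.const_mul _).aestronglyMeasurable (Eventually.of_forall (fun p => ?_))
      rw [Real.norm_eq_abs, abs_mul, abs_of_nonneg (hb p).1, abs_of_nonneg (sq_nonneg _)]
      exact mul_le_mul_of_nonneg_left (hb p).2 (sq_nonneg _)
    unfold Me
    rw [← integral_const_mul]
    have hprod : (volume : Measure (ℂ × ℂ)).restrict (DD v) =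
        (volume.restrict (PP v)).prod (volume.restrict (Metric.ball (0 : ℂ) 1)) := by
      rw [Measure.prod_restrict]
      rfl
    rw [hprod]
    rw [IntegrableOn, hprod] at hint
    exact integral_prod_symm _ hint
  have hintw : ∀ i, IntegrableOn (fun w => ∫ x in PP v, ee i ^ 2 * hh v F (ee i) (x, w))
      (Metric.ball (0 : ℂ) 1) := by
    intro i
    obtain ⟨hm, hb, -, -⟩ := hHB F hF (ee i) (ee_pos i)
    have hint : IntegrableOn (fun p => ee i ^ 2 * hh v F (ee i) p) (DD v)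
        (volume : Measure (ℂ × ℂ)) := by
      have : IntegrableOn (fun _ : ℂ × ℂ => ee i ^ 2 * (B2 / ee i ^ 2)) (DD v) :=
        integrableOn_const volume_DD_lt_top.ne
      refine this.mono' (hm.const_mul _).aestronglyMeasurable (Eventually.of_forall (fun p => ?_))
      rw [Real.norm_eq_abs, abs_mul, abs_of_nonneg (hb p).1, abs_of_nonneg (sq_nonneg _)]
      exact mul_le_mul_of_nonneg_left (hb p).2 (sq_nonneg _)
    have hprod : (volume : Measure (ℂ × ℂ)).restrict (DD v) =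
        (volume.restrict (PP v)).prod (volume.restrict (Metric.ball (0 : ℂ) 1)) := by
      rw [Measure.prod_restrict]
      rfl
    rw [IntegrableOn, hprod] at hint
    exact hint.integral_prod_right
  simp_rw [hMe]
  rw [← integral_finsetSum _ (fun i _ => hintw i)]
  have hfin : ∫ w in Metric.ball (0 : ℂ) 1, ∑ i ∈ Finset.range N,
      ∫ x in PP v, ee i ^ 2 * hh v F (ee i) (x, w) ≤
      ∫ w in Metric.ball (0 : ℂ) 1, (2 * G) := by
    refine integral_mono (integrable_finsetSum _ (fun i _ => hintw i)) ?_ hw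
    exact integrableOn_const measure_ball_lt_top.ne
  rw [setIntegral_const, smul_eq_mul] at hfin
  linarith

end Pool.Agent.Lib.BilE.Sq42
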