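import Pool.Agent.Lib.MP_7bc51d_an_erg.CutDefs5
import Pool.Agent.Lib.MP_7bc51d_an_top.All
import Pool.Agent.Lib.MP_7bc51d_an_dense.Refl5

/-!
# Crossing times of codes
-/

set_option autoImplicit false

namespace Pool.Agent.Lib.BilE.Tau5

open Complex MeasureTheory Set Filter Topology
open scoped ComplexConjugate ENNReal
open Pool.Agent.Lib.Bil Pool.Agent.Lib.BilD Pool.Agent.Lib.BilE

variable {n : ℕ} {v : Fin n → ℂ}

/-! ### crossing times -/

/-- Point of the last crossing. -/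
noncomputable def Bp (v : Fin n → ℂ) (x w : ℂ) (g : List (Fin n × Fin n)) : ℂ :=
  Fo v g (x + (tau v x w g : ℂ) * w)

theorem out_neg {s : Fin n × Fin n} {u : ℂ} {Q : ℝ} (h1 : cr u (v s.1) < Q)
    (h2 : Q < cr u (v s.2)) : cr (v s.2 - v s.1) u < 0 := by
  rw [cr_swap, cr_sub_right]; linarith

theorem tau_zero {s : Fin n × Fin n} {g : List (Fin n × Fin n)} {x w : ℂ}
    (h : cr (v s.2 - v s.1) (Lo v g w) ≠ 0) :
    cr (v s.2 - v s.1) (Fo v g (x + (tau v x w (s :: g) : ℂ) * w) - v s.1) = 0 := by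
  have h1 := Fo_line (v := v) g x w 0 (tau v x w (s :: g))
  rw [ofReal_zero, zero_mul, add_zero, zero_add] at h1
  have ht : tau v x w (s :: g) = - (cr (v s.2 - v s.1) (Fo v g x) -
      cr (v s.2 - v s.1) (v s.1)) / cr (v s.2 - v s.1) (Lo v g w) := by
    change -cr (v s.2 - v s.1) (Fo v g x - v s.1) / _ = _
    rw [cr_sub_right]
  rw [← h1, cr_sub_right, cr_add_right, cr_smul_right, ht]
  field_simp
  ring

theorem cross (hv : ConvexIndependent ℝ v) {s : Fin n × Fin n} {g : List (Fin n × Fin n)}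
    {x w : ℂ} (h : Rz v (s :: g) x w) :
    (∃ θ : ℝ, 0 < θ ∧ θ < 1 ∧ Fo v g (x + (tau v x w (s :: g) : ℂ) * w) =
      v s.1 + (θ : ℂ) * (v s.2 - v s.1)) ∧ cr (v s.2 - v s.1) (Lo v g w) < 0 := by
  obtain ⟨r1, r2, r3, r4⟩ := h
  have hne := v_sub_ne hv r2.1
  have hneg := out_neg (v := v) (s := s) r3 r4
  refine ⟨?_, hneg⟩
  have h0 := tau_zero (x := x) hneg.ne
  obtain ⟨θ, hθ⟩ := (cr_eq_zero_iff hne).1 h0
  have hpt : Fo v g (x + (tau v x w (s :: g) : ℂ) * w) = v s.1 + (θ : ℂ) * (v s.2 - v s.1) := by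
    rw [← hθ]; ring
  have hQ : cr (Lo v g w) (Fo v g (x + (tau v x w (s :: g) : ℂ) * w)) =
      cr (Lo v g w) (Fo v g x) := by
    have h1 := Fo_line (v := v) g x w 0 (tau v x w (s :: g))
    rw [ofReal_zero, zero_mul, add_zero, zero_add] at h1
    rw [← h1, cr_add_right, cr_smul_right, cr_self, mul_zero, add_zero]
  rw [hpt, cr_add_right, cr_smul_right, cr_sub_right] at hQ
  refine ⟨θ, ?_, ?_, hpt⟩
  · by_contra hc
    push Not at hc
    nlinarith
  · by_contra hc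
    push Not at hc
    nlinarith

theorem Bp_eq (hv : ConvexIndependent ℝ v) {s : Fin n × Fin n} {g : List (Fin n × Fin n)}
    {x w : ℂ} (h : Rz v (s :: g) x w) :
    Bp v x w (s :: g) = Fo v g (x + (tau v x w (s :: g) : ℂ) * w) := by
  obtain ⟨θ, -, -, h1⟩ := (cross hv h).1
  unfold Bp
  change RR v s.1 s.2 (Fo v g (x + (tau v x w (s :: g) : ℂ) * w)) = _
  rw [h1, RR_line (v_sub_ne hv h.2.1.1)]

theorem Bp_side (hv : ConvexIndependent ℝ v) {s : Fin n × Fin n} {g : List (Fin n × Fin n)}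
    {x w : ℂ} (h : Rz v (s :: g) x w) : ∃ θ : ℝ, 0 < θ ∧ θ < 1 ∧
      Bp v x w (s :: g) = v s.1 + (θ : ℂ) * (v s.2 - v s.1) := by
  rw [Bp_eq hv h]; exact (cross hv h).1

theorem Bp_KK (hv : ConvexIndependent ℝ v) {s : Fin n × Fin n} {g : List (Fin n × Fin n)}
    {x w : ℂ} (h : Rz v (s :: g) x w) : Bp v x w (s :: g) ∈ KK v := by
  obtain ⟨θ, h0, h1, h2⟩ := Bp_side hv h
  rw [h2]; exact side_point_mem_KK h0.le h1.le

theorem in_pos (hv : ConvexIndependent ℝ v) {s : Fin n × Fin n} {g : List (Fin n × Fin n)}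
    {x w : ℂ} (h : Rz v (s :: g) x w) : 0 < cr (v s.2 - v s.1) (Lo v (s :: g) w) := by
  have hne := v_sub_ne hv h.2.1.1
  have h1 := (cross hv h).2
  have h2 := cr_rl hne (v s.2 - v s.1) (Lo v g w)
  rw [rl_self hne] at h2
  change 0 < cr (v s.2 - v s.1) (rl (v s.2 - v s.1) (Lo v g w))
  rw [h2]; linarith

theorem step_diff (hv : ConvexIndependent ℝ v) {s s' : Fin n × Fin n}
    {g : List (Fin n × Fin n)} {x w : ℂ} (h : Rz v (s :: s' :: g) x w) :
    Bp v x w (s :: s' :: g) - Bp v x w (s' :: g) =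
      ((tau v x w (s :: s' :: g) - tau v x w (s' :: g) : ℝ) : ℂ) * Lo v (s' :: g) w := by
  rw [Bp_eq hv h]
  unfold Bp
  have h1 := Fo_line (v := v) (s' :: g) x w (tau v x w (s' :: g))
    (tau v x w (s :: s' :: g) - tau v x w (s' :: g))
  rw [show tau v x w (s' :: g) + (tau v x w (s :: s' :: g) - tau v x w (s' :: g)) =
    tau v x w (s :: s' :: g) by ring] at h1
  rw [← h1]
  ring

theorem tau_le (hv : ConvexIndependent ℝ v) {s s' : Fin n × Fin n}
    {g : List (Fin n × Fin n)} {x w : ℂ} (h : Rz v (s :: s' :: g) x w) :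
    tau v x w (s' :: g) ≤ tau v x w (s :: s' :: g) := by
  have h1 := step_diff hv h
  have h2 : 0 ≤ cr (v s'.2 - v s'.1) (Bp v x w (s :: s' :: g) - v s'.1) :=
    h.1.2.1.cr_nonneg (Bp_KK hv h)
  obtain ⟨θ, -, -, h3⟩ := Bp_side hv h.1
  have h4 : cr (v s'.2 - v s'.1) (Bp v x w (s' :: g) - v s'.1) = 0 := by
    rw [h3, add_sub_cancel_left, cr_smul_right, cr_self, mul_zero]
  have h5 : Bp v x w (s :: s' :: g) - v s'.1 = (Bp v x w (s' :: g) - v s'.1) +
      ((tau v x w (s :: s' :: g) - tau v x w (s' :: g) : ℝ) : ℂ) * Lo v (s' :: g) w := by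
    rw [← h1]; ring
  rw [h5, cr_add_right, h4, zero_add, cr_smul_right] at h2
  have h6 := in_pos hv h.1
  by_contra hc
  push Not at hc
  have := mul_neg_of_neg_of_pos (sub_neg.2 hc) h6
  linarith

theorem step_norm (hv : ConvexIndependent ℝ v) {s s' : Fin n × Fin n}
    {g : List (Fin n × Fin n)} {x w : ℂ} (h : Rz v (s :: s' :: g) x w) :
    ‖Bp v x w (s :: s' :: g) - Bp v x w (s' :: g)‖ =
      (tau v x w (s :: s' :: g) - tau v x w (s' :: g)) * ‖w‖ := by
  rw [step_diff hv h, norm_mul, norm_real, Real.norm_eq_abs,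
    abs_of_nonneg (sub_nonneg.2 (tau_le hv h)), norm_Lo hv h.1.val]

theorem ne_of_cons (hv : ConvexIndependent ℝ v) {s s' : Fin n × Fin n}
    {g : List (Fin n × Fin n)} {x w : ℂ} (h : Rz v (s :: s' :: g) x w) : s ≠ s' := by
  rintro rfl
  have h1 := in_pos hv h.1
  have h2 := (cross hv h).2
  linarith

/-- Chain of crossings. -/
theorem chain (hv : ConvexIndependent ℝ v) {s0 : Fin n × Fin n} {g0 : List (Fin n × Fin n)}
    {x w : ℂ} (u : List (Fin n × Fin n)) : Rz v (u ++ s0 :: g0) x w →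
      tau v x w (s0 :: g0) ≤ tau v x w (u ++ s0 :: g0) ∧
      ‖Bp v x w (u ++ s0 :: g0) - Bp v x w (s0 :: g0)‖ ≤
        (tau v x w (u ++ s0 :: g0) - tau v x w (s0 :: g0)) * ‖w‖ := by
  induction u with
  | nil => intro _; simp
  | cons s u ih =>
    intro h
    cases u with
    | nil =>
      exact ⟨tau_le hv h, (step_norm hv h).le⟩
    | cons s' u =>
      have h' : Rz v (s :: s' :: (u ++ s0 :: g0)) x w := h
      obtain ⟨i1, i2⟩ := ih h'.1
      have a1 := tau_le hv h'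
      have a2 := step_norm hv h'
      refine ⟨i1.trans a1, ?_⟩
      calc ‖Bp v x w (s :: s' :: (u ++ s0 :: g0)) - Bp v x w (s0 :: g0)‖
          ≤ ‖Bp v x w (s :: s' :: (u ++ s0 :: g0)) - Bp v x w (s' :: (u ++ s0 :: g0))‖ +
            ‖Bp v x w (s' :: (u ++ s0 :: g0)) - Bp v x w (s0 :: g0)‖ := norm_sub_le_norm_sub_add_norm_sub _ _ _
        _ ≤ (tau v x w (s :: s' :: (u ++ s0 :: g0)) - tau v x w (s' :: (u ++ s0 :: g0))) * ‖w‖ +
            (tau v x w (s' :: (u ++ s0 :: g0)) - tau v x w (s0 :: g0)) * ‖w‖ := by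
            rw [a2]; gcongr; exact i2
        _ = _ := by
          change _ = (tau v x w (s :: s' :: (u ++ s0 :: g0)) - tau v x w (s0 :: g0)) * ‖w‖
          ring

theorem Rz_app (u t : List (Fin n × Fin n)) (x w : ℂ) : Rz v (u ++ t) x w →
    Rz v t x w ∧ Rz v u (Fo v t x) (Lo v t w) ∧ Fo v (u ++ t) x = Fo v u (Fo v t x) ∧
      Lo v (u ++ t) w = Lo v u (Lo v t w) := by
  induction u with
  | nil => intro h; exact ⟨h, trivial, rfl, rfl⟩
  | cons s u ih =>
    intro h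
    obtain ⟨r1, r2, r3, r4⟩ := h
    obtain ⟨a1, a2, a3, a4⟩ := ih r1
    refine ⟨a1, ⟨a2, r2, ?_, ?_⟩, ?_, ?_⟩
    · rw [← a3, ← a4]; exact r3
    · rw [← a3, ← a4]; exact r4
    · change RR v s.1 s.2 (Fo v (u ++ t) x) = RR v s.1 s.2 _
      rw [a3]
    · change rl _ (Lo v (u ++ t) w) = rl _ _
      rw [a4]

end Pool.Agent.Lib.BilE.Tau5
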