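import Mathlib

/-! Velocity averaging, abstract chain (98). -/

namespace Pool.Agent.Lib.BilE.Va98

open Finset

/-- Telescoping. -/
theorem tele {d g : ℕ → ℝ} (h : ∀ j, d j ≤ g j + d (j + 1)) (k : ℕ) :
    d 0 ≤ (∑ i ∈ range k, g i) + d k := by
  induction k with
  | zero => simp
  | succ k ih =>
    rw [sum_range_succ]
    linarith [h k]

/-- `d 0 ^ 2 ≤ 2 (N G + H / N)` where `G` and `H` bound the sums of squares. -/
theorem va {d g : ℕ → ℝ} {G H : ℝ} (hd : ∀ j, 0 ≤ d j)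
    (h : ∀ j, d j ≤ g j + d (j + 1)) (N : ℕ) (hN : 0 < N)
    (hG : ∑ i ∈ range N, g i ^ 2 ≤ G) (hH : ∑ i ∈ range N, d i ^ 2 ≤ H) :
    d 0 ^ 2 ≤ 2 * (N * G + H / N) := by
  have hN' : (0 : ℝ) < N := by exact_mod_cast hN
  -- the best index
  obtain ⟨k, hk, hmin⟩ : ∃ k ∈ range N, ∀ j ∈ range N, d k ^ 2 ≤ d j ^ 2 :=
    exists_min_image (range N) (fun j => d j ^ 2) ⟨0, by simpa using hN⟩
  have h1 : d k ^ 2 ≤ H / N := by
    rw [le_div_iff₀ hN']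
    calc d k ^ 2 * N = ∑ _j ∈ range N, d k ^ 2 := by simp [mul_comm]
      _ ≤ ∑ j ∈ range N, d j ^ 2 := sum_le_sum hmin
      _ ≤ H := hH
  have hkN : k ≤ N := (mem_range.1 hk).le
  have h2 : (∑ i ∈ range k, g i) ^ 2 ≤ N * G := by
    have h3 : (∑ i ∈ range k, g i) ^ 2 ≤ (range k).card * ∑ i ∈ range k, g i ^ 2 :=
      sq_sum_le_card_mul_sum_sq
    have h4 : ∑ i ∈ range k, g i ^ 2 ≤ ∑ i ∈ range N, g i ^ 2 :=
      sum_le_sum_of_subset_of_nonneg (range_mono hkN) (fun _ _ _ => sq_nonneg _)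
    have h5 : (0 : ℝ) ≤ ∑ i ∈ range k, g i ^ 2 := sum_nonneg fun _ _ => sq_nonneg _
    rw [card_range] at h3
    have h6 : (k : ℝ) ≤ N := by exact_mod_cast hkN
    calc (∑ i ∈ range k, g i) ^ 2 ≤ k * ∑ i ∈ range k, g i ^ 2 := h3
      _ ≤ N * G := mul_le_mul h6 (h4.trans hG) h5 hN'.le
  have ht := tele h k
  have h7 : d 0 ^ 2 ≤ ((∑ i ∈ range k, g i) + d k) ^ 2 := pow_le_pow_left₀ (hd 0) ht 2
  have h8 : ((∑ i ∈ range k, g i) + d k) ^ 2 ≤ 2 * ((∑ i ∈ range k, g i) ^ 2 + d k ^ 2) := by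
    nlinarith [sq_nonneg ((∑ i ∈ range k, g i) - d k)]
  linarith

/-- Optimised: `d 0 ^ 2 ≤ 6 a b` if the sums of squares are bounded by `a ^ 2 ≤ b ^ 2`. -/
theorem va_opt {d g : ℕ → ℝ} {a b : ℝ} (hd : ∀ j, 0 ≤ d j)
    (h : ∀ j, d j ≤ g j + d (j + 1)) (ha : 0 < a) (hab : a ≤ b)
    (hG : ∀ N, ∑ i ∈ range N, g i ^ 2 ≤ a ^ 2) (hH : ∀ N, ∑ i ∈ range N, d i ^ 2 ≤ b ^ 2) :
    d 0 ^ 2 ≤ 6 * (a * b) := by
  obtain ⟨N, hN1, hN2⟩ : ∃ N : ℕ, b / a ≤ N ∧ (N : ℝ) ≤ 2 * (b / a) := by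
    refine ⟨⌈b / a⌉₊, Nat.le_ceil _, ?_⟩
    have h1 : 1 ≤ b / a := (one_le_div ha).2 hab
    have := Nat.ceil_lt_add_one (zero_le_one.trans h1)
    linarith
  have hb : 0 < b := ha.trans_le hab
  have hNpos : (0 : ℝ) < N := (div_pos hb ha).trans_le hN1
  have hN0 : 0 < N := by exact_mod_cast hNpos
  have h1 := va hd h N hN0 (hG N) (hH N)
  have h2 : (N : ℝ) * a ^ 2 ≤ 2 * (a * b) := by
    calc (N : ℝ) * a ^ 2 ≤ 2 * (b / a) * a ^ 2 := by gcongr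
      _ = 2 * (a * b) := by field_simp
  have h3 : b ^ 2 / N ≤ a * b := by
    rw [div_le_iff₀ hNpos]
    have h4 : b ≤ N * a := (div_le_iff₀ ha).1 hN1
    calc b ^ 2 = b * b := by ring
      _ ≤ (N * a) * b := by gcongr
      _ = a * b * N := by ring
  linarith

end Pool.Agent.Lib.BilE.Va98
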